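import Pool.Agent.Helper3_DA.FLemma
import Pool.Agent.Helper95_CLB.StatQ

/-!
Number of labels of one port of a caterpillar for which the labels can be tight, when the ports outside
a set `J` are fixed (and tight before).
-/

set_option autoImplicit false
set_option linter.unusedSectionVars false

namespace CLB.H3

open Finset
open H3DA (Q neg nr)
open CLB.H95

/-- At most `b` labels of the port `g` are possible in a tight labelling which agrees with `s₀` outside
`J`. -/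
def TB (m : ℕ) (J : ℕ → Prop) (s₀ : ℕ → Q) (g b : ℕ) : Prop :=
  ∃ B : Finset Q, B.card ≤ b ∧ ∀ s : ℕ → Q, (∀ j ≤ m + 1, ¬ J j → s j = s₀ j) →
    ∀ D, Tight D s m → s g ∈ B

/-- The use of `TB`. -/
theorem TB.cext {m : ℕ} {J : ℕ → Prop} {s₀ : ℕ → Q} {g b : ℕ} (hm : 1 ≤ m) (h : TB m J s₀ g b) :
    ∃ B : Finset Q, B.card ≤ b ∧ ∀ s : ℕ → Q, (∀ j ≤ m + 1, ¬ J j → s j = s₀ j) →
      s 0 ≠ neg (s 1) → s m ≠ neg (s (m + 1)) → s g ∉ B → CExt m s := by
  obtain ⟨B, hB, h1⟩ := h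
  refine ⟨B, hB, fun s hs h2 h3 h4 => ?_⟩
  rw [cext_iff hm]
  exact ⟨h2, h3, fun D hD => h4 (h1 s hs D hD)⟩

lemma TB.mono {m : ℕ} {J : ℕ → Prop} {s₀ : ℕ → Q} {g b b' : ℕ} (h : TB m J s₀ g b) (hb : b ≤ b') :
    TB m J s₀ g b' := by
  obtain ⟨B, hB, h1⟩ := h
  exact ⟨B, hB.trans hb, h1⟩

/-- Fewer ports in the window. -/
lemma TB.anti {m : ℕ} {J J' : ℕ → Prop} {s₀ : ℕ → Q} {g b : ℕ} (h : TB m J s₀ g b)
    (hJ : ∀ j ≤ m + 1, J' j → J j) : TB m J' s₀ g b := by
  obtain ⟨B, hB, h1⟩ := h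
  exact ⟨B, hB, fun s hs => h1 s (fun j hj hn => hs j hj (fun h => hn (hJ j hj h)))⟩

/-! ### Symmetries -/

lemma frk_stp : ∀ (D : Ty) (x y z : Q), frk D x y = true → stp D (neg y) z = true →
    stp D (neg x) z = true := by decide +kernel

lemma tight_swL {D : Ty} {s : ℕ → Q} {m : ℕ} (hm : 2 ≤ m) (h : Tight D s m) :
    Tight D (fun j => s (swL j)) m := by
  refine ⟨?_, fun i h1 h2 => ?_, ?_⟩
  · show frk D (s 1) (s 0) = true
    rw [frk_symm]; exact h.1
  · by_cases hi : i = 1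
    · subst hi
      have := h.2.1 1 le_rfl (by omega)
      rw [altT_one] at this ⊢
      exact frk_stp D _ _ _ h.1 this
    · show stp (altT D i) (neg (s (swL i))) (s (swL (i + 1))) = true
      rw [swL_of (by omega), swL_of (by omega)]
      exact h.2.1 i h1 h2
  · show frk (altT D (m + 1)) (s (swL m)) (s (swL (m + 1))) = true
    rw [swL_of (by omega), swL_of (by omega)]
    exact h.2.2

lemma stp_frk : ∀ (D : Ty) (x y z : Q), stp D (neg x) y = true → frk D y z = true →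
    stp D (neg x) z = true := by decide +kernel

lemma swR_mid (m : ℕ) : swR m m = m + 1 := by unfold swR; rw [if_pos rfl]

lemma swR_last (m : ℕ) : swR m (m + 1) = m := by unfold swR; rw [if_neg (by omega), if_pos rfl]

lemma tight_swR {D : Ty} {s : ℕ → Q} {m : ℕ} (hm : 2 ≤ m) (h : Tight D s m) :
    Tight D (fun j => s (swR m j)) m := by
  refine ⟨?_, fun i h1 h2 => ?_, ?_⟩
  · show frk D (s (swR m 0)) (s (swR m 1)) = true
    rw [swR_of (by omega), swR_of (by omega)]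
    exact h.1
  · by_cases hi : i + 1 = m
    · have h3 := h.2.1 i h1 h2
      have h4 := h.2.2
      rw [← altT_parity D (show i % 2 = (m + 1) % 2 by omega), ← hi] at h4
      show stp (altT D i) (neg (s (swR m i))) (s (swR m (i + 1))) = true
      rw [swR_of (by omega), hi, swR_mid, ← hi]
      exact stp_frk _ _ _ _ h3 h4
    · show stp (altT D i) (neg (s (swR m i))) (s (swR m (i + 1))) = true
      rw [swR_of (by omega), swR_of (by omega)]
      exact h.2.1 i h1 h2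
  · show frk (altT D (m + 1)) (s (swR m m)) (s (swR m (m + 1))) = true
    rw [swR_mid, swR_last, frk_symm]; exact h.2.2

lemma swL_le {m j : ℕ} (hm : 1 ≤ m) (hj : j ≤ m + 1) : swL j ≤ m + 1 := by
  unfold swL; split_ifs <;> omega

lemma swR_le {m j : ℕ} (hj : j ≤ m + 1) : swR m j ≤ m + 1 := by
  unfold swR; split_ifs <;> omega

/-- Exchange of the two ports of the left fork. -/
lemma TB.swL {m : ℕ} {J : ℕ → Prop} {s₀ : ℕ → Q} {g b : ℕ} (hm : 2 ≤ m)
    (h : TB m (fun j => J (swL j)) (fun j => s₀ (swL j)) (swL g) b) : TB m J s₀ g b := by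
  obtain ⟨B, hB, h1⟩ := h
  refine ⟨B, hB, fun s hs D hD => ?_⟩
  have := h1 (fun j => s (CLB.H95.swL j)) (fun j hj hn => hs _ (swL_le (by omega) hj) hn) D (tight_swL hm hD)
  rwa [swL_swL] at this

/-- Exchange of the two ports of the right fork. -/
lemma TB.swR {m : ℕ} {J : ℕ → Prop} {s₀ : ℕ → Q} {g b : ℕ} (hm : 2 ≤ m)
    (h : TB m (fun j => J (swR m j)) (fun j => s₀ (swR m j)) (swR m g) b) : TB m J s₀ g b := by
  obtain ⟨B, hB, h1⟩ := h
  refine ⟨B, hB, fun s hs D hD => ?_⟩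
  have := h1 (fun j => s (CLB.H95.swR m j)) (fun j hj hn => hs _ (swR_le hj) hn) D (tight_swR hm hD)
  rwa [swR_swR] at this

/-- Reversal. -/
lemma TB.rev {m : ℕ} {J : ℕ → Prop} {s₀ : ℕ → Q} {g b : ℕ} (hg : g ≤ m + 1)
    (h : TB m (fun j => J (m + 1 - j)) (fun j => s₀ (m + 1 - j)) (m + 1 - g) b) : TB m J s₀ g b := by
  obtain ⟨B, hB, h1⟩ := h
  refine ⟨B, hB, fun s hs D hD => ?_⟩
  have := h1 (fun j => s (m + 1 - j)) (fun j hj hn => hs _ (by omega) hn) _ hD.rev
  rwa [show m + 1 - (m + 1 - g) = g by omega] at this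

/-! ### The type -/

/-- The type is determined by the right fork. -/
lemma type_right {m : ℕ} {s s₀ : ℕ → Q} {D D₀ : Ty} (h₀ : Tight D₀ s₀ m) (h : Tight D s m)
    (e1 : s m = s₀ m) (e2 : s (m + 1) = s₀ (m + 1)) : D = D₀ := by
  have h1 := h.2.2
  have h2 := h₀.2.2
  rw [e1, e2] at h1
  exact altT_inj (frk_unique _ _ _ _ h1 h2)

lemma type_left {m : ℕ} {s s₀ : ℕ → Q} {D D₀ : Ty} (h₀ : Tight D₀ s₀ m) (h : Tight D s m)
    (e1 : s 0 = s₀ 0) (e2 : s 1 = s₀ 1) : D = D₀ := by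
  have h1 := h.1
  have h2 := h₀.1
  rw [e1, e2] at h1
  exact frk_unique _ _ _ _ h1 h2

section leaf

variable {m : ℕ} {J : ℕ → Prop} {s₀ : ℕ → Q} {D₀ : Ty}

/-- Leaf, mate outside, other fork untouched: one label. -/
lemma tb_leaf1 (h₀ : Tight D₀ s₀ m) (hm : 1 ≤ m) (h1 : ¬ J 1) (h2 : ¬ J m) (h3 : ¬ J (m + 1)) :
    TB m J s₀ 0 1 := by
  refine ⟨{s₀ 0}, by simp, fun s hs D hD => ?_⟩
  have hDD := type_right h₀ hD (hs m (by omega) h2) (hs (m + 1) le_rfl h3)
  subst hDD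
  have h4 := frk_iff'.1 hD.1
  have h5 := frk_iff'.1 h₀.1
  rw [hs 1 (by omega) h1, ← h5] at h4
  rw [h4]; simp

/-- Leaf, mate and two inner ports outside: two labels. -/
lemma tb_leaf2 (hm : 3 ≤ m) (h1 : ¬ J 1) (h2 : ¬ J 2) (h3 : ¬ J 3) : TB m J s₀ 0 2 := by
  obtain ⟨D1, D2, hD12⟩ := two_steps (neg (s₀ 1)) (s₀ 2) (neg (s₀ 3))
  refine ⟨{leafL D1 (s₀ 1), leafL D2 (s₀ 1)}, card_le_two, fun s hs D hD => ?_⟩
  have e1 := hs 1 (by omega) h1
  have e2 := hs 2 (by omega) h2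
  have e3 := hs 3 (by omega) h3
  have a1 := hD.2.1 1 le_rfl (by omega)
  have a2 := hD.2.1 2 (by omega) (by omega)
  rw [altT_one, show 1 + 1 = 2 by rfl, e1, e2] at a1
  rw [show altT D 2 = co D by rw [show (2 : ℕ) = 1 + 1 by rfl, altT_succ, altT_one],
    show 2 + 1 = 3 by rfl, e2, e3, stp_neg1] at a2
  have h4 := frk_iff'.1 hD.1
  rw [e1] at h4
  by_cases hD1 : D = D1
  · rw [h4, hD1]; simp
  · by_cases hD2 : D = D2
    · rw [h4, hD2]; simp
    · exact absurd ⟨a1, a2⟩ (hD12 D hD1 hD2)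

lemma leaf3_key : ∀ x y : Q,
    (univ.filter (fun u => ∃ D : Ty, stp D (neg x) y = true ∧ frk D u x = true)).card ≤ 3 := by
  decide +kernel

/-- Leaf, mate and one inner port outside: three labels. -/
lemma tb_leaf3 (hm : 2 ≤ m) (h1 : ¬ J 1) (h2 : ¬ J 2) : TB m J s₀ 0 3 := by
  refine ⟨univ.filter (fun u => ∃ D : Ty, stp D (neg (s₀ 1)) (s₀ 2) = true ∧ frk D u (s₀ 1) = true),
    leaf3_key _ _, fun s hs D hD => ?_⟩
  have e1 := hs 1 (by omega) h1
  have e2 := hs 2 (by omega) h2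
  have a1 := hD.2.1 1 le_rfl (by omega)
  rw [altT_one, show 1 + 1 = 2 by rfl, e1, e2] at a1
  have a0 := hD.1
  rw [e1] at a0
  simp only [mem_filter, mem_univ, true_and]
  exact ⟨D, a1, a0⟩

lemma leaf2_key : ∀ (D : Ty) (y : Q),
    (univ.filter (fun u => stp D (neg u) y = true)).card ≤ 2 := by
  decide +kernel

/-- Leaf, the next port outside, other fork untouched: two labels. -/
lemma tb_leaf2' (h₀ : Tight D₀ s₀ m) (hm : 2 ≤ m) (h2 : ¬ J 2) (h3 : ¬ J m) (h4 : ¬ J (m + 1)) :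
    TB m J s₀ 0 2 := by
  refine ⟨univ.filter (fun u => stp D₀ (neg u) (s₀ 2) = true), leaf2_key _ _, fun s hs D hD => ?_⟩
  have hDD := type_right h₀ hD (hs m (by omega) h3) (hs (m + 1) le_rfl h4)
  subst hDD
  have e2 := hs 2 (by omega) h2
  have a1 := hD.2.1 1 le_rfl (by omega)
  rw [altT_one, show 1 + 1 = 2 by rfl, e2] at a1
  simp only [mem_filter, mem_univ, true_and]
  exact frk_stp _ _ _ _ hD.1 a1

lemma leaf3'_key : ∀ y z : Q,
    (univ.filter (fun u => ∃ D : Ty, stp D (neg u) y = true ∧ stp (co D) (neg y) z = true)).card ≤ 3 := by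
  decide +kernel

/-- Leaf, the next two ports outside: three labels. -/
lemma tb_leaf3' (hm : 3 ≤ m) (h2 : ¬ J 2) (h3 : ¬ J 3) : TB m J s₀ 0 3 := by
  refine ⟨univ.filter (fun u => ∃ D : Ty, stp D (neg u) (s₀ 2) = true ∧
    stp (co D) (neg (s₀ 2)) (s₀ 3) = true), leaf3'_key _ _, fun s hs D hD => ?_⟩
  have e2 := hs 2 (by omega) h2
  have e3 := hs 3 (by omega) h3
  have a1 := hD.2.1 1 le_rfl (by omega)
  have a2 := hD.2.1 2 (by omega) (by omega)
  rw [altT_one, show 1 + 1 = 2 by rfl, e2] at a1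
  rw [show altT D 2 = co D by rw [show (2 : ℕ) = 1 + 1 by rfl, altT_succ, altT_one],
    show 2 + 1 = 3 by rfl, e2, e3] at a2
  simp only [mem_filter, mem_univ, true_and]
  exact ⟨D, frk_stp _ _ _ _ hD.1 a1, a2⟩

lemma leaf4_key : ∀ y : Q,
    (univ.filter (fun u => ∃ D : Ty, stp D (neg u) y = true)).card ≤ 4 := by
  decide +kernel

/-- Leaf, the next port outside: four labels. -/
lemma tb_leaf4 (hm : 2 ≤ m) (h2 : ¬ J 2) : TB m J s₀ 0 4 := by
  refine ⟨univ.filter (fun u => ∃ D : Ty, stp D (neg u) (s₀ 2) = true), leaf4_key _,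
    fun s hs D hD => ?_⟩
  have e2 := hs 2 (by omega) h2
  have a1 := hD.2.1 1 le_rfl (by omega)
  rw [altT_one, show 1 + 1 = 2 by rfl, e2] at a1
  simp only [mem_filter, mem_univ, true_and]
  exact ⟨D, frk_stp _ _ _ _ hD.1 a1⟩

end leaf

section inner

variable {m : ℕ} {J : ℕ → Prop} {s₀ : ℕ → Q} {D₀ : Ty} {g : ℕ}

lemma altT_prev {D : Ty} (hg : 2 ≤ g) : altT D g = co (altT D (g - 1)) := by
  have := altT_succ D (g - 1)
  rwa [show g - 1 + 1 = g by omega] at this

/-- The two steps at an inner port. -/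
lemma tight_around {D : Ty} {s : ℕ → Q} (h : Tight D s m) (hg : 2 ≤ g) (hgm : g + 1 ≤ m) :
    stp (altT D (g - 1)) (neg (s (g - 1))) (s g) = true ∧
      stp (co (altT D (g - 1))) (neg (s g)) (s (g + 1)) = true := by
  have a1 := h.2.1 (g - 1) (by omega) (by omega)
  have a2 := h.2.1 g (by omega) (by omega)
  rw [show g - 1 + 1 = g by omega] at a1
  rw [altT_prev hg] at a2
  exact ⟨a1, a2⟩

/-- Inner port, both neighbours outside, the type known: one label. -/
lemma tb_inner1 (h₀ : Tight D₀ s₀ m) (hg : 2 ≤ g) (hgm : g + 1 ≤ m) (h1 : ¬ J (g - 1))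
    (h2 : ¬ J (g + 1))
    (hD : ∀ s : ℕ → Q, (∀ j ≤ m + 1, ¬ J j → s j = s₀ j) → ∀ D, Tight D s m → D = D₀) :
    TB m J s₀ g 1 := by
  refine ⟨{s₀ g}, by simp, fun s hs D hT => ?_⟩
  have := hD s hs D hT
  subst this
  have a := tight_around hT hg hgm
  have b := tight_around h₀ hg hgm
  rw [hs (g - 1) (by omega) h1, hs (g + 1) (by omega) h2] at a
  rw [inner_unique _ _ _ _ _ a.1 a.2 b.1 b.2]
  simp

lemma inner2_key : ∀ x y : Q,
    (univ.filter (fun u => ∃ D : Ty, stp D (neg x) u = true ∧ stp (co D) (neg u) y = true)).card ≤ 2 := by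
  decide +kernel

/-- Inner port, both neighbours outside: two labels. -/
lemma tb_inner2 (hg : 2 ≤ g) (hgm : g + 1 ≤ m) (h1 : ¬ J (g - 1)) (h2 : ¬ J (g + 1)) :
    TB m J s₀ g 2 := by
  refine ⟨univ.filter (fun u => ∃ D : Ty, stp D (neg (s₀ (g - 1))) u = true ∧
    stp (co D) (neg u) (s₀ (g + 1)) = true), inner2_key _ _, fun s hs D hT => ?_⟩
  have a := tight_around hT hg hgm
  rw [hs (g - 1) (by omega) h1, hs (g + 1) (by omega) h2] at a
  simp only [mem_filter, mem_univ, true_and]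
  exact ⟨_, a⟩

lemma inner2l_key : ∀ (D : Ty) (x : Q),
    (univ.filter (fun u => stp D (neg x) u = true)).card ≤ 2 := by
  decide +kernel

/-- Inner port, the left neighbour outside, the type known: two labels. -/
lemma tb_inner2l (hg : 2 ≤ g) (hgm : g ≤ m) (h1 : ¬ J (g - 1))
    (hD : ∀ s : ℕ → Q, (∀ j ≤ m + 1, ¬ J j → s j = s₀ j) → ∀ D, Tight D s m → D = D₀) :
    TB m J s₀ g 2 := by
  refine ⟨univ.filter (fun u => stp (altT D₀ (g - 1)) (neg (s₀ (g - 1))) u = true), inner2l_key _ _,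
    fun s hs D hT => ?_⟩
  have := hD s hs D hT
  subst this
  have a1 := hT.2.1 (g - 1) (by omega) (by omega)
  rw [show g - 1 + 1 = g by omega, hs (g - 1) (by omega) h1] at a1
  simp only [mem_filter, mem_univ, true_and]
  exact a1

/-- Inner port, the right neighbour outside, the type known: two labels. -/
lemma tb_inner2r (hg : 1 ≤ g) (hgm : g + 1 ≤ m) (h1 : ¬ J (g + 1))
    (hD : ∀ s : ℕ → Q, (∀ j ≤ m + 1, ¬ J j → s j = s₀ j) → ∀ D, Tight D s m → D = D₀) :
    TB m J s₀ g 2 := by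
  refine ⟨univ.filter (fun u => stp (altT D₀ g) (neg u) (s₀ (g + 1)) = true), leaf2_key _ _,
    fun s hs D hT => ?_⟩
  have := hD s hs D hT
  subst this
  have a1 := hT.2.1 g hg (by omega)
  rw [hs (g + 1) (by omega) h1] at a1
  simp only [mem_filter, mem_univ, true_and]
  exact a1

lemma inner4l_key : ∀ x : Q,
    (univ.filter (fun u => ∃ D : Ty, stp D (neg x) u = true)).card ≤ 4 := by
  decide +kernel

/-- Inner port, the left neighbour outside: four labels. -/
lemma tb_inner4l (hg : 2 ≤ g) (hgm : g ≤ m) (h1 : ¬ J (g - 1)) : TB m J s₀ g 4 := by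
  refine ⟨univ.filter (fun u => ∃ D : Ty, stp D (neg (s₀ (g - 1))) u = true), inner4l_key _,
    fun s hs D hT => ?_⟩
  have a1 := hT.2.1 (g - 1) (by omega) (by omega)
  rw [show g - 1 + 1 = g by omega, hs (g - 1) (by omega) h1] at a1
  simp only [mem_filter, mem_univ, true_and]
  exact ⟨_, a1⟩

/-- Inner port, the right neighbour outside: four labels. -/
lemma tb_inner4r (hg : 1 ≤ g) (hgm : g + 1 ≤ m) (h1 : ¬ J (g + 1)) : TB m J s₀ g 4 := by
  refine ⟨univ.filter (fun u => ∃ D : Ty, stp D (neg u) (s₀ (g + 1)) = true), leaf4_key _,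
    fun s hs D hT => ?_⟩
  have a1 := hT.2.1 g hg (by omega)
  rw [hs (g + 1) (by omega) h1] at a1
  simp only [mem_filter, mem_univ, true_and]
  exact ⟨_, a1⟩

/-- The type is known: the left fork is untouched. -/
lemma known_left (hm : 1 ≤ m) (h₀ : Tight D₀ s₀ m) (h1 : ¬ J 0) (h2 : ¬ J 1) :
    ∀ s : ℕ → Q, (∀ j ≤ m + 1, ¬ J j → s j = s₀ j) → ∀ D, Tight D s m → D = D₀ :=
  fun _ hs _ hT => type_left h₀ hT (hs 0 (by omega) h1) (hs 1 (by omega) h2)

/-- The type is known: the right fork is untouched. -/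
lemma known_right (h₀ : Tight D₀ s₀ m) (h1 : ¬ J m) (h2 : ¬ J (m + 1)) :
    ∀ s : ℕ → Q, (∀ j ≤ m + 1, ¬ J j → s j = s₀ j) → ∀ D, Tight D s m → D = D₀ :=
  fun _ hs _ hT => type_right h₀ hT (hs m (by omega) h1) (hs (m + 1) le_rfl h2)

end inner

section ll5

lemma ll5_key1 : ∀ (D : Ty) (x y : Q), add y (add (uD (co D)) (vD (co D))) =
    neg (add x (add (uD D) (vD D))) → x = y := by decide +kernel

lemma ll5_key2 : ∀ (D : Ty) (x y z w : Q), (stp D (neg x) y && stp (co D) (neg y) z &&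
    stp D (neg z) w && stp (co D) (neg w) x) = true → x = add (add y z) w := by
  decide +kernel

/-- A full unit with leaves in both forks of a path of five vertices. -/
lemma ll5 {D : Ty} {s : ℕ → Q} (h : Tight D s 5) (h6 : s 6 = neg (s 0)) :
    s 1 = s 5 ∧ s 1 = add (add (s 2) (s 3)) (s 4) := by
  have e1 : altT D 1 = D := altT_one D
  have e2 : altT D 2 = co D := by rw [show (2 : ℕ) = 1 + 1 by rfl, altT_succ, e1]
  have e3 : altT D 3 = D := by rw [show (3 : ℕ) = 2 + 1 by rfl, altT_succ, e2, co_co]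
  have e4 : altT D 4 = co D := by rw [show (4 : ℕ) = 3 + 1 by rfl, altT_succ, e3]
  have e5 : altT D (5 + 1) = co D := by
    rw [altT_succ, show (5 : ℕ) = 4 + 1 by rfl, altT_succ, e4, co_co]
  have a0 := frk_iff'.1 h.1
  have a5 := h.2.2
  rw [e5] at a5
  have a5' := frk_iff.1 a5
  have a1 := h.2.1 1 le_rfl (by omega)
  have a2 := h.2.1 2 (by omega) (by omega)
  have a3 := h.2.1 3 (by omega) (by omega)
  have a4 := h.2.1 4 (by omega) (by omega)
  rw [e1] at a1
  rw [e2] at a2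
  rw [e3] at a3
  rw [e4] at a4
  norm_num at a1 a2 a3 a4 a5'
  rw [h6, a0] at a5'
  have b1 : s 1 = s 5 := ll5_key1 D _ _ a5'.symm
  refine ⟨b1, ?_⟩
  rw [← b1] at a4
  exact ll5_key2 D _ _ _ _ (by rw [a1, a2, a3, a4]; rfl)

lemma ll5' {D : Ty} {s : ℕ → Q} {e e' : ℕ} (he : e = 0 ∨ e = 1) (he' : e' = 5 ∨ e' = 6)
    (h : Tight D s 5) (h6 : s e' = neg (s e)) :
    s (1 - e) = s (11 - e') ∧ s (1 - e) = add (add (s 2) (s 3)) (s 4) := by
  have hL := tight_swL (by omega) h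
  have hR := tight_swR (by omega) h
  have hLR := tight_swR (by omega) hL
  rcases he with rfl | rfl <;> rcases he' with rfl | rfl
  · exact ll5 hR h6
  · exact ll5 h h6
  · exact ll5 hLR h6
  · exact ll5 hL h6

lemma add_cancel : ∀ (a b c c' : Q), add (add a b) c = add (add a b) c' → c = c' := by decide +kernel

lemma add_cancel2 : ∀ (a b b' c : Q), add (add a b) c = add (add a b') c → b = b' := by decide +kernel

lemma add_cancel1 : ∀ (a a' b c : Q), add (add a b) c = add (add a' b) c → a = a' := by decide +kernel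

/-- A path of five vertices, a full unit with leaves in both forks, one further port in the window. -/
lemma tb_ll5 {J : ℕ → Prop} {s₀ : ℕ → Q} {D₀ : Ty} {g e e' : ℕ} (he : e = 0 ∨ e = 1)
    (he' : e' = 5 ∨ e' = 6) (h₀ : Tight D₀ s₀ 5) (h6 : s₀ e' = neg (s₀ e))
    (hg : g ≤ 6) (hge : g ≠ e) (hge' : g ≠ e') (hJ : ∀ j ≤ 6, J j → j = g ∨ j = e ∨ j = e') :
    ∀ s : ℕ → Q, (∀ j ≤ 6, ¬ J j → s j = s₀ j) → s e' = neg (s e) → ∀ D, Tight D s 5 → s g = s₀ g := by
  intro s hs hse D hD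
  obtain ⟨a1, a2⟩ := ll5' he he' h₀ h6
  obtain ⟨b1, b2⟩ := ll5' he he' hD hse
  have hout : ∀ j ≤ 6, j ≠ g → j ≠ e → j ≠ e' → s j = s₀ j := fun j hj h1 h2 h3 =>
    hs j hj (fun h => by rcases hJ j hj h with h | h | h <;> omega)
  by_cases g1 : g = 1 - e
  · have h5 := hout (11 - e') (by omega) (by omega) (by omega) (by omega)
    rw [g1, b1, h5, a1]
  by_cases g2 : g = 11 - e'
  · have h5 := hout (1 - e) (by omega) (by omega) (by omega) (by omega)
    rw [g2, ← b1, h5, a1]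
  have hw := hout (1 - e) (by omega) (by omega) (by omega) (by omega)
  rw [hw, a2] at b2
  have g3 : g = 2 ∨ g = 3 ∨ g = 4 := by omega
  rcases g3 with rfl | rfl | rfl
  · rw [hout 3 (by omega) (by omega) (by omega) (by omega),
      hout 4 (by omega) (by omega) (by omega) (by omega)] at b2
    exact (add_cancel1 _ _ _ _ b2).symm
  · rw [hout 2 (by omega) (by omega) (by omega) (by omega),
      hout 4 (by omega) (by omega) (by omega) (by omega)] at b2
    exact (add_cancel2 _ _ _ _ b2).symm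
  · rw [hout 2 (by omega) (by omega) (by omega) (by omega),
      hout 3 (by omega) (by omega) (by omega) (by omega)] at b2
    exact (add_cancel _ _ _ _ b2).symm

end ll5

end CLB.H3
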