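import Pool.Agent.Helper3_DA.Tight

/-!
The structure theorem and the gluing theorem in the format of helper95: caterpillars `z 1, ..., z m` with
covered neighbours `c 0, ..., c (m + 1)`.
-/

set_option autoImplicit false
set_option linter.unusedSectionVars false

namespace CLB.H3

open Finset Classical
open H3DA (Q neg nr)
open CLB.H95

variable {V : Type*} {G : SimpleGraph V} {R : V → Bool}

/-- A component of the uncovered vertices together with its covered neighbours. -/
structure Cat (G : SimpleGraph V) (R : V → Bool) (m : ℕ) (z c : ℕ → V) : Prop where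
  pos : 1 ≤ m
  inj : ∀ i j, 1 ≤ i → i ≤ m → 1 ≤ j → j ≤ m → z i = z j → i = j
  unc : ∀ i, 1 ≤ i → i ≤ m → ¬ Cov G R (z i)
  cov : ∀ j ≤ m + 1, Cov G R (c j)
  adjz : ∀ i, 1 ≤ i → i < m → G.Adj (z i) (z (i + 1))
  adjc : ∀ i, 1 ≤ i → i ≤ m → G.Adj (z i) (c i)
  adj0 : G.Adj (z 1) (c 0)
  adjm : G.Adj (z m) (c (m + 1))
  ne0 : c 0 ≠ c 1
  nem : c m ≠ c (m + 1)
  ne1 : m = 1 → c 0 ≠ c 2
  nbr : ∀ i, 1 ≤ i → i ≤ m → ∀ w, G.Adj (z i) w →
    w = c i ∨ (i = 1 ∧ w = c 0) ∨ (i = m ∧ w = c (m + 1)) ∨ (1 < i ∧ w = z (i - 1)) ∨ (i < m ∧ w = z (i + 1))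

/-- Labels of the vertices of the caterpillar exist. -/
def CExt (m : ℕ) (s : ℕ → Q) : Prop :=
  ∃ x : ℕ → Q, (∀ i, 1 ≤ i → i ≤ m → nr (x i) (s i) = true) ∧ nr (x 1) (s 0) = true ∧
    nr (x m) (s (m + 1)) = true ∧ ∀ i, 1 ≤ i → i < m → nr (x i) (x (i + 1)) = true

lemma CExt_iff {m : ℕ} (hm : 1 ≤ m) {s : ℕ → Q} :
    CExt m s ↔ PExt (m - 1) (fun i => s (i + 1)) (s 0) (s (m + 1)) := by
  have e : m - 1 + 1 = m := by omega
  constructor
  · rintro ⟨x, h1, h2, h3, h4⟩
    refine ⟨fun i => x (i + 1), fun i hi => h1 (i + 1) (by omega) (by omega), h2, ?_, fun i hi =>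
      h4 (i + 1) (by omega) (by omega)⟩
    show nr (x (m - 1 + 1)) (s (m + 1)) = true
    rw [e]; exact h3
  · rintro ⟨w, h1, h2, h3, h4⟩
    refine ⟨fun i => w (i - 1), fun i hi him => ?_, h2, h3, fun i hi him => ?_⟩
    · have := h1 (i - 1) (by omega)
      have e' : i - 1 + 1 = i := by omega
      simp only [e'] at this
      exact this
    · have := h4 (i - 1) (by omega)
      have e' : i - 1 + 1 = i := by omega
      rw [e'] at this
      show nr (w (i - 1)) (w (i + 1 - 1)) = true
      rw [show i + 1 - 1 = i by omega]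
      exact this

/-- The covered neighbours of a path in the other format. -/
def UPath.c (P : UPath G R) (j : ℕ) : V :=
  if j = 0 then P.a' else if j = P.m + 2 then P.b' else P.r (j - 1)

theorem UPath.cat (P : UPath G R) : Cat G R (P.m + 1) (fun i => P.z (i - 1)) P.c where
  pos := by omega
  inj i j hi him hj hjm h := by
    have := P.isP.inj _ (show i - 1 ≤ P.m by omega) _ (show j - 1 ≤ P.m by omega) h
    omega
  unc i hi him := P.isP.unc (i - 1) (by omega)
  cov j hj := by
    unfold UPath.c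
    split_ifs with h1 h2
    · exact P.acov
    · exact P.bcov
    · exact P.rcov (j - 1) (by omega)
  adjz i hi him := by
    have := P.isP.adj (i - 1) (by omega)
    rw [show i - 1 + 1 = i by omega] at this
    show G.Adj (P.z (i - 1)) (P.z (i + 1 - 1))
    rw [show i + 1 - 1 = i by omega]
    exact this
  adjc i hi him := by
    have h1 : ¬ (i = 0) := by omega
    have h2 : ¬ (i = P.m + 2) := by omega
    simp only [UPath.c, h1, h2, if_false]
    exact P.adjr (i - 1) (by omega)
  adj0 := by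
    simp only [UPath.c, if_true, Nat.sub_self]
    exact P.adja
  adjm := by
    have h1 : ¬ (P.m + 1 + 1 = 0) := by omega
    simp only [UPath.c, h1, if_false, if_true, Nat.add_sub_cancel]
    exact P.adjb
  ne0 := by
    have h1 : ¬ ((1 : ℕ) = P.m + 2) := by omega
    simp only [UPath.c, h1, if_true, if_false, one_ne_zero, Nat.sub_self]
    exact P.nea
  nem := by
    have h1 : ¬ (P.m + 1 = 0) := by omega
    have h2 : ¬ (P.m + 1 = P.m + 2) := by omega
    have h3 : ¬ (P.m + 1 + 1 = 0) := by omega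
    simp only [UPath.c, h1, h2, h3, if_false, if_true, Nat.add_sub_cancel]
    exact P.neb.symm
  ne1 h := by
    have h1 : P.m = 0 := by omega
    have h2 : (2 : ℕ) = P.m + 2 := by omega
    simp only [UPath.c, if_true, h2.symm, show ¬ ((2 : ℕ) = 0) by omega, if_false]
    exact P.neab h1
  nbr i hi him w hw := by
    have e1 : ¬ (i = 0) := by omega
    have e2 : ¬ (i = P.m + 2) := by omega
    have e3 : ¬ (P.m + 1 + 1 = 0) := by omega
    simp only [UPath.c, e1, e2, e3, if_true, if_false]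
    rcases P.nbr (i - 1) (by omega) w hw with h | ⟨j, hj, h⟩ | ⟨h1, h2⟩ | ⟨h1, h2⟩ | ⟨h1, h2⟩
    · exact Or.inl h
    · refine Or.inr (Or.inr (Or.inr (Or.inl ⟨by omega, ?_⟩)))
      rw [h]
      congr 1
      omega
    · refine Or.inr (Or.inr (Or.inr (Or.inr ⟨by omega, ?_⟩)))
      rw [h2]
      congr 1
      omega
    · exact Or.inr (Or.inl ⟨by omega, h2⟩)
    · exact Or.inr (Or.inr (Or.inl ⟨by omega, h2⟩))

lemma UPath.cext_iff (P : UPath G R) (f : V → Q) :
    P.Ext f ↔ CExt (P.m + 1) (fun j => f (P.c j)) := by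
  rw [CExt_iff (by omega)]
  unfold UPath.Ext
  have e1 : ¬ (P.m + 1 + 1 = 0) := by omega
  simp only [UPath.c, Nat.add_sub_cancel, e1, if_true, if_false]
  constructor
  · intro h
    refine h.congr (fun i hi => ?_)
    have h1 : ¬ (i + 1 = 0) := by omega
    have h2 : ¬ (i + 1 = P.m + 2) := by omega
    simp only [h1, h2, if_false]
  · intro h
    refine h.congr (fun i hi => ?_)
    have h1 : ¬ (i + 1 = 0) := by omega
    have h2 : ¬ (i + 1 = P.m + 2) := by omega
    simp only [h1, h2, if_false]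

/-- A caterpillar as a path component. -/
def Cat.toU {m : ℕ} {z c : ℕ → V} (h : Cat G R m z c) : UPath G R where
  m := m - 1
  z := fun i => z (i + 1)
  r := fun i => c (i + 1)
  a' := c 0
  b' := c (m + 1)
  isP := by
    have := h.pos
    refine ⟨fun i hi j hj hij => ?_, fun i hi => h.unc (i + 1) (by omega) (by omega), fun i hi =>
      h.adjz (i + 1) (by omega) (by omega)⟩
    have := h.inj (i + 1) (j + 1) (by omega) (by omega) (by omega) (by omega) hij
    omega
  rcov i hi := by
    have := h.pos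
    exact h.cov (i + 1) (by omega)
  acov := h.cov 0 (by omega)
  bcov := h.cov (m + 1) (le_refl _)
  adjr i hi := by
    have := h.pos
    exact h.adjc (i + 1) (by omega) (by omega)
  adja := h.adj0
  adjb := by
    have := h.pos
    show G.Adj (z (m - 1 + 1)) (c (m + 1))
    rw [show m - 1 + 1 = m by omega]
    exact h.adjm
  nea := h.ne0
  neb := by
    have := h.pos
    show c (m + 1) ≠ c (m - 1 + 1)
    rw [show m - 1 + 1 = m by omega]
    exact h.nem.symm
  neab hm := by
    have := h.pos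
    have : m = 1 := by omega
    subst this
    exact h.ne1 rfl
  nbr i hi w hw := by
    have := h.pos
    rcases h.nbr (i + 1) (by omega) (by omega) w hw with h1 | ⟨h1, h2⟩ | ⟨h1, h2⟩ | ⟨h1, h2⟩ | ⟨h1, h2⟩
    · exact Or.inl h1
    · exact Or.inr (Or.inr (Or.inr (Or.inl ⟨by omega, h2⟩)))
    · exact Or.inr (Or.inr (Or.inr (Or.inr ⟨by omega, h2⟩)))
    · refine Or.inr (Or.inl ⟨i - 1, by omega, ?_⟩)
      rw [h2]
      congr 1
      omega
    · exact Or.inr (Or.inr (Or.inl ⟨by omega, h2⟩))

lemma Cat.ext_iff {m : ℕ} {z c : ℕ → V} (h : Cat G R m z c) (f : V → Q) :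
    h.toU.Ext f ↔ CExt m (fun j => f (c j)) := by
  rw [CExt_iff h.pos]
  rfl

variable [Fintype V]

/-- The structure theorem: every uncovered vertex of an edge-minimal graph is isolated, or has exactly
two neighbours, both covered, or is on a caterpillar. -/
theorem cat_structure (hG : ClassC G R) (hc : Crit G R) {v : V} (hv : ¬ Cov G R v) :
    (∀ w, ¬ G.Adj v w) ∨ (∃ a b, IsTwo G R v a b) ∨
      ∃ m z c, Cat G R m z c ∧ ∃ i, 1 ≤ i ∧ i ≤ m ∧ z i = v := by
  rcases unc_structure hG hc hv with h | h | ⟨P, i, hi, h⟩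
  · exact Or.inl h
  · exact Or.inr (Or.inl h)
  · exact Or.inr (Or.inr ⟨_, _, _, P.cat, i + 1, by omega, by omega, h⟩)

/-- The gluing theorem: labels of the covered vertices with all the conditions do not exist. -/
theorem cat_glue (hG : ClassC G R) (hc : Crit G R) (f : V → Q)
    (hM : ∀ u v, Me G R u v → f v = neg (f u))
    (hL : ∀ u v, Lk G R u v → nr (f u) (f v) = true)
    (hT : ∀ v a b, IsTwo G R v a b → f a ≠ neg (f b))
    (hP : ∀ m z c, Cat G R m z c → CExt m (fun j => f (c j))) : False :=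
  glue hG hc f hM hL hT (fun P => (P.cext_iff f).2 (hP _ _ _ P.cat))

/-- The covered neighbours of a caterpillar none of whose edges is violated extend. -/
lemma Cat.cext_of_near {m : ℕ} {z c : ℕ → V} (h : Cat G R m z c) {f : V → Q}
    (hf : ∀ i, 1 ≤ i → i ≤ m → ∀ v, G.Adj (z i) v → nr (f (z i)) (f v) = true) :
    CExt m (fun j => f (c j)) :=
  ⟨fun i => f (z i), fun i h1 h2 => hf i h1 h2 _ (h.adjc i h1 h2), hf 1 (le_refl _) h.pos _ h.adj0,
    hf m h.pos (le_refl _) _ h.adjm, fun i h1 h2 => hf i h1 (by omega) _ (h.adjz i h1 h2)⟩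

end CLB.H3
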