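import Pool.Agent.Helper3_DA.LastUnit
import Pool.Agent.Helper95_CLB.Static

/-!
Windows: criteria for the extension of labels to a path in terms of the three characters of the labels up
to sign.  Labels of a tight path follow a fixed pattern of one of the characters.
-/

set_option autoImplicit false

namespace CLB.H3

open Finset
open H3DA (Q neg nr)
open CLB.H95

/-- The three characters of the labels up to sign. -/
def chi (d : Fin 3) (x : Q) : Bool :=
  if d = 0 then xor x.2.1 x.2.2 else if d = 1 then xor x.1 x.2.2 else xor x.1 x.2.1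

lemma chi_neg : ∀ (d : Fin 3) (x : Q), chi d (neg x) = chi d x := by decide

lemma chi_stp : ∀ (D : Ty) (x y : Q), stp D x y = true → chi D.1 y = xor (chi D.1 x) (!D.2) := by
  decide

lemma chi_frk : ∀ (D : Ty) (x y : Q), frk D x y = true → chi D.1 x = chi D.1 y := by decide

/-- Number of steps of the second kind before the position `p`, modulo two. -/
def up (b : Bool) (p : ℕ) : Bool := if b = true then (p - 1) / 2 % 2 == 1 else p / 2 % 2 == 1

lemma altT_fst (D : Ty) (i : ℕ) : (altT D i).1 = D.1 := by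
  unfold altT; split_ifs <;> rfl

lemma altT_snd (D : Ty) (i : ℕ) : (altT D i).2 = if i % 2 = 1 then D.2 else !D.2 := by
  unfold altT; split_ifs <;> rfl

lemma up_one (b : Bool) : up b 1 = false := by cases b <;> rfl

lemma up_succ (D : Ty) {i : ℕ} (hi : 1 ≤ i) : up D.2 (i + 1) = xor (up D.2 i) (!(altT D i).2) := by
  have key : ∀ a b : ℕ, (a == b) = decide (a = b) := fun a b => by
    by_cases h : a = b <;> simp [h]
  rw [altT_snd]
  unfold up
  rcases Nat.mod_two_eq_zero_or_one i with h | h
  · rw [if_neg (show ¬ i % 2 = 1 by omega)]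
    cases hD : D.2
    · simp only [if_neg (show ¬ (false = true) by decide), key]
      rw [show (i + 1) / 2 = i / 2 by omega]
      simp
    · simp only [if_pos, key, Nat.add_sub_cancel]
      have e : i / 2 = (i - 1) / 2 + 1 := by omega
      rw [e]
      rcases Nat.mod_two_eq_zero_or_one ((i - 1) / 2) with h1 | h1
      · rw [h1, show ((i - 1) / 2 + 1) % 2 = 1 by omega]; rfl
      · rw [h1, show ((i - 1) / 2 + 1) % 2 = 0 by omega]; rfl
  · rw [if_pos h]
    cases hD : D.2
    · simp only [if_neg (show ¬ (false = true) by decide), key]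
      have e : (i + 1) / 2 = i / 2 + 1 := by omega
      rw [e]
      rcases Nat.mod_two_eq_zero_or_one (i / 2) with h1 | h1
      · rw [h1, show (i / 2 + 1) % 2 = 1 by omega]; rfl
      · rw [h1, show (i / 2 + 1) % 2 = 0 by omega]; rfl
    · simp only [if_pos, key, Nat.add_sub_cancel]
      rw [show i / 2 = (i - 1) / 2 by omega]
      simp

/-- The pattern of the character of a tight path. -/
theorem tight_chi {D : Ty} {m : ℕ} (hm : 1 ≤ m) {s : ℕ → Q} (h : Tight D s m) {j : ℕ}
    (hj : j ≤ m + 1) : chi D.1 (s j) = xor (chi D.1 (s 1)) (up D.2 (pos m j)) := by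
  have key : ∀ i, 1 ≤ i → i ≤ m → chi D.1 (s i) = xor (chi D.1 (s 1)) (up D.2 i) := by
    intro i hi
    induction i, hi using Nat.le_induction with
    | base => intro _; rw [up_one]; simp
    | succ n hn ih =>
      intro hm'
      have h1 := chi_stp _ _ _ (h.2.1 n hn (by omega))
      rw [altT_fst, chi_neg] at h1
      rw [h1, ih (by omega), up_succ D hn, Bool.xor_assoc]
  by_cases h0 : j = 0
  · subst h0
    rw [pos_zero, up_one, chi_frk _ _ _ h.1]
    simp
  by_cases h1 : j = m + 1
  · subst h1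
    rw [pos_last, ← key m hm le_rfl]
    have := chi_frk _ _ _ h.2.2
    rw [altT_fst] at this
    exact this.symm
  · rw [pos_mid (by omega) (by omega)]
    exact key j (by omega) (by omega)

/-- The general criterion: the labels do not follow any of the patterns. -/
theorem cext_of_pattern {m : ℕ} (hm : 1 ≤ m) {s : ℕ → Q} (hl : Leaf m s)
    (h : ∀ (d : Fin 3) (b v : Bool), (∀ j ≤ m + 1, chi d (s j) = xor v (up b (pos m j))) → False) :
    CExt m s := by
  rw [cext_iff hm]
  exact ⟨hl.1, hl.2, fun D hD => h D.1 D.2 _ (fun j hj => tight_chi hm hD hj)⟩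

/-- For every character and every kind two ports deviate from the pattern. -/
theorem cext_of_chi {m : ℕ} (hm : 1 ≤ m) {s : ℕ → Q} (hl : Leaf m s)
    (h : ∀ (d : Fin 3) (b : Bool), ∃ j j', j ≤ m + 1 ∧ j' ≤ m + 1 ∧
      xor (chi d (s j)) (chi d (s j')) ≠ xor (up b (pos m j)) (up b (pos m j'))) : CExt m s := by
  refine cext_of_pattern hm hl (fun d b v hv => ?_)
  obtain ⟨j, j', hj, hj', hne⟩ := h d b
  apply hne
  rw [hv j hj, hv j' hj']
  cases v <;> cases up b (pos m j) <;> cases up b (pos m j') <;> rfl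

lemma up_two (b : Bool) {p q : ℕ} (hp : 1 ≤ p) (hq : 1 ≤ q) (h : (p + 2) % 4 = q % 4) :
    xor (up b p) (up b q) = true := by
  have key : ∀ a b : ℕ, (a == b) = decide (a = b) := fun a b => by
    by_cases h : a = b <;> simp [h]
  unfold up
  cases b
  · simp only [if_neg (show ¬ (false = true) by decide), key]
    have : (p / 2) % 2 ≠ (q / 2) % 2 := by omega
    rcases Nat.mod_two_eq_zero_or_one (p / 2) with h1 | h1 <;>
      rcases Nat.mod_two_eq_zero_or_one (q / 2) with h2 | h2 <;> simp_all
  · simp only [if_pos, key]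
    have : ((p - 1) / 2) % 2 ≠ ((q - 1) / 2) % 2 := by omega
    rcases Nat.mod_two_eq_zero_or_one ((p - 1) / 2) with h1 | h1 <;>
      rcases Nat.mod_two_eq_zero_or_one ((q - 1) / 2) with h2 | h2 <;> simp_all

lemma pos_ge {m j : ℕ} (hm : 1 ≤ m) : 1 ≤ pos m j := by
  unfold pos; split_ifs <;> omega

/-- Window W: equal labels, up to sign, at two ports whose distance is two modulo four. -/
theorem cext_of_two {m : ℕ} (hm : 1 ≤ m) {s : ℕ → Q} (hl : Leaf m s) {j j' : ℕ} (hj : j ≤ m + 1)
    (hj' : j' ≤ m + 1) (hp : (pos m j + 2) % 4 = pos m j' % 4) (h : s j = s j' ∨ s j = neg (s j')) :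
    CExt m s := by
  refine cext_of_chi hm hl (fun d b => ⟨j, j', hj, hj', ?_⟩)
  rw [up_two b (pos_ge hm) (pos_ge hm) hp]
  rcases h with h | h
  · rw [h]; simp
  · rw [h, chi_neg]; simp

/-- Three steps with distinct masks are not of the same kind. -/
lemma chi_three : ∀ (d : Fin 3) (x y z w : Q), nr x y = true → nr y z = true → nr z w = true →
    add x y ≠ add y z → add y z ≠ add z w → add x y ≠ add z w →
    xor (chi d x) (chi d y) = xor (chi d y) (chi d z) →
    xor (chi d y) (chi d z) = xor (chi d z) (chi d w) → False := by decide +kernel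

/-- Window D3: four consecutive units with equal polarities of the three links, and three steps with
distinct masks. -/
theorem cext_of_three {m : ℕ} (hm : 1 ≤ m) {s : ℕ → Q} (hl : Leaf m s) {j0 j1 j2 j3 : ℕ}
    (h0 : j0 ≤ m + 1) (h1 : j1 ≤ m + 1) (h2 : j2 ≤ m + 1) (h3 : j3 ≤ m + 1) {u0 u1 u2 u3 : Q}
    (e0 : s j0 = u0 ∨ s j0 = neg u0) (e1 : s j1 = u1 ∨ s j1 = neg u1)
    (e2 : s j2 = u2 ∨ s j2 = neg u2) (e3 : s j3 = u3 ∨ s j3 = neg u3)
    (hp : ∀ b, xor (up b (pos m j0)) (up b (pos m j1)) = xor (up b (pos m j1)) (up b (pos m j2)) ∧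
      xor (up b (pos m j1)) (up b (pos m j2)) = xor (up b (pos m j2)) (up b (pos m j3)))
    (n0 : nr u0 u1 = true) (n1 : nr u1 u2 = true) (n2 : nr u2 u3 = true)
    (d1 : add u0 u1 ≠ add u1 u2) (d2 : add u1 u2 ≠ add u2 u3) (d3 : add u0 u1 ≠ add u2 u3) :
    CExt m s := by
  refine cext_of_pattern hm hl (fun d b v hv => ?_)
  have key : ∀ {j : ℕ} {u : Q}, j ≤ m + 1 → (s j = u ∨ s j = neg u) →
      chi d u = xor v (up b (pos m j)) := by
    intro j u hj hu
    rw [← hv j hj]
    rcases hu with hu | hu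
    · rw [hu]
    · rw [hu, chi_neg]
  have k0 := key h0 e0
  have k1 := key h1 e1
  have k2 := key h2 e2
  have k3 := key h3 e3
  obtain ⟨p1, p2⟩ := hp b
  refine chi_three d u0 u1 u2 u3 n0 n1 n2 d1 d2 d3 ?_ ?_
  · rw [k0, k1, k2]
    revert p1
    cases v <;> cases up b (pos m j0) <;> cases up b (pos m j1) <;> cases up b (pos m j2) <;> decide
  · rw [k1, k2, k3]
    revert p2
    cases v <;> cases up b (pos m j1) <;> cases up b (pos m j2) <;> cases up b (pos m j3) <;> decide

/-! ### Link steps anywhere on the chain -/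

lemma up_link (b : Bool) {p q : ℕ} (hp : 1 ≤ p) (hq : 1 ≤ q) (h : (p + q) % 2 = 1) :
    xor (up b p) (up b q) = xor (decide ((p + q) % 4 = 3)) b := by
  have key : ∀ a b : ℕ, (a == b) = decide (a = b) := fun a b => by
    by_cases h : a = b <;> simp [h]
  unfold up
  cases b
  · simp only [if_neg (show ¬ (false = true) by decide), key]
    rcases Nat.mod_two_eq_zero_or_one (p / 2) with h1 | h1 <;>
      rcases Nat.mod_two_eq_zero_or_one (q / 2) with h2 | h2
    · have : ¬ (p + q) % 4 = 3 := by omega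
      simp [h1, h2, this]
    · have : (p + q) % 4 = 3 := by omega
      simp [h1, h2, this]
    · have : (p + q) % 4 = 3 := by omega
      simp [h1, h2, this]
    · have : ¬ (p + q) % 4 = 3 := by omega
      simp [h1, h2, this]
  · simp only [if_pos, key]
    rcases Nat.mod_two_eq_zero_or_one ((p - 1) / 2) with h1 | h1 <;>
      rcases Nat.mod_two_eq_zero_or_one ((q - 1) / 2) with h2 | h2
    · have : (p + q) % 4 = 3 := by omega
      simp [h1, h2, this]
    · have : ¬ (p + q) % 4 = 3 := by omega
      simp [h1, h2, this]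
    · have : ¬ (p + q) % 4 = 3 := by omega
      simp [h1, h2, this]
    · have : (p + q) % 4 = 3 := by omega
      simp [h1, h2, this]

lemma chi_add : ∀ (d : Fin 3) (x y : Q), chi d (add x y) = xor (chi d x) (chi d y) := by decide

/-- A port of the path which carries the label `u` up to sign. -/
def PortL (m : ℕ) (s : ℕ → Q) (j : ℕ) (u : Q) : Prop := j ≤ m + 1 ∧ (s j = u ∨ s j = neg u)

lemma PortL.chi_eq {m : ℕ} {s : ℕ → Q} {j : ℕ} {u : Q} (h : PortL m s j u) (d : Fin 3) :
    chi d u = chi d (s j) := by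
  rcases h.2 with h | h
  · rw [h]
  · rw [h, chi_neg]

/-- The character of a step between two ports of a tight path. -/
lemma pattern_step {m : ℕ} (hm : 1 ≤ m) {s : ℕ → Q} {d : Fin 3} {b v : Bool}
    (hv : ∀ j ≤ m + 1, chi d (s j) = xor v (up b (pos m j))) {j j' : ℕ} {u u' : Q}
    (h : PortL m s j u) (h' : PortL m s j' u') (hp : (pos m j + pos m j') % 2 = 1) :
    chi d (add u u') = xor (decide ((pos m j + pos m j') % 4 = 3)) b := by
  rw [chi_add, h.chi_eq, h'.chi_eq, hv j h.1, hv j' h'.1, ← up_link b (pos_ge hm) (pos_ge hm) hp]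
  cases v <;> cases up b (pos m j) <;> cases up b (pos m j') <;> rfl

/-- Two steps of opposite polarity with the same mask. -/
theorem cext_links2 {m : ℕ} (hm : 1 ≤ m) {s : ℕ → Q} (hl : Leaf m s) {j0 j1 j2 j3 : ℕ}
    {u0 u1 u2 u3 : Q} (e0 : PortL m s j0 u0) (e1 : PortL m s j1 u1) (e2 : PortL m s j2 u2)
    (e3 : PortL m s j3 u3) (p01 : (pos m j0 + pos m j1) % 2 = 1)
    (hp : (pos m j0 + pos m j1 + 2) % 4 = (pos m j2 + pos m j3) % 4)
    (h : add u0 u1 = add u2 u3) : CExt m s := by
  refine cext_of_pattern hm hl (fun d b v hv => ?_)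
  have h1 := pattern_step hm hv e0 e1 p01
  have h2 := pattern_step hm hv e2 e3 (by omega)
  rw [h, h2] at h1
  by_cases h3 : (pos m j0 + pos m j1) % 4 = 3
  · have h4 : ¬ (pos m j2 + pos m j3) % 4 = 3 := by omega
    simp [h3, h4] at h1
  · have h4 : (pos m j2 + pos m j3) % 4 = 3 := by omega
    simp [h3, h4] at h1

lemma chi_masks : ∀ (d : Fin 3) (a b c : Q), nr (false, false, false) a = true →
    nr (false, false, false) b = true → nr (false, false, false) c = true →
    a ≠ b → b ≠ c → a ≠ c → chi d a = chi d b → chi d b = chi d c → False := by decide +kernel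

lemma nr_add : ∀ x y : Q, nr (false, false, false) (add x y) = nr x y := by decide

/-- Three steps of equal polarity with distinct masks. -/
theorem cext_links3 {m : ℕ} (hm : 1 ≤ m) {s : ℕ → Q} (hl : Leaf m s) {j0 j1 j2 j3 j4 j5 : ℕ}
    {u0 u1 u2 u3 u4 u5 : Q} (e0 : PortL m s j0 u0) (e1 : PortL m s j1 u1) (e2 : PortL m s j2 u2)
    (e3 : PortL m s j3 u3) (e4 : PortL m s j4 u4) (e5 : PortL m s j5 u5)
    (p01 : (pos m j0 + pos m j1) % 2 = 1)
    (hp : (pos m j0 + pos m j1) % 4 = (pos m j2 + pos m j3) % 4)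
    (hp' : (pos m j2 + pos m j3) % 4 = (pos m j4 + pos m j5) % 4)
    (n0 : nr u0 u1 = true) (n1 : nr u2 u3 = true) (n2 : nr u4 u5 = true)
    (d1 : add u0 u1 ≠ add u2 u3) (d2 : add u2 u3 ≠ add u4 u5) (d3 : add u0 u1 ≠ add u4 u5) :
    CExt m s := by
  refine cext_of_pattern hm hl (fun d b v hv => ?_)
  have h1 := pattern_step hm hv e0 e1 p01
  have h2 := pattern_step hm hv e2 e3 (by omega)
  have h3 := pattern_step hm hv e4 e5 (by omega)
  refine chi_masks d _ _ _ (by rw [nr_add]; exact n0) (by rw [nr_add]; exact n1)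
    (by rw [nr_add]; exact n2) d1 d2 d3 ?_ ?_
  · rw [h1, h2, hp]
  · rw [h2, h3, hp']

/-- Two ports whose distance is two modulo four, with labels `u` up to sign. -/
theorem cext_return {m : ℕ} (hm : 1 ≤ m) {s : ℕ → Q} (hl : Leaf m s) {j j' : ℕ} {u : Q}
    (e : PortL m s j u) (e' : PortL m s j' u) (hp : (pos m j + 2) % 4 = pos m j' % 4) :
    CExt m s := by
  refine cext_of_two hm hl e.1 e'.1 hp ?_
  rcases e.2 with h | h <;> rcases e'.2 with h' | h'
  · left; rw [h, h']
  · right; rw [h, h', H3DA.neg_neg]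
  · right; rw [h, h']
  · left; rw [h, h']

/-! ### Forced steps: counting -/

lemma add_left_inj' : ∀ e x y : Q, add x e = add y e → x = y := by decide

/-- A forced step loses at most the complement of the next list. -/
theorem forced_keep {T A : Finset Q} (e : Q) :
    T.card + A.card ≤ ((T.image (fun x => add x e)) ∩ A).card + 8 := by
  have h1 : (T.image (fun x => add x e)).card = T.card :=
    Finset.card_image_of_injective _ (fun x y h => add_left_inj' e x y h)
  have h2 := card_inter_ge (T.image (fun x => add x e)) A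
  omega

/-! ### Return windows: counting -/

/-- A ball meets every list with five labels. -/
lemma ball_meet {A : Finset Q} (hA : 5 ≤ A.card) (t : Q) : ∃ u ∈ A, nr t u = true := by
  by_contra hcon
  push Not at hcon
  have h1 : Disjoint A (ball t) := by
    rw [Finset.disjoint_left]
    intro u hu hu'
    exact hcon u hu (mem_ball.1 hu')
  have h2 := Finset.card_le_card (Finset.subset_univ (A ∪ ball t))
  rw [Finset.card_union_of_disjoint h1, ball_card, card_univ_Q] at h2
  omega

/-- The labels that can be kept through a return window. -/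
theorem return_keep {T A B : Finset Q} {n : ℕ} (hA : 5 ≤ A.card) (hn : n + 8 ≤ T.card + B.card) :
    ∃ U : Finset Q, n ≤ U.card ∧ U ⊆ B ∧ ∀ t ∈ U, t ∈ T ∧ ∃ u ∈ A, nr t u = true ∧ nr u t = true := by
  refine ⟨T ∩ B, ?_, Finset.inter_subset_right, fun t ht => ?_⟩
  · have := card_inter_ge T B
    omega
  · obtain ⟨u, hu, hu'⟩ := ball_meet hA t
    exact ⟨(mem_inter.1 ht).1, u, hu, hu', nr_symm hu'⟩

end CLB.H3
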