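import Pool.Agent.Helper3_DA.Fork
import Pool.Agent.Helper3_DA.Window

/-!
The labelling of an edge-minimal graph with one inner edge of a caterpillar removed: the caterpillar is
tight; full units are at distance four, eight, ... at the caterpillar.
-/

set_option autoImplicit false
set_option linter.unusedSectionVars false

namespace CLB.H3

open Finset Classical
open H3DA (Q neg nr)
open CLB.H95

variable {V : Type*} {G : SimpleGraph V} {R : V → Bool} [Fintype V]
  {m : ℕ} {z c : ℕ → V}

/-- A labelling of all edges except those inside the caterpillar, whose labels are tight on the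
caterpillar. -/
structure KTight (G : SimpleGraph V) (R : V → Bool) (m : ℕ) (z c : ℕ → V) (f : V → Q) (D : Ty) :
    Prop where
  ok : ∀ u v, G.Adj u v → ¬ (u ∈ cSupp m z ∧ v ∈ cSupp m z) → okE R f u v
  tight : Tight D (fun j => f (c j)) m

/-- Labels of the covered vertices which fit everywhere, except possibly at the caterpillar, do not extend
to the caterpillar. -/
theorem no_cext (hG : ClassC G R) (hc : Crit G R) (hcat : Cat G R m z c) {f : V → Q}
    (hM : ∀ u v, Me G R u v → f v = neg (f u))
    (hL : ∀ u v, Lk G R u v → nr (f u) (f v) = true)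
    (hT : ∀ v a b, IsTwo G R v a b → f a ≠ neg (f b))
    (hP : ∀ m' z' c', Cat G R m' z' c' → (∀ v, v ∈ cSupp m z → v ∉ cSupp m' z') →
      CExt m' (fun j => f (c' j))) : ¬ CExt m (fun j => f (c j)) := by
  intro hK
  refine cat_glue hG hc f hM hL hT (fun m' z' c' hC => ?_)
  by_cases hd : ∀ v, v ∈ cSupp m z → v ∉ cSupp m' z'
  · exact hP m' z' c' hC hd
  · push Not at hd
    obtain ⟨v, hv, hv'⟩ := hd
    have he := cSupp_eq hcat hC hv hv'
    rw [cext_iff_fits hC f, ← he, ← cext_iff_fits hcat f]
    exact hK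

/-- Labels of a labelling of all edges except inside `K` fit at the other places. -/
lemma fits_other (hcat : Cat G R m z c) {f : V → Q}
    (hf : ∀ u v, G.Adj u v → ¬ (u ∈ cSupp m z ∧ v ∈ cSupp m z) → okE R f u v) :
    (∀ u v, Me G R u v → f v = neg (f u)) ∧ (∀ u v, Lk G R u v → nr (f u) (f v) = true) ∧
    (∀ v a b, IsTwo G R v a b → f a ≠ neg (f b)) ∧
    (∀ m' z' c', Cat G R m' z' c' → (∀ v, v ∈ cSupp m z → v ∉ cSupp m' z') →
      CExt m' (fun j => f (c' j))) := by
  have hnc : ∀ v, Cov G R v → v ∉ cSupp m z := by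
    rintro v hv ⟨i, h1, h2, rfl⟩
    exact hcat.unc i h1 h2 hv
  refine ⟨fun u v huv => ?_, fun u v huv => ?_, fun v a b hT => ?_, fun m' z' c' hC hd => ?_⟩
  · exact (hf u v huv.1 (fun h => hnc u huv.cov h.1)).1 huv.2
  · exact (hf u v huv.1.1 (fun h => hnc u huv.2.1 h.1)).2 huv.1.2
  · obtain ⟨h1, h2, h3, h4, h5, h6, h7⟩ := hT
    have e1 := (hf v a h2 (fun h => hnc a h5 h.2)).2 (he_of_unc h1 h2).2
    have e2 := (hf v b h3 (fun h => hnc b h6 h.2)).2 (he_of_unc h1 h3).2
    exact H3DA.nr_common e1 e2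
  · refine hC.cext_of_near (fun i h1 h2 v hv => ?_)
    have hR := (he_of_unc (hC.unc i h1 h2) hv).2
    exact (hf (z' i) v hv (fun h => hd _ h.1 ⟨i, h1, h2, rfl⟩)).2 hR

/-- **The tight labelling.** -/
theorem exists_ktight (hG : ClassC G R) (hc : Crit G R) (hcat : Cat G R m z c) (hm : 2 ≤ m) :
    ∃ f D, KTight G R m z c f D := by
  have h12 : G.Adj (z 1) (z 2) := hcat.adjz 1 le_rfl (by omega)
  obtain ⟨f, hf, -⟩ := hc.edge h12
  have hf' : ∀ u v, G.Adj u v → ¬ (u ∈ cSupp m z ∧ v ∈ cSupp m z) → okE R f u v := by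
    intro u v huv hn
    refine hf u v huv (fun h => hn ?_) (fun h => hn ?_)
    · rw [h.1, h.2]
      exact ⟨mem_cSupp le_rfl (by omega), mem_cSupp (by omega) hm⟩
    · rw [h.1, h.2]
      exact ⟨mem_cSupp (by omega) hm, mem_cSupp le_rfl (by omega)⟩
  obtain ⟨g1, g2, g3, g4⟩ := fits_other hcat hf'
  have hn := no_cext hG hc hcat g1 g2 g3 g4
  rw [cext_iff (by omega)] at hn
  have hnc : ∀ j ≤ m + 1, c j ∉ cSupp m z := by
    rintro j hj ⟨i, h1, h2, h3⟩
    exact hcat.unc i h1 h2 (h3 ▸ hcat.cov j hj)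
  have near : ∀ i, 1 ≤ i → i ≤ m → ∀ j ≤ m + 1, G.Adj (z i) (c j) → nr (f (z i)) (f (c j)) = true :=
    fun i h1 h2 j hj ha => (hf' _ _ ha (fun h => hnc j hj h.2)).2
      (he_of_unc (hcat.unc i h1 h2) ha).2
  have l1 : f (c 0) ≠ neg (f (c 1)) :=
    H3DA.nr_common (near 1 le_rfl (by omega) 0 (by omega) hcat.adj0)
      (near 1 le_rfl (by omega) 1 (by omega) (hcat.adjc 1 le_rfl (by omega)))
  have l2 : f (c m) ≠ neg (f (c (m + 1))) :=
    H3DA.nr_common (near m (by omega) le_rfl m (by omega) (hcat.adjc m (by omega) le_rfl))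
      (near m (by omega) le_rfl (m + 1) (by omega) hcat.adjm)
  have : ∃ D, Tight D (fun j => f (c j)) m := by
    by_contra hcon
    push Not at hcon
    exact hn ⟨l1, l2, hcon⟩
  obtain ⟨D, hD⟩ := this
  exact ⟨f, D, hf', hD⟩

lemma up_mod (b : Bool) {p q : ℕ} (hp : 1 ≤ p) (hq : 1 ≤ q) (h : p % 2 = q % 2)
    (he : up b p = up b q) : p % 4 = q % 4 := by
  by_contra hne
  have := up_two b hp hq (by omega)
  rw [he] at this
  simp at this

/-- Equal or antipodal labels at two ports with the same side: distance zero modulo four. -/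
lemma tight_mod {D : Ty} (hm : 1 ≤ m) {s : ℕ → Q} (h : Tight D s m) {i j : ℕ} (hi : i ≤ m + 1)
    (hj : j ≤ m + 1) (hs : s i = s j ∨ s i = neg (s j)) (hp : pos m i % 2 = pos m j % 2) :
    pos m i % 4 = pos m j % 4 := by
  have h1 := tight_chi hm h hi
  have h2 := tight_chi hm h hj
  have h3 : chi D.1 (s i) = chi D.1 (s j) := by
    rcases hs with hs | hs
    · rw [hs]
    · rw [hs, chi_neg]
  refine up_mod D.2 (one_le_pos hm) (one_le_pos hm) hp ?_
  rw [h1, h2] at h3
  revert h3
  cases chi D.1 (s 1) <;> cases up D.2 (pos m i) <;> cases up D.2 (pos m j) <;> simp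

/-- Two mates at a caterpillar: distance four, eight, ... . -/
theorem mates_dist (hG : ClassC G R) (hc : Crit G R) (hcat : Cat G R m z c) {i j : ℕ}
    (hi : i ≤ m + 1) (hj : j ≤ m + 1) (hme : Me G R (c i) (c j)) :
    pos m i % 4 = pos m j % 4 ∧ pos m i ≠ pos m j := by
  have hm := hcat.pos
  have hne : pos m i ≠ pos m j := by
    intro he
    have a1 := cat_adj_pos hcat hi
    have a2 := cat_adj_pos hcat hj
    rw [← he] at a2
    exact hG.tri _ _ _ hme.1 a2 a1
  refine ⟨?_, hne⟩
  have hm2 : 2 ≤ m := by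
    by_contra hcon
    have : m = 1 := by omega
    subst this
    have h1 := pos_le hm hi
    have h2 := pos_le hm hj
    have h3 := one_le_pos (j := i) hm
    have h4 := one_le_pos (j := j) hm
    omega
  obtain ⟨f, D, hK⟩ := exists_ktight hG hc hcat hm2
  refine tight_mod hm hK.tight hi hj (Or.inr ?_) ?_
  · have := (fits_other hcat hK.ok).1 _ _ hme.symm
    exact this
  · have h1 := cat_side_c hcat hi
    have h2 := cat_side_c hcat hj
    rw [hme.2, h2] at h1
    rcases Nat.mod_two_eq_zero_or_one (pos m i) with h3 | h3 <;>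
      rcases Nat.mod_two_eq_zero_or_one (pos m j) with h4 | h4
    · omega
    · exfalso
      revert h1
      simp only [h3, h4]
      cases R (z 1) <;> decide
    · exfalso
      revert h1
      simp only [h3, h4]
      cases R (z 1) <;> decide
    · omega

/-- One covered vertex at two different vertices of a caterpillar: distance four, eight, ... . -/
theorem twice_dist (hG : ClassC G R) (hc : Crit G R) (hcat : Cat G R m z c) {i j : ℕ}
    (hi : i ≤ m + 1) (hj : j ≤ m + 1) (hij : i ≠ j) (he : c i = c j) :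
    pos m i % 4 = pos m j % 4 ∧ pos m i ≠ pos m j := by
  have hm := hcat.pos
  have hne : pos m i ≠ pos m j := fun h => hij (port_unique hcat hi hj he (by
    rw [← pos_eq_cl, ← pos_eq_cl, h]))
  refine ⟨?_, hne⟩
  have hm2 : 2 ≤ m := by
    by_contra hcon
    have : m = 1 := by omega
    subst this
    have h1 := pos_le hm hi
    have h2 := pos_le hm hj
    have h3 := one_le_pos (j := i) hm
    have h4 := one_le_pos (j := j) hm
    omega
  obtain ⟨f, D, hK⟩ := exists_ktight hG hc hcat hm2
  refine tight_mod hm hK.tight hi hj (Or.inl (by rw [he])) ?_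
  have h1 := cat_side_c hcat hi
  have h2 := cat_side_c hcat hj
  rw [he, h2] at h1
  rcases Nat.mod_two_eq_zero_or_one (pos m i) with h3 | h3 <;>
    rcases Nat.mod_two_eq_zero_or_one (pos m j) with h4 | h4
  · omega
  · exfalso
    revert h1
    simp only [h3, h4]
    cases R (z 1) <;> decide
  · exfalso
    revert h1
    simp only [h3, h4]
    cases R (z 1) <;> decide
  · omega

/-- Components with at most four vertices have no full unit. -/
theorem noFull_small (hG : ClassC G R) (hc : Crit G R) (hcat : Cat G R m z c) (hm : m ≤ 4) :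
    NoFull G R m c := by
  intro i j hi hj hme
  have h := mates_dist hG hc hcat hi hj hme
  have h1 := pos_le hcat.pos hi
  have h2 := pos_le hcat.pos hj
  have h3 := one_le_pos (j := i) hcat.pos
  have h4 := one_le_pos (j := j) hcat.pos
  omega

end CLB.H3
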