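import Pool.Agent.Helper3_DA.LinkFree
import Pool.Agent.Helper95_CLB.Crit

/-!
From labellings to good 5-edge-colourings, and the theorem on graphs with a cut whose complement is an
induced matching.
-/

set_option autoImplicit false

namespace H3DA

variable {V : Type*}

/-- A labelling of the cut edges `H` and the uncut edges `M` gives a good colouring. -/
theorem good_of_lab {G H M : SimpleGraph V} {R : V → Bool} {f : V → Q} (hf : Lab H M f)
    (hG : ∀ u v, G.Adj u v → (H.Adj u v ∧ R u ≠ R v) ∨ (M.Adj u v ∧ R u = R v)) : CLB.H95.Good G := by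
  apply CLB.H95.crit_gen (g := fun i v => match i with
    | 0 => R v
    | 1 => xor (R v) (f v).1
    | 2 => xor (R v) (f v).2.1
    | 3 => xor (R v) (f v).2.2
    | 4 => xor (f v).1 (xor (f v).2.1 (f v).2.2))
  intro u v huv
  have h1 : (nr (f u) (f v) = true ∧ R u ≠ R v) ∨ (f v = neg (f u) ∧ R u = R v) := by
    rcases hG u v huv with ⟨h, h'⟩ | ⟨h, h'⟩
    · exact Or.inl ⟨hf.1 u v h, h'⟩
    · exact Or.inr ⟨hf.2 u v h, h'⟩
  generalize R u = a1 at h1 ⊢
  generalize R v = b1 at h1 ⊢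
  generalize f u = a2 at h1 ⊢
  generalize f v = b2 at h1 ⊢
  revert h1
  revert a1 b1 a2 b2
  decide

lemma two_of_ncard {S : Set V} (hS : S.Finite) (h : S.ncard ≤ 2) (v : V) :
    ∃ w1 w2, ∀ w ∈ S, w = w1 ∨ w = w2 := by
  have h3 : S.ncard = 0 ∨ S.ncard = 1 ∨ S.ncard = 2 := by omega
  rcases h3 with h3 | h3 | h3
  · rw [Set.ncard_eq_zero hS] at h3
    exact ⟨v, v, fun w hw => by rw [h3] at hw; exact hw.elim⟩
  · rw [Set.ncard_eq_one] at h3
    obtain ⟨a, rfl⟩ := h3
    exact ⟨a, a, fun w hw => Or.inl hw⟩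
  · rw [Set.ncard_eq_two] at h3
    obtain ⟨a, b, -, rfl⟩ := h3
    exact ⟨a, b, fun w hw => hw⟩

lemma one_of_ncard {S : Set V} (hS : S.Finite) (h : S.ncard ≤ 1) (v : V) :
    ∃ w1, ∀ w ∈ S, w = w1 := by
  have h3 : S.ncard = 0 ∨ S.ncard = 1 := by omega
  rcases h3 with h3 | h3
  · rw [Set.ncard_eq_zero hS] at h3
    exact ⟨v, fun w hw => by rw [h3] at hw; exact hw.elim⟩
  · rw [Set.ncard_eq_one] at h3
    obtain ⟨a, rfl⟩ := h3
    exact ⟨a, fun w hw => hw⟩

/-- If the edges inside the two parts `R` form an induced matching, the graph has a good colouring. -/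
theorem good_of_induced [Finite V] (G : SimpleGraph V) (htri : G.CliqueFree 3)
    (hdeg : ∀ v, (G.neighborSet v).ncard ≤ 3) (R : V → Bool)
    (hind : ∀ a b c d, G.Adj a b → R a = R b → G.Adj c d → R c = R d → (a = c ∨ G.Adj a c) →
      s(a, b) = s(c, d)) : CLB.H95.Good G := by
  classical
  let H : SimpleGraph V :=
    { Adj := fun u v => G.Adj u v ∧ R u ≠ R v
      symm := ⟨fun _ _ h => ⟨h.1.symm, h.2.symm⟩⟩
      loopless := ⟨fun _ h => h.2 rfl⟩ }
  let M : SimpleGraph V :=
    { Adj := fun u v => G.Adj u v ∧ R u = R v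
      symm := ⟨fun _ _ h => ⟨h.1.symm, h.2.symm⟩⟩
      loopless := ⟨fun _ h => h.1.ne rfl⟩ }
  have hA : Adm H M R :=
    { hR := fun u v h => h.2
      mR := fun u v h => h.2
      mm := by
        intro u v w h1 h2
        have h3 := hind u v u w h1.1 h1.2 h2.1 h2.2 (Or.inl rfl)
        rw [Sym2.eq_iff] at h3
        rcases h3 with ⟨-, h⟩ | ⟨h, h'⟩
        · exact h
        · exact h'.trans h
      tri := by
        intro u v w h1 h2 h3
        exact htri {u, v, w} (SimpleGraph.is3Clique_triple_iff.2 ⟨h1.1, h2.1, h3.1⟩)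
      d3 := by
        intro v c hvc
        obtain ⟨w1, w2, hw⟩ := two_of_ncard (S := G.neighborSet v \ {c}) (Set.toFinite _) (by
          rw [Set.ncard_sdiff_singleton_of_mem (show c ∈ G.neighborSet v from hvc.1)]
          have := hdeg v
          omega) v
        exact ⟨w1, w2, fun w hw1 hw2 => hw w ⟨hw1.1, hw2⟩⟩
      d2 := by
        intro v m c hvm hvc
        have hcm : c ≠ m := by
          rintro rfl
          exact hvc.2 hvm.2
        obtain ⟨w1, hw⟩ := one_of_ncard (S := (G.neighborSet v \ {c}) \ {m}) (Set.toFinite _) (by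
          rw [Set.ncard_sdiff_singleton_of_mem
            (show m ∈ G.neighborSet v \ {c} from ⟨hvm.1, fun h => hcm h.symm⟩),
            Set.ncard_sdiff_singleton_of_mem (show c ∈ G.neighborSet v from hvc.1)]
          have := hdeg v
          omega) v
        refine ⟨w1, fun w hw1 hw2 => hw w ⟨⟨hw1.1, hw2⟩, ?_⟩⟩
        rintro rfl
        exact hw1.2 hvm.2
      lf := by
        rintro u v huv ⟨m, hm⟩ ⟨m', hm'⟩
        have h3 := hind u m v m' hm.1 hm.2 hm'.1 hm'.2 (Or.inr huv.1)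
        rw [Sym2.eq_iff] at h3
        rcases h3 with ⟨h, -⟩ | ⟨h, h'⟩
        · exact huv.1.ne h
        · subst h'
          exact huv.2 hm.2 }
  obtain ⟨f, hf⟩ := LinkFree hA
  refine good_of_lab (G := G) (H := H) (M := M) (R := R) hf ?_
  intro u v huv
  by_cases h : R u = R v
  · exact Or.inr ⟨⟨huv, h⟩, h⟩
  · exact Or.inl ⟨⟨huv, h⟩, h⟩

end H3DA
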