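import Pool.Agent.Helper3_DA.Unc

/-!
The cycle lemma: an even closed sequence of labels near given labels, consecutive ones near each other.
-/

set_option autoImplicit false
set_option linter.unusedSectionVars false

namespace CLB.H3

open Finset Classical
open H3DA (Q neg nr)
open CLB.H95

/-- Two distinct elements. -/
lemma two_elems {L : Finset Q} (h : 2 ≤ L.card) : ∃ u u', u ∈ L ∧ u' ∈ L ∧ u ≠ u' := by
  obtain ⟨x, hx, y, hy, hxy⟩ := Finset.one_lt_card.1 h
  exact ⟨x, y, hx, hy, hxy⟩

/-- Partial sequences in lists, consecutive elements not antipodal. -/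
def Rch (L : ℕ → Finset Q) (j : ℕ) (x y : Q) : Prop :=
  ∃ t : ℕ → Q, (∀ i ≤ j, t i ∈ L i) ∧ (∀ i < j, t (i + 1) ≠ neg (t i)) ∧ t 0 = x ∧ t j = y

lemma Rch.step {L : ℕ → Finset Q} {j : ℕ} {x y u : Q} (h : Rch L j x y) (hu : u ∈ L (j + 1))
    (hne : u ≠ neg y) : Rch L (j + 1) x u := by
  obtain ⟨t, h1, h2, h3, h4⟩ := h
  refine ⟨fun i => if i ≤ j then t i else u, ?_, ?_, ?_, ?_⟩
  · intro i hi
    by_cases h : i ≤ j
    · simp only [h, if_true]; exact h1 i h
    · have : i = j + 1 := by omega
      subst this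
      simp only [h, if_false]; exact hu
  · intro i hi
    by_cases h : i + 1 ≤ j
    · have h' : i ≤ j := by omega
      simp only [h, h', if_true]; exact h2 i (by omega)
    · have : i = j := by omega
      subst this
      simp only [h, if_false, le_refl, if_true, h4]; exact hne
  · simp [h3]
  · have : ¬ (j + 1 ≤ j) := by omega
    simp only [this, if_false]

/-- Colouring of a cycle from lists of size two, conflicts are antipodal pairs. -/
theorem list_cycle {L : ℕ → Finset Q} (hL : ∀ j, 2 ≤ (L j).card) (k : ℕ) :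
    ∃ x y, Rch L k x y ∧ x ≠ neg y := by
  obtain ⟨w, w', hw, hw', hne⟩ := two_elems (hL 0)
  have key : ∀ j, (∃ x y y', y ≠ y' ∧ Rch L j x y ∧ Rch L j x y') ∨
      (Rch L j w w ∧ Rch L j w' w') ∨ (Rch L j w (neg w') ∧ Rch L j w' (neg w)) := by
    intro j
    induction j with
    | zero =>
      refine Or.inr (Or.inl ⟨?_, ?_⟩)
      · exact ⟨fun _ => w, fun i hi => by rw [Nat.le_zero.1 hi]; exact hw, fun i hi => by omega, rfl, rfl⟩
      · exact ⟨fun _ => w', fun i hi => by rw [Nat.le_zero.1 hi]; exact hw', fun i hi => by omega, rfl, rfl⟩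
    | succ j ih =>
      obtain ⟨u, u', hu, hu', huu⟩ := two_elems (hL (j + 1))
      rcases ih with ⟨x, y, y', hyy, h1, h2⟩ | ⟨h1, h2⟩ | ⟨h1, h2⟩
      · left
        have all : ∀ v ∈ L (j + 1), Rch L (j + 1) x v := by
          intro v hv
          by_cases h : v = neg y
          · refine h2.step hv (fun h' => hyy ?_)
            exact H3DA.neg_inj (h.symm.trans h')
          · exact h1.step hv h
        exact ⟨x, u, u', huu, all u hu, all u' hu'⟩
      · by_cases ha : u ≠ neg w ∧ u' ≠ neg w
        · exact Or.inl ⟨w, u, u', huu, h1.step hu ha.1, h1.step hu' ha.2⟩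
        by_cases hb : u ≠ neg w' ∧ u' ≠ neg w'
        · exact Or.inl ⟨w', u, u', huu, h2.step hu hb.1, h2.step hu' hb.2⟩
        have hww : neg w ≠ neg w' := fun h => hne (H3DA.neg_inj h)
        have m1 : neg w ∈ L (j + 1) := by
          by_contra hcon
          exact ha ⟨fun h => hcon (h ▸ hu), fun h => hcon (h ▸ hu')⟩
        have m2 : neg w' ∈ L (j + 1) := by
          by_contra hcon
          exact hb ⟨fun h => hcon (h ▸ hu), fun h => hcon (h ▸ hu')⟩
        exact Or.inr (Or.inr ⟨h1.step m2 (Ne.symm hww), h2.step m1 hww⟩)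
      · by_cases ha : u ≠ w' ∧ u' ≠ w'
        · exact Or.inl ⟨w, u, u', huu, h1.step hu (by rw [H3DA.neg_neg]; exact ha.1),
            h1.step hu' (by rw [H3DA.neg_neg]; exact ha.2)⟩
        by_cases hb : u ≠ w ∧ u' ≠ w
        · exact Or.inl ⟨w', u, u', huu, h2.step hu (by rw [H3DA.neg_neg]; exact hb.1),
            h2.step hu' (by rw [H3DA.neg_neg]; exact hb.2)⟩
        have m1 : w' ∈ L (j + 1) := by
          by_contra hcon
          exact ha ⟨fun h => hcon (h ▸ hu), fun h => hcon (h ▸ hu')⟩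
        have m2 : w ∈ L (j + 1) := by
          by_contra hcon
          exact hb ⟨fun h => hcon (h ▸ hu), fun h => hcon (h ▸ hu')⟩
        exact Or.inr (Or.inl ⟨h1.step m2 (by rw [H3DA.neg_neg]; exact hne),
          h2.step m1 (by rw [H3DA.neg_neg]; exact Ne.symm hne)⟩)
  rcases key k with ⟨x, y, y', hyy, h1, h2⟩ | ⟨h1, h2⟩ | ⟨h1, h2⟩
  · by_cases h : x = neg y
    · refine ⟨x, y', h2, fun h' => hyy (H3DA.neg_inj (h.symm.trans h'))⟩
    · exact ⟨x, y, h1, h⟩
  · exact ⟨w, w, h1, fun h => H3DA.neg_ne w h.symm⟩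
  · exact ⟨w, neg w', h1, by rw [H3DA.neg_neg]; exact hne⟩

lemma two_of_sdiff (c p q : Q) : 2 ≤ (ball c \ {p, q}).card := by
  have h1 := card_sdiff_ge (ball c) {p, q}
  have h2 : ({p, q} : Finset Q).card ≤ 2 := Finset.card_le_two
  rw [ball_card] at h1
  omega

/-- The cycle lemma for a cycle with the `2 * (k + 1)` vertices `0, ..., 2 * k + 1`. -/
theorem cycle_labels (α : ℕ → Q) (k : ℕ) : ∃ w : ℕ → Q, (∀ i ≤ 2 * k + 1, nr (w i) (α i) = true) ∧
    (∀ i < 2 * k + 1, nr (w i) (w (i + 1)) = true) ∧ nr (w (2 * k + 1)) (w 0) = true := by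
  set L : ℕ → Finset Q := fun j =>
    ball (α (2 * j)) \ {neg (if j = 0 then α (2 * k + 1) else α (2 * j - 1)), neg (α (2 * j + 1))} with hL
  obtain ⟨x, y, ⟨t, h1, h2, h3, h4⟩, hxy⟩ := list_cycle (L := L) (fun j => two_of_sdiff _ _ _) k
  have hball : ∀ j ≤ k, nr (α (2 * j)) (t j) = true := by
    intro j hj
    have := h1 j hj
    simp only [hL, mem_sdiff, mem_ball] at this
    exact this.1
  have hleft : ∀ j ≤ k, t j ≠ neg (if j = 0 then α (2 * k + 1) else α (2 * j - 1)) := by
    intro j hj h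
    have := h1 j hj
    simp only [hL, mem_sdiff, mem_insert, mem_singleton, not_or] at this
    exact this.2.1 h
  have hright : ∀ j ≤ k, t j ≠ neg (α (2 * j + 1)) := by
    intro j hj h
    have := h1 j hj
    simp only [hL, mem_sdiff, mem_insert, mem_singleton, not_or] at this
    exact this.2.2 h
  -- the odd vertices
  have hodd : ∀ j, ∃ u, j ≤ k → nr u (α (2 * j + 1)) = true ∧ nr u (t j) = true ∧
      (j < k → nr u (t (j + 1)) = true) ∧ (j = k → nr u (t 0) = true) := by
    intro j
    by_cases hj : j ≤ k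
    · by_cases hjk : j < k
      · have e : ¬ (j + 1 = 0) := by omega
        have e' : 2 * (j + 1) - 1 = 2 * j + 1 := by omega
        have h5 := hleft (j + 1) (by omega)
        rw [if_neg e, e'] at h5
        obtain ⟨u, hu1, hu2, hu3⟩ := H3DA.near3 (hright j hj) (H3DA.ne_neg_symm (h2 j hjk))
          (H3DA.ne_neg_symm h5)
        exact ⟨u, fun _ => ⟨hu2, hu1, fun _ => hu3, fun h => absurd h hjk.ne⟩⟩
      · have hjk' : j = k := by omega
        subst hjk'
        have h5 := hleft 0 (by omega)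
        rw [if_pos rfl] at h5
        have h6 : t j ≠ neg (t 0) := by
          rw [h3, h4]; exact H3DA.ne_neg_symm hxy
        obtain ⟨u, hu1, hu2, hu3⟩ := H3DA.near3 (hright j hj) h6 (H3DA.ne_neg_symm h5)
        exact ⟨u, fun _ => ⟨hu2, hu1, fun h => absurd h hjk, fun _ => hu3⟩⟩
    · exact ⟨x, fun h => absurd h hj⟩
  choose o ho using hodd
  refine ⟨fun i => if i % 2 = 0 then t (i / 2) else o (i / 2), ?_, ?_, ?_⟩
  · intro i hi
    by_cases h : i % 2 = 0
    · have e : 2 * (i / 2) = i := by omega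
      have h5 := hball (i / 2) (by omega)
      rw [e] at h5
      simp only [h, if_true]
      exact nr_symm h5
    · have e : 2 * (i / 2) + 1 = i := by omega
      have h5 := (ho (i / 2) (by omega)).1
      rw [e] at h5
      simp only [h, if_false]
      exact h5
  · intro i hi
    by_cases h : i % 2 = 0
    · have h' : ¬ ((i + 1) % 2 = 0) := by omega
      have e : (i + 1) / 2 = i / 2 := by omega
      simp only [h, h', if_true, if_false, e]
      exact nr_symm (ho (i / 2) (by omega)).2.1
    · have h' : (i + 1) % 2 = 0 := by omega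
      have e : (i + 1) / 2 = i / 2 + 1 := by omega
      simp only [h, h', if_true, if_false, e]
      exact (ho (i / 2) (by omega)).2.2.1 (by omega)
  · have h' : ¬ ((2 * k + 1) % 2 = 0) := by omega
    have e : (2 * k + 1) / 2 = k := by omega
    simp only [h', if_false, e, Nat.zero_mod, if_true, Nat.zero_div]
    exact (ho k (le_refl k)).2.2.2 rfl

end CLB.H3
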