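import Pool.Agent.Helper3_DA.Port

/-!
In a minimal counterexample no two uncovered vertices are adjacent.
-/

set_option autoImplicit false

namespace H3DA

variable {V : Type*} {H M : SimpleGraph V} {R : V → Bool}

/-- `z` is a possible label of `p` if its neighbour `x` is ignored. -/
def Opt (H : SimpleGraph V) (f : V → Q) (p x : V) (z : Q) : Prop :=
  ∀ w, H.Adj p w → w ≠ x → nr z (f w) = true

lemma Opt.congr {f g : V → Q} {p x : V} {z : Q} (h : Opt H f p x z)
    (he : ∀ w, H.Adj p w → w ≠ x → g w = f w) : Opt H g p x z := by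
  intro w h1 h2
  rw [he w h1 h2]
  exact h w h1 h2

lemma opt_two (hA : Adm H M R) {p x : V} (hpx : H.Adj p x) (f : V → Q)
    (hf : Opt H f p x (f p)) (b : Q) : ∃ z, z ≠ b ∧ Opt H f p x z := by
  classical
  obtain ⟨w1, w2, hw⟩ := hA.d3 p x hpx
  let a : Q := if H.Adj p w1 ∧ w1 ≠ x then f w1 else f p
  let a' : Q := if H.Adj p w2 ∧ w2 ≠ x then f w2 else f p
  have ha : nr (f p) a = true := by
    by_cases h : H.Adj p w1 ∧ w1 ≠ x
    · simp only [a, if_pos h]; exact hf w1 h.1 h.2
    · simp only [a, if_neg h]; exact nr_self _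
  have ha' : nr (f p) a' = true := by
    by_cases h : H.Adj p w2 ∧ w2 ≠ x
    · simp only [a', if_pos h]; exact hf w2 h.1 h.2
    · simp only [a', if_neg h]; exact nr_self _
  obtain ⟨z, h1, h2, h3⟩ := opt2 (nr_common ha ha') b
  refine ⟨z, h1, fun w hpw hwx => ?_⟩
  rcases hw w hpw hwx with h | h
  · subst h
    have : a = f w := by simp only [a, if_pos (And.intro hpw hwx)]
    rw [← this]; exact h2
  · subst h
    have : a' = f w := by simp only [a', if_pos (And.intro hpw hwx)]
    rw [← this]; exact h3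

open Classical in
lemma off_upd {x p : V} {f : V → Q} (hp : ¬ Cov M p) (hf : Off H M (· = x) f) {z : Q}
    (hz : Opt H f p x z) : Off H M (· = x) (Function.update f p z) := by
  constructor
  · intro u v hu hv huv
    by_cases h1 : u = p
    · subst h1
      have h2 : v ≠ u := huv.ne'
      rw [Function.update_self, Function.update_of_ne h2]
      exact hz v huv hv
    · by_cases h2 : v = p
      · subst h2
        rw [Function.update_self, Function.update_of_ne h1, nr_comm]
        exact hz u huv.symm hu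
      · rw [Function.update_of_ne h1, Function.update_of_ne h2]
        exact hf.1 u v hu hv huv
  · intro u v hu hv huv
    have h1 : u ≠ p := by rintro rfl; exact hp ⟨v, huv⟩
    have h2 : v ≠ p := by rintro rfl; exact hp ⟨u, huv.symm⟩
    rw [Function.update_of_ne h1, Function.update_of_ne h2]
    exact hf.2 u v hu hv huv

lemma stuck (hm : MinBad H M R) {x : V} (hx : ¬ Cov M x) {f : V → Q} (hf : Off H M (· = x) f) (y : Q) :
    ¬ ∀ w, H.Adj x w → nr y (f w) = true := by
  classical
  intro hy
  apply hm.bad (Function.update f x y)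
  constructor
  · intro u v huv
    by_cases h1 : u = x
    · subst h1
      rw [Function.update_self, Function.update_of_ne huv.ne']
      exact hy v huv
    · by_cases h2 : v = x
      · subst h2
        rw [Function.update_self, Function.update_of_ne h1, nr_comm]
        exact hy u huv.symm
      · rw [Function.update_of_ne h1, Function.update_of_ne h2]
        exact hf.1 u v h1 h2 huv
  · intro u v huv
    have h1 : u ≠ x := by rintro rfl; exact hx ⟨v, huv⟩
    have h2 : v ≠ x := by rintro rfl; exact hx ⟨u, huv.symm⟩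
    rw [Function.update_of_ne h1, Function.update_of_ne h2]
    exact hf.2 u v h1 h2 huv

/-- The key relation at an edge between two uncovered vertices. -/
lemma key (hm : MinBad H M R) {x p : V} (hx : ¬ Cov M x) (hp : ¬ Cov M p) (hxp : H.Adj x p) {w1 w2 : V}
    (hw : ∀ w, H.Adj x w → w ≠ p → w = w1 ∨ w = w2) {f : V → Q} (hf : Off H M (· = x) f) {y : Q}
    (hy : ∀ w, H.Adj x w → w ≠ p → nr y (f w) = true) :
    H.Adj x w1 ∧ w1 ≠ p ∧ H.Adj x w2 ∧ w2 ≠ p ∧ f w1 ≠ f w2 ∧ f w1 ≠ neg (f w2) ∧
      ∀ z, Opt H f p x z ↔ (z = neg (f w1) ∨ z = neg (f w2)) := by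
  classical
  have hpx : H.Adj p x := hxp.symm
  have hfp : Opt H f p x (f p) := fun w h1 h2 => hf.1 p w hxp.ne' h2 h1
  -- labels a, b which cover the constraints
  have main : ∀ a b : Q, a ≠ neg b → (∀ w, H.Adj x w → w ≠ p → f w = a ∨ f w = b) →
      a ≠ b ∧ ∀ z, Opt H f p x z ↔ (z = neg a ∨ z = neg b) := by
    intro a b hab hcov
    have h1 : ∀ z, Opt H f p x z → (z = neg a ∨ z = neg b) := by
      intro z hz
      by_contra hcon
      push Not at hcon
      obtain ⟨y', h1, h2, h3⟩ := near3 hcon.1 hcon.2 hab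
      have h4 := off_upd hp hf hz
      apply stuck hm hx h4 y'
      intro w hw'
      by_cases hwp : w = p
      · rw [hwp, Function.update_self]; exact h1
      · rw [Function.update_of_ne hwp]
        rcases hcov w hw' hwp with h | h
        · rw [h]; exact h2
        · rw [h]; exact h3
    obtain ⟨z1, h2, h3⟩ := opt_two hm.toAdm hpx f hfp (neg a)
    obtain ⟨z2, h4, h5⟩ := opt_two hm.toAdm hpx f hfp (neg b)
    have h6 : z1 = neg b := (h1 z1 h3).resolve_left h2
    have h7 : z2 = neg a := (h1 z2 h5).resolve_right h4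
    subst h6 h7
    refine ⟨fun h => h2 (by rw [h]), fun z => ⟨h1 z, ?_⟩⟩
    rintro (rfl | rfl)
    · exact h5
    · exact h3
  have hA1 : H.Adj x w1 ∧ w1 ≠ p := by
    by_contra hcon
    have h1 : ∀ w, H.Adj x w → w ≠ p → w = w2 := by
      intro w h2 h3
      rcases hw w h2 h3 with h | h
      · exact absurd ⟨h ▸ h2, h ▸ h3⟩ hcon
      · exact h
    by_cases hc2 : H.Adj x w2 ∧ w2 ≠ p
    · exact (main (f w2) (f w2) (neg_ne _).symm (fun w h2 h3 => Or.inl (by rw [h1 w h2 h3]))).1 rfl
    · exact (main y y (neg_ne _).symm (fun w h2 h3 => absurd ⟨(h1 w h2 h3) ▸ h2, (h1 w h2 h3) ▸ h3⟩ hc2)).1 rfl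
  have hA2 : H.Adj x w2 ∧ w2 ≠ p := by
    by_contra hcon
    have h1 : ∀ w, H.Adj x w → w ≠ p → w = w1 := by
      intro w h2 h3
      rcases hw w h2 h3 with h | h
      · exact h
      · exact absurd ⟨h ▸ h2, h ▸ h3⟩ hcon
    exact (main (f w1) (f w1) (neg_ne _).symm (fun w h2 h3 => Or.inl (by rw [h1 w h2 h3]))).1 rfl
  have hab : f w1 ≠ neg (f w2) := nr_common (hy w1 hA1.1 hA1.2) (hy w2 hA2.1 hA2.2)
  obtain ⟨h1, h2⟩ := main (f w1) (f w2) hab (fun w h2 h3 => (hw w h2 h3).imp (fun h => by rw [h]) (fun h => by rw [h]))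
  exact ⟨hA1.1, hA1.2, hA2.1, hA2.2, h1, hab, h2⟩

lemma start (hm : MinBad H M R) {x p : V} (hxp : H.Adj x p) :
    ∃ f : V → Q, Off H M (· = x) f ∧ ∃ y, ∀ w, H.Adj x w → w ≠ p → nr y (f w) = true := by
  obtain ⟨f, h1, h2⟩ := hm.delH x p hxp
  refine ⟨f, ⟨fun u v hu hv huv => h1 u v huv (fun h => hu h.1) (fun h => hv h.2),
    fun u v _ _ huv => h2 u v huv⟩, f x, fun w hw hwp => h1 x w hw (fun h => hwp h.2) (fun h => hxp.ne h.1)⟩

/-- An uncovered vertex has at most one uncovered neighbour. -/
lemma center (hm : MinBad H M R) {x p q : V} (hx : ¬ Cov M x) (hp : ¬ Cov M p) (hq : ¬ Cov M q)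
    (hxp : H.Adj x p) (hxq : H.Adj x q) (hpq : p ≠ q) : False := by
  classical
  have hA := hm.toAdm
  obtain ⟨f, hf, y, hy⟩ := start hm hxp
  obtain ⟨w1, w2, hw⟩ := hA.d3 x p hxp
  -- order the two other neighbours as c, q
  obtain ⟨c, hc⟩ : ∃ c, ∀ w, H.Adj x w → w ≠ p → w = c ∨ w = q := by
    rcases hw q hxq hpq.symm with h | h
    · exact ⟨w2, fun w h1 h2 => by rw [h]; exact (hw w h1 h2).symm⟩
    · exact ⟨w1, fun w h1 h2 => by rw [h]; exact hw w h1 h2⟩
  obtain ⟨hxc, hcp, -, -, hcq, hcq', hopt⟩ := key hm hx hp hxp hc hf hy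
  have hRpq : R p = R q := beq_of_ne (hA.hR x p hxp) (hA.hR x q hxq)
  have hRpc : R p = R c := beq_of_ne (hA.hR x p hxp) (hA.hR x c hxc)
  have hcq0 : c ≠ q := fun h => hcq (by rw [h])
  have side : ∀ u v, R u = R v → ∀ w, H.Adj u w → w ≠ v := by
    intro u v huv w huw h
    subst h
    exact hA.hR u w huw huv
  -- q can get the antipode of the label of c
  have hq1 : Opt H f q x (neg (f c)) := by
    obtain ⟨z, hz1, hz2⟩ := opt_two hA hxq.symm f (fun w h1 h2 => hf.1 q w hxq.ne' h2 h1) (f q)
    by_cases hz : z = neg (f c)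
    · rw [← hz]; exact hz2
    · exfalso
      have hf1 := off_upd hq hf hz2
      obtain ⟨y', hy1, hy2⟩ := near2 hz
      have hfc : Function.update f q z c = f c := Function.update_of_ne hcq0 _ _
      have hfq : Function.update f q z q = z := Function.update_self _ _ _
      have h1 := key hm hx hp hxp hc hf1 (y := y') (by
        intro w h1 h2
        rcases hc w h1 h2 with h | h
        · rw [h, hfc]; exact hy2
        · rw [h, hfq]; exact hy1)
      have h2 : Opt H (Function.update f q z) p x (neg (f q)) := by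
        refine ((hopt _).2 (Or.inr rfl)).congr ?_
        intro w h3 _
        exact Function.update_of_ne (side p q hRpq w h3) _ _
      have h3 := (h1.2.2.2.2.2.2 _).1 h2
      rw [hfc, hfq] at h3
      rcases h3 with h3 | h3
      · exact hcq (neg_inj h3).symm
      · exact hz1 (neg_inj h3).symm
  have hp1 : Opt H f p x (neg (f c)) := (hopt _).2 (Or.inl rfl)
  -- relabel q and p
  have hf1 := off_upd hq hf hq1
  have hp2 : Opt H (Function.update f q (neg (f c))) p x (neg (f c)) :=
    hp1.congr (fun w h3 _ => Function.update_of_ne (side p q hRpq w h3) _ _)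
  have hf2 := off_upd hp hf1 hp2
  set g := Function.update (Function.update f q (neg (f c))) p (neg (f c)) with hg
  have gp : g p = neg (f c) := Function.update_self _ _ _
  have gq : g q = neg (f c) := by
    rw [hg, Function.update_of_ne hpq.symm, Function.update_self]
  have gc : g c = f c := by
    rw [hg, Function.update_of_ne hcp, Function.update_of_ne hcq0]
  by_cases hcc : Cov M c
  · obtain ⟨c', hc'⟩ := hcc
    obtain ⟨g', h1, h2, h3⟩ := port_lemma hA hxc hc' g hf2 (f c)
    have hpc' : p ≠ c' := by rintro rfl; exact hp ⟨c, hc'.symm⟩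
    have hqc' : q ≠ c' := by rintro rfl; exact hq ⟨c, hc'.symm⟩
    have g'p : g' p = neg (f c) := by rw [h3 p hcp.symm hpc' (Or.inl hRpc), gp]
    have g'q : g' q = neg (f c) := by rw [h3 q hcq0.symm hqc' (Or.inl (hRpq.symm.trans hRpc)), gq]
    obtain ⟨y', h4, h5, -⟩ := near3 (y := g' c) (z := neg (f c)) (w := neg (f c))
      (by rw [neg_neg]; exact h2) (by rw [neg_neg]; exact h2) (by rw [neg_neg]; exact neg_ne _)
    apply stuck hm hx h1 y'
    intro w hxw
    by_cases hwp : w = p
    · rw [hwp, g'p]; exact h5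
    · rcases hc w hxw hwp with h | h
      · rw [h]; exact h4
      · rw [h, g'q]; exact h5
  · -- c is uncovered as well: it can get the antipode of the label of q
    have hc1 : Opt H f c x (neg (f q)) := by
      obtain ⟨z, hz1, hz2⟩ := opt_two hA hxc.symm f (fun w h1 h2 => hf.1 c w hxc.ne' h2 h1) (f c)
      by_cases hz : z = neg (f q)
      · rw [← hz]; exact hz2
      · exfalso
        have hf1 := off_upd hcc hf hz2
        obtain ⟨y', hy1, hy2⟩ := near2 hz
        have hfq : Function.update f c z q = f q := Function.update_of_ne hcq0.symm _ _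
        have hfc : Function.update f c z c = z := Function.update_self _ _ _
        have h1 := key hm hx hp hxp hc hf1 (y := y') (by
          intro w h1 h2
          rcases hc w h1 h2 with h | h
          · rw [h, hfc]; exact hy1
          · rw [h, hfq]; exact hy2)
        have h2 : Opt H (Function.update f c z) p x (neg (f c)) := by
          refine ((hopt _).2 (Or.inl rfl)).congr ?_
          intro w h3 _
          exact Function.update_of_ne (side p c hRpc w h3) _ _
        have h3 := (h1.2.2.2.2.2.2 _).1 h2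
        rw [hfc, hfq] at h3
        rcases h3 with h3 | h3
        · exact hz1 (neg_inj h3).symm
        · exact hcq (neg_inj h3)
    have hc2 : Opt H g c x (neg (f q)) := by
      refine hc1.congr ?_
      intro w h3 _
      rw [hg, Function.update_of_ne (side c p hRpc.symm w h3),
        Function.update_of_ne (side c q (hRpc.symm.trans hRpq) w h3)]
    have hf3 := off_upd hcc hf2 hc2
    obtain ⟨y', h4, h5, -⟩ := near3 (y := neg (f q)) (z := neg (f c)) (w := neg (f c))
      (by rw [neg_neg]; exact fun h => hcq' h.symm) (by rw [neg_neg]; exact fun h => hcq' h.symm)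
      (by rw [neg_neg]; exact neg_ne _)
    apply stuck hm hx hf3 y'
    intro w hxw
    by_cases hwp : w = p
    · rw [hwp, Function.update_of_ne hcp.symm, gp]; exact h5
    · rcases hc w hxw hwp with h | h
      · rw [h, Function.update_self]; exact h4
      · rw [h, Function.update_of_ne hcq0.symm, gq]; exact h5

/-- No edge joins two uncovered vertices. -/
theorem no_uu (hm : MinBad H M R) {x p : V} (hx : ¬ Cov M x) (hp : ¬ Cov M p) (hxp : H.Adj x p) : False := by
  classical
  have hA := hm.toAdm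
  obtain ⟨f, hf, y, hy⟩ := start hm hxp
  obtain ⟨c, q, hc⟩ := hA.d3 x p hxp
  obtain ⟨hxc, hcp, hxq, hqp, hcq, hcq', hopt⟩ := key hm hx hp hxp hc hf hy
  have hcq0 : c ≠ q := fun h => hcq (by rw [h])
  have hCc : Cov M c := by
    by_contra h
    exact center hm hx hp h hxp hxc hcp.symm
  have hCq : Cov M q := by
    by_contra h
    exact center hm hx hp h hxp hxq hqp.symm
  have hCp : ∀ w, H.Adj p w → w ≠ x → Cov M w := by
    intro w h1 h2
    by_contra h
    exact center hm hp hx h hxp.symm h1 h2.symm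
  have hRpc : R p = R c := beq_of_ne (hA.hR x p hxp) (hA.hR x c hxc)
  have hRpq : R p = R q := beq_of_ne (hA.hR x p hxp) (hA.hR x q hxq)
  have hRcq : R c = R q := hRpc.symm.trans hRpq
  obtain ⟨c', hc'⟩ := hCc
  obtain ⟨q', hq'⟩ := hCq
  have hRc' : R c = R c' := hA.mR c c' hc'
  have hRq' : R q = R q' := hA.mR q q' hq'
  have hqc' : q ≠ c' := by
    rintro rfl
    exact hA.tri c q x hc' hxc.symm hxq.symm
  have hcq'' : c ≠ q' := by
    rintro rfl
    exact hA.tri q c x hq' hxq.symm hxc.symm
  have hpc' : p ≠ c' := by rintro rfl; exact hp ⟨c, hc'.symm⟩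
  have hpq' : p ≠ q' := by rintro rfl; exact hp ⟨q, hq'.symm⟩
  have side : ∀ u v, R u = R v → ∀ w, H.Adj u w → w ≠ v := by
    intro u v huv w huw h
    subst h
    exact hA.hR u w huw huv
  -- relabel c
  obtain ⟨g1, h1, h2, h3⟩ := port_lemma hA hxc hc' f hf (f c)
  have g1q : g1 q = f q := h3 q hcq0.symm hqc' (Or.inl hRcq.symm)
  have g1p : ∀ w, H.Adj p w → w ≠ x → g1 w = f w := fun w hw hwx =>
    h3 w (side p c hRpc w hw) (side p c' (hRpc.trans hRc') w hw) (Or.inr (hCp w hw hwx))
  have g1c : g1 c = neg (f q) := by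
    by_contra hne
    obtain ⟨y', hy1, hy2⟩ := near2 hne
    have h4 := key hm hx hp hxp hc h1 (y := y') (by
      intro w h4 h5
      rcases hc w h4 h5 with h | h
      · rw [h]; exact hy1
      · rw [h, g1q]; exact hy2)
    have h5 : Opt H g1 p x (neg (f c)) := ((hopt _).2 (Or.inl rfl)).congr g1p
    have h6 := (h4.2.2.2.2.2.2 _).1 h5
    rcases h6 with h6 | h6
    · exact h2 (neg_inj h6).symm
    · rw [g1q] at h6
      exact hcq (neg_inj h6)
  -- relabel q
  obtain ⟨g2, h4, h5, h6⟩ := port_lemma hA hxq hq' g1 h1 (f q)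
  have g2c : g2 c = neg (f q) := by rw [h6 c hcq0 hcq'' (Or.inl hRcq), g1c]
  have g2p : ∀ w, H.Adj p w → w ≠ x → g2 w = f w := fun w hw hwx => by
    rw [h6 w (side p q hRpq w hw) (side p q' (hRpq.trans hRq') w hw) (Or.inr (hCp w hw hwx)), g1p w hw hwx]
  have fin : ∀ ζ : Q, Opt H f p x ζ → ζ ≠ f q → ζ ≠ neg (g2 q) → False := by
    intro ζ hζ h7 h8
    have h9 := off_upd hp h4 (hζ.congr g2p)
    obtain ⟨y', hy1, hy2, hy3⟩ := near3 (y := ζ) (z := neg (f q)) (w := g2 q)
      (by rw [neg_neg]; exact h7) h8 (fun h => h5 (neg_inj h).symm)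
    apply stuck hm hx h9 y'
    intro w hxw
    by_cases hwp : w = p
    · rw [hwp, Function.update_self]; exact hy1
    · rw [Function.update_of_ne hwp]
      rcases hc w hxw hwp with h | h
      · rw [h, g2c]; exact hy2
      · rw [h]; exact hy3
  by_cases h7 : g2 q = f c
  · refine fin (neg (f q)) ((hopt _).2 (Or.inr rfl)) (neg_ne _) ?_
    rw [h7]
    exact fun h => hcq (neg_inj h).symm
  · refine fin (neg (f c)) ((hopt _).2 (Or.inl rfl)) ?_ ?_
    · intro h
      exact hcq' (by rw [← h, neg_neg])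
    · exact fun h => h7 (neg_inj h).symm

end H3DA
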