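import Pool.Agent.Helper3_DA.CritK

/-!
Full units of a linked chain have a leaf port.
-/

set_option autoImplicit false
set_option linter.unusedSectionVars false

namespace CLB.H3

open Finset Classical
open H3DA (Q neg nr)
open CLB.H95

variable {V : Type*} {G : SimpleGraph V} {R : V → Bool} [Fintype V]
  {m : ℕ} {z c : ℕ → V}

/-- At most two labels of an unlinked vertex `q` of a caterpillar are bad for the third neighbour. -/
lemma bad_set (hG : ClassC G R) (hc : Crit G R) (hcat : Cat G R m z c) {p q z0 : V}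
    (hqp : Me G R q p) (hz0 : G.Adj q z0) (hzK : z0 ∈ cSupp m z) (hq : ∀ w, ¬ Lk G R q w) {f : V → Q}
    (hf : ∀ u v, G.Adj u v → ¬ (u ∈ cSupp m z ∧ v ∈ cSupp m z) → okE R f u v) :
    ∃ F : Finset Q, F.card ≤ 2 ∧ ∀ g : V → Q, (∀ v, v ≠ p → v ≠ q → g v = f v) → g q ∉ F →
      (∀ v b, IsTwo G R v q b → g q ≠ neg (g b)) ∧
      ∀ m' z' c', Cat G R m' z' c' → (∀ v, v ∈ cSupp m z → v ∉ cSupp m' z') →
        (∀ l ≤ m' + 1, c' l ≠ p) → CExt m' (fun l => g (c' l)) := by
  obtain ⟨f1, f2, f3, f4⟩ := fits_other hcat hf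
  have hqc : Cov G R q := hqp.cov
  have hpz : p ≠ z0 := by
    rintro rfl
    obtain ⟨i, h1, h2, h3⟩ := hzK
    exact hcat.unc i h1 h2 (h3 ▸ hqp.cov')
  -- an IsTwo vertex is not in `K`
  have htwoK : ∀ v a b, IsTwo G R v a b → v ∉ cSupp m z := by
    rintro v a b hT ⟨i, h1, h2, rfl⟩
    exact isTwo_not_cat hcat h1 h2 hT
  have hbp : ∀ v b, IsTwo G R v q b → b ≠ p ∧ b ≠ q := by
    rintro v b ⟨h1, h2, h3, h4, h5, h6, h7⟩
    refine ⟨?_, h4.symm⟩
    rintro rfl
    exact hG.tri _ _ _ h2 hqp.1 h3
  -- the uncovered neighbours of `q` outside `K`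
  have huniq : ∀ v v', G.Adj q v → G.Adj q v' → ¬ Cov G R v → ¬ Cov G R v' → v ∉ cSupp m z →
      v' ∉ cSupp m z → v = v' := by
    intro v v' hv hv' hcv hcv' hvK hvK'
    have h1 : p ≠ v := by rintro rfl; exact hcv hqp.cov'
    have h2 : z0 ≠ v := by rintro rfl; exact hvK hzK
    rcases hG.third hqp.1 hz0 hv hpz h1 h2 hv' with h | h | h
    · exact absurd (h ▸ hqp.cov') hcv'
    · exact absurd (h ▸ hzK) hvK'
    · exact h.symm
  by_cases hex : ∃ v, G.Adj q v ∧ ¬ Cov G R v ∧ v ∉ cSupp m z
  swap
  · -- no other component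
    push Not at hex
    refine ⟨∅, by simp, fun g hg _ => ⟨fun v b hT => ?_, fun m' z' c' hC hd hp' => ?_⟩⟩
    · exact absurd (hex v hT.2.1.symm hT.1) (htwoK v _ _ hT)
    · have hne : ∀ l ≤ m' + 1, c' l ≠ q := by
        intro l hl he
        have ha := cat_adj_pos hC hl
        rw [he] at ha
        have h1 : z' (pos m' l) ∈ cSupp m' z' :=
          mem_cSupp (one_le_pos hC.pos) (pos_le hC.pos hl)
        have h2 := hex _ ha (hC.unc _ (one_le_pos hC.pos) (pos_le hC.pos hl))
        exact hd _ h2 h1
      exact (f4 m' z' c' hC hd).congr hC.pos (fun l hl => (hg _ (hp' l hl) (hne l hl)).symm)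
  obtain ⟨v, hqv, hvc, hvK⟩ := hex
  have hvq : ∀ v', G.Adj q v' → ¬ Cov G R v' → v' ∉ cSupp m z → v' = v := fun v' h1 h2 h3 =>
    huniq v' v h1 hqv h2 hvc h3 hvK
  rcases cat_structure hG hc hvc with h1 | ⟨a, b, hT⟩ | ⟨m0, z0', c0, hC0, i0, hi1, hi2, hi3⟩
  · exact absurd hqv.symm (h1 q)
  · -- a vertex with two neighbours
    obtain ⟨b', hT'⟩ : ∃ b', IsTwo G R v q b' := by
      rcases hT.2.2.2.2.2.2 q hqv.symm with h | h
      · exact ⟨b, h ▸ hT⟩
      · exact ⟨a, h ▸ isTwo_symm hT⟩
    refine ⟨{neg (f b')}, by simp, fun g hg hgq => ⟨fun v' b hT2 => ?_, fun m' z' c' hC hd hp' => ?_⟩⟩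
    · have e := hvq v' hT2.2.1.symm hT2.1 (htwoK _ _ _ hT2)
      subst e
      have hb : b = b' := by
        rcases hT'.2.2.2.2.2.2 b hT2.2.2.1 with h | h
        · exact absurd h.symm hT2.2.2.2.1
        · exact h
      subst hb
      rw [mem_singleton] at hgq
      rw [hg b (hbp _ _ hT2).1 (hbp _ _ hT2).2]
      exact hgq
    · have hne : ∀ l ≤ m' + 1, c' l ≠ q := by
        intro l hl he
        have ha := cat_adj_pos hC hl
        rw [he] at ha
        have h1 : z' (pos m' l) ∈ cSupp m' z' :=
          mem_cSupp (one_le_pos hC.pos) (pos_le hC.pos hl)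
        have h2 := hvq _ ha (hC.unc _ (one_le_pos hC.pos) (pos_le hC.pos hl))
          (fun h => hd _ h h1)
        rw [← h2] at hT'
        exact isTwo_not_cat hC (one_le_pos hC.pos) (pos_le hC.pos hl) hT'
      exact (f4 m' z' c' hC hd).congr hC.pos (fun l hl => (hg _ (hp' l hl) (hne l hl)).symm)
  · -- a caterpillar
    subst hi3
    have hv0 : z0' i0 ∈ cSupp m0 z0' := mem_cSupp hi1 hi2
    have hd0 : ∀ v, v ∈ cSupp m z → v ∉ cSupp m0 z0' := by
      intro v hv hv'
      exact hvK (cSupp_subset hC0 hcat hv' hv hv0)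
    obtain ⟨l0, hl0, hcl0, hpl0⟩ := port_exists hC0 hi1 hi2 hqc hqv.symm
    have hJ1 : ∀ l ≤ m0 + 1, c0 l = q → l = l0 := by
      intro l hl he
      have ha := cat_adj_pos hC0 hl
      rw [he] at ha
      have h1 : z0' (pos m0 l) ∈ cSupp m0 z0' :=
        mem_cSupp (one_le_pos hC0.pos) (pos_le hC0.pos hl)
      have h2 := hvq _ ha (hC0.unc _ (one_le_pos hC0.pos) (pos_le hC0.pos hl))
        (fun h => hd0 _ h h1)
      refine port_unique hC0 hl hl0 (by rw [he, hcl0]) ?_
      rw [← pos_eq_cl, h2, hpl0]
    have near0 : ∀ i j, i ≤ m0 + 1 → j ≤ m0 + 1 → pos m0 i = pos m0 j →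
        f (c0 i) ≠ neg (f (c0 j)) := by
      intro i j hi hj hij
      have a1 := (cat_adj_pos hC0 hi).symm
      have a2 := (cat_adj_pos hC0 hj).symm
      rw [← hij] at a2
      have hz1 := one_le_pos (j := i) hC0.pos
      have hz2 := pos_le hC0.pos hi
      have hzu := hC0.unc _ hz1 hz2
      have hzK : ¬ (z0' (pos m0 i) ∈ cSupp m z) := fun h => hd0 _ h (mem_cSupp hz1 hz2)
      have e1 := (hf _ _ a1 (fun h => hzK h.1)).2 (he_of_unc hzu a1).2
      have e2 := (hf _ _ a2 (fun h => hzK h.1)).2 (he_of_unc hzu a2).2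
      exact H3DA.nr_common e1 e2
    have hK : Kills m0 (fun j => c0 j = q) (fun j => f (c0 j)) 0 := by
      by_cases hm1 : m0 = 1
      · subst hm1
        refine kills_star (j₀ := l0) (by omega) hcl0 (fun j hj hJ => hJ1 j (by omega) hJ) ?_
        intro i j hi hj hij _ _
        refine near0 i j (by omega) (by omega) ?_
        have a1 := one_le_pos (m := 1) (j := i) le_rfl
        have a2 := pos_le (m := 1) (j := i) le_rfl hi
        have a3 := one_le_pos (m := 1) (j := j) le_rfl
        have a4 := pos_le (m := 1) (j := j) le_rfl hj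
        omega
      · have hm2 : 2 ≤ m0 := by have := hC0.pos; omega
        have e0 : pos m0 0 = 1 := pos_zero
        have e1 : pos m0 1 = 1 := pos_one hC0.pos
        have e2 : pos m0 m0 = m0 := pos_mid hC0.pos le_rfl
        have e3 : pos m0 (m0 + 1) = m0 := pos_last
        refine kills hm2 (fun h => ?_) (fun h => ?_) ⟨l0, hl0, hcl0⟩ (fun _ _ => ?_) (fun _ _ => ?_)
          (fun h1 h2 => ?_)
        · have := hJ1 0 (by omega) h.1
          have := hJ1 1 (by omega) h.2
          omega
        · have := hJ1 m0 (by omega) h.1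
          have := hJ1 (m0 + 1) (by omega) h.2
          omega
        · exact near0 0 1 (by omega) (by omega) (by rw [e0, e1])
        · exact near0 m0 (m0 + 1) (by omega) le_rfl (by rw [e2, e3])
        · exfalso
          rcases h1 with h1 | h1 <;> rcases h2 with h2 | h2
          · have := hJ1 0 (by omega) h1
            have := hJ1 m0 (by omega) h2
            omega
          · have := hJ1 0 (by omega) h1
            have := hJ1 (m0 + 1) (by omega) h2
            omega
          · have := hJ1 1 (by omega) h1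
            have := hJ1 m0 (by omega) h2
            omega
          · have := hJ1 1 (by omega) h1
            have := hJ1 (m0 + 1) (by omega) h2
            omega
    obtain ⟨F, hF2, -, hF⟩ := hK
    refine ⟨F l0, hF2 l0, fun g hg hgq => ⟨fun v' b hT2 => ?_, fun m' z' c' hC hd hp' => ?_⟩⟩
    · have e := hvq v' hT2.2.1.symm hT2.1 (htwoK _ _ _ hT2)
      rw [e] at hT2
      exact absurd hT2 (fun h => isTwo_not_cat hC0 hi1 hi2 h)
    · by_cases hne : ∀ l ≤ m' + 1, c' l ≠ q
      · exact (f4 m' z' c' hC hd).congr hC.pos (fun l hl => (hg _ (hp' l hl) (hne l hl)).symm)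
      · push Not at hne
        obtain ⟨l, hl, he⟩ := hne
        have ha := cat_adj_pos hC hl
        rw [he] at ha
        have h1 : z' (pos m' l) ∈ cSupp m' z' :=
          mem_cSupp (one_le_pos hC.pos) (pos_le hC.pos hl)
        have h2 := hvq _ ha (hC.unc _ (one_le_pos hC.pos) (pos_le hC.pos hl))
          (fun h => hd _ h h1)
        rw [h2] at h1
        have hS := cSupp_eq hC hC0 h1 hv0
        have hp0 : ∀ l ≤ m0 + 1, c0 l ≠ p := by
          intro l hl he
          have ha := cat_adj_pos hC0 hl
          rw [he] at ha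
          have h3 : z0' (pos m0 l) ∈ cSupp m' z' := by
            rw [hS]; exact mem_cSupp (one_le_pos hC0.pos) (pos_le hC0.pos hl)
          obtain ⟨i, b1, b2, b3⟩ := h3
          have hu := hC.unc i b1 b2
          obtain ⟨l', c1, c2, -⟩ := port_exists hC b1 b2 hqp.cov' (by rw [b3]; exact ha.symm)
          exact hp' l' c1 c2
        rw [cext_iff_fits hC g, hS, ← cext_iff_fits hC0 g]
        refine hF _ (fun j hj hJ => hg _ (hp0 j hj) hJ) (fun j hj hJ => ?_)
        have := hJ1 j hj hJ
        subst this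
        show g (c0 j) ∉ F j
        rw [hJ]
        exact hgq

lemma inner_unique : ∀ (D : Ty) (x y u u' : Q), stp D (neg x) u = true → stp (co D) (neg u) y = true →
    stp D (neg x) u' = true → stp (co D) (neg u') y = true → u = u' := by decide +kernel

/-- **F-LEMMA**: a linked full unit of a caterpillar has a leaf port. -/
theorem full_leaf (hG : ClassC G R) (hc : Crit G R) (hcat : Cat G R m z c) {i j : ℕ}
    (hi : i ≤ m + 1) (hj : j ≤ m + 1) (hme : Me G R (c i) (c j)) {w : V} (hw : Lk G R (c i) w)
    (hinner : ∀ l ≤ m + 1, (c l = c i ∨ c l = c j) → 2 ≤ l ∧ l + 1 ≤ m) : False := by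
  have hm := hcat.pos
  have hi2 := hinner i hi (Or.inl rfl)
  have hj2 := hinner j hj (Or.inr rfl)
  have hm2 : 2 ≤ m := by omega
  obtain ⟨f, D, hK⟩ := exists_ktight hG hc hcat hm2
  obtain ⟨f1, f2, f3, f4⟩ := fits_other hcat hK.ok
  set p := c i with hp
  set q := c j with hq
  have hpq : p ≠ q := hme.ne
  have hfq : f q = neg (f p) := f1 _ _ hme
  have hposi : pos m i = i := pos_mid (by omega) (by omega)
  have hposj : pos m j = j := pos_mid (by omega) (by omega)
  have hzi : G.Adj p (z i) := by have := cat_adj_pos hcat hi; rwa [hposi] at this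
  have hzj : G.Adj q (z j) := by have := cat_adj_pos hcat hj; rwa [hposj] at this
  have hzui := hcat.unc i (by omega) (by omega)
  have hzuj := hcat.unc j (by omega) (by omega)
  -- the neighbours of `p`
  have hwq : w ≠ q := by
    rintro rfl
    exact hme.not_He hw.1
  have hwz : w ≠ z i := fun h => hzui (h ▸ hw.2.2)
  have hqz : q ≠ z i := fun h => hzui (h ▸ hme.cov')
  have hpn : ∀ v, G.Adj p v → v = q ∨ v = w ∨ v = z i := fun v hv =>
    hG.third hme.1 hw.1.1 hzi hwq.symm hqz hwz hv
  have hwp : w ≠ p := hw.1.ne.symm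
  -- the new labellings
  set g : Q → V → Q := fun t v => if v = p then t else if v = q then neg t else f v with hgdef
  have gp : ∀ t, g t p = t := fun t => by simp only [hgdef, if_true]
  have gq : ∀ t, g t q = neg t := fun t => by simp only [hgdef, hpq.symm, if_true, if_false]
  have go : ∀ t v, v ≠ p → v ≠ q → g t v = f v := fun t v h1 h2 => by
    simp only [hgdef, h1, h2, if_false]
  -- near ports are different vertices
  have hnear : ∀ l l', l ≤ m + 1 → l' ≤ m + 1 → (c l = p ∨ c l = q) → (c l' = p ∨ c l' = q) →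
      pos m l % 4 = pos m l' % 4 := by
    intro l l' hl hl' h1 h2
    by_cases hll : l = l'
    · rw [hll]
    rcases h1 with h1 | h1 <;> rcases h2 with h2 | h2
    · exact (twice_dist hG hc hcat hl hl' hll (by rw [h1, h2])).1
    · exact (mates_dist hG hc hcat hl hl' (by rw [h1, h2]; exact hme)).1
    · exact (mates_dist hG hc hcat hl hl' (by rw [h1, h2]; exact hme.symm)).1
    · exact (twice_dist hG hc hcat hl hl' hll (by rw [h1, h2])).1
  have hout : ∀ t l, l ≤ m + 1 → pos m l % 4 ≠ i % 4 → g t (c l) = f (c l) := by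
    intro t l hl h1
    refine go t _ (fun h2 => h1 ?_) (fun h2 => h1 ?_)
    · have := hnear l i hl hi (Or.inl h2) (Or.inl rfl)
      rw [this, hposi]
    · have := hnear l i hl hi (Or.inr h2) (Or.inl rfl)
      rw [this, hposi]
  have hend : ∀ t l, l ≤ m + 1 → ¬ (2 ≤ l ∧ l + 1 ≤ m) → g t (c l) = f (c l) := by
    intro t l hl h1
    exact go t _ (fun h2 => h1 (hinner l hl (Or.inl h2))) (fun h2 => h1 (hinner l hl (Or.inr h2)))
  -- the caterpillar extends
  have hext : ∀ t, t ≠ f p → CExt m (fun l => g t (c l)) := by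
    intro t ht
    rw [cext_iff hm]
    have e0 := hend t 0 (by omega) (by omega)
    have e1 := hend t 1 (by omega) (by omega)
    have em := hend t m (by omega) (by omega)
    have em1 := hend t (m + 1) le_rfl (by omega)
    refine ⟨?_, ?_, fun D' hD' => ?_⟩
    · show g t (c 0) ≠ neg (g t (c 1))
      rw [e0, e1]
      exact (frk_ne _ _ _ hK.tight.1).2
    · show g t (c m) ≠ neg (g t (c (m + 1)))
      rw [em, em1]
      exact (frk_ne _ _ _ hK.tight.2.2).2
    · have hD1 : frk D' (g t (c 0)) (g t (c 1)) = true := hD'.1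
      rw [e0, e1] at hD1
      have hDD : D' = D := frk_unique _ _ _ _ hD1 hK.tight.1
      subst hDD
      have a1 := hD'.2.1 (i - 1) (by omega) (by omega)
      have a2 := hD'.2.1 i (by omega) (by omega)
      have b1 := hK.tight.2.1 (i - 1) (by omega) (by omega)
      have b2 := hK.tight.2.1 i (by omega) (by omega)
      rw [show i - 1 + 1 = i by omega] at a1 b1
      have c1 : altT D' i = co (altT D' (i - 1)) := by
        have := altT_succ D' (i - 1)
        rwa [show i - 1 + 1 = i by omega] at this
      have a1' : stp (altT D' (i - 1)) (neg (g t (c (i - 1)))) (g t p) = true := a1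
      have a2' : stp (altT D' i) (neg (g t p)) (g t (c (i + 1))) = true := a2
      have b1' : stp (altT D' (i - 1)) (neg (f (c (i - 1)))) (f p) = true := b1
      have b2' : stp (altT D' i) (neg (f p)) (f (c (i + 1))) = true := b2
      rw [gp, hout t (i - 1) (by omega) (by rw [pos_mid (by omega) (by omega)]; omega)] at a1'
      rw [gp, hout t (i + 1) (by omega) (by rw [pos_mid (by omega) (by omega)]; omega), c1] at a2'
      rw [c1] at b2'
      exact ht (inner_unique _ _ _ _ _ a1' a2' b1' b2')
  -- a suitable label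
  have hfpw : nr (f p) (f w) = true := f2 _ _ hw
  obtain ⟨t, ht, htw, htq, htT, htP⟩ : ∃ t, t ≠ f p ∧ nr t (f w) = true ∧
      (∀ w', Lk G R q w' → nr (neg t) (f w') = true) ∧
      (∀ v b, IsTwo G R v q b → g t q ≠ neg (g t b)) ∧
      (∀ m' z' c', Cat G R m' z' c' → (∀ v, v ∈ cSupp m z → v ∉ cSupp m' z') →
        CExt m' (fun l => g t (c' l))) := by
    -- no other component sees `p`
    have hpc : ∀ m' z' c', Cat G R m' z' c' → (∀ v, v ∈ cSupp m z → v ∉ cSupp m' z') →
        ∀ l ≤ m' + 1, c' l ≠ p := by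
      intro m' z' c' hC hd l hl he
      have ha := cat_adj_pos hC hl
      rw [he] at ha
      have h1 : z' (pos m' l) ∈ cSupp m' z' := mem_cSupp (one_le_pos hC.pos) (pos_le hC.pos hl)
      have h2 := hC.unc _ (one_le_pos hC.pos) (pos_le hC.pos hl)
      rcases hpn _ ha with h | h | h
      · exact h2 (h ▸ hme.cov')
      · exact h2 (h ▸ hw.2.2)
      · exact hd _ (mem_cSupp (by omega) (by omega) : z i ∈ cSupp m z) (h ▸ h1)
    by_cases hlq : ∃ w', Lk G R q w'
    · obtain ⟨w', hw'⟩ := hlq
      have hfqw : nr (f q) (f w') = true := f2 _ _ hw'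
      have hne : f w ≠ neg (neg (f w')) := by
        refine H3DA.nr_common hfpw ?_
        rw [hfq, nr_neg] at hfqw
        rw [nr_neg']
        revert hfqw
        cases nr (f p) (f w') <;> simp
      have h2 := ball_inter_card _ _ hne
      obtain ⟨t, ht, htne⟩ := Finset.exists_mem_ne (show 1 < (ball (f w) ∩ ball (neg (f w'))).card by
        omega) (f p)
      rw [mem_inter, mem_ball, mem_ball] at ht
      refine ⟨t, htne, nr_symm ht.1, fun w'' hw'' => ?_, fun v b hT => ?_, fun m' z' c' hC hd => ?_⟩
      · rw [hw''.unique hG hw', nr_neg]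
        have := ht.2
        rw [H3DA.nr_comm, nr_neg'] at this
        revert this
        cases nr t (f w') <;> simp
      · exfalso
        have h3 : w' ≠ p := by
          rintro rfl
          exact hme.symm.not_He hw'.1
        have h4 : w' ≠ z j := fun h => hzuj (h ▸ hw'.2.2)
        have h5 : p ≠ z j := fun h => hzuj (h ▸ hme.cov)
        rcases hG.third hme.symm.1 hw'.1.1 hzj h3.symm h5 h4 hT.2.1.symm with h | h | h
        · exact hT.1 (h ▸ hme.cov)
        · exact hT.1 (h ▸ hw'.2.2)
        · subst h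
          exact isTwo_not_cat hcat (by omega) (by omega) hT
      · refine (f4 m' z' c' hC hd).congr hC.pos (fun l hl => (go t _ (hpc m' z' c' hC hd l hl) ?_).symm)
        intro he
        have ha := cat_adj_pos hC hl
        rw [he] at ha
        have h1 : z' (pos m' l) ∈ cSupp m' z' := mem_cSupp (one_le_pos hC.pos) (pos_le hC.pos hl)
        have h2 := hC.unc _ (one_le_pos hC.pos) (pos_le hC.pos hl)
        have h3 : w' ≠ p := by
          rintro rfl
          exact hme.symm.not_He hw'.1
        have h4 : w' ≠ z j := fun h => hzuj (h ▸ hw'.2.2)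
        have h5 : p ≠ z j := fun h => hzuj (h ▸ hme.cov)
        rcases hG.third hme.symm.1 hw'.1.1 hzj h3.symm h5 h4 ha with h | h | h
        · exact h2 (h ▸ hme.cov)
        · exact h2 (h ▸ hw'.2.2)
        · exact hd _ (mem_cSupp (by omega) (by omega) : z j ∈ cSupp m z) (h ▸ h1)
    · push Not at hlq
      obtain ⟨F, hF2, hF⟩ := bad_set hG hc hcat hme.symm hzj (mem_cSupp (by omega) (by omega)) hlq hK.ok
      have h3 : ((ball (f w)).erase (f p)).card = 3 := by
        rw [Finset.card_erase_of_mem (mem_ball.2 (nr_symm hfpw)), ball_card]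
      have h4 : (F.image neg).card ≤ 2 := Finset.card_image_le.trans hF2
      obtain ⟨t, ht1, ht2⟩ : ∃ t ∈ (ball (f w)).erase (f p), t ∉ F.image neg := by
        by_contra hcon
        push Not at hcon
        have := Finset.card_le_card (show (ball (f w)).erase (f p) ⊆ F.image neg from hcon)
        omega
      rw [mem_erase, mem_ball] at ht1
      have h5 : g t q ∉ F := by
        rw [gq]
        intro h
        exact ht2 (mem_image.2 ⟨neg t, h, H3DA.neg_neg t⟩)
      obtain ⟨hT, hP⟩ := hF (g t) (go t) h5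
      exact ⟨t, ht1.1, nr_symm ht1.2, fun w' hw' => absurd hw' (hlq w'), hT,
        fun m' z' c' hC hd => hP m' z' c' hC hd (hpc m' z' c' hC hd)⟩
  refine no_cext hG hc hcat (f := g t) ?_ ?_ ?_ ?_ (hext t ht)
  · intro u v huv
    by_cases hu : u = p
    · subst hu
      rw [hG.matching huv hme, gp, gq]
    by_cases hu' : u = q
    · rw [hu'] at huv ⊢
      rw [hG.matching huv hme.symm, gp, gq, H3DA.neg_neg]
    · have hv : v ≠ p := by
        intro h
        rw [h] at huv
        exact hu' (hG.matching huv.symm hme)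
      have hv' : v ≠ q := by
        intro h
        rw [h] at huv
        exact hu (hG.matching huv.symm hme.symm)
      rw [go t u hu hu', go t v hv hv']
      exact f1 _ _ huv
  · have key : ∀ u v, Lk G R u v → (u = p ∨ u = q) → nr (g t u) (g t v) = true := by
      intro u v huv hu
      rcases hu with hu | hu
      · rw [hu] at huv ⊢
        rw [huv.unique hG hw, gp, go t w hwp hwq]
        exact htw
      · rw [hu] at huv ⊢
        have h1 : v ≠ p := by
          intro h
          rw [h] at huv
          exact hme.symm.not_He huv.1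
        rw [gq, go t v h1 huv.1.ne.symm]
        exact htq v huv
    intro u v huv
    by_cases hu : u = p ∨ u = q
    · exact key u v huv hu
    · by_cases hv : v = p ∨ v = q
      · exact nr_symm (key v u huv.symm hv)
      · rw [not_or] at hu hv
        rw [go t u hu.1 hu.2, go t v hv.1 hv.2]
        exact f2 _ _ huv
  · have hTp : ∀ v a b, IsTwo G R v a b → a ≠ p := by
      rintro v a b hT rfl
      rcases hpn v hT.2.1.symm with h | h | h
      · exact hT.1 (h ▸ hme.cov')
      · exact hT.1 (h ▸ hw.2.2)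
      · subst h
        exact isTwo_not_cat hcat (by omega) (by omega) hT
    intro v a b hT
    have ha := hTp v a b hT
    have hb := hTp v b a (isTwo_symm hT)
    by_cases ha' : a = q
    · rw [ha'] at hT ⊢
      exact htT v b hT
    by_cases hb' : b = q
    · rw [hb'] at hT ⊢
      exact H3DA.ne_neg_symm (htT v a (isTwo_symm hT))
    · rw [go t a ha ha', go t b hb hb']
      exact f3 v a b hT
  · exact htP

end CLB.H3
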