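import Pool.Agent.Helper95_CLB.OpenStatic
import Pool.Agent.Helper95_CLB.ClosedStatic
import Pool.Agent.Helper95_CLB.Glue

/-!
The final assembly: if chains of links do not exist in edge-minimal graphs, then every finite
triangle-free 3-regular graph has the five colouring.
-/

set_option autoImplicit false
set_option linter.unusedSectionVars false

namespace CLB.H3

open Finset Classical
open H3DA (Q neg nr)
open CLB.H95

/-- No open chains. -/
def OpenFalse : Prop := ∀ (V : Type) [Fintype V] (G H : SimpleGraph V) (R : V → Bool) (k : ℕ)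
  (x y : ℕ → V), Opt G R → ClassC G R → H ≤ G → Crit H R → Chn H R k x y → 2 ≤ k →
  (∀ w, ¬ Lk H R (x 1) w) → (∀ w, ¬ Lk H R (y k) w) → False

/-- No closed chains. -/
def ClosedFalse : Prop := ∀ (V : Type) [Fintype V] (G H : SimpleGraph V) (R : V → Bool) (k : ℕ)
  (x y : ℕ → V), Opt G R → ClassC G R → H ≤ G → Crit H R → Chn H R k x y → 2 ≤ k →
  Lk H R (y k) (x 1) → False

theorem main (hO : OpenFalse) (hC : ClosedFalse) (V : Type) [Fintype V] (G : SimpleGraph V)
    [DecidableRel G.Adj] (hreg : G.IsRegularOfDegree 3) (hcl : G.CliqueFree 3) : Good G := by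
  obtain ⟨R, hR⟩ := exists_opt G
  have hdeg : ∀ u, (univ.filter (fun v => G.Adj u v)).card ≤ 3 := by
    intro u
    have h1 := hreg u
    rw [← h1, ← SimpleGraph.card_neighborFinset_eq_degree]
    refine Finset.card_le_card fun v hv => ?_
    rw [mem_filter] at hv
    rw [SimpleGraph.mem_neighborFinset]
    exact hv.2
  have htri : ∀ a b c, G.Adj a b → G.Adj b c → ¬ G.Adj a c := by
    intro a b c hab hbc hac
    exact hcl {a, b, c} (SimpleGraph.is3Clique_triple_iff.2 ⟨hab, hac, hbc⟩)
  have hG : ClassC G R := hR.classC (fun u => by convert hdeg u) htri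
  refine TStar.good (R := R) ?_
  by_contra hno
  obtain ⟨H, hle, hc⟩ := exists_crit hno
  have hH := hG.mono hle
  apply hc.1
  refine tstar_of_no_link hH (fun u v huv hu hv => ?_)
  obtain ⟨k, x, y, hk, hch, h⟩ := exists_chain hH (u := u) (v := v) ⟨huv, hu, hv⟩
  rcases h with h | ⟨h1, h2⟩
  · exact hC V G H R k x y hR hG hle hc hch hk h
  · exact hO V G H R k x y hR hG hle hc hch hk h1 h2

end CLB.H3
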