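import Pool.Agent.Helper3_DA.Cat
import Pool.Agent.Helper95_CLB.Chain

/-!
Last-unit tools: two labels of one port, everything else fixed, of which one always extends to the path;
counting of the labels of the next unit that keep two options; walks that differ only at one unit.
-/

set_option autoImplicit false
set_option linter.unusedSectionVars false

namespace CLB.H3

open Finset
open H3DA (Q neg nr)
open CLB.H95

/-! ### Paths: ports `0, ..., m + 1`, forks `{0, 1}` and `{m, m + 1}` -/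

/-- Position of a port. -/
def pos (m j : ℕ) : ℕ := if j = 0 then 1 else if j = m + 1 then m else j

lemma pos_zero {m : ℕ} : pos m 0 = 1 := by unfold pos; simp

lemma pos_one {m : ℕ} (hm : 1 ≤ m) : pos m 1 = 1 := by
  unfold pos
  have h1 : ¬ (1 = m + 1) := by omega
  rw [if_neg one_ne_zero, if_neg h1]

lemma pos_last {m : ℕ} : pos m (m + 1) = m := by unfold pos; simp

lemma pos_mid {m j : ℕ} (h0 : 1 ≤ j) (hj : j ≤ m) : pos m j = j := by
  unfold pos
  have h1 : ¬ (j = 0) := by omega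
  have h2 : ¬ (j = m + 1) := by omega
  rw [if_neg h1, if_neg h2]

lemma pos_rev {m j : ℕ} (hm : 1 ≤ m) (hj : j ≤ m + 1) : pos m (m + 1 - j) + pos m j = m + 1 := by
  by_cases h0 : j = 0
  · subst h0; rw [Nat.sub_zero, pos_last, pos_zero]
  by_cases h1 : j = m + 1
  · subst h1; rw [Nat.sub_self, pos_last, pos_zero]; omega
  · rw [pos_mid (by omega) (by omega), pos_mid (by omega) (by omega)]; omega

/-- Two ports form a fork. -/
def IsFork (m j j' : ℕ) : Prop :=
  (j = 0 ∧ j' = 1) ∨ (j = 1 ∧ j' = 0) ∨ (j = m ∧ j' = m + 1) ∨ (j = m + 1 ∧ j' = m)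

/-- No conflict in the two forks. -/
def Leaf (m : ℕ) (s : ℕ → Q) : Prop := s 0 ≠ neg (s 1) ∧ s m ≠ neg (s (m + 1))

lemma neg_swap {x y : Q} (h : x ≠ neg y) : y ≠ neg x := fun e => h (by rw [e, H3DA.neg_neg])

lemma CExt.congr {m : ℕ} (_hm : 1 ≤ m) {s s' : ℕ → Q} (h : CExt m s) (he : ∀ i ≤ m + 1, s i = s' i) :
    CExt m s' := by
  obtain ⟨x, h1, h2, h3, h4⟩ := h
  exact ⟨x, fun i hi him => by rw [← he i (by omega)]; exact h1 i hi him,
    by rw [← he 0 (by omega)]; exact h2, by rw [← he (m + 1) (by omega)]; exact h3, h4⟩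

lemma CExt.rev {m : ℕ} (hm : 1 ≤ m) {s : ℕ → Q} (h : CExt m s) : CExt m (fun i => s (m + 1 - i)) := by
  obtain ⟨x, h1, h2, h3, h4⟩ := h
  refine ⟨fun i => x (m + 1 - i), fun i hi him => h1 _ (by omega) (by omega), ?_, ?_, fun i hi him => ?_⟩
  · show nr (x (m + 1 - 1)) (s (m + 1 - 0)) = true
    rw [Nat.add_sub_cancel, Nat.sub_zero]
    exact h3
  · show nr (x (m + 1 - m)) (s (m + 1 - (m + 1))) = true
    rw [Nat.sub_self, show m + 1 - m = 1 by omega]
    exact h2
  · show nr (x (m + 1 - i)) (x (m + 1 - (i + 1))) = true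
    have := h4 (m + 1 - (i + 1)) (by omega) (by omega)
    rw [show m + 1 - (i + 1) + 1 = m + 1 - i by omega] at this
    exact nr_symm this

lemma CExt_rev_iff {m : ℕ} (hm : 1 ≤ m) {s : ℕ → Q} : CExt m (fun i => s (m + 1 - i)) ↔ CExt m s := by
  constructor
  · intro h
    refine (h.rev hm).congr hm (fun i hi => ?_)
    show s (m + 1 - (m + 1 - i)) = s i
    congr 1
    omega
  · exact CExt.rev hm

/-- Exchange of the two ports of the left fork. -/
def sw (s : ℕ → Q) : ℕ → Q := fun i => if i = 0 then s 1 else if i = 1 then s 0 else s i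

lemma CExt.sw {m : ℕ} (hm : 1 ≤ m) {s : ℕ → Q} (h : CExt m s) : CExt m (sw s) := by
  obtain ⟨x, h1, h2, h3, h4⟩ := h
  refine ⟨x, fun i hi him => ?_, ?_, ?_, h4⟩
  · by_cases h : i = 1
    · subst h
      exact h2
    · have h' : ¬ i = 0 := by omega
      simp only [CLB.H3.sw, h, h', if_false]
      exact h1 i hi him
  · exact h1 1 (le_refl 1) hm
  · have h : ¬ m + 1 = 0 := by omega
    have h' : ¬ m + 1 = 1 := by omega
    simp only [CLB.H3.sw, h, h', if_false]
    exact h3

lemma sw_sw (s : ℕ → Q) : sw (sw s) = s := by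
  funext i
  unfold sw
  by_cases h0 : i = 0
  · subst h0; simp
  · by_cases h1 : i = 1
    · subst h1; simp
    · simp [h0, h1]

lemma CExt_sw_iff {m : ℕ} (hm : 1 ≤ m) {s : ℕ → Q} : CExt m (sw s) ↔ CExt m s := by
  constructor
  · intro h
    have := h.sw hm
    rwa [sw_sw] at this
  · exact CExt.sw hm

lemma portAt {m : ℕ} (hm : 1 ≤ m) {s : ℕ → Q} {j : ℕ} (hj : j ≤ m + 1) :
    PortAt (m - 1) (fun i => s (i + 1)) (s 0) (s (m + 1)) (pos m j - 1) (s j) := by
  unfold pos PortAt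
  by_cases h0 : j = 0
  · subst h0
    exact Or.inr (Or.inl ⟨by simp, rfl⟩)
  · by_cases h1 : j = m + 1
    · subst h1
      refine Or.inr (Or.inr ⟨?_, rfl⟩)
      simp
    · left
      simp only [h0, h1, if_false]
      show s j = s (j - 1 + 1)
      congr 1
      omega

lemma Leaf.iff_P {m : ℕ} (hm : 1 ≤ m) {s : ℕ → Q} (h : Leaf m s) :
    (fun i => s (i + 1)) 0 ≠ neg (s 0) ∧ (fun i => s (i + 1)) (m - 1) ≠ neg (s (m + 1)) := by
  refine ⟨neg_swap h.1, ?_⟩
  show s (m - 1 + 1) ≠ neg (s (m + 1))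
  rw [show m - 1 + 1 = m by omega]
  exact h.2

/-- Near labels at ports of neighbouring vertices. -/
theorem cext_near {m : ℕ} {s : ℕ → Q} (hl : Leaf m s) {j j' : ℕ} (hj : j ≤ m + 1) (hj' : j' ≤ m + 1)
    (hp : pos m j + 1 = pos m j') (hpos : 1 ≤ pos m j) (hpm : pos m j' ≤ m)
    (h : nr (s j) (s j') = true) : CExt m s := by
  have hm : 1 ≤ m := by omega
  by_contra hcon
  rw [CExt_iff hm] at hcon
  obtain ⟨ha, hb⟩ := hl.iff_P hm
  have e : pos m j' - 1 = pos m j - 1 + 1 := by omega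
  have h1 := portAt (s := s) hm hj'
  rw [e] at h1
  have h2 := tight_near hcon ha hb (i := pos m j - 1) (by omega) (portAt hm hj) h1
  rw [nr_neg, h] at h2
  exact absurd h2 (by decide)

/-- Equal labels at ports of vertices at distance two. -/
theorem cext_eq_two {m : ℕ} {s : ℕ → Q} (hl : Leaf m s) {j j' : ℕ} (hj : j ≤ m + 1) (hj' : j' ≤ m + 1)
    (hp : pos m j + 2 = pos m j') (hpos : 1 ≤ pos m j) (hpm : pos m j' ≤ m)
    (h : s j = s j') : CExt m s := by
  have hm : 1 ≤ m := by omega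
  by_contra hcon
  rw [CExt_iff hm] at hcon
  obtain ⟨ha, hb⟩ := hl.iff_P hm
  have e : pos m j' - 1 = pos m j - 1 + 2 := by omega
  have h1 := portAt (s := s) hm hj'
  rw [e] at h1
  exact tight_two hcon ha hb (i := pos m j - 1) (by omega) (portAt hm hj) h1 h

/-- Equal labels at the left fork. -/
theorem cext_eq_left {m : ℕ} (hm : 2 ≤ m) {s : ℕ → Q} (hl : s m ≠ neg (s (m + 1)))
    (h : s 0 = s 1) : CExt m s := by
  by_contra hcon
  rw [CExt_iff (by omega)] at hcon
  have hl' : Leaf m s := ⟨fun e => by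
    rw [h] at e
    exact H3DA.neg_ne _ e.symm, hl⟩
  obtain ⟨ha, hb⟩ := hl'.iff_P (by omega)
  exact tight_fork (by omega) hcon ha hb h.symm

lemma rev_leaf {m : ℕ} {s : ℕ → Q} (hl : Leaf m s) : Leaf m (fun i => s (m + 1 - i)) := by
  refine ⟨?_, ?_⟩
  · show s (m + 1 - 0) ≠ neg (s (m + 1 - 1))
    rw [Nat.sub_zero, Nat.add_sub_cancel]
    exact neg_swap hl.2
  · show s (m + 1 - m) ≠ neg (s (m + 1 - (m + 1)))
    rw [Nat.sub_self, show m + 1 - m = 1 by omega]
    exact neg_swap hl.1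

/-- Equal labels at the right fork. -/
theorem cext_eq_right {m : ℕ} (hm : 2 ≤ m) {s : ℕ → Q} (hl : s 0 ≠ neg (s 1))
    (h : s m = s (m + 1)) : CExt m s := by
  rw [← CExt_rev_iff (by omega)]
  refine cext_eq_left hm ?_ ?_
  · show s (m + 1 - m) ≠ neg (s (m + 1 - (m + 1)))
    rw [Nat.sub_self, show m + 1 - m = 1 by omega]
    exact neg_swap hl
  · show s (m + 1 - 0) = s (m + 1 - 1)
    rw [Nat.sub_zero, Nat.add_sub_cancel]
    exact h.symm

/-- Two labels at port `0`. -/
lemma cext_or_zero {m : ℕ} (hm : 2 ≤ m) {s s' : ℕ → Q} (he : ∀ i ≤ m + 1, i ≠ 0 → s i = s' i)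
    (hne : s 0 ≠ s' 0) (hl : Leaf m s) (hl' : Leaf m s') : CExt m s ∨ CExt m s' := by
  rw [CExt_iff (by omega), CExt_iff (by omega)]
  obtain ⟨ha, hb⟩ := hl.iff_P (by omega)
  obtain ⟨ha', -⟩ := hl'.iff_P (by omega)
  have e1 : (fun i => s (i + 1)) 0 ≠ neg (s' 0) := by
    show s 1 ≠ neg (s' 0)
    rw [he 1 (by omega) (by omega)]
    exact ha'
  rcases PExt_end (m := m - 1) (ρ := fun i => s (i + 1)) (b := s (m + 1)) (by omega) ha e1 hb hne with h | h
  · exact Or.inl h
  · right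
    rw [← he (m + 1) (by omega) (by omega)]
    exact h.congr (fun i hi => he (i + 1) (by omega) (by omega))

/-- Two labels at an inner port. -/
lemma cext_or_mid {m : ℕ} {s s' : ℕ → Q} {j : ℕ} (hj : 2 ≤ j) (hjm : j + 1 ≤ m)
    (he : ∀ i ≤ m + 1, i ≠ j → s i = s' i) (hne : s j ≠ s' j) (hl : Leaf m s) :
    CExt m s ∨ CExt m s' := by
  rw [CExt_iff (by omega), CExt_iff (by omega)]
  obtain ⟨ha, hb⟩ := hl.iff_P (by omega)
  obtain ⟨i, rfl⟩ : ∃ i, j = i + 2 := ⟨j - 2, by omega⟩
  rcases PExt_mid (m := m - 1) (ρ := fun i => s (i + 1)) (ρ' := fun i => s' (i + 1)) (i := i) (by omega)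
    ha hb (fun l hl hne => he (l + 1) (by omega) (by omega)) hne with h | h
  · exact Or.inl h
  · right
    rw [← he 0 (by omega) (by omega), ← he (m + 1) (by omega) (by omega)]
    exact h

lemma sw_leaf {m : ℕ} (hm : 2 ≤ m) {s : ℕ → Q} (hl : Leaf m s) : Leaf m (sw s) := by
  refine ⟨neg_swap hl.1, ?_⟩
  have h1 : ¬ m = 0 := by omega
  have h2 : ¬ m = 1 := by omega
  have h3 : ¬ m + 1 = 0 := by omega
  have h4 : ¬ m + 1 = 1 := by omega
  simp only [sw, h1, h2, h3, h4, if_false]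
  exact hl.2

/-- Two labels at port `1`. -/
lemma cext_or_one {m : ℕ} (hm : 2 ≤ m) {s s' : ℕ → Q} (he : ∀ i ≤ m + 1, i ≠ 1 → s i = s' i)
    (hne : s 1 ≠ s' 1) (hl : Leaf m s) (hl' : Leaf m s') : CExt m s ∨ CExt m s' := by
  rw [← CExt_sw_iff (by omega), ← CExt_sw_iff (s := s') (by omega)]
  refine cext_or_zero hm (fun i hi h0 => ?_) hne (sw_leaf hm hl) (sw_leaf hm hl')
  unfold sw
  by_cases h1 : i = 1
  · simp only [h1, one_ne_zero, if_false, if_true]
    exact he 0 (by omega) (by omega)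
  · simp only [h0, h1, if_false]
    exact he i hi h1

/-- **Two options**: if two label vectors without conflict in the forks differ exactly at one port, then
one of them extends to the path. -/
theorem cext_or {m : ℕ} (hm : 2 ≤ m) {s s' : ℕ → Q} {j : ℕ} (hj : j ≤ m + 1)
    (he : ∀ i ≤ m + 1, i ≠ j → s i = s' i) (hne : s j ≠ s' j) (hl : Leaf m s) (hl' : Leaf m s') :
    CExt m s ∨ CExt m s' := by
  by_cases h0 : j = 0
  · subst h0; exact cext_or_zero hm he hne hl hl'
  by_cases h1 : j = 1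
  · subst h1; exact cext_or_one hm he hne hl hl'
  by_cases h2 : j + 1 ≤ m
  · exact cext_or_mid (by omega) h2 he hne hl
  · rw [← CExt_rev_iff (by omega), ← CExt_rev_iff (s := s') (by omega)]
    have he' : ∀ i ≤ m + 1, i ≠ m + 1 - j → s (m + 1 - i) = s' (m + 1 - i) := fun i hi hne =>
      he _ (by omega) (by omega)
    have hne' : s (m + 1 - (m + 1 - j)) ≠ s' (m + 1 - (m + 1 - j)) := by
      rw [show m + 1 - (m + 1 - j) = j by omega]; exact hne
    by_cases h3 : j = m + 1
    · subst h3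
      rw [Nat.sub_self] at he' hne'
      exact cext_or_zero hm he' hne' (rev_leaf hl) (rev_leaf hl')
    · have h4 : m + 1 - j = 1 := by omega
      rw [h4] at he' hne'
      exact cext_or_one hm he' hne' (rev_leaf hl) (rev_leaf hl')

/-- Two labels at port `0` near (after normalisation) to the port of the second vertex: no condition on
the conflict with port `1` is needed. -/
lemma cext_or_P_zero {m : ℕ} (hm : 2 ≤ m) {s s' : ℕ → Q} (he : ∀ i ≤ m + 1, i ≠ 0 → s i = s' i)
    (hne : s 0 ≠ s' 0) {j : ℕ} (hj0 : j ≠ 0) (hj : j ≤ m + 1) (hp : pos m j = 2)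
    (hn : nr (s 0) (s j) = false) (hn' : nr (s' 0) (s' j) = false) (hr : s m ≠ neg (s (m + 1))) :
    CExt m s ∨ CExt m s' := by
  have hr' : s' m ≠ neg (s' (m + 1)) := by
    rw [← he m (by omega) (by omega), ← he (m + 1) (by omega) (by omega)]; exact hr
  have e1 := he 1 (by omega) (by omega)
  have ej := he j hj hj0
  have hp1 : pos m 1 + 1 = pos m j := by rw [hp, pos_one (by omega)]
  have hp1' : 1 ≤ pos m 1 := by rw [pos_one (by omega)]
  by_cases h1 : s 0 = neg (s 1)
  · right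
    have h2 : s' 0 ≠ neg (s' 1) := by rw [← e1, ← h1]; exact hne.symm
    refine cext_near (j := 1) (j' := j) ⟨h2, hr'⟩ (by omega) hj hp1 hp1' (by omega) ?_
    rw [← e1, ← ej]
    rw [h1, nr_neg] at hn
    revert hn
    cases nr (s 1) (s j) <;> decide
  by_cases h2 : s' 0 = neg (s' 1)
  · left
    refine cext_near (j := 1) (j' := j) ⟨h1, hr⟩ (by omega) hj hp1 hp1' (by omega) ?_
    rw [e1, ej]
    rw [h2, nr_neg] at hn'
    revert hn'
    cases nr (s' 1) (s' j) <;> decide
  · exact cext_or_zero hm he hne ⟨h1, hr⟩ ⟨h2, hr'⟩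

/-- Three labels at port `0`: one of them extends, whatever the label of port `1` is. -/
lemma cext_or_three_zero {m : ℕ} (hm : 2 ≤ m) {s : ℕ → Q} {x y z : Q} (hxy : x ≠ y) (hxz : x ≠ z)
    (hyz : y ≠ z) (hr : s m ≠ neg (s (m + 1))) :
    CExt m (Function.update s 0 x) ∨ CExt m (Function.update s 0 y) ∨ CExt m (Function.update s 0 z) := by
  have key : ∀ u v : Q, u ≠ v → u ≠ neg (s 1) → v ≠ neg (s 1) →
      CExt m (Function.update s 0 u) ∨ CExt m (Function.update s 0 v) := by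
    intro u v huv hu hv
    have hl : ∀ w : Q, w ≠ neg (s 1) → Leaf m (Function.update s 0 w) := by
      intro w hw
      refine ⟨?_, ?_⟩
      · rw [Function.update_self, Function.update_of_ne (by omega)]; exact hw
      · rw [Function.update_of_ne (by omega), Function.update_of_ne (by omega)]; exact hr
    refine cext_or_zero hm (fun i hi h0 => ?_) ?_ (hl u hu) (hl v hv)
    · rw [Function.update_of_ne h0, Function.update_of_ne h0]
    · rw [Function.update_self, Function.update_self]; exact huv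
  by_cases h1 : x = neg (s 1)
  · exact Or.inr (key y z hyz (fun h => hxy (h1.trans h.symm)) (fun h => hxz (h1.trans h.symm)))
  by_cases h2 : y = neg (s 1)
  · rcases key x z hxz h1 (fun h => hyz (h2.trans h.symm)) with h | h
    · exact Or.inl h
    · exact Or.inr (Or.inr h)
  · rcases key x y hxy h1 h2 with h | h
    · exact Or.inl h
    · exact Or.inr (Or.inl h)

lemma sw_ge {s : ℕ → Q} {j : ℕ} (hj : 2 ≤ j) : sw s j = s j := by
  have h1 : ¬ (j = 0) := by omega
  have h2 : ¬ (j = 1) := by omega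
  unfold sw
  rw [if_neg h1, if_neg h2]

/-- **Two options at a leaf port near the port of the next vertex**: no condition on the conflict
inside the fork is needed. -/
theorem cext_or_P {m : ℕ} (hm : 2 ≤ m) {s s' : ℕ → Q} {i i' j : ℕ} (hf : IsFork m i i')
    (he : ∀ l ≤ m + 1, l ≠ i → s l = s' l) (hne : s i ≠ s' i) (hj : j ≤ m + 1)
    (hp : pos m i + 1 = pos m j ∨ pos m j + 1 = pos m i) (hn : nr (s i) (s j) = false)
    (hn' : nr (s' i) (s' j) = false)
    (hr : ∀ l l', IsFork m l l' → l ≠ i → l' ≠ i → s l ≠ neg (s l')) :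
    CExt m s ∨ CExt m s' := by
  have key : ∀ t t' : ℕ → Q, ∀ j ≤ m + 1, (∀ l ≤ m + 1, l ≠ 0 → t l = t' l) → t 0 ≠ t' 0 →
      pos m j = 2 → nr (t 0) (t j) = false → nr (t' 0) (t' j) = false → t m ≠ neg (t (m + 1)) →
      CExt m t ∨ CExt m t' := by
    intro t t' j hj he hne hp hn hn' hr
    refine cext_or_P_zero hm he hne ?_ hj hp hn hn' hr
    rintro rfl
    rw [pos_zero] at hp
    omega
  have key1 : ∀ t t' : ℕ → Q, ∀ j ≤ m + 1, (∀ l ≤ m + 1, l ≠ 1 → t l = t' l) → t 1 ≠ t' 1 →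
      pos m j = 2 → nr (t 1) (t j) = false → nr (t' 1) (t' j) = false → t m ≠ neg (t (m + 1)) →
      CExt m t ∨ CExt m t' := by
    intro t t' j hj he hne hp hn hn' hr
    have hj2 : 2 ≤ j := by
      by_contra hcon
      have : j = 0 ∨ j = 1 := by omega
      rcases this with rfl | rfl
      · rw [pos_zero] at hp; omega
      · rw [pos_one (by omega)] at hp; omega
    rw [← CExt_sw_iff (by omega), ← CExt_sw_iff (s := t') (by omega)]
    refine key (sw t) (sw t') j hj (fun i hi h0 => ?_) hne hp ?_ ?_ ?_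
    · by_cases h1 : i = 1
      · subst h1
        exact he 0 (by omega) (by omega)
      · rw [sw_ge (by omega), sw_ge (by omega)]; exact he i hi h1
    · rw [sw_ge hj2]; exact hn
    · rw [sw_ge hj2]; exact hn'
    · rw [sw_ge hm, sw_ge (show 2 ≤ m + 1 by omega)]; exact hr
  have hrev : ∀ t : ℕ → Q, CExt m (fun l => t (m + 1 - l)) ↔ CExt m t := fun t =>
    CExt_rev_iff (by omega)
  rcases hf with ⟨rfl, rfl⟩ | ⟨rfl, rfl⟩ | ⟨rfl, rfl⟩ | ⟨rfl, rfl⟩
  · refine key s s' j hj he hne ?_ hn hn' (hr m (m + 1) (Or.inr (Or.inr (Or.inl ⟨rfl, rfl⟩)))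
      (by omega) (by omega))
    rw [pos_zero] at hp
    rcases hp with h | h
    · exact h.symm
    · exfalso
      unfold pos at h
      split_ifs at h <;> omega
  · refine key1 s s' j hj he hne ?_ hn hn' (hr m (m + 1) (Or.inr (Or.inr (Or.inl ⟨rfl, rfl⟩)))
      (by omega) (by omega))
    rw [pos_one (by omega)] at hp
    rcases hp with h | h
    · exact h.symm
    · exfalso
      unfold pos at h
      split_ifs at h <;> omega
  · rw [← hrev s, ← hrev s']
    have e : i + 1 - i = 1 := by omega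
    have hj' : i + 1 - (i + 1 - j) = j := by omega
    refine key1 _ _ (i + 1 - j) (by omega) (fun l hl h => he _ (by omega) (by omega)) ?_ ?_ ?_ ?_ ?_
    · show s (i + 1 - 1) ≠ s' (i + 1 - 1)
      rw [Nat.add_sub_cancel]; exact hne
    · have h1 := pos_rev (m := i) (by omega) hj
      rw [pos_mid (m := i) (j := i) (by omega) (le_refl _)] at hp
      rcases hp with h | h
      · exfalso
        unfold pos at h
        split_ifs at h <;> omega
      · omega
    · show nr (s (i + 1 - 1)) (s (i + 1 - (i + 1 - j))) = false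
      rw [Nat.add_sub_cancel, hj']; exact hn
    · show nr (s' (i + 1 - 1)) (s' (i + 1 - (i + 1 - j))) = false
      rw [Nat.add_sub_cancel, hj']; exact hn'
    · show s (i + 1 - i) ≠ neg (s (i + 1 - (i + 1)))
      rw [e, Nat.sub_self]
      exact hr 1 0 (Or.inr (Or.inl ⟨rfl, rfl⟩)) (by omega) (by omega)
  · rw [← hrev s, ← hrev s']
    have e : i' + 1 - i' = 1 := by omega
    have hj' : i' + 1 - (i' + 1 - j) = j := by omega
    refine key _ _ (i' + 1 - j) (by omega) (fun l hl h => he _ (by omega) (by omega)) ?_ ?_ ?_ ?_ ?_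
    · show s (i' + 1 - 0) ≠ s' (i' + 1 - 0)
      rw [Nat.sub_zero]; exact hne
    · have h1 := pos_rev (m := i') (by omega) hj
      rw [pos_last] at hp
      rcases hp with h | h
      · exfalso
        unfold pos at h
        split_ifs at h <;> omega
      · omega
    · show nr (s (i' + 1 - 0)) (s (i' + 1 - (i' + 1 - j))) = false
      rw [Nat.sub_zero, hj']; exact hn
    · show nr (s' (i' + 1 - 0)) (s' (i' + 1 - (i' + 1 - j))) = false
      rw [Nat.sub_zero, hj']; exact hn'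
    · show s (i' + 1 - i') ≠ neg (s (i' + 1 - (i' + 1)))
      rw [e, Nat.sub_self]
      exact hr 1 0 (Or.inr (Or.inl ⟨rfl, rfl⟩)) (by omega) (by omega)

/-- **Three options at a leaf port** beat the conflict in the fork and the tightness. -/
theorem cext_or_three {m : ℕ} (hm : 2 ≤ m) {s s' s'' : ℕ → Q} {i i' : ℕ} (hf : IsFork m i i')
    (he : ∀ l ≤ m + 1, l ≠ i → s l = s' l) (he' : ∀ l ≤ m + 1, l ≠ i → s l = s'' l)
    (h1 : s i ≠ s' i) (h2 : s i ≠ s'' i) (h3 : s' i ≠ s'' i)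
    (hr : ∀ l l', IsFork m l l' → l ≠ i → l' ≠ i → s l ≠ neg (s l')) :
    CExt m s ∨ CExt m s' ∨ CExt m s'' := by
  have hi : i ≤ m + 1 ∧ i' ≤ m + 1 ∧ i' ≠ i := by
    rcases hf with ⟨rfl, rfl⟩ | ⟨rfl, rfl⟩ | ⟨rfl, rfl⟩ | ⟨rfl, rfl⟩ <;> omega
  -- conflict-free vectors satisfy the leaf condition
  have hleaf : ∀ t : ℕ → Q, (∀ l ≤ m + 1, l ≠ i → s l = t l) → t i ≠ neg (t i') → Leaf m t := by
    intro t ht hti
    have hr' : ∀ l l', IsFork m l l' → l ≠ i → l' ≠ i → t l ≠ neg (t l') := by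
      intro l l' hl hli hli'
      have hb : l ≤ m + 1 ∧ l' ≤ m + 1 := by
        rcases hl with ⟨rfl, rfl⟩ | ⟨rfl, rfl⟩ | ⟨rfl, rfl⟩ | ⟨rfl, rfl⟩ <;> omega
      rw [← ht l hb.1 hli, ← ht l' hb.2 hli']
      exact hr l l' hl hli hli'
    rcases hf with ⟨rfl, rfl⟩ | ⟨rfl, rfl⟩ | ⟨rfl, rfl⟩ | ⟨rfl, rfl⟩
    · exact ⟨hti, hr' m (m + 1) (Or.inr (Or.inr (Or.inl ⟨rfl, rfl⟩))) (by omega) (by omega)⟩
    · exact ⟨neg_swap hti, hr' m (m + 1) (Or.inr (Or.inr (Or.inl ⟨rfl, rfl⟩))) (by omega) (by omega)⟩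
    · exact ⟨hr' 0 1 (Or.inl ⟨rfl, rfl⟩) (by omega) (by omega), hti⟩
    · exact ⟨hr' 0 1 (Or.inl ⟨rfl, rfl⟩) (by omega) (by omega), neg_swap hti⟩
  have e1 : s' i' = s i' := (he i' hi.2.1 hi.2.2).symm
  have e2 : s'' i' = s i' := (he' i' hi.2.1 hi.2.2).symm
  have key : ∀ t t' : ℕ → Q, (∀ l ≤ m + 1, l ≠ i → s l = t l) → (∀ l ≤ m + 1, l ≠ i → s l = t' l) →
      t i ≠ t' i → t i ≠ neg (s i') → t' i ≠ neg (s i') → CExt m t ∨ CExt m t' := by
    intro t t' ht ht' hne hc hc'
    refine cext_or hm hi.1 (fun l hl h => (ht l hl h).symm.trans (ht' l hl h)) hne (hleaf t ht ?_)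
      (hleaf t' ht' ?_)
    · rw [← ht i' hi.2.1 hi.2.2]; exact hc
    · rw [← ht' i' hi.2.1 hi.2.2]; exact hc'
  by_cases c1 : s i = neg (s i')
  · exact Or.inr (key s' s'' he he' h3 (fun h => h1 (c1.trans h.symm)) (fun h => h2 (c1.trans h.symm)))
  by_cases c2 : s' i = neg (s i')
  · rcases key s s'' (fun _ _ _ => rfl) he' h2 c1 (fun h => h3 (c2.trans h.symm)) with h | h
    · exact Or.inl h
    · exact Or.inr (Or.inr h)
  · rcases key s s' (fun _ _ _ => rfl) he h1 c1 c2 with h | h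
    · exact Or.inl h
    · exact Or.inr (Or.inl h)

/-! ### Counting -/

/-- `c` and `w` have two common neighbours outside `F`. -/
def keep2 (F : Finset Q) (c w : Q) : Prop := 2 ≤ ((ball c ∩ ball w) \ F).card

instance (F : Finset Q) (c w : Q) : Decidable (keep2 F c w) := by unfold keep2; infer_instance

lemma keep2_symm {F : Finset Q} {c w : Q} (h : keep2 F c w) : keep2 F w c := by
  unfold keep2 at *; rwa [Finset.inter_comm]

lemma keep2_mono {F F' : Finset Q} (hF : F' ⊆ F) {c w : Q} (h : keep2 F c w) : keep2 F' c w :=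
  le_trans h (Finset.card_le_card (Finset.sdiff_subset_sdiff (Finset.Subset.refl _) hF))

/-- Labels which together with some element of `T` keep two options outside `F`. -/
def good2 (T F : Finset Q) : Finset Q := univ.filter (fun w => ∃ c ∈ T, keep2 F c w)

lemma mem_good2 {T F : Finset Q} {w : Q} : w ∈ good2 T F ↔ ∃ c ∈ T, keep2 F c w := by
  unfold good2; simp

lemma good2_mono {T T' F F' : Finset Q} (hT : T ⊆ T') (hF : F' ⊆ F) : good2 T F ⊆ good2 T' F' := by
  intro w hw
  rw [mem_good2] at hw ⊢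
  obtain ⟨c, hc, h⟩ := hw
  exact ⟨c, hT hc, keep2_mono hF h⟩

lemma tab1 : ∀ c : Q, ∀ F ∈ powersetCard 2 (univ : Finset Q), 2 ≤ (good2 {c} F).card := by
  decide +kernel

lemma tab2 : ∀ T ∈ powersetCard 2 (univ : Finset Q), ∀ F ∈ powersetCard 2 (univ : Finset Q),
    4 ≤ (good2 T F).card := by decide +kernel

lemma tab3 : ∀ T ∈ powersetCard 3 (univ : Finset Q), ∀ F ∈ powersetCard 2 (univ : Finset Q),
    5 ≤ (good2 T F).card := by decide +kernel

lemma two_sup {F : Finset Q} (h : F.card ≤ 2) : ∃ F' ∈ powersetCard 2 (univ : Finset Q), F ⊆ F' := by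
  obtain ⟨F', h1, h2, h3⟩ := Finset.exists_subsuperset_card_eq (subset_univ F) h
    (by rw [card_univ_Q]; omega)
  exact ⟨F', by rw [Finset.mem_powersetCard]; exact ⟨h2, h3⟩, h1⟩

lemma sub_of_card {T : Finset Q} {n : ℕ} (h : n ≤ T.card) : ∃ T' ∈ powersetCard n (univ : Finset Q), T' ⊆ T := by
  obtain ⟨T', h1, h2⟩ := Finset.exists_subset_card_eq h
  exact ⟨T', by rw [Finset.mem_powersetCard]; exact ⟨subset_univ _, h2⟩, h1⟩

lemma good2_card1 {T F : Finset Q} (hF : F.card ≤ 2) (hT : 1 ≤ T.card) : 2 ≤ (good2 T F).card := by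
  obtain ⟨F', hF1, hF2⟩ := two_sup hF
  obtain ⟨c, hc⟩ := Finset.card_pos.1 hT
  exact (tab1 c F' hF1).trans (Finset.card_le_card (good2_mono (Finset.singleton_subset_iff.2 hc) hF2))

lemma good2_card2 {T F : Finset Q} (hF : F.card ≤ 2) (hT : 2 ≤ T.card) : 4 ≤ (good2 T F).card := by
  obtain ⟨F', hF1, hF2⟩ := two_sup hF
  obtain ⟨T', hT1, hT2⟩ := sub_of_card hT
  exact (tab2 T' hT1 F' hF1).trans (Finset.card_le_card (good2_mono hT2 hF2))

lemma good2_card3 {T F : Finset Q} (hF : F.card ≤ 2) (hT : 3 ≤ T.card) : 5 ≤ (good2 T F).card := by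
  obtain ⟨F', hF1, hF2⟩ := two_sup hF
  obtain ⟨T', hT1, hT2⟩ := sub_of_card hT
  exact (tab3 T' hT1 F' hF1).trans (Finset.card_le_card (good2_mono hT2 hF2))

/-- Duality. -/
lemma good2_dual {T F : Finset Q} {a b : ℕ} (h : ∀ B : Finset Q, a ≤ B.card → b ≤ (good2 B F).card)
    (hT : 9 ≤ T.card + b) : 9 - a ≤ (good2 T F).card := by
  by_contra hcon
  have h1 : a ≤ ((good2 T F)ᶜ).card := by
    rw [Finset.card_compl, H3DA.card_Q]; omega
  have h2 := h _ h1
  have h3 := card_inter_ge (good2 (good2 T F)ᶜ F) T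
  obtain ⟨t, ht⟩ := Finset.card_pos.1 (show 0 < (good2 (good2 T F)ᶜ F ∩ T).card by omega)
  rw [mem_inter, mem_good2] at ht
  obtain ⟨⟨c, hc, hk⟩, htT⟩ := ht
  rw [mem_compl] at hc
  exact hc (mem_good2.2 ⟨t, htT, keep2_symm hk⟩)

lemma good2_card4 {T F : Finset Q} (hF : F.card ≤ 2) (hT : 4 ≤ T.card) : 6 ≤ (good2 T F).card :=
  good2_dual (a := 3) (b := 5) (fun _ hB => good2_card3 hF hB) (by omega)

lemma good2_card5 {T F : Finset Q} (hF : F.card ≤ 2) (hT : 5 ≤ T.card) : 7 ≤ (good2 T F).card :=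
  good2_dual (a := 2) (b := 4) (fun _ hB => good2_card2 hF hB) (by omega)

lemma good2_card7 {T F : Finset Q} (hF : F.card ≤ 2) (hT : 7 ≤ T.card) : 8 ≤ (good2 T F).card :=
  good2_dual (a := 1) (b := 2) (fun _ hB => good2_card1 hF hB) (by omega)

/-- Interior options: two labels `c`, `w` of the neighbouring units with two common labels in `A`. -/
theorem exists_keep {T S A : Finset Q} (hA : 6 ≤ A.card)
    (h : (1 ≤ T.card ∧ 7 ≤ S.card) ∨ (2 ≤ T.card ∧ 5 ≤ S.card) ∨ (3 ≤ T.card ∧ 4 ≤ S.card) ∨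
      (4 ≤ T.card ∧ 3 ≤ S.card) ∨ (5 ≤ T.card ∧ 2 ≤ S.card) ∨ (7 ≤ T.card ∧ 1 ≤ S.card)) :
    ∃ c ∈ T, ∃ w ∈ S, 2 ≤ (ball c ∩ ball w ∩ A).card := by
  have hF : (Aᶜ).card ≤ 2 := by rw [Finset.card_compl, H3DA.card_Q]; omega
  have h1 : 9 ≤ (good2 T Aᶜ).card + S.card := by
    rcases h with h | h | h | h | h | h
    · have := good2_card1 hF h.1; omega
    · have := good2_card2 hF h.1; omega
    · have := good2_card3 hF h.1; omega
    · have := good2_card4 hF h.1; omega
    · have := good2_card5 hF h.1; omega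
    · have := good2_card7 hF h.1; omega
  have h2 := card_inter_ge (good2 T Aᶜ) S
  obtain ⟨w, hw⟩ := Finset.card_pos.1 (show 0 < (good2 T Aᶜ ∩ S).card by omega)
  rw [mem_inter, mem_good2] at hw
  obtain ⟨⟨c, hc, hk⟩, hwS⟩ := hw
  refine ⟨c, hc, w, hwS, ?_⟩
  unfold keep2 at hk
  rwa [Finset.sdiff_eq_inter_compl, compl_compl] at hk

/-! ### End options -/

/-- Labels of unit two that keep `n` options in the list of the end unit. -/
def goodE (n : ℕ) (A : Finset Q) : Finset Q := univ.filter (fun z => n ≤ (ball z ∩ A).card)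

lemma mem_goodE {n : ℕ} {A : Finset Q} {z : Q} : z ∈ goodE n A ↔ n ≤ (ball z ∩ A).card := by
  unfold goodE; simp

lemma goodE_mono {n : ℕ} {A A' : Finset Q} (h : A ⊆ A') : goodE n A ⊆ goodE n A' := by
  intro z hz
  rw [mem_goodE] at hz ⊢
  exact hz.trans (Finset.card_le_card (Finset.inter_subset_inter (Finset.Subset.refl _) h))

lemma tabE3 : ∀ A ∈ powersetCard 3 (univ : Finset Q), 4 ≤ (goodE 2 A).card := by decide +kernel

lemma tabE5 : ∀ A ∈ powersetCard 5 (univ : Finset Q), 7 ≤ (goodE 2 A).card ∧ 4 ≤ (goodE 3 A).card := by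
  decide +kernel

lemma tabE6 : ∀ A ∈ powersetCard 6 (univ : Finset Q), 8 ≤ (goodE 2 A).card := by
  decide +kernel

/-- FACT 0. -/
lemma goodE_card3 {A : Finset Q} (h : 3 ≤ A.card) : 4 ≤ (goodE 2 A).card := by
  obtain ⟨A', h1, h2⟩ := sub_of_card h
  exact (tabE3 A' h1).trans (Finset.card_le_card (goodE_mono h2))

lemma goodE_card5 {A : Finset Q} (h : 5 ≤ A.card) : 7 ≤ (goodE 2 A).card ∧ 4 ≤ (goodE 3 A).card := by
  obtain ⟨A', h1, h2⟩ := sub_of_card h
  exact ⟨(tabE5 A' h1).1.trans (Finset.card_le_card (goodE_mono h2)),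
    (tabE5 A' h1).2.trans (Finset.card_le_card (goodE_mono h2))⟩

lemma goodE_card6 {A : Finset Q} (h : 6 ≤ A.card) : 8 ≤ (goodE 2 A).card := by
  obtain ⟨A', h1, h2⟩ := sub_of_card h
  exact (tabE6 A' h1).trans (Finset.card_le_card (goodE_mono h2))

/-! ### Walks that differ at one unit -/

/-- A walk through the lists `A 0, ..., A k`. -/
def Walk (A : ℕ → Finset Q) (k : ℕ) (w : ℕ → Q) : Prop :=
  (∀ i ≤ k, w i ∈ A i) ∧ ∀ i < k, nr (w i) (w (i + 1)) = true

/-- Two options at an interior unit. -/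
theorem walk_two {A : ℕ → Finset Q} {k i : ℕ} (h0 : 0 < i) (hik : i < k) {w : ℕ → Q}
    (hw : ∀ j ≤ k, j ≠ i → w j ∈ A j) (hn : ∀ j < k, j ≠ i → j + 1 ≠ i → nr (w j) (w (j + 1)) = true)
    (h : 2 ≤ (ball (w (i - 1)) ∩ ball (w (i + 1)) ∩ A i).card) :
    ∃ x y, x ≠ y ∧ Walk A k (Function.update w i x) ∧ Walk A k (Function.update w i y) := by
  obtain ⟨x, hx, y, hy, hxy⟩ := Finset.one_lt_card.1 h
  have key : ∀ z ∈ ball (w (i - 1)) ∩ ball (w (i + 1)) ∩ A i, Walk A k (Function.update w i z) := by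
    intro z hz
    rw [mem_inter, mem_inter, mem_ball, mem_ball] at hz
    obtain ⟨⟨z1, z2⟩, z3⟩ := hz
    refine ⟨fun j hj => ?_, fun j hj => ?_⟩
    · by_cases hji : j = i
      · subst hji; rw [Function.update_self]; exact z3
      · rw [Function.update_of_ne hji]; exact hw j hj hji
    · by_cases hji : j = i
      · subst hji
        rw [Function.update_self, Function.update_of_ne (by omega)]
        exact nr_symm z2
      · by_cases hji' : j + 1 = i
        · subst hji'
          rw [Function.update_self, Function.update_of_ne hji]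
          exact z1
        · rw [Function.update_of_ne hji, Function.update_of_ne hji']
          exact hn j hj hji hji'
  exact ⟨x, y, hxy, key x hx, key y hy⟩

/-- `n` options at the end unit. -/
theorem walk_end {A : ℕ → Finset Q} {k : ℕ} (hk : 0 < k) {w : ℕ → Q}
    (hw : ∀ j ≤ k, 0 < j → w j ∈ A j) (hn : ∀ j < k, 0 < j → nr (w j) (w (j + 1)) = true) {z : Q}
    (hz : z ∈ ball (w 1) ∩ A 0) : Walk A k (Function.update w 0 z) := by
  rw [mem_inter, mem_ball] at hz
  refine ⟨fun j hj => ?_, fun j hj => ?_⟩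
  · by_cases h0 : j = 0
    · subst h0; rw [Function.update_self]; exact hz.2
    · rw [Function.update_of_ne h0]; exact hw j hj (by omega)
  · by_cases h0 : j = 0
    · subst h0
      rw [Function.update_self, Function.update_of_ne (by omega)]
      exact nr_symm hz.1
    · rw [Function.update_of_ne h0, Function.update_of_ne (by omega)]
      exact hn j hj (by omega)

/-- Joining two arms with a gap at unit `i`. -/
theorem walk_gap {A : ℕ → Finset Q} {k i : ℕ} (h0 : 0 < i) (hik : i < k) {c d : Q}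
    (hc : c ∈ reach (A 0) A (i - 1)) (hd : d ∈ reach (A k) (fun j => A (k - j)) (k - (i + 1))) :
    ∃ w : ℕ → Q, (∀ j ≤ k, j ≠ i → w j ∈ A j) ∧
      (∀ j < k, j ≠ i → j + 1 ≠ i → nr (w j) (w (j + 1)) = true) ∧ w (i - 1) = c ∧ w (i + 1) = d := by
  obtain ⟨w1, a1, a2, a3, a4⟩ := reach_walk hc
  obtain ⟨w2, b1, b2, b3, b4⟩ := reach_walk hd
  refine ⟨fun j => if j < i then w1 j else w2 (k - j), fun j hj hji => ?_, fun j hj hji hji' => ?_,
    ?_, ?_⟩
  · by_cases h : j < i
    · simp only [h, if_true]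
      by_cases hj0 : j = 0
      · rw [hj0]; exact a1
      · exact a3 j (by omega) (by omega)
    · simp only [h, if_false]
      by_cases hjk : j = k
      · rw [hjk, Nat.sub_self]; exact b1
      · have := b3 (k - j) (by omega) (by omega)
        rwa [show k - (k - j) = j by omega] at this
  · by_cases h : j + 1 < i
    · have h' : j < i := by omega
      simp only [h, h', if_true]
      exact a4 j (by omega)
    · have h' : ¬ j < i := by omega
      have h'' : ¬ j + 1 < i := by omega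
      simp only [h', h'', if_false]
      have e : k - j = k - (j + 1) + 1 := by omega
      have := b4 (k - (j + 1)) (by omega)
      rw [← e] at this
      exact nr_symm this
  · have h : i - 1 < i := by omega
    simp only [h, if_true]
    exact a2
  · have h : ¬ i + 1 < i := by omega
    simp only [h, if_false]
    exact b2

/-- **Tool U**: three consecutive units with large lists. -/
theorem toolU {A : ℕ → Finset Q} {k i : ℕ} (h0 : 0 < i) (hik : i < k) (hA : 6 ≤ (A i).card)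
    (hT : 3 ≤ (reach (A 0) A (i - 1)).card)
    (hS : 4 ≤ (reach (A k) (fun j => A (k - j)) (k - (i + 1))).card) :
    ∃ w x y, x ≠ y ∧ Walk A k (Function.update w i x) ∧ Walk A k (Function.update w i y) := by
  obtain ⟨c, hc, d, hd, h⟩ := exists_keep hA (Or.inr (Or.inr (Or.inl ⟨hT, hS⟩)))
  obtain ⟨w, h1, h2, h3, h4⟩ := walk_gap h0 hik hc hd
  rw [← h3, ← h4] at h
  exact ⟨w, walk_two h0 hik h1 h2 h⟩

/-- Completion to the left with two options at unit `i`. -/
theorem walk_of_good {A : ℕ → Finset Q} {k i : ℕ} (h0 : 0 < i) (hik : i < k) {v : ℕ → Q}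
    (hv : ∀ j, i < j → j ≤ k → v j ∈ A j) (hvn : ∀ j, i < j → j < k → nr (v j) (v (j + 1)) = true)
    (hg : v (i + 1) ∈ good2 (reach (A 0) A (i - 1)) (A i)ᶜ) :
    ∃ w x y, x ≠ y ∧ (∀ j, i < j → w j = v j) ∧ Walk A k (Function.update w i x) ∧
      Walk A k (Function.update w i y) := by
  rw [mem_good2] at hg
  obtain ⟨c, hc, hk⟩ := hg
  unfold keep2 at hk
  rw [Finset.sdiff_eq_inter_compl, compl_compl] at hk
  obtain ⟨w1, a1, a2, a3, a4⟩ := reach_walk hc
  set w : ℕ → Q := fun j => if j < i then w1 j else v j with hwdef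
  have e1 : w (i - 1) = c := by
    have h : i - 1 < i := by omega
    simp only [hwdef, h, if_true]; exact a2
  have e2 : w (i + 1) = v (i + 1) := by
    have h : ¬ i + 1 < i := by omega
    simp only [hwdef, h, if_false]
  have hwv : ∀ j, i < j → w j = v j := by
    intro j hj
    have h : ¬ j < i := by omega
    simp only [hwdef, h, if_false]
  rw [← e1, ← e2] at hk
  have q1 : ∀ j ≤ k, j ≠ i → w j ∈ A j := by
    intro j hj hji
    by_cases h : j < i
    · simp only [hwdef, h, if_true]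
      by_cases hj0 : j = 0
      · rw [hj0]; exact a1
      · exact a3 j (by omega) (by omega)
    · rw [hwv j (by omega)]; exact hv j (by omega) hj
  have q2 : ∀ j < k, j ≠ i → j + 1 ≠ i → nr (w j) (w (j + 1)) = true := by
    intro j hj hji hji'
    by_cases h : j + 1 < i
    · have h' : j < i := by omega
      simp only [hwdef, h, h', if_true]
      exact a4 j (by omega)
    · rw [hwv j (by omega), hwv (j + 1) (by omega)]
      exact hvn j (by omega) hj
  obtain ⟨x, y, hxy, hx, hy⟩ := walk_two (A := A) h0 hik q1 q2 hk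
  exact ⟨w, x, y, hxy, hwv, hx, hy⟩

/-- **Tool O**, counting: `T` = labels of the previous unit, `F` = labels forbidden at the option unit. -/
lemma toolO_card {T F A : Finset Q} (hF : F.card ≤ 2)
    (h : (2 ≤ T.card ∧ 6 ≤ A.card) ∨ (3 ≤ T.card ∧ 5 ≤ A.card) ∨ (4 ≤ T.card ∧ 4 ≤ A.card) ∨
      (5 ≤ T.card ∧ 3 ≤ A.card)) : 2 ≤ (good2 T F ∩ A).card := by
  have h1 := card_inter_ge (good2 T F) A
  rcases h with h | h | h | h
  · have := good2_card2 hF h.1; omega
  · have := good2_card3 hF h.1; omega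
  · have := good2_card4 hF h.1; omega
  · have := good2_card5 hF h.1; omega

/-- **Tool E**, counting. -/
lemma toolE_card {A B : Finset Q} (hA : 3 ≤ A.card) (hB : 6 ≤ B.card) : 2 ≤ (goodE 2 A ∩ B).card := by
  have h1 := card_inter_ge (goodE 2 A) B
  have := goodE_card3 hA
  omega

/-- **Tool E3**, counting. -/
lemma toolE3_card {A B : Finset Q} (hA : 5 ≤ A.card) (hB : 6 ≤ B.card) : 2 ≤ (goodE 3 A ∩ B).card := by
  have h1 := card_inter_ge (goodE 3 A) B
  have := (goodE_card5 hA).2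
  omega

end CLB.H3
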