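import Pool.Agent.Helper3_DA.RChain
import Pool.Agent.Helper3_DA.LastUnit
import Pool.Agent.Helper95_CLB.Lists

/-!
Structure of a caterpillar which sees a chain: sides, third neighbours, forks, and the components without
full unit.
-/

set_option autoImplicit false
set_option linter.unusedSectionVars false

namespace CLB.H3

open Finset Classical
open H3DA (Q neg nr)
open CLB.H95

variable {V : Type*} {G : SimpleGraph V} {R : V → Bool}

lemma pos_le {m j : ℕ} (hm : 1 ≤ m) (hj : j ≤ m + 1) : pos m j ≤ m := by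
  unfold pos; split_ifs <;> omega

lemma one_le_pos {m j : ℕ} (hm : 1 ≤ m) : 1 ≤ pos m j := by
  unfold pos; split_ifs <;> omega

lemma pos_eq_cl (m j : ℕ) : pos m j = cl m j := rfl

section cat

variable {m : ℕ} {z c : ℕ → V} {k : ℕ} {x y : ℕ → V}

lemma cat_adj_pos (h : Cat G R m z c) {j : ℕ} (hj : j ≤ m + 1) : G.Adj (c j) (z (pos m j)) :=
  cat_adj_cl h hj

/-- Sides along a caterpillar. -/
lemma cat_side_z (h : Cat G R m z c) : ∀ i, 1 ≤ i → i ≤ m →
    R (z i) = xor (R (z 1)) (decide (i % 2 = 0)) := by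
  intro i hi
  induction i, hi using Nat.le_induction with
  | base => intro _; simp
  | succ n hn ih =>
    intro hm
    have h1 := (he_of_unc (h.unc n hn (by omega)) (h.adjz n hn (by omega))).2
    rw [ih (by omega)] at h1
    rcases Nat.mod_two_eq_zero_or_one n with h2 | h2
    · have h3 : ¬ (n + 1) % 2 = 0 := by omega
      simp only [h2, h3, decide_true, decide_false] at h1 ⊢
      revert h1
      cases R (z 1) <;> cases R (z (n + 1)) <;> simp
    · have h3 : (n + 1) % 2 = 0 := by omega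
      have h4 : ¬ n % 2 = 0 := by omega
      simp only [h4, h3, decide_true, decide_false] at h1 ⊢
      revert h1
      cases R (z 1) <;> cases R (z (n + 1)) <;> simp

lemma cat_side_c (h : Cat G R m z c) {j : ℕ} (hj : j ≤ m + 1) :
    R (c j) = xor (R (z 1)) (decide (pos m j % 2 = 1)) := by
  have hm := h.pos
  have h1 := (he_of_unc (h.unc _ (one_le_pos hm) (pos_le hm hj)) (cat_adj_pos h hj).symm).2
  rw [cat_side_z h _ (one_le_pos hm) (pos_le hm hj)] at h1
  rcases Nat.mod_two_eq_zero_or_one (pos m j) with h2 | h2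
  · have h3 : ¬ pos m j % 2 = 1 := by omega
    simp only [h2, h3, decide_true, decide_false] at h1 ⊢
    revert h1
    cases R (z 1) <;> cases R (c j) <;> simp
  · have h3 : ¬ pos m j % 2 = 0 := by omega
    simp only [h2, h3, decide_true, decide_false] at h1 ⊢
    revert h1
    cases R (z 1) <;> cases R (c j) <;> simp

/-- Sides along a chain. -/
lemma chn_side (h : Chn G R k x y) : ∀ i, 1 ≤ i → i ≤ k →
    R (x i) = xor (R (x 1)) (decide (i % 2 = 0)) ∧ R (y i) = xor (R (x 1)) (decide (i % 2 = 0)) := by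
  intro i hi
  induction i, hi using Nat.le_induction with
  | base =>
    intro hk
    refine ⟨by simp, ?_⟩
    rw [← (h.me 1 le_rfl hk).2]; simp
  | succ n hn ih =>
    intro hk
    have h1 := (h.lk n hn (by omega)).1.2
    rw [(ih (by omega)).2] at h1
    have h5 := (h.me (n + 1) (by omega) hk).2
    rw [← h5]
    refine (fun t => ⟨t, t⟩) ?_
    rcases Nat.mod_two_eq_zero_or_one n with h2 | h2
    · have h3 : ¬ (n + 1) % 2 = 0 := by omega
      simp only [h2, h3, decide_true, decide_false] at h1 ⊢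
      revert h1
      cases R (x 1) <;> cases R (x (n + 1)) <;> simp
    · have h3 : (n + 1) % 2 = 0 := by omega
      have h4 : ¬ n % 2 = 0 := by omega
      simp only [h4, h3, decide_true, decide_false] at h1 ⊢
      revert h1
      cases R (x 1) <;> cases R (x (n + 1)) <;> simp

/-- The parity law. -/
theorem parity (h : Chn G R k x y) (hcat : Cat G R m z c) {i i' j j' : ℕ} (hj : j ≤ m + 1)
    (hj' : j' ≤ m + 1) (hi : 1 ≤ i) (hik : i ≤ k) (hi' : 1 ≤ i') (hik' : i' ≤ k)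
    (e : c j = x i ∨ c j = y i) (e' : c j' = x i' ∨ c j' = y i') :
    (i + pos m j) % 2 = (i' + pos m j') % 2 := by
  have h1 : R (c j) = xor (R (x 1)) (decide (i % 2 = 0)) := by
    rcases e with e | e
    · rw [e]; exact (chn_side h i hi hik).1
    · rw [e]; exact (chn_side h i hi hik).2
  have h2 : R (c j') = xor (R (x 1)) (decide (i' % 2 = 0)) := by
    rcases e' with e' | e'
    · rw [e']; exact (chn_side h i' hi' hik').1
    · rw [e']; exact (chn_side h i' hi' hik').2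
  rw [cat_side_c hcat hj] at h1
  rw [cat_side_c hcat hj'] at h2
  rcases Nat.mod_two_eq_zero_or_one (pos m j) with a1 | a1 <;>
    rcases Nat.mod_two_eq_zero_or_one (pos m j') with a2 | a2 <;>
    rcases Nat.mod_two_eq_zero_or_one i with a3 | a3 <;>
    rcases Nat.mod_two_eq_zero_or_one i' with a4 | a4 <;>
    first
    | omega
    | (exfalso
       revert h1 h2
       simp only [a1, a2, a3, a4]
       cases R (z 1) <;> cases R (x 1) <;> decide)

end cat

variable [Fintype V]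

section law

variable {m : ℕ} {z c : ℕ → V} {k : ℕ} {x y : ℕ → V}

/-- Third neighbours: a linked vertex has at most one uncovered neighbour. -/
lemma third_unique (hG : ClassC G R) {v u a b : V} (hv : Lk G R v u) (ha : G.Adj v a)
    (hb : G.Adj v b) (ha' : ¬ Cov G R a) (hb' : ¬ Cov G R b) : a = b := by
  by_contra hne
  have h1 := prt_card_lk hG hv
  have h2 : 2 ≤ (prt G R v).card :=
    Finset.one_lt_card.2 ⟨a, mem_prt.2 ⟨ha, ha'⟩, b, mem_prt.2 ⟨hb, hb'⟩, hne⟩
  omega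

/-- The number of port edges of the chosen vertices at a segment. -/
lemma eS_sum_ge (hcat : Cat G R m z c) {p q : ℕ} {S : Finset V} {J : Finset ℕ}
    (hJ : ∀ j ∈ J, j ≤ m + 1 ∧ p ≤ pos m j ∧ pos m j ≤ q) (hS : ∀ j ∈ J, c j ∈ S) :
    J.card ≤ ∑ w ∈ S, eS G z p q w := by
  unfold eS
  rw [← Finset.card_sigma]
  refine Finset.card_le_card_of_injOn (fun j => (⟨c j, pos m j⟩ : (_ : V) × ℕ)) ?_ ?_
  · intro j hj
    have hj' : j ∈ J := hj
    simp only [Finset.coe_sigma, Set.mem_sigma_iff, Finset.mem_coe, mem_filter, mem_Icc]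
    exact ⟨hS j hj', ⟨(hJ j hj').2.1, (hJ j hj').2.2⟩, cat_adj_pos hcat (hJ j hj').1⟩
  · intro i hi j hj hij
    have h1 : c i = c j := congrArg Sigma.fst hij
    have h2 : pos m i = pos m j := by
      have := congrArg (fun t : (_ : V) × ℕ => t.2) hij
      exact this
    refine port_unique hcat (hJ i hi).1 (hJ j hj).1 h1 ?_
    rw [← pos_eq_cl, ← pos_eq_cl, h2]

/-- **The segment law.** -/
theorem seg_law (hG : ClassC G R) (h : Chn G R k x y) (hcat : Cat G R m z c)
    {p q : ℕ} (hp : 1 ≤ p) (hpq : p ≤ q) (hq : q ≤ m) {X Y : Finset ℕ} {O : Finset V}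
    (hX : ∀ i ∈ X, 1 ≤ i ∧ i ≤ k) (hY : ∀ i ∈ Y, 1 ≤ i ∧ i ≤ k)
    (hO : ∀ w ∈ O, Cov G R w ∧ ¬ InC k x y w) {J : Finset ℕ}
    (hJ : ∀ j ∈ J, j ≤ m + 1 ∧ p ≤ pos m j ∧ pos m j ≤ q)
    (hS : ∀ j ∈ J, c j ∈ chs x y X Y O) :
    2 * (Y.filter (fun i => i < k ∧ i + 1 ∈ X)).card + 2 * J.card
      ≤ (q - p) + 3 + (X.card + Y.card + O.card) + (2 * (X ∩ Y).card + mmS G R O) := by
  have h1 := rlaw_chain hG h hcat hp hpq hq hX hY hO
  have h2 := eS_sum_ge hcat hJ hS
  rw [chs_sum h hX hY (fun w hw => (hO w hw).2)] at h2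
  omega

/-- Units seen through `x`, through `y`, and vertices outside. -/
noncomputable def sX (x : ℕ → V) (c : ℕ → V) (k : ℕ) (J : Finset ℕ) : Finset ℕ :=
  (Icc 1 k).filter (fun i => ∃ j ∈ J, c j = x i)

noncomputable def sO (x y : ℕ → V) (c : ℕ → V) (k : ℕ) (J : Finset ℕ) : Finset V :=
  (J.image c).filter (fun w => ¬ InC k x y w)

lemma mem_sX {x c : ℕ → V} {k : ℕ} {J : Finset ℕ} {i : ℕ} :
    i ∈ sX x c k J ↔ (1 ≤ i ∧ i ≤ k) ∧ ∃ j ∈ J, c j = x i := by
  unfold sX; rw [mem_filter, mem_Icc]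

lemma mem_sO {x y c : ℕ → V} {k : ℕ} {J : Finset ℕ} {w : V} :
    w ∈ sO x y c k J ↔ (∃ j ∈ J, c j = w) ∧ ¬ InC k x y w := by
  unfold sO; rw [mem_filter, mem_image]

lemma seen_mem {J : Finset ℕ} {j : ℕ} (hj : j ∈ J) :
    c j ∈ chs x y (sX x c k J) (sX y c k J) (sO x y c k J) := by
  rw [mem_chs]
  by_cases h : InC k x y (c j)
  · obtain ⟨i, h1, h2, h3 | h3⟩ := h
    · exact Or.inl ⟨i, mem_sX.2 ⟨⟨h1, h2⟩, j, hj, h3⟩, h3.symm⟩
    · exact Or.inr (Or.inl ⟨i, mem_sX.2 ⟨⟨h1, h2⟩, j, hj, h3⟩, h3.symm⟩)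
  · exact Or.inr (Or.inr (mem_sO.2 ⟨⟨j, hj, rfl⟩, h⟩))

lemma seen_card (h : Chn G R k x y) (J : Finset ℕ) :
    (sX x c k J).card + (sX y c k J).card + (sO x y c k J).card = (J.image c).card := by
  have h1 := chs_sum h (X := sX x c k J) (Y := sX y c k J) (O := sO x y c k J)
    (fun i hi => (mem_sX.1 hi).1) (fun i hi => (mem_sX.1 hi).1) (fun w hw => (mem_sO.1 hw).2)
    (fun _ => 1)
  simp only [Finset.sum_const, smul_eq_mul, mul_one] at h1
  rw [← h1]
  congr 1
  ext w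
  rw [mem_chs, mem_image]
  constructor
  · rintro (⟨i, hi, rfl⟩ | ⟨i, hi, rfl⟩ | hw)
    · exact (mem_sX.1 hi).2
    · exact (mem_sX.1 hi).2
    · exact (mem_sO.1 hw).1
  · rintro ⟨j, hj, rfl⟩
    have := seen_mem (c := c) (k := k) (x := x) (y := y) hj
    rwa [mem_chs] at this

/-- All ports. -/
def allP (m : ℕ) : Finset ℕ := range (m + 2)

lemma mem_allP {m j : ℕ} : j ∈ allP m ↔ j ≤ m + 1 := by
  unfold allP; rw [mem_range]; omega

/-- The component sees no matching edge. -/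
def NoFull (G : SimpleGraph V) (R : V → Bool) (m : ℕ) (c : ℕ → V) : Prop :=
  ∀ i j, i ≤ m + 1 → j ≤ m + 1 → ¬ Me G R (c i) (c j)

lemma NoFull.inter (h : Chn G R k x y) (hF : NoFull G R m c) {J : Finset ℕ}
    (hJ : ∀ j ∈ J, j ≤ m + 1) : sX x c k J ∩ sX y c k J = ∅ := by
  rw [Finset.eq_empty_iff_forall_notMem]
  intro i hi
  rw [mem_inter] at hi
  obtain ⟨⟨h1, h2⟩, j, hj, hj'⟩ := mem_sX.1 hi.1
  obtain ⟨-, j2, hj2, hj2'⟩ := mem_sX.1 hi.2
  refine hF j j2 (hJ j hj) (hJ j2 hj2) ?_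
  rw [hj', hj2']
  exact h.me i h1 h2

lemma NoFull.mm (hF : NoFull G R m c) {J : Finset ℕ} (hJ : ∀ j ∈ J, j ≤ m + 1) :
    mmS G R (sO x y c k J) = 0 := by
  unfold mmS
  rw [Finset.sum_eq_zero_iff]
  intro w hw
  rw [Finset.card_eq_zero, Finset.filter_eq_empty_iff]
  intro v hv hme
  obtain ⟨⟨j, hj, rfl⟩, -⟩ := mem_sO.1 hw
  obtain ⟨⟨j', hj', rfl⟩, -⟩ := mem_sO.1 hv
  exact hF j j' (hJ j hj) (hJ j' hj') hme

/-- No full unit: the ports are distinct vertices and there are no links between them. -/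
theorem noFull_inj (hG : ClassC G R) (h : Chn G R k x y) (hcat : Cat G R m z c)
    (hF : NoFull G R m c) : (∀ i j, i ≤ m + 1 → j ≤ m + 1 → c i = c j → i = j) ∧
      ∀ i, 1 ≤ i → i < k → ∀ j j', j ≤ m + 1 → j' ≤ m + 1 → c j = y i → c j' ≠ x (i + 1) := by
  have hm := hcat.pos
  have h1 := seg_law hG h hcat (p := 1) (q := m) le_rfl hm le_rfl (X := sX x c k (allP m))
    (Y := sX y c k (allP m)) (O := sO x y c k (allP m)) (fun i hi => (mem_sX.1 hi).1)
    (fun i hi => (mem_sX.1 hi).1) (fun w hw => ⟨by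
      obtain ⟨⟨j, hj, rfl⟩, -⟩ := mem_sO.1 hw
      exact hcat.cov j (mem_allP.1 hj), (mem_sO.1 hw).2⟩) (J := allP m)
    (fun j hj => ⟨mem_allP.1 hj, one_le_pos hm, pos_le hm (mem_allP.1 hj)⟩)
    (fun j hj => seen_mem hj)
  rw [seen_card h, hF.inter h (fun j hj => mem_allP.1 hj), hF.mm (fun j hj => mem_allP.1 hj),
    Finset.card_empty] at h1
  have h2 : ((allP m).image c).card ≤ (allP m).card := Finset.card_image_le
  have h3 : (allP m).card = m + 2 := by unfold allP; rw [card_range]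
  constructor
  · intro i j hi hj hij
    have h4 : ((allP m).image c).card = (allP m).card := by omega
    exact Finset.card_image_iff.1 h4 (mem_allP.2 hi) (mem_allP.2 hj) hij
  · intro i hi hik j j' hj hj' hjy hjx
    have h5 : 1 ≤ ((sX y c k (allP m)).filter (fun i => i < k ∧ i + 1 ∈ sX x c k (allP m))).card := by
      refine Finset.card_pos.2 ⟨i, mem_filter.2 ⟨mem_sX.2 ⟨⟨hi, by omega⟩, j, mem_allP.2 hj, hjy⟩,
        hik, mem_sX.2 ⟨⟨by omega, by omega⟩, j', mem_allP.2 hj', hjx⟩⟩⟩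
    omega

/-- No full unit: seen vertices `x (i+1)` come with `x i`. -/
theorem noFull_x (hG : ClassC G R) (h : Chn G R k x y) (hcat : Cat G R m z c)
    (hF : NoFull G R m c) {i : ℕ} (hi : 1 ≤ i) (hik : i < k) {j : ℕ} (hj : j ≤ m + 1)
    (hjx : c j = x (i + 1)) : ∃ j' ≤ m + 1, c j' = x i := by
  by_contra hcon
  push Not at hcon
  have hm := hcat.pos
  obtain ⟨hinj, hlink⟩ := noFull_inj hG h hcat hF
  have hiY : i ∉ sX y c k (allP m) := by
    intro hi'
    obtain ⟨-, j', hj', hj''⟩ := mem_sX.1 hi'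
    exact hlink i hi hik j' j (mem_allP.1 hj') hj hj'' hjx
  have hiX : i ∉ sX x c k (allP m) := by
    intro hi'
    obtain ⟨-, j', hj', hj''⟩ := mem_sX.1 hi'
    exact hcon j' (mem_allP.1 hj') hj''
  have h1 := seg_law hG h hcat (p := 1) (q := m) le_rfl hm le_rfl (X := sX x c k (allP m))
    (Y := insert i (sX y c k (allP m))) (O := sO x y c k (allP m)) (fun i hi => (mem_sX.1 hi).1)
    (fun l hl => by
      rw [mem_insert] at hl
      rcases hl with rfl | hl
      · exact ⟨hi, by omega⟩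
      · exact (mem_sX.1 hl).1) (fun w hw => ⟨by
      obtain ⟨⟨j, hj, rfl⟩, -⟩ := mem_sO.1 hw
      exact hcat.cov j (mem_allP.1 hj), (mem_sO.1 hw).2⟩) (J := allP m)
    (fun j hj => ⟨mem_allP.1 hj, one_le_pos hm, pos_le hm (mem_allP.1 hj)⟩)
    (fun j hj => by
      have := seen_mem (c := c) (k := k) (x := x) (y := y) hj
      rw [mem_chs] at this ⊢
      rcases this with h | ⟨l, hl, h⟩ | h
      · exact Or.inl h
      · exact Or.inr (Or.inl ⟨l, mem_insert_of_mem hl, h⟩)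
      · exact Or.inr (Or.inr h))
  have e1 : sX x c k (allP m) ∩ insert i (sX y c k (allP m)) = ∅ := by
    rw [Finset.inter_insert_of_notMem hiX]
    exact hF.inter h (fun j hj => mem_allP.1 hj)
  have e2 := seen_card (c := c) h (allP m)
  have h2 : ((allP m).image c).card ≤ (allP m).card := Finset.card_image_le
  have h3 : (allP m).card = m + 2 := by unfold allP; rw [card_range]
  have h5 : 1 ≤ ((insert i (sX y c k (allP m))).filter
      (fun i => i < k ∧ i + 1 ∈ sX x c k (allP m))).card :=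
    Finset.card_pos.2 ⟨i, mem_filter.2 ⟨mem_insert_self _ _, hik,
      mem_sX.2 ⟨⟨by omega, by omega⟩, j, mem_allP.2 hj, hjx⟩⟩⟩
  rw [e1, Finset.card_insert_of_notMem hiY, hF.mm (fun j hj => mem_allP.1 hj),
    Finset.card_empty] at h1
  omega

/-- No full unit: seen vertices `y i` come with `y (i+1)`. -/
theorem noFull_y (hG : ClassC G R) (h : Chn G R k x y) (hcat : Cat G R m z c)
    (hF : NoFull G R m c) {i : ℕ} (hi : 1 ≤ i) (hik : i < k) {j : ℕ} (hj : j ≤ m + 1)
    (hjy : c j = y i) : ∃ j' ≤ m + 1, c j' = y (i + 1) := by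
  have := noFull_x hG (Chn.rev h) hcat hF (i := k - i) (by omega) (by omega) hj (by
    show c j = y (k + 1 - (k - i + 1))
    rw [show k + 1 - (k - i + 1) = i by omega]
    exact hjy)
  obtain ⟨j', hj', e⟩ := this
  refine ⟨j', hj', ?_⟩
  have e' : c j' = y (k + 1 - (k - i)) := e
  rw [show k + 1 - (k - i) = i + 1 by omega] at e'
  exact e'

/-- **The shape of a component without full unit**: it sees `x 1, ..., x a` and `y g, ..., y k`. -/
theorem noFull_shape (hG : ClassC G R) (h : Chn G R k x y) (hcat : Cat G R m z c)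
    (hF : NoFull G R m c) : ∃ a g, a < g ∧ g ≤ k + 1 ∧
      (∀ i, 1 ≤ i → i ≤ k → ((∃ j ≤ m + 1, c j = x i) ↔ i ≤ a)) ∧
      ∀ i, 1 ≤ i → i ≤ k → ((∃ j ≤ m + 1, c j = y i) ↔ g ≤ i) := by
  have hdx : ∀ i, 1 ≤ i → i ≤ k → (∃ j ≤ m + 1, c j = x i) → ∀ t, 1 ≤ t → t ≤ i →
      ∃ j ≤ m + 1, c j = x t := by
    intro i hi hik hs t ht hti
    obtain ⟨n, rfl⟩ : ∃ n, i = t + n := ⟨i - t, by omega⟩
    clear hti
    induction n with
    | zero => exact hs
    | succ n ih =>
      refine ih (by omega) (by omega) ?_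
      obtain ⟨j, hj, hjx⟩ := hs
      exact noFull_x hG h hcat hF (by omega) (by omega) hj hjx
  have huy : ∀ i, 1 ≤ i → i ≤ k → (∃ j ≤ m + 1, c j = y i) → ∀ t, i ≤ t → t ≤ k →
      ∃ j ≤ m + 1, c j = y t := by
    intro i hi hik hs t ht
    induction t, ht using Nat.le_induction with
    | base => intro _; exact hs
    | succ n hn ih =>
      intro hk
      obtain ⟨j, hj, hjy⟩ := ih (by omega)
      exact noFull_y hG h hcat hF (by omega) (by omega) hj hjy
  set A := (Icc 1 k).filter (fun i => ∃ j ≤ m + 1, c j = x i) with hA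
  set B := (Icc 1 k).filter (fun i => ∃ j ≤ m + 1, c j = y i) with hB
  have hAm : ∀ i, i ∈ A ↔ (1 ≤ i ∧ i ≤ k) ∧ ∃ j ≤ m + 1, c j = x i := fun i => by
    rw [hA, mem_filter, mem_Icc]
  have hBm : ∀ i, i ∈ B ↔ (1 ≤ i ∧ i ≤ k) ∧ ∃ j ≤ m + 1, c j = y i := fun i => by
    rw [hB, mem_filter, mem_Icc]
  obtain ⟨a, ha1, ha2⟩ : ∃ a, (∀ i ∈ A, i ≤ a) ∧ (a = 0 ∨ a ∈ A) := by
    by_cases hne : A.Nonempty
    · exact ⟨A.max' hne, fun i hi => A.le_max' i hi, Or.inr (A.max'_mem hne)⟩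
    · rw [Finset.not_nonempty_iff_eq_empty] at hne
      exact ⟨0, fun i hi => by rw [hne] at hi; simp at hi, Or.inl rfl⟩
  obtain ⟨g, hg1, hg2⟩ : ∃ g, (∀ i ∈ B, g ≤ i) ∧ (g = k + 1 ∨ g ∈ B) := by
    by_cases hne : B.Nonempty
    · exact ⟨B.min' hne, fun i hi => B.min'_le i hi, Or.inr (B.min'_mem hne)⟩
    · rw [Finset.not_nonempty_iff_eq_empty] at hne
      exact ⟨k + 1, fun i hi => by rw [hne] at hi; simp at hi, Or.inl rfl⟩
  have hgk : g ≤ k + 1 := by
    rcases hg2 with h1 | h1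
    · omega
    · have := ((hBm g).1 h1).1; omega
  refine ⟨a, g, ?_, hgk, fun i hi hik => ⟨fun hs => ha1 i ((hAm i).2 ⟨⟨hi, hik⟩, hs⟩), fun hia => ?_⟩,
    fun i hi hik => ⟨fun hs => hg1 i ((hBm i).2 ⟨⟨hi, hik⟩, hs⟩), fun hgi => ?_⟩⟩
  · by_contra hcon
    push Not at hcon
    rcases ha2 with h1 | h1
    · have hg0 : g = 0 := by omega
      rcases hg2 with h2 | h2
      · omega
      · have := ((hBm g).1 h2).1; omega
    · have ha3 := (hAm a).1 h1
      rcases hg2 with h2 | h2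
      · omega
      · have hg3 := (hBm g).1 h2
        obtain ⟨j, hj, hjy⟩ := hg3.2
        by_cases hag : a = g
        · obtain ⟨j', hj', hjx⟩ := ha3.2
          subst hag
          refine hF j' j hj' hj ?_
          rw [hjx, hjy]
          exact h.me a ha3.1.1 ha3.1.2
        · obtain ⟨j', hj', hjx⟩ := hdx a ha3.1.1 ha3.1.2 ha3.2 (g + 1) (by omega) (by omega)
          exact (noFull_inj hG h hcat hF).2 g hg3.1.1 (by omega) j j' hj hj' hjy hjx
  · rcases ha2 with h1 | h1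
    · omega
    · have ha3 := (hAm a).1 h1
      exact hdx a ha3.1.1 ha3.1.2 ha3.2 i hi hia
  · rcases hg2 with h1 | h1
    · omega
    · have hg3 := (hBm g).1 h1
      exact huy g hg3.1.1 hg3.1.2 hg3.2 i hgi hik

end law

end CLB.H3
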