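import Pool.Agent.Helper3_DA.LocAsm
import Pool.Agent.Helper86_DA.Final

/-!
The main theorem from the three remaining statements.
-/

set_option autoImplicit false

namespace CLB.H3

theorem good_of (h5 : FiveAll) (hU : FufAll) (hE : EndAll) (V : Type) [Fintype V]
    (G : SimpleGraph V) [DecidableRel G.Adj] (hreg : G.IsRegularOfDegree 3) (hcl : G.CliqueFree 3) :
    ∃ c : Sym2 V → Fin 5, ∀ i : Fin 5,
      (SimpleGraph.fromEdgeSet {e | e ∈ G.edgeSet ∧ c e ≠ i}).Colorable 2 :=
  CLB.H86.good_of_loc (locAll_of h5 hU hE) V G hreg hcl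

end CLB.H3
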