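import Pool.Agent.Helper3_DA.RSet

/-!
Forks of a caterpillar inside a chain.
-/

set_option autoImplicit false
set_option linter.unusedSectionVars false

namespace CLB.H3

open Finset Classical
open H3DA (Q neg nr)
open CLB.H95

variable {V : Type*} {G : SimpleGraph V} {R : V → Bool} [Fintype V]
  {m : ℕ} {z c : ℕ → V} {k : ℕ} {x y : ℕ → V}

/-- The law for a pair of chain vertices at one fork with their link partners. -/
lemma fork_law (hG : ClassC G R) (h : Chn G R k x y) (hcat : Cat G R m z c) {j j' : ℕ}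
    (hj : j ≤ m + 1) (hj' : j' ≤ m + 1) (hne : j ≠ j') (hp : pos m j = pos m j') {a b a' b' : ℕ}
    (hX : 1 ≤ a ∧ a ≤ k) (hX' : 1 ≤ b ∧ b ≤ k) (hY : 1 ≤ a' ∧ a' ≤ k) (hY' : 1 ≤ b' ∧ b' ≤ k)
    (hab : a = a' + 1) (hbb : b = b' + 1) (hne1 : a ≠ b) (hn1 : a ≠ b') (hn2 : b ≠ a')
    (hc : c j = x a ∨ c j = y a' ∨ c j = x b ∨ c j = y b')
    (hc' : c j' = x a ∨ c j' = y a' ∨ c j' = x b ∨ c j' = y b') : False := by
  have hm := hcat.pos
  have key := seg_law hG h hcat (p := pos m j) (q := pos m j) (one_le_pos hm) le_rfl (pos_le hm hj)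
    (X := {a, b}) (Y := {a', b'}) (O := ∅) (by
      intro i hi
      rw [mem_insert, mem_singleton] at hi
      rcases hi with rfl | rfl
      · exact hX
      · exact hX') (by
      intro i hi
      rw [mem_insert, mem_singleton] at hi
      rcases hi with rfl | rfl
      · exact hY
      · exact hY') (by simp) (J := {j, j'}) (by
      intro i hi
      rw [mem_insert, mem_singleton] at hi
      rcases hi with rfl | rfl
      · exact ⟨hj, le_rfl, le_rfl⟩
      · exact ⟨hj', by rw [hp], by rw [hp]⟩) (by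
      intro i hi
      rw [mem_insert, mem_singleton] at hi
      rw [mem_chs]
      have key : ∀ v, (v = x a ∨ v = y a' ∨ v = x b ∨ v = y b') →
          (∃ i ∈ ({a, b} : Finset ℕ), x i = v) ∨ (∃ i ∈ ({a', b'} : Finset ℕ), y i = v) ∨
            v ∈ (∅ : Finset V) := by
        rintro v (rfl | rfl | rfl | rfl)
        · exact Or.inl ⟨a, by simp, rfl⟩
        · exact Or.inr (Or.inl ⟨a', by simp, rfl⟩)
        · exact Or.inl ⟨b, by simp, rfl⟩
        · exact Or.inr (Or.inl ⟨b', by simp, rfl⟩)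
      rcases hi with rfl | rfl
      · exact key _ hc
      · exact key _ hc')
  have e0 : ({j, j'} : Finset ℕ).card = 2 := Finset.card_pair hne
  have e1 : ({a, b} : Finset ℕ).card = 2 := Finset.card_pair hne1
  have e2 : ({a', b'} : Finset ℕ).card = 2 := Finset.card_pair (by omega)
  have e3 : (({a', b'} : Finset ℕ).filter (fun i => i < k ∧ i + 1 ∈ ({a, b} : Finset ℕ))) = {a', b'} := by
    rw [Finset.filter_eq_self]
    intro i hi
    rw [mem_insert, mem_singleton] at hi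
    rw [mem_insert, mem_singleton]
    rcases hi with rfl | rfl
    · exact ⟨by omega, Or.inl (by omega)⟩
    · exact ⟨by omega, Or.inr (by omega)⟩
  have e4 : ({a, b} : Finset ℕ) ∩ {a', b'} = ∅ := by
    rw [Finset.eq_empty_iff_forall_notMem]
    intro i hi
    rw [mem_inter, mem_insert, mem_singleton, mem_insert, mem_singleton] at hi
    omega
  have e5 : mmS G R (∅ : Finset V) = 0 := by unfold mmS; simp
  rw [e3, e0, e1, e2, e4, e5, Finset.card_empty, Finset.card_empty] at key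
  omega

/-- **Forks inside a chain.** -/
theorem fork_cases (hG : ClassC G R) (h : Chn G R k x y) (hcat : Cat G R m z c) {j j' : ℕ}
    (hj : j ≤ m + 1) (hj' : j' ≤ m + 1) (hne : j ≠ j') (hp : pos m j = pos m j')
    (hQ : InC k x y (c j)) (hQ' : InC k x y (c j')) :
    (c j = x 1 ∨ c j = y k) ∨ (c j' = x 1 ∨ c j' = y k) ∨ ∃ i, 1 ≤ i ∧ i + 2 ≤ k ∧
      ((c j = y i ∧ c j' = x (i + 2)) ∨ (c j' = y i ∧ c j = x (i + 2))) := by
  have hm := hcat.pos
  have hcne : c j ≠ c j' := fun e => hne (port_unique hcat hj hj' e (by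
    rw [← pos_eq_cl, ← pos_eq_cl, hp]))
  by_contra hcon
  rw [not_or, not_or, not_or, not_or] at hcon
  obtain ⟨⟨n1, n2⟩, ⟨n3, n4⟩, n5⟩ := hcon
  push Not at n5
  obtain ⟨i, h1, h2, h3⟩ := hQ
  obtain ⟨i', h1', h2', h3'⟩ := hQ'
  have hpar := parity h hcat hj hj' h1 h2 h1' h2' h3 h3'
  rw [hp] at hpar
  have htri : ∀ t, 1 ≤ t → t ≤ k → (c j = x t ∧ c j' = y t ∨ c j = y t ∧ c j' = x t) → False := by
    intro t ht htk hc
    have a1 := cat_adj_pos hcat hj
    have a2 := cat_adj_pos hcat hj'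
    rw [← hp] at a2
    have a3 := (h.me t ht htk).1
    rcases hc with ⟨e1, e2⟩ | ⟨e1, e2⟩
    · rw [e1] at a1; rw [e2] at a2
      exact hG.tri _ _ _ a3 a2 a1
    · rw [e1] at a1; rw [e2] at a2
      exact hG.tri _ _ _ a3 a1 a2
  rcases h3 with h3 | h3 <;> rcases h3' with h3' | h3'
  · have hi1 : i ≠ 1 := fun e => n1 (by rw [h3, e])
    have hi1' : i' ≠ 1 := fun e => n3 (by rw [h3', e])
    have hii : i ≠ i' := fun e => hcne (by rw [h3, h3', e])
    exact fork_law hG h hcat hj hj' hne hp (a := i) (b := i') (a' := i - 1) (b' := i' - 1) ⟨h1, h2⟩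
      ⟨h1', h2'⟩ ⟨by omega, by omega⟩ ⟨by omega, by omega⟩ (by omega) (by omega) hii (by omega)
      (by omega) (Or.inl h3) (Or.inr (Or.inr (Or.inl h3')))
  · have hi1 : i ≠ 1 := fun e => n1 (by rw [h3, e])
    have hik' : i' ≠ k := fun e => n4 (by rw [h3', e])
    have hii : i ≠ i' := fun e => htri i h1 h2 (Or.inl ⟨h3, by rw [h3', e]⟩)
    have hii2 : i ≠ i' + 2 := fun e => n5 i' h1' (by omega) |>.2 h3' (by rw [h3, e])
    exact fork_law hG h hcat hj hj' hne hp (a := i) (b := i' + 1) (a' := i - 1) (b' := i') ⟨h1, h2⟩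
      ⟨by omega, by omega⟩ ⟨by omega, by omega⟩ ⟨h1', h2'⟩ (by omega) rfl (by omega) hii
      (by omega) (Or.inl h3) (Or.inr (Or.inr (Or.inr h3')))
  · have hik : i ≠ k := fun e => n2 (by rw [h3, e])
    have hi1' : i' ≠ 1 := fun e => n3 (by rw [h3', e])
    have hii : i ≠ i' := fun e => htri i h1 h2 (Or.inr ⟨h3, by rw [h3', e]⟩)
    have hii2 : i' ≠ i + 2 := fun e => n5 i h1 (by omega) |>.1 h3 (by rw [h3', e])
    exact fork_law hG h hcat hj hj' hne hp (a := i') (b := i + 1) (a' := i' - 1) (b' := i) ⟨h1', h2'⟩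
      ⟨by omega, by omega⟩ ⟨by omega, by omega⟩ ⟨h1, h2⟩ (by omega) rfl (by omega) (Ne.symm hii)
      (by omega) (Or.inr (Or.inr (Or.inr h3))) (Or.inl h3')
  · have hik : i ≠ k := fun e => n2 (by rw [h3, e])
    have hik' : i' ≠ k := fun e => n4 (by rw [h3', e])
    have hii : i ≠ i' := fun e => hcne (by rw [h3, h3', e])
    exact fork_law hG h hcat hj hj' hne hp (a := i + 1) (b := i' + 1) (a' := i) (b' := i')
      ⟨by omega, by omega⟩ ⟨by omega, by omega⟩ ⟨h1, h2⟩ ⟨h1', h2'⟩ rfl rfl (by omega) (by omega)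
      (by omega) (Or.inr (Or.inl h3)) (Or.inr (Or.inr (Or.inr h3')))

/-- A vertex of degree three with three covered neighbours sees no linked vertex. -/
theorem star_unlinked (hG : ClassC G R) (hcat : Cat G R 1 z c) {j : ℕ} (hj : j ≤ 2) {w : V}
    (hw : Lk G R (c j) w) : False := by
  obtain ⟨v', hv'⟩ := hw.2.1
  obtain ⟨w', hw'⟩ := hw.2.2
  have h0 := hcat.adj0
  have h1 := hcat.adjc 1 le_rfl le_rfl
  have h2 := hcat.adjm
  have hu := hcat.unc 1 le_rfl le_rfl
  have n01 := hcat.ne0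
  have n02 := hcat.ne1 rfl
  have n12 := hcat.nem
  obtain ⟨a0, ha0⟩ := hcat.cov 0 (by omega)
  obtain ⟨a1, ha1⟩ := hcat.cov 1 (by omega)
  obtain ⟨a2, ha2⟩ := hcat.cov 2 (by omega)
  have e0 := he_of_unc hu h0
  have e1 := he_of_unc hu h1
  have e2 := he_of_unc hu h2
  have : j = 0 ∨ j = 1 ∨ j = 2 := by omega
  rcases this with rfl | rfl | rfl
  · exact n12 (hG.factL hv' hw' hw.1 hu e0.symm ha1 ha2 e1 e2 n01.symm n02.symm)
  · exact n02 (hG.factL hv' hw' hw.1 hu e1.symm ha0 ha2 e0 e2 n01 n12.symm)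
  · exact n01 (hG.factL hv' hw' hw.1 hu e2.symm ha0 ha1 e0 e1 n02 n12)

end CLB.H3
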