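import Pool.Agent.Helper3_DA.WdOut
import Pool.Agent.Helper95_CLB.Bad

/-!
The word theorem: special type, or a good window.
-/

set_option autoImplicit false
set_option linter.unusedSectionVars false

namespace CLB.H3

open Finset Classical
open H3DA (Q neg nr)
open CLB.H95
open CLB.H3.Wd (pt wt bl okc nst inc stat gn bd Law nw LG RG L4 R4 L4p R4y L4X IsoN goods words)

section cat

variable {V : Type*} {G : SimpleGraph V} {R : V → Bool} [Fintype V]
variable {m : ℕ} {z c : ℕ → V} {k : ℕ} {x y : ℕ → V}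

lemma outN_rev (hout : outN k x y m c ≤ 1) : outN k x y m (fun j => c (m + 1 - j)) ≤ 1 := by
  unfold outN
  rw [card_le_one]
  intro s hs t ht
  rw [mem_filter, mem_range] at hs ht
  have := out_unique hout (s := m + 1 - s) (t := m + 1 - t) (by omega) (by omega) hs.2 ht.2
  omega

lemma outN_mir : outN k (fun i => y (k + 1 - i)) (fun i => x (k + 1 - i)) m c = outN k x y m c := by
  unfold outN
  refine congrArg Finset.card (filter_congr fun j _ => ?_)
  rw [inC_rev]

/-- At most one isolated full unit has a leaf at the last fork. -/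
lemma fork_right (hG : ClassC G R) (h : Chn G R k x y) (hcat : Cat G R m z c) (hm : 2 ≤ m)
    (hout : outN k x y m c ≤ 1) {v v' : ℕ} (hv : 2 ≤ v ∧ v + 1 ≤ k) (hv' : 2 ≤ v' ∧ v' + 1 ≤ k)
    (hu : ∀ j ≤ m + 1, c j ≠ x (v - 1) ∧ c j ≠ y (v - 1) ∧ c j ≠ x (v + 1) ∧ c j ≠ y (v + 1))
    (hu' : ∀ j ≤ m + 1, c j ≠ x (v' - 1) ∧ c j ≠ y (v' - 1) ∧ c j ≠ x (v' + 1) ∧ c j ≠ y (v' + 1))
    {l l' : ℕ} (hl : m ≤ l) (hl1 : l ≤ m + 1) (hl' : m ≤ l') (hl1' : l' ≤ m + 1)
    (e : c l = x v ∨ c l = y v) (e' : c l' = x v' ∨ c l' = y v')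
    (h2 : v ≠ v' + 2) (h3 : v' ≠ v + 2) : v = v' := by
  refine fork_left hG h (cat_rev hcat) hm (outN_rev hout) hv hv' (fun j hj => hu _ (by omega))
    (fun j hj => hu' _ (by omega)) (l := m + 1 - l) (l' := m + 1 - l') (by omega) (by omega) ?_ ?_ h2 h3
  · show c (m + 1 - (m + 1 - l)) = x v ∨ c (m + 1 - (m + 1 - l)) = y v
    rw [show m + 1 - (m + 1 - l) = l by omega]; exact e
  · show c (m + 1 - (m + 1 - l')) = x v' ∨ c (m + 1 - (m + 1 - l')) = y v'
    rw [show m + 1 - (m + 1 - l') = l' by omega]; exact e'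

/-- A segment with a gain unit at most four does not see `x i` with `i ≥ 6`, if `x 5` is unseen. -/
lemma no_far (hG : ClassC G R) (h : Chn G R k x y) (hcat : Cat G R m z c) {p q : ℕ}
    (hp : 1 ≤ p) (hpq : p ≤ q) (hq : q ≤ m) {J : Finset ℕ}
    (hJ : ∀ j ∈ J, j ≤ m + 1 ∧ p ≤ pos m j ∧ pos m j ≤ q) (hinj : Set.InjOn c (J : Set ℕ))
    (hpair : ∀ i, 1 ≤ i → i ≤ k → ¬ (InJ c J (x i) ∧ InJ c J (y i)))
    (hout : (sO x y c k J).card ≤ 1) (hc : (q - p) + 2 ≤ J.card) {g i : ℕ}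
    (h1 : GU k x y c J g) (hg : g ≤ 4) (hi : 6 ≤ i) (hik : i ≤ k) (hx : InJ c J (x i))
    (h5 : ∀ j ≤ m + 1, c j ≠ x 5) : False := by
  obtain ⟨s, hs, e⟩ := desc (P := fun i => InJ c J (x i)) (a := 5) (u := i) (by omega) hx
    (fun j j1 j2 j3 => by
      by_contra hcon
      have hg' : GU k x y c J (j - 1) :=
        Or.inl ⟨by omega, by omega, by rw [show j - 1 + 1 = j by omega]; exact j3, hcon⟩
      have := seg_two hG h hcat hp hpq hq hJ hinj hpair hout hc h1 hg'
      omega)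
  exact h5 s (hJ s hs).1 e

/-- **Six vertices**: `x 3`, `x 4` are not leaves of different forks with `x 2` inside. -/
theorem x2_excl (hG : ClassC G R) (hc : Crit G R) (h : Chn G R k x y) (hcat : Cat G R m z c)
    (hm : m = 6) (hinj : ∀ i j, i ≤ m + 1 → j ≤ m + 1 → c i = c j → i = j)
    (hout : outN k x y m c ≤ 1) {i : ℕ} (hi : 6 ≤ i) (hik : i ≤ k) (h5 : ∀ j ≤ m + 1, c j ≠ x 5)
    {s t a b : ℕ} (hs : s ≤ m + 1) (ht : t ≤ m + 1) (es : c s = x i) (et : c t = y i) (ha : a ≤ 1)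
    (hb : m ≤ b) (hb' : b ≤ m + 1) (ea : c a = x 3) (eb : c b = x 4)
    (h2 : ∀ l ≤ m + 1, (l ≤ 1 ∨ m ≤ l) → c l ≠ x 2) : False := by
  have hI : ∀ J : Finset ℕ, (∀ j ∈ J, j ≤ m + 1) → Set.InjOn c (J : Set ℕ) :=
    fun J hJ a ha b hb e => hinj a b (hJ a ha) (hJ b hb) e
  have hO : ∀ J : Finset ℕ, (∀ j ∈ J, j ≤ m + 1) → (sO x y c k J).card ≤ 1 := fun J hJ =>
    (sO_card (k := k) (x := x) (y := y) (m := m) (c := c) hJ).trans hout
  have hpd : ∀ i s t, 1 ≤ i → i ≤ k → s ≤ m + 1 → t ≤ m + 1 → c s = x i → c t = y i →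
      pos m s % 4 = pos m t % 4 ∧ pos m s ≠ pos m t := by
    intro i s t i1 i2 hs ht e1 e2
    exact mates_dist hG hc hcat hs ht (by rw [e1, e2]; exact h.me i i1 i2)
  have h3 : ∀ j ≤ m + 1, c j = x 3 → j = a := fun j hj e => hinj j a hj (by omega) (e.trans ea.symm)
  have hst := hpd i s t (by omega) hik hs ht es et
  have hcase : s ≤ 1 ∨ s = 5 ∨ s = 2 ∨ 6 ≤ s := by
    unfold pos at hst
    split_ifs at hst <;> omega
  rcases hcase with h6 | h6 | h6 | h6
  · -- the first fork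
    refine no_far hG h hcat le_rfl le_rfl (by omega) (range_pos (j := 1) le_rfl (by omega))
      (hI _ (fun j hj => by rw [mem_range] at hj; omega)) ?_
      (hO _ (fun j hj => by rw [mem_range] at hj; omega)) (by rw [card_range]) (g := 2) (i := i)
      (Or.inl ⟨by omega, by omega, ⟨a, mem_range.2 (by omega), ea⟩, ?_⟩) (by omega) hi hik
      ⟨s, mem_range.2 (by omega), es⟩ h5
    · rintro u u1 u2 ⟨⟨p, hp, e1⟩, ⟨q, hq, e2⟩⟩
      rw [mem_range] at hp hq
      have := hpd u p q u1 u2 (by omega) (by omega) e1 e2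
      unfold pos at this
      split_ifs at this <;> omega
    · rintro ⟨p, hp, e1⟩
      rw [mem_range] at hp
      exact h2 p (by omega) (Or.inl (by omega)) e1
  · refine no_far hG h hcat (p := 5) (by omega) (by omega) le_rfl
      (Icc_pos (j := 5) (by omega) (by omega))
      (hI _ (fun j hj => by rw [mem_Icc] at hj; omega)) ?_
      (hO _ (fun j hj => by rw [mem_Icc] at hj; omega)) (by rw [Nat.card_Icc]; omega) (g := 3) (i := i)
      (Or.inl ⟨by omega, by omega, ⟨b, mem_Icc.2 ⟨by omega, hb'⟩, eb⟩, ?_⟩) (by omega) hi hik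
      ⟨s, mem_Icc.2 ⟨by omega, by omega⟩, es⟩ h5
    · rintro u u1 u2 ⟨⟨p, hp, e1⟩, ⟨q, hq, e2⟩⟩
      rw [mem_Icc] at hp hq
      have := hpd u p q u1 u2 (by omega) (by omega) e1 e2
      unfold pos at this
      split_ifs at this <;> omega
    · rintro ⟨p, hp, e1⟩
      rw [mem_Icc] at hp
      have := h3 p (by omega) e1
      omega
  · refine no_far hG h hcat le_rfl (q := 2) (by omega) (by omega) (range_pos (j := 2) (by omega) (by omega))
      (hI _ (fun j hj => by rw [mem_range] at hj; omega)) ?_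
      (hO _ (fun j hj => by rw [mem_range] at hj; omega)) (by rw [card_range]) (g := 2) (i := i)
      (Or.inl ⟨by omega, by omega, ⟨a, mem_range.2 (by omega), ea⟩, ?_⟩) (by omega) hi hik
      ⟨s, mem_range.2 (by omega), es⟩ h5
    · rintro u u1 u2 ⟨⟨p, hp, e1⟩, ⟨q, hq, e2⟩⟩
      rw [mem_range] at hp hq
      have := hpd u p q u1 u2 (by omega) (by omega) e1 e2
      unfold pos at this
      split_ifs at this <;> omega
    · rintro ⟨p, hp, e1⟩
      rw [mem_range] at hp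
      by_cases hp2 : p = 2
      · rw [hp2, ← h6, es] at e1
        have := h.injx _ _ (by omega) hik (by omega) (by omega) e1
        omega
      · exact h2 p (by omega) (Or.inl (by omega)) e1
  · refine no_far hG h hcat (p := 6) (by omega) (by omega) le_rfl
      (Icc_pos (j := 6) (by omega) (by omega))
      (hI _ (fun j hj => by rw [mem_Icc] at hj; omega)) ?_
      (hO _ (fun j hj => by rw [mem_Icc] at hj; omega)) (by rw [Nat.card_Icc]; omega) (g := 3) (i := i)
      (Or.inl ⟨by omega, by omega, ⟨b, mem_Icc.2 ⟨by omega, hb'⟩, eb⟩, ?_⟩) (by omega) hi hik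
      ⟨s, mem_Icc.2 ⟨by omega, by omega⟩, es⟩ h5
    · rintro u u1 u2 ⟨⟨p, hp, e1⟩, ⟨q, hq, e2⟩⟩
      rw [mem_Icc] at hp hq
      have := hpd u p q u1 u2 (by omega) (by omega) e1 e2
      unfold pos at this
      split_ifs at this <;> omega
    · rintro ⟨p, hp, e1⟩
      rw [mem_Icc] at hp
      have := h3 p (by omega) e1
      omega

/-- All ports are at different vertices when only seven ports of the chain are seen. -/
lemma inj_of_seven (hno : NoG k x y m c) (hk : 2 ≤ k) (hl1 : ltr m c x y 1 ≤ 4)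
    (hl3 : ∀ i, 2 ≤ i → i < k → ltr m c x y i ≤ 3) (hlk : ltr m c x y k ≤ 3 ∨ ltr m c x y k = 5)
    (hL : L4 (ltr m c x y) k) (hw : nw (ltr m c x y) k = 7)
    (hF : ∃ i, 1 ≤ i ∧ i ≤ k ∧ ltr m c x y i = 3) (hout : outN k x y m c ≤ 1) :
    (∀ i, 1 ≤ i → i ≤ k → pc m c (x i) ≤ 1 ∧ pc m c (y i) ≤ 1) ∧
    ∀ i j, i ≤ m + 1 → j ≤ m + 1 → c i = c j → i = j := by
  obtain ⟨i, i1, i2, i3⟩ := hF
  have hi5 : 5 ≤ i := by
    by_contra hcon
    have := hL.2 (i - 1) (by omega)
    rw [show i - 1 + 1 = i by omega] at this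
    omega
  have hk3 : ltr m c x y k ≤ 3 := by
    rcases hlk with h | h
    · exact h
    exfalso
    have hik : i ≠ k := by rintro rfl; omega
    have h8 : 8 ≤ nw (ltr m c x y) k := by
      rw [nw_eq]
      have hge : ∀ j ∈ ({1, 2, 3, 4, i, k} : Finset ℕ), (if j ≤ 4 then 1 else 2) ≤ wt (ltr m c x y j) := by
        intro j hj
        simp only [mem_insert, mem_singleton] at hj
        have h14 : ∀ j < 4, wt (ltr m c x y (j + 1)) = 1 := fun j hj => by rw [hL.2 j hj]; rfl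
        rcases hj with rfl | rfl | rfl | rfl | rfl | rfl
        · rw [if_pos (by norm_num), h14 0 (by norm_num)]
        · rw [if_pos (by norm_num), h14 1 (by norm_num)]
        · rw [if_pos (by norm_num), h14 2 (by norm_num)]
        · rw [if_pos (by norm_num), h14 3 (by norm_num)]
        · rw [if_neg (by omega), i3]; decide
        · rw [if_neg (by omega), h]; decide
      calc 8 = ∑ j ∈ ({1, 2, 3, 4, i, k} : Finset ℕ), (if j ≤ 4 then 1 else 2) := by
            rw [sum_insert (by simp; omega), sum_insert (by simp; omega), sum_insert (by simp; omega),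
              sum_insert (by simp; omega), sum_insert (by simp; omega), sum_singleton]
            simp [show ¬ i ≤ 4 by omega, show ¬ k ≤ 4 by omega]
        _ ≤ ∑ j ∈ ({1, 2, 3, 4, i, k} : Finset ℕ), wt (ltr m c x y j) := sum_le_sum hge
        _ ≤ ∑ j ∈ Icc 1 k, wt (ltr m c x y j) := by
            refine sum_le_sum_of_subset fun j hj => ?_
            simp only [mem_insert, mem_singleton] at hj
            rw [mem_Icc]; omega
    omega
  have h1 : ∀ i, 1 ≤ i → i ≤ k → pc m c (x i) ≤ 1 ∧ pc m c (y i) ≤ 1 := by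
    intro j j1 j2
    have h3 : ltr m c x y j ≤ 3 := by
      by_cases e1 : j = 1
      · have := hL.2 0 (by norm_num)
        rw [e1, this]; norm_num
      by_cases e2 : j = k
      · rw [e2]; exact hk3
      exact hl3 j (by omega) (by omega)
    have h4 := hno j j1 j2
    unfold ltr at h3
    split_ifs at h3 <;> omega
  refine ⟨h1, fun s t hs ht e => ?_⟩
  by_cases hin : InC k x y (c s)
  · obtain ⟨i, i1, i2, e1 | e1⟩ := hin
    · exact pc_one (h1 i i1 i2).1 hs ht e1 (e.symm.trans e1)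
    · exact pc_one (h1 i i1 i2).2 hs ht e1 (e.symm.trans e1)
  · exact out_unique hout hs ht hin (e ▸ hin)

/-- The status of four seen units. -/
lemma nx2_of (hG : ClassC G R) (hc : Crit G R) (h : Chn G R k x y) (hcat : Cat G R m z c)
    (hm : m = 6) (hout : outN k x y m c ≤ 1)
    (hpc : ∀ i, 1 ≤ i → i ≤ k → pc m c (x i) ≤ 1 ∧ pc m c (y i) ≤ 1)
    (hinj : ∀ i j, i ≤ m + 1 → j ≤ m + 1 → c i = c j → i = j)
    (hL : L4 (ltr m c x y) k) (h5 : ¬ (ltr m c x y 5 = 1 ∨ ltr m c x y 5 = 3))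
    (hF : ∃ i, 1 ≤ i ∧ i ≤ k ∧ ltr m c x y i = 3) : NX2 m c x := by
  obtain ⟨i, i1, i2, i3⟩ := hF
  have hi5 : 5 ≤ i := by
    by_contra hcon
    have := hL.2 (i - 1) (by omega)
    rw [show i - 1 + 1 = i by omega] at this
    omega
  have hi6 : i ≠ 5 := by
    rintro rfl
    exact h5 (Or.inr i3)
  have hx5 : ∀ j ≤ m + 1, c j ≠ x 5 := by
    intro j hj e
    have h7 : 1 ≤ pc m c (x 5) := pc_pos.2 ⟨j, hj, e⟩
    have h8 := hpc 5 (by omega) (by omega)
    by_cases h9 : pc m c (y 5) = 0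
    · exact h5 (Or.inl (ltr_one.2 ⟨by omega, h9⟩))
    · exact h5 (Or.inr (ltr_three.2 ⟨h7, by omega⟩))
  obtain ⟨q1, q2⟩ := ltr_three.1 i3
  obtain ⟨s, hs, es⟩ := pc_pos.1 q1
  obtain ⟨t, ht, et⟩ := pc_pos.1 q2
  intro a b ha hb ea eb hab
  by_contra hcon
  push Not at hcon
  rcases hab with ⟨h1, h2⟩ | ⟨h1, h2⟩
  · exact x2_excl hG hc h hcat hm hinj hout (by omega) i2 hx5 hs ht es et h1 h2 hb ea eb
      (fun l hl hl2 => hcon l hl hl2)
  · refine x2_excl hG hc h (cat_rev hcat) hm ?_ (outN_rev hout) (i := i) (by omega) i2 ?_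
      (s := m + 1 - s) (t := m + 1 - t) (a := m + 1 - a) (b := m + 1 - b) (by omega) (by omega)
      ?_ ?_ (by omega) (by omega) (by omega) ?_ ?_ ?_
    · intro p q hp hq e
      have := hinj _ _ (by omega) (by omega) e
      omega
    · intro j hj
      exact hx5 _ (by omega)
    · show c (m + 1 - (m + 1 - s)) = x i
      rw [show m + 1 - (m + 1 - s) = s by omega]; exact es
    · show c (m + 1 - (m + 1 - t)) = y i
      rw [show m + 1 - (m + 1 - t) = t by omega]; exact et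
    · show c (m + 1 - (m + 1 - a)) = x 3
      rw [show m + 1 - (m + 1 - a) = a by omega]; exact ea
    · show c (m + 1 - (m + 1 - b)) = x 4
      rw [show m + 1 - (m + 1 - b) = b by omega]; exact eb
    · intro l hl hl2
      exact hcon _ (by omega) (by omega)

/-- All good ends. -/
def goods4 : List (List ℕ) := [2,2] :: [2,0,2] :: goods

/-- **The good left ends** of a chain, for a caterpillar with at least six vertices. -/
def LGx (k : ℕ) (x y : ℕ → V) (m : ℕ) (c : ℕ → V) : Prop :=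
  (∃ g ∈ goods4, g.length < k ∧ ∀ i (h : i < g.length), pt (ltr m c x y (i + 1)) = g[i]) ∨
  (5 ≤ k ∧ L4 (ltr m c x y) k ∧ ((6 ≤ k ∧ (ltr m c x y 5 = 1 ∨ ltr m c x y 5 = 3)) ∨
    R4 (ltr m c x y) k ∨ (m = 6 ∧ NX2 m c x)))

/-- Mirror images of letters. -/
lemma ltr_mir {i : ℕ} : pt (ltr m c (fun i => y (k + 1 - i)) (fun i => x (k + 1 - i)) i) =
    pt (ltr m c x y (k + 1 - i)) :=
  (ltr_swap (x' := fun i => y (k + 1 - i)) (y' := fun i => x (k + 1 - i)) (i' := i)
    (i := k + 1 - i) rfl rfl).1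

lemma LG_of_RG (hk : 1 ≤ k) (hl : RG (ltr m c x y) k) :
    LG (ltr m c (fun i => y (k + 1 - i)) (fun i => x (k + 1 - i))) k := by
  obtain ⟨g, hg, hgk, hp⟩ := hl
  refine ⟨g, hg, hgk, fun i hi => ?_⟩
  rw [ltr_mir, show k + 1 - (i + 1) = k - i by omega]
  exact hp i hi

lemma lgx_of_LG (hG : ClassC G R) (hcat : Cat G R m z c) (h : Chn G R k x y) (hno : NoG k x y m c)
    (hm : 6 ≤ m) (hout : outN k x y m c ≤ 1) (hl : LG (ltr m c x y) k) : LGx k x y m c := by
  obtain ⟨g, hg, hgk, hp⟩ := hl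
  have hnw := nw_ltr hG hcat h hno
  refine Or.inl ⟨g, List.mem_cons_of_mem _ (List.mem_cons_of_mem _ hg), ?_, hp⟩
  by_contra hcon
  have e : g.length = k := by omega
  have := nw_goods hg hp
  rw [e] at this
  omega

/-- The isolated full units are excluded by this statement. -/
def IsoStmt (k : ℕ) (x y : ℕ → V) (m : ℕ) (c : ℕ → V) : Prop :=
  pc m c (x 1) ≤ 1 → pc m c (y k) ≤ 1 → ∀ v, 2 ≤ v → v + 1 ≤ k →
    (∃ i ≤ m + 1, c i = x v) → (∃ j ≤ m + 1, c j = y v) →
    (∀ j ≤ m + 1, c j ≠ x (v - 1) ∧ c j ≠ y (v - 1) ∧ c j ≠ x (v + 1) ∧ c j ≠ y (v + 1)) →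
    (∃ l ≤ m + 1, 3 ≤ v ∧ c l = y (v - 2)) ∨ (∃ l ≤ m + 1, v + 2 ≤ k ∧ c l = x (v + 2))

lemma unseen_of {i : ℕ} (h : ltr m c x y i = 0) : ∀ j ≤ m + 1, c j ≠ x i ∧ c j ≠ y i := by
  intro j hj
  obtain ⟨h1, h2⟩ := ltr_zero.1 h
  refine ⟨fun e => ?_, fun e => ?_⟩
  · have : 1 ≤ pc m c (x i) := pc_pos.2 ⟨j, hj, e⟩
    omega
  · have : 1 ≤ pc m c (y i) := pc_pos.2 ⟨j, hj, e⟩
    omega

/-- One side. -/
lemma word_side (hG : ClassC G R) (hc : Crit G R) (h : Chn G R k x y) (hcat : Cat G R m z c)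
    (hk : 2 ≤ k) (hm : 6 ≤ m) (hno : NoG k x y m c) (hout : outN k x y m c ≤ 1)
    (hFF : ∀ i, 1 ≤ i → i + 1 ≤ k → ltr m c x y i = 3 → ltr m c x y (i + 1) ≠ 3)
    (hfuf : ∀ i, 1 ≤ i → i + 2 ≤ k → ltr m c x y i = 3 → ltr m c x y (i + 1) = 0 →
      ltr m c x y (i + 2) ≠ 3)
    (hiso : IsoStmt k x y m c) (hF : ∃ i, 1 ≤ i ∧ i ≤ k ∧ ltr m c x y i = 3) :
    LGx k x y m c ∨ RG (ltr m c x y) k ∨ (ltr m c x y 1 ≤ 3 ∧ (ltr m c x y k = 5 ∨
      (ltr m c x y k ≤ 3 ∧ R4 (ltr m c x y) k ∧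
        (¬ L4p (ltr m c x y) k ∨ R4y (ltr m c x y) k)))) := by
  have hlaw := ltr_law hG hcat h hno hout
  have hnw := nw_ltr hG hcat h hno
  obtain ⟨l1, l2, l3⟩ := ltr_le hG hcat h hk
  rcases words hk l1 l2 l3 hlaw hF hFF hfuf with h1 | h1 | h1 | h1 | ⟨h0, h1⟩
  · exact Or.inl (lgx_of_LG hG hcat h hno hm hout h1)
  · exact Or.inr (Or.inl h1)
  · left; right
    obtain ⟨a1, a2, a3⟩ := h1
    by_cases h5 : ltr m c x y 5 = 1 ∨ ltr m c x y 5 = 3
    · refine ⟨a1, a2, Or.inl ⟨?_, h5⟩⟩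
      by_contra hcon
      have e : k = 5 := by omega
      have h14 : ∀ j < 4, wt (ltr m c x y (j + 1)) = 1 := fun j hj => by rw [a2.2 j hj]; rfl
      have e1 := h14 0 (by norm_num)
      have e2 := h14 1 (by norm_num)
      have e3 := h14 2 (by norm_num)
      have e4 := h14 3 (by norm_num)
      norm_num at e1 e2 e3 e4
      have e5 : wt (ltr m c x y 5) ≤ 2 := by
        rcases h5 with h5 | h5 <;> rw [h5] <;> decide
      have : nw (ltr m c x y) 5 = 0 + wt (ltr m c x y 1) + wt (ltr m c x y 2) + wt (ltr m c x y 3) +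
          wt (ltr m c x y 4) + wt (ltr m c x y 5) := rfl
      have hnw5 : nw (ltr m c x y) k = nw (ltr m c x y) 5 := by rw [e]
      omega
    · rcases a3 with a3 | a3 | a3
      · exact absurd a3 h5
      · exact ⟨a1, a2, Or.inr (Or.inl a3)⟩
      · have hm6 : m = 6 := by omega
        obtain ⟨b1, b2⟩ := inj_of_seven hno hk l1 l2 l3 a2 a3 hF hout
        exact ⟨a1, a2, Or.inr (Or.inr ⟨hm6, nx2_of hG hc h hcat hm6 hout b1 b2 a2 h5 hF⟩)⟩
  · exfalso; omega
  · by_cases hk5 : ltr m c x y k = 5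
    · exact Or.inr (Or.inr ⟨h0, Or.inl hk5⟩)
    have hk3 : ltr m c x y k ≤ 3 := by omega
    rcases h1 with h1 | h1 | h1
    · exfalso
      obtain ⟨v, a1, a2, a3, a4, a5, a6, a7⟩ := h1
      obtain ⟨q1, q2⟩ := ltr_three.1 a4
      have hp1 : pc m c (x 1) ≤ 1 := by
        have h4 := hno 1 le_rfl (by omega)
        unfold ltr at h0
        split_ifs at h0 <;> omega
      have hpk : pc m c (y k) ≤ 1 := by
        have h4 := hno k (by omega) le_rfl
        unfold ltr at hk3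
        split_ifs at hk3 <;> omega
      rcases hiso hp1 hpk v a1 a2 (pc_pos.1 q1) (pc_pos.1 q2) (fun j hj => by
          have b1 := unseen_of a3 j hj
          have b2 := unseen_of a5 j hj
          exact ⟨b1.1, b1.2, b2.1, b2.2⟩) with ⟨l, hl, h3, e⟩ | ⟨l, hl, h3, e⟩
      · have hy : 1 ≤ pc m c (y (v - 2)) := pc_pos.2 ⟨l, hl, e⟩
        have hle := pc_y_le hG hcat h (i := v - 2) (by omega) (by omega)
        by_cases hx : pc m c (x (v - 2)) = 0
        · exact a6 ⟨h3, ltr_two.2 ⟨hx, by omega⟩⟩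
        · refine hfuf (v - 2) (by omega) (by omega) (ltr_three.2 ⟨by omega, hy⟩) ?_ ?_
          · rw [show v - 2 + 1 = v - 1 by omega]; exact a3
          · rw [show v - 2 + 2 = v by omega]; exact a4
      · have hx : 1 ≤ pc m c (x (v + 2)) := pc_pos.2 ⟨l, hl, e⟩
        have hle := pc_x_le hG hcat h (i := v + 2) (by omega) h3
        by_cases hy : pc m c (y (v + 2)) = 0
        · exact a7 ⟨h3, ltr_one.2 ⟨by omega, hy⟩⟩
        · exact hfuf v (by omega) h3 a4 a5 (ltr_three.2 ⟨hx, by omega⟩)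
    · exact absurd h1 hk5
    · exact Or.inr (Or.inr ⟨h0, Or.inr ⟨hk3, h1⟩⟩)

lemma IsoStmt.mir (hk : 1 ≤ k) (h : IsoStmt k x y m c) :
    IsoStmt k (fun i => y (k + 1 - i)) (fun i => x (k + 1 - i)) m c := by
  intro h1 h2 v hv2 hvk hx hy hu
  have h1' : pc m c (y k) ≤ 1 := by
    have : pc m c (y (k + 1 - 1)) ≤ 1 := h1
    rwa [show k + 1 - 1 = k by omega] at this
  have h2' : pc m c (x 1) ≤ 1 := by
    have : pc m c (x (k + 1 - k)) ≤ 1 := h2
    rwa [show k + 1 - k = 1 by omega] at this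
  rcases h h2' h1' (k + 1 - v) (by omega) (by omega) hy hx (fun j hj => by
    obtain ⟨a, b, d, e⟩ := hu j hj
    have a' : c j ≠ y (k + 1 - (v - 1)) := a
    have b' : c j ≠ x (k + 1 - (v - 1)) := b
    have d' : c j ≠ y (k + 1 - (v + 1)) := d
    have e' : c j ≠ x (k + 1 - (v + 1)) := e
    rw [show k + 1 - (v - 1) = k + 1 - v + 1 by omega] at a' b'
    rw [show k + 1 - (v + 1) = k + 1 - v - 1 by omega] at d' e'
    exact ⟨e', d', b', a'⟩) with ⟨l, hl, h3, e⟩ | ⟨l, hl, h3, e⟩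
  · right
    refine ⟨l, hl, by omega, ?_⟩
    show c l = y (k + 1 - (v + 2))
    rw [e, show k + 1 - (v + 2) = k + 1 - v - 2 by omega]
  · left
    refine ⟨l, hl, by omega, ?_⟩
    show c l = x (k + 1 - (v - 2))
    rw [e, show k + 1 - (v - 2) = k + 1 - v + 2 by omega]

lemma ltr_mir3 {i : ℕ} (h : ltr m c (fun i => y (k + 1 - i)) (fun i => x (k + 1 - i)) i = 3) :
    ltr m c x y (k + 1 - i) = 3 := by
  have h3 := ltr_three.1 h
  exact ltr_three.2 ⟨h3.2, h3.1⟩

lemma ltr_mir0 {i : ℕ} (h : ltr m c (fun i => y (k + 1 - i)) (fun i => x (k + 1 - i)) i = 0) :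
    ltr m c x y (k + 1 - i) = 0 := by
  have h3 := ltr_zero.1 h
  exact ltr_zero.2 ⟨h3.2, h3.1⟩

/-- Words without neighbouring full units. -/
theorem word_core (hG : ClassC G R) (hc : Crit G R) (h : Chn G R k x y) (hcat : Cat G R m z c)
    (hk : 2 ≤ k) (hm : 6 ≤ m) (hn : NCp m (JC k x y c)) (hno : NoG k x y m c)
    (hFF : ∀ i, 1 ≤ i → i + 1 ≤ k → ltr m c x y i = 3 → ltr m c x y (i + 1) ≠ 3)
    (hfuf : ∀ i, 1 ≤ i → i + 2 ≤ k → ltr m c x y i = 3 → ltr m c x y (i + 1) = 0 →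
      ltr m c x y (i + 2) ≠ 3)
    (hiso : IsoStmt k x y m c) :
    (∃ a b, Sp k x y m c a b) ∨ LGx k x y m c ∨
      LGx k (fun i => y (k + 1 - i)) (fun i => x (k + 1 - i)) m c := by
  have hout := outN_le (by omega) hn
  have hout' : outN k (fun i => y (k + 1 - i)) (fun i => x (k + 1 - i)) m c ≤ 1 := by
    rw [outN_mir]; exact hout
  have hno' := hno.rev
  have h' := Chn.rev h
  have hnw := nw_ltr hG hcat h hno
  by_cases hF : ∃ i, 1 ≤ i ∧ i ≤ k ∧ ltr m c x y i = 3
  · right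
    have hF' : ∃ i, 1 ≤ i ∧ i ≤ k ∧
        ltr m c (fun i => y (k + 1 - i)) (fun i => x (k + 1 - i)) i = 3 := by
      obtain ⟨i, i1, i2, i3⟩ := hF
      refine ⟨k + 1 - i, by omega, by omega, ?_⟩
      have h3 := ltr_three.1 i3
      refine ltr_three.2 ⟨?_, ?_⟩
      · show 1 ≤ pc m c (y (k + 1 - (k + 1 - i)))
        rw [show k + 1 - (k + 1 - i) = i by omega]; exact h3.2
      · show 1 ≤ pc m c (x (k + 1 - (k + 1 - i)))
        rw [show k + 1 - (k + 1 - i) = i by omega]; exact h3.1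
    have hFF' : ∀ i, 1 ≤ i → i + 1 ≤ k →
        ltr m c (fun i => y (k + 1 - i)) (fun i => x (k + 1 - i)) i = 3 →
        ltr m c (fun i => y (k + 1 - i)) (fun i => x (k + 1 - i)) (i + 1) ≠ 3 := by
      intro i i1 i2 i3 i4
      have a3 := ltr_mir3 i3
      have a4 := ltr_mir3 i4
      rw [show k + 1 - (i + 1) = k - i by omega] at a4
      rw [show k + 1 - i = k - i + 1 by omega] at a3
      exact hFF (k - i) (by omega) (by omega) a4 a3
    have hfuf' : ∀ i, 1 ≤ i → i + 2 ≤ k →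
        ltr m c (fun i => y (k + 1 - i)) (fun i => x (k + 1 - i)) i = 3 →
        ltr m c (fun i => y (k + 1 - i)) (fun i => x (k + 1 - i)) (i + 1) = 0 →
        ltr m c (fun i => y (k + 1 - i)) (fun i => x (k + 1 - i)) (i + 2) ≠ 3 := by
      intro i i1 i2 i3 i4 i5
      have a3 := ltr_mir3 i3
      have a4 := ltr_mir0 i4
      have a5 := ltr_mir3 i5
      rw [show k + 1 - (i + 2) = k - i - 1 by omega] at a5
      rw [show k + 1 - (i + 1) = k - i - 1 + 1 by omega] at a4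
      rw [show k + 1 - i = k - i - 1 + 2 by omega] at a3
      exact hfuf (k - i - 1) (by omega) (by omega) a5 a4 a3
    -- letters at the ends
    have e5 : ltr m c x y k = 5 →
        ltr m c (fun i => y (k + 1 - i)) (fun i => x (k + 1 - i)) 1 ≤ 3 → False := by
      intro e1 e2
      have a1 : pt (ltr m c (fun i => y (k + 1 - i)) (fun i => x (k + 1 - i)) 1) = 3 := by
        rw [ltr_mir, show k + 1 - 1 = k by omega, e1]; rfl
      generalize ltr m c (fun i => y (k + 1 - i)) (fun i => x (k + 1 - i)) 1 = l at a1 e2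
      unfold pt at a1
      split_ifs at a1 <;> omega
    have e5' : ltr m c (fun i => y (k + 1 - i)) (fun i => x (k + 1 - i)) k = 5 →
        ltr m c x y 1 ≤ 3 → False := by
      intro e1 e2
      have a1 : pt (ltr m c (fun i => y (k + 1 - i)) (fun i => x (k + 1 - i)) k) = 3 := by
        rw [e1]; rfl
      rw [ltr_mir, show k + 1 - k = 1 by omega] at a1
      generalize ltr m c x y 1 = l at a1 e2
      unfold pt at a1
      split_ifs at a1 <;> omega
    have hR : RG (ltr m c (fun i => y (k + 1 - i)) (fun i => x (k + 1 - i))) k → LGx k x y m c := by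
      intro g1
      refine lgx_of_LG hG hcat h hno hm hout ?_
      obtain ⟨g, hg, hgk, hp⟩ := g1
      refine ⟨g, hg, hgk, fun i hi => ?_⟩
      have := hp i hi
      rw [ltr_mir, show k + 1 - (k - i) = i + 1 by omega] at this
      exact this
    rcases word_side hG hc h hcat hk hm hno hout hFF hfuf hiso hF with h1 | h1 | ⟨h0, h1⟩
    · exact Or.inl h1
    · exact Or.inr (lgx_of_LG hG hcat h' hno' hm hout' (LG_of_RG (by omega) h1))
    rcases word_side hG hc h' hcat hk hm hno' hout' hFF' hfuf' (hiso.mir (by omega)) hF' with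
      g1 | g1 | ⟨g0, g1⟩
    · exact Or.inr g1
    · exact Or.inl (hR g1)
    rcases h1 with h1 | ⟨h1, h2, h3⟩
    · exact absurd g0 (fun g0 => e5 h1 g0)
    rcases g1 with g1 | ⟨g1, g2, g3⟩
    · exact absurd h0 (fun h0 => e5' g1 h0)
    have a1 : L4p (ltr m c (fun i => y (k + 1 - i)) (fun i => x (k + 1 - i))) k := by
      refine ⟨h2.1, fun i hi => ?_⟩
      have := h2.2 i hi
      rw [ltr_mir, show k + 1 - (i + 1) = k - i by omega]
      exact this
    have a2 : R4y (ltr m c (fun i => y (k + 1 - i)) (fun i => x (k + 1 - i))) k := by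
      rcases g3 with g3 | g3
      · exact absurd a1 g3
      · exact g3
    have a3 : L4 (ltr m c x y) k := by
      refine ⟨h2.1, fun i hi => ?_⟩
      have := ltr_two.1 (a2.2 i hi)
      have hk4 := h2.1
      refine ltr_one.2 ⟨?_, ?_⟩
      · have b : pc m c (x (k + 1 - (k - i))) = 1 := this.2
        rwa [show k + 1 - (k - i) = i + 1 by omega] at b
      · have b : pc m c (y (k + 1 - (k - i))) = 0 := this.1
        rwa [show k + 1 - (k - i) = i + 1 by omega] at b
    left; right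
    refine ⟨?_, a3, Or.inr (Or.inl h2)⟩
    obtain ⟨i, i1, i2, i3⟩ := hF
    by_contra hcon
    have hk4 := h2.1
    have := a3.2 (i - 1) (by omega)
    rw [show i - 1 + 1 = i by omega] at this
    omega
  · have hNF : NoFull G R m c := by
      intro s t hs ht hme
      by_cases hin : InC k x y (c s)
      · obtain ⟨i, i1, i2, e⟩ := hin
        have hm1 := h.me i i1 i2
        refine hF ⟨i, i1, i2, ltr_three.2 ?_⟩
        rcases e with e | e
        · have e' : c t = y i := by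
            rw [e] at hme
            exact hG.matching hme hm1
          exact ⟨pc_pos.2 ⟨s, hs, e⟩, pc_pos.2 ⟨t, ht, e'⟩⟩
        · have e' : c t = x i := by
            rw [e] at hme
            exact hG.matching hme hm1.symm
          exact ⟨pc_pos.2 ⟨t, ht, e'⟩, pc_pos.2 ⟨s, hs, e⟩⟩
      · have hin' : ¬ InC k x y (c t) := fun h2 => hin (h.mate hG h2 hme.symm)
        have := out_unique hout hs ht hin hin'
        subst this
        exact hme.ne rfl
    rcases noFull_out hG h hcat hNF hm hout with h1 | h1 | h1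
    · exact Or.inl h1
    · refine Or.inr (Or.inl (Or.inr ?_))
      have h7 := (h1 7 (by omega) le_rfl).1
      refine ⟨by omega, ⟨by omega, fun i hi => ?_⟩, Or.inl ⟨by omega, Or.inl ?_⟩⟩
      · have h2 := h1 (i + 1) (by omega) (by omega)
        exact ltr_one.2 h2.2
      · exact ltr_one.2 (h1 5 (by omega) (by omega)).2
    · refine Or.inr (Or.inr (Or.inr ?_))
      have h7 := (h1 7 (by omega) le_rfl).1
      refine ⟨by omega, ⟨by omega, fun i hi => ?_⟩, Or.inl ⟨by omega, Or.inl ?_⟩⟩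
      · have h2 := h1 (i + 1) (by omega) (by omega)
        exact ltr_one.2 h2.2
      · exact ltr_one.2 (h1 5 (by omega) (by omega)).2

/-- The left end `F F`. -/
lemma lgx_ff (hG : ClassC G R) (hcat : Cat G R m z c) (h : Chn G R k x y) (hk : 2 ≤ k)
    (hno : NoG k x y m c) (hm : 6 ≤ m) (hout : outN k x y m c ≤ 1)
    (h1 : ltr m c x y 1 = 3) (h2 : ltr m c x y 2 = 3) : LGx k x y m c := by
  have hnw := nw_ltr hG hcat h hno
  refine Or.inl ⟨[2,2], by simp [goods4], ?_, fun i hi => ?_⟩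
  · show 2 < k
    by_contra hcon
    have e : k = 2 := by omega
    have e1 : nw (ltr m c x y) k = nw (ltr m c x y) 2 := by rw [e]
    have e2 : nw (ltr m c x y) 2 = 0 + wt (ltr m c x y 1) + wt (ltr m c x y 2) := rfl
    rw [h1, h2] at e2
    have e3 : wt 3 = 2 := rfl
    omega
  · have : i = 0 ∨ i = 1 := by simp at hi; omega
    rcases this with rfl | rfl
    · show pt (ltr m c x y 1) = 2
      rw [h1]; rfl
    · show pt (ltr m c x y 2) = 2
      rw [h2]; rfl

/-- The left end `F U F`. -/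
lemma lgx_fuf (hG : ClassC G R) (hcat : Cat G R m z c) (h : Chn G R k x y) (hk : 3 ≤ k)
    (hno : NoG k x y m c) (hm : 6 ≤ m) (hout : outN k x y m c ≤ 1)
    (h1 : ltr m c x y 1 = 3) (h2 : ltr m c x y 2 = 0) (h3 : ltr m c x y 3 = 3) : LGx k x y m c := by
  have hnw := nw_ltr hG hcat h hno
  refine Or.inl ⟨[2,0,2], by simp [goods4], ?_, fun i hi => ?_⟩
  · show 3 < k
    by_contra hcon
    have e : k = 3 := by omega
    have e1 : nw (ltr m c x y) k = nw (ltr m c x y) 3 := by rw [e]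
    have e2 : nw (ltr m c x y) 3 = 0 + wt (ltr m c x y 1) + wt (ltr m c x y 2) +
      wt (ltr m c x y 3) := rfl
    rw [h1, h2, h3] at e2
    have e3 : wt 3 = 2 := rfl
    have e4 : wt 0 = 0 := rfl
    omega
  · have : i = 0 ∨ i = 1 ∨ i = 2 := by simp at hi; omega
    rcases this with rfl | rfl | rfl
    · show pt (ltr m c x y 1) = 2
      rw [h1]; rfl
    · show pt (ltr m c x y 2) = 0
      rw [h2]; rfl
    · show pt (ltr m c x y 3) = 2
      rw [h3]; rfl

/-- **Words**, for paths with at least six vertices. -/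
theorem word_out3 (hG : ClassC G R) (hc : Crit G R) (h : Chn G R k x y) (hcat : Cat G R m z c)
    (hk : 3 ≤ k) (hm : 6 ≤ m) (hn : NCp m (JC k x y c)) (hno : NoG k x y m c)
    (hFF : ∀ i, 2 ≤ i → i + 2 ≤ k → ltr m c x y i = 3 → ltr m c x y (i + 1) ≠ 3)
    (hfuf : ∀ i, 2 ≤ i → i + 3 ≤ k → ltr m c x y i = 3 → ltr m c x y (i + 1) = 0 →
      ltr m c x y (i + 2) ≠ 3)
    (hiso : IsoStmt k x y m c) :
    (∃ a b, Sp k x y m c a b) ∨ LGx k x y m c ∨
      LGx k (fun i => y (k + 1 - i)) (fun i => x (k + 1 - i)) m c := by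
  have hout := outN_le (by omega) hn
  have hout' : outN k (fun i => y (k + 1 - i)) (fun i => x (k + 1 - i)) m c ≤ 1 := by
    rw [outN_mir]; exact hout
  have hno' := hno.rev
  have h' := Chn.rev h
  have hm3 : ∀ i, 1 ≤ i → i ≤ k → ltr m c x y i = 3 →
      ltr m c (fun i => y (k + 1 - i)) (fun i => x (k + 1 - i)) (k + 1 - i) = 3 := by
    intro i i1 i2 i3
    have h3 := ltr_three.1 i3
    refine ltr_three.2 ⟨?_, ?_⟩
    · show 1 ≤ pc m c (y (k + 1 - (k + 1 - i)))
      rw [show k + 1 - (k + 1 - i) = i by omega]; exact h3.2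
    · show 1 ≤ pc m c (x (k + 1 - (k + 1 - i)))
      rw [show k + 1 - (k + 1 - i) = i by omega]; exact h3.1
  have hm0 : ∀ i, 1 ≤ i → i ≤ k → ltr m c x y i = 0 →
      ltr m c (fun i => y (k + 1 - i)) (fun i => x (k + 1 - i)) (k + 1 - i) = 0 := by
    intro i i1 i2 i3
    have h3 := ltr_zero.1 i3
    refine ltr_zero.2 ⟨?_, ?_⟩
    · show pc m c (y (k + 1 - (k + 1 - i))) = 0
      rw [show k + 1 - (k + 1 - i) = i by omega]; exact h3.2
    · show pc m c (x (k + 1 - (k + 1 - i))) = 0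
      rw [show k + 1 - (k + 1 - i) = i by omega]; exact h3.1
  by_cases c1 : ltr m c x y 1 = 3 ∧ ltr m c x y 2 = 3
  · exact Or.inr (Or.inl (lgx_ff hG hcat h (by omega) hno hm hout c1.1 c1.2))
  by_cases c2 : ltr m c x y (k - 1) = 3 ∧ ltr m c x y k = 3
  · refine Or.inr (Or.inr (lgx_ff hG hcat h' (by omega) hno' hm hout' ?_ ?_))
    · have := hm3 k (by omega) le_rfl c2.2
      rwa [show k + 1 - k = 1 by omega] at this
    · have := hm3 (k - 1) (by omega) (by omega) c2.1
      rwa [show k + 1 - (k - 1) = 2 by omega] at this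
  by_cases c3 : ltr m c x y 1 = 3 ∧ ltr m c x y 2 = 0 ∧ ltr m c x y 3 = 3
  · exact Or.inr (Or.inl (lgx_fuf hG hcat h hk hno hm hout c3.1 c3.2.1 c3.2.2))
  by_cases c4 : ltr m c x y (k - 2) = 3 ∧ ltr m c x y (k - 1) = 0 ∧ ltr m c x y k = 3
  · refine Or.inr (Or.inr (lgx_fuf hG hcat h' hk hno' hm hout' ?_ ?_ ?_))
    · have := hm3 k (by omega) le_rfl c4.2.2
      rwa [show k + 1 - k = 1 by omega] at this
    · have := hm0 (k - 1) (by omega) (by omega) c4.2.1
      rwa [show k + 1 - (k - 1) = 2 by omega] at this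
    · have := hm3 (k - 2) (by omega) (by omega) c4.1
      rwa [show k + 1 - (k - 2) = 3 by omega] at this
  refine word_core hG hc h hcat (by omega) hm hn hno ?_ ?_ hiso
  · intro i i1 i2 i3 i4
    by_cases e1 : i = 1
    · rw [e1] at i3 i4
      exact c1 ⟨i3, i4⟩
    by_cases e2 : i + 1 = k
    · rw [e2] at i4
      rw [show i = k - 1 by omega] at i3
      exact c2 ⟨i3, i4⟩
    exact hFF i (by omega) (by omega) i3 i4
  · intro i i1 i2 i3 i4 i5
    by_cases e1 : i = 1
    · rw [e1] at i3 i4 i5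
      exact c3 ⟨i3, i4, i5⟩
    by_cases e2 : i + 2 = k
    · rw [e2] at i5
      rw [show i + 1 = k - 1 by omega] at i4
      rw [show i = k - 2 by omega] at i3
      exact c4 ⟨i3, i4, i5⟩
    exact hfuf i (by omega) (by omega) i3 i4 i5

end cat

end CLB.H3
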