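import Pool.Agent.Helper3_DA.NoGl
import Pool.Agent.Helper3_DA.WdFin
import Pool.Agent.Helper62_DA.IsoStmt
import Pool.Agent.Helper45_DA.FFI
import Pool.Agent.Helper80_DA.Le4
import Pool.Agent.Helper95_CLB.OpenFin

/-!
The classification of the nearly closed components of open chains, assembled.
-/

set_option autoImplicit false
set_option linter.unusedSectionVars false

namespace CLB.H3

open Finset Classical
open CLB.H95

/-- The classification for at most five vertices. -/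
def SmallH {V : Type*} [Fintype V] (H : SimpleGraph V) (R : V → Bool) (k : ℕ) (x y : ℕ → V) : Prop :=
  ∀ m z c, Cat H R m z c → 2 ≤ m → m ≤ 5 → NCp m (JC k x y c) →
    (∃ a b, Sp k x y m c a b) ∨ (m = 2 ∧ AL k x y c (x 1) (x 2)) ∨
    (m = 2 ∧ AL k x y c (y k) (y (k - 1))) ∨ T5 k x y m c ∨
    T5 k (fun i => y (k + 1 - i)) (fun i => x (k + 1 - i)) m c

/-- Five vertices. -/
def FiveAll : Prop := ∀ (V : Type) [Fintype V] (H : SimpleGraph V) (R : V → Bool) (k : ℕ)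
  (x y z c : ℕ → V), ClassC H R → Crit H R → Chn H R k x y → 3 ≤ k →
  (∀ w, ¬ Lk H R (x 1) w) → (∀ w, ¬ Lk H R (y k) w) → Cat H R 5 z c → NCp 5 (JC k x y c) →
  (∃ a b, Sp k x y 5 c a b) ∨ T5 k x y 5 c ∨
    T5 k (fun i => y (k + 1 - i)) (fun i => x (k + 1 - i)) 5 c

/-- No full units at distance two inside the chain. -/
def FufAll : Prop := ∀ (V : Type) [Fintype V] (H : SimpleGraph V) (R : V → Bool) (k m : ℕ)
  (x y z c : ℕ → V), ClassC H R → Crit H R → Chn H R k x y → 3 ≤ k →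
  (∀ w, ¬ Lk H R (x 1) w) → (∀ w, ¬ Lk H R (y k) w) → SmallH H R k x y → Cat H R m z c → 6 ≤ m →
  NCp m (JC k x y c) → ¬ LGx k x y m c →
  ¬ LGx k (fun i => y (k + 1 - i)) (fun i => x (k + 1 - i)) m c → ∀ v, 2 ≤ v → v + 3 ≤ k →
  (∃ j ≤ m + 1, c j = x v) → (∃ j ≤ m + 1, c j = y v) →
  (∀ j ≤ m + 1, c j ≠ x (v + 1) ∧ c j ≠ y (v + 1)) →
  (∃ j ≤ m + 1, c j = x (v + 2)) → (∃ j ≤ m + 1, c j = y (v + 2)) → False

/-- The windows at the left end. -/
def EndAll : Prop := ∀ (V : Type) [Fintype V] (H : SimpleGraph V) (R : V → Bool) (k m : ℕ)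
  (x y z c : ℕ → V), ClassC H R → Crit H R → Chn H R k x y → 3 ≤ k →
  (∀ w, ¬ Lk H R (x 1) w) → (∀ w, ¬ Lk H R (y k) w) → SmallH H R k x y → Cat H R m z c → 6 ≤ m →
  NCp m (JC k x y c) → LGx k x y m c → False

theorem smallH_of (h5 : FiveAll) (V : Type) [Fintype V] (H : SimpleGraph V) (R : V → Bool) (k : ℕ)
    (x y : ℕ → V) (hG : ClassC H R) (hc : Crit H R) (h : Chn H R k x y) (hk : 3 ≤ k)
    (e1 : ∀ w, ¬ Lk H R (x 1) w) (e2 : ∀ w, ¬ Lk H R (y k) w) : SmallH H R k x y := by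
  intro m z c hcat hm hm5 hN
  by_cases hm4 : m ≤ 4
  · rcases CLB.H80.loc_le4 hG hc h hk ⟨e1, e2⟩ hcat hm hm4 hN with h1 | h1 | h1
    · exact Or.inl h1
    · exact Or.inr (Or.inl h1)
    · exact Or.inr (Or.inr (Or.inl h1))
  · have e : m = 5 := by omega
    subst e
    rcases h5 V H R k x y z c hG hc h hk e1 e2 hcat hN with h1 | h1 | h1
    · exact Or.inl h1
    · exact Or.inr (Or.inr (Or.inr (Or.inl h1)))
    · exact Or.inr (Or.inr (Or.inr (Or.inr h1)))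

/-- **The classification.** -/
theorem locAll_of (h5 : FiveAll) (hU : FufAll) (hE : EndAll) : LocAll := by
  intro V _ H R k x y hG hc h hk e1 e2 m z c hcat hm hN
  have hS := smallH_of h5 V H R k x y hG hc h hk e1 e2
  by_cases hm5 : m ≤ 5
  · exact hS m z c hcat hm hm5 hN
  left
  have hm6 : 6 ≤ m := by omega
  have h' : Chn H R k (fun i => y (k + 1 - i)) (fun i => x (k + 1 - i)) := Chn.rev h
  have e1' : ∀ w, ¬ Lk H R ((fun i => y (k + 1 - i)) 1) w := by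
    intro w
    show ¬ Lk H R (y (k + 1 - 1)) w
    rw [show k + 1 - 1 = k by omega]
    exact e2 w
  have e2' : ∀ w, ¬ Lk H R ((fun i => x (k + 1 - i)) k) w := by
    intro w
    show ¬ Lk H R (x (k + 1 - k)) w
    rw [show k + 1 - k = 1 by omega]
    exact e1 w
  have hN' : NCp m (JC k (fun i => y (k + 1 - i)) (fun i => x (k + 1 - i)) c) := by
    rw [jc_rev]; exact hN
  have hS' := smallH_of h5 V H R k _ _ hG hc h' hk e1' e2'
  have g1 : ¬ LGx k x y m c := hE V H R k m x y z c hG hc h hk e1 e2 hS hcat hm6 hN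
  have g2 : ¬ LGx k (fun i => y (k + 1 - i)) (fun i => x (k + 1 - i)) m c :=
    hE V H R k m _ _ z c hG hc h' hk e1' e2' hS' hcat hm6 hN'
  have hno : NoG k x y m c := noG hG hc hcat h (by omega) ⟨e1, e2⟩
  have hFF : ∀ i, 2 ≤ i → i + 2 ≤ k → ltr m c x y i = 3 → ltr m c x y (i + 1) ≠ 3 := by
    intro i i1 i2 i3 i4
    obtain ⟨a1, a2⟩ := ltr_three.1 i3
    obtain ⟨a3, a4⟩ := ltr_three.1 i4
    exact CLB.H45.ffi hG hc hcat hm6 h i1 i2 (pc_pos.1 a1) (pc_pos.1 a2) (pc_pos.1 a3) (pc_pos.1 a4)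
  have hfuf : ∀ i, 2 ≤ i → i + 3 ≤ k → ltr m c x y i = 3 → ltr m c x y (i + 1) = 0 →
      ltr m c x y (i + 2) ≠ 3 := by
    intro i i1 i2 i3 i4 i5
    obtain ⟨a1, a2⟩ := ltr_three.1 i3
    obtain ⟨a3, a4⟩ := ltr_three.1 i5
    exact hU V H R k m x y z c hG hc h hk e1 e2 hS hcat hm6 hN g1 g2 i i1 i2 (pc_pos.1 a1)
      (pc_pos.1 a2) (unseen_of i4) (pc_pos.1 a3) (pc_pos.1 a4)
  rcases word_out3 hG hc h hcat hk hm6 hN hno hFF hfuf
    (CLB.H62.isoStmt hG hc h hcat (by omega) hm6 hN) with h1 | h1 | h1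
  · exact h1
  · exact absurd h1 g1
  · exact absurd h1 g2

end CLB.H3
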