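import Pool.Agent.Helper3_DA.WfTree

/-!
Words with two full units at distance two.
-/

set_option autoImplicit false

namespace CLB.H3.Wf

open Finset
open CLB.H3.Wd (Tr pt wt trn ofs acc acce encL decL nw Lst pt_zero pt_one pt_two Vd Law sr L4 R4 all_x
  l4_of_pre sr_mono law_acc law_acce)

/-- The left end is good. -/
def LG (w : ℕ → ℕ) (k : ℕ) : Prop :=
  ∃ g ∈ goods, g.length ≤ k ∧ ∀ i (h : i < g.length), pt (w (i + 1)) = g[i]

/-- The right end is good. -/
def RG (w : ℕ → ℕ) (k : ℕ) : Prop :=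
  ∃ g ∈ goods, g.length ≤ k ∧ ∀ i (h : i < g.length), pt (w (k - i)) = g[i]

/-- Five units at the right end. -/
def R5 (w : ℕ → ℕ) (k : ℕ) : Prop :=
  5 ≤ k ∧ (∀ i < 4, w (k - i) = 2) ∧ (w (k - 4) = 2 ∨ w (k - 4) = 3)

lemma trim_pre (n : ℕ) (l : List ℕ) : trim n l <+: l := by
  induction n generalizing l with
  | zero => exact List.prefix_refl _
  | succ n ih =>
    unfold trim
    split_ifs
    · exact List.prefix_refl _
    · exact (ih _).trans (List.dropLast_prefix _)

/-- The meaning of a state, first part. -/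
structure SemA (w : ℕ → ℕ) (n : ℕ) (s : St) : Prop where
  sh : s.sh = (sr w n).1
  ph : s.ph = (sr w n).2
  pre : s.pk = 0 → s.pre.length = n ∧ Lst w n s.pre ∧ n ≤ 4
  pr4 : s.pk = 2 → L4 w n
  N : s.N = min 12 (nw w n)
  mem : Lst w n s.mem
  ys : 1 ≤ s.sy → s.sy ≤ 4 → s.sy ≤ n ∧ ∀ i < s.sy, w (n - i) = 2
  yf : 5 ≤ s.sy → s.sy ≤ 7 → s.sy - 4 + 1 ≤ n ∧ (∀ i < s.sy - 4, w (n - i) = 2) ∧
    w (n - (s.sy - 4)) = 3
  y8 : 8 ≤ s.sy → R5 w n

/-- The meaning of a state, second part. -/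
structure SemB (w : ℕ → ℕ) (n : ℕ) (s : St) : Prop where
  mem1 : 1 ≤ s.mem.length
  hf : (∃ i, 2 ≤ i ∧ i + 2 ≤ n ∧ w i = 3 ∧ w (i + 1) = 0 ∧ w (i + 2) = 3) → s.hf = true
  f0 : 2 ≤ n → w n = 3 → s.fs = 1 ∨ s.fs = 2
  f00 : 3 ≤ n → w (n - 1) = 3 → w n = 0 → s.fs = 3 ∨ s.fs = 4
  f1 : s.fs = 1 → 2 ≤ n ∧ w n = 3
  f2 : s.fs = 2 → 4 ≤ n ∧ w n = 3 ∧ w (n - 1) = 0 ∧ w (n - 2) = 3
  f3 : s.fs = 3 → 3 ≤ n ∧ w n = 0 ∧ w (n - 1) = 3
  f4 : s.fs = 4 → 5 ≤ n ∧ w n = 0 ∧ w (n - 1) = 3 ∧ w (n - 2) = 0 ∧ w (n - 3) = 3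
  f5 : s.fs = 5 → 3 ≤ n ∧ w n ≠ 3 ∧ w (n - 1) = 3
  f6 : 6 ≤ s.fs → ∃ i, 2 ≤ i ∧ i + 2 ≤ n ∧ w i = 3 ∧ ∀ j, i < j → j ≤ n → w j ≠ 3

lemma goodsR_rev : ∀ g ∈ goodsR, g.reverse ∈ goods := by decide

lemma lg_of {w : ℕ → ℕ} {n k : ℕ} {l : List ℕ} (hl : l ∈ goodsR) (hn : l.length = n) (h : Lst w n l)
    (hk : n ≤ k) : LG w k := by
  refine ⟨l.reverse, goodsR_rev l hl, by simp; omega, fun i hi => ?_⟩
  rw [List.length_reverse] at hi
  rw [List.getElem_reverse]
  have := h.2 (l.length - 1 - i) (by omega)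
  rw [← this]
  rw [show n - (l.length - 1 - i) = i + 1 by omega]

lemma rg_of {w : ℕ → ℕ} {k : ℕ} {l : List ℕ} (hl : Lst w k l) (h : rgB l = true) : RG w k := by
  unfold rgB at h
  rw [List.any_eq_true] at h
  obtain ⟨g, hg, hp⟩ := h
  rw [List.isPrefixOf_iff_prefix] at hp
  have h6 := hl.pre hp
  exact ⟨g, hg, h6.1, h6.2⟩

/-- The outcomes before the end. -/
def Out (w : ℕ → ℕ) (k : ℕ) : Prop := LG w k ∨ (5 ≤ k ∧ L4 w k ∧ (w 5 = 1 ∨ w 5 = 3))

/-- One step, first part. -/
lemma stepA {w : ℕ → ℕ} {n k : ℕ} (hn : n + 1 ≤ k) (hp : (sr w (n + 1)).2 ≤ 1) {s : St}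
    (hs : SemA w n s) (hst : stopA s (w (n + 1)) = true) : Out w k := by
  unfold stopA at hst
  simp only [Bool.or_eq_true, Bool.and_eq_true, beq_iff_eq] at hst
  rcases hst with (h1 | ⟨h1, h2⟩) | ⟨⟨⟨⟨h1, h2⟩, h3⟩, h4⟩, h5⟩
  · exfalso
    rw [Nat.blt_eq, hs.sh, hs.ph] at h1
    have : (sr w (n + 1)).2 = (sr w n).2 + (trn (sr w n).1 (w (n + 1))).2 := rfl
    omega
  · obtain ⟨h3, h4, -⟩ := hs.pre h1
    refine Or.inl (lg_of (n := n + 1) (List.contains_iff_mem.1 h2) ?_ h4.cons hn)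
    rw [List.length_cons, h3]
  · obtain ⟨h6, h7, -⟩ := hs.pre h1
    have h8 := l4_of_pre h6 h7 h2 (hs.sh ▸ h3) (hs.ph ▸ h4)
    have h9 : n = 4 := by
      rw [h2] at h6
      exact h6.symm
    subst h9
    right
    exact ⟨by omega, ⟨by omega, h8.2⟩, h5⟩

/-- The hypotheses on the full units. -/
structure HF (w : ℕ → ℕ) (k : ℕ) : Prop where
  ff : ∀ i, 2 ≤ i → i + 2 ≤ k → w i = 3 → w (i + 1) ≠ 3
  ufu : ∀ i, 2 ≤ i → i + 5 ≤ k → w i = 3 → w (i + 1) = 0 → w (i + 2) = 3 → w (i + 3) = 0 →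
    w (i + 4) ≠ 3
  two : ∀ i j, 2 ≤ i → i < j → j + 1 ≤ k → w i = 3 → w j = 3 → (∀ l, i < l → l < j → w l ≠ 3) →
    j = i + 2

/-- One step, second part. -/
lemma stepF {w : ℕ → ℕ} {n k : ℕ} (hn : n + 2 ≤ k) (hF : HF w k) {s : St} (hs : SemB w n s)
    (hst : stopF s (w (n + 1)) = true) : False := by
  unfold stopF at hst
  simp only [Bool.or_eq_true, Bool.and_eq_true, beq_iff_eq] at hst
  obtain ⟨h0, h1⟩ := hst
  rcases h1 with ((h1 | h1) | h1) | h1
  · obtain ⟨a, b⟩ := hs.f1 h1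
    exact hF.ff n a hn b h0
  · obtain ⟨a, b, -⟩ := hs.f2 h1
    exact hF.ff n (by omega) hn b h0
  · obtain ⟨a, b, d, e, f⟩ := hs.f4 h1
    refine hF.ufu (n - 3) (by omega) (by omega) f ?_ ?_ ?_ ?_
    · rw [show n - 3 + 1 = n - 2 by omega]; exact e
    · rw [show n - 3 + 2 = n - 1 by omega]; exact d
    · rw [show n - 3 + 3 = n by omega]; exact b
    · rw [show n - 3 + 4 = n + 1 by omega]; exact h0
  · obtain ⟨i, a, b, d, e⟩ := hs.f6 (by omega)
    have := hF.two i (n + 1) a (by omega) (by omega) d h0 (fun l l1 l2 => e l l1 (by omega))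
    omega

lemma prog_len : ∀ l ∈ prog, l.length ≤ 4 := by decide

lemma min_min (a b : ℕ) : min 12 (min 12 a + b) = min 12 (a + b) := by omega

/-- The next state, first part. -/
lemma SemA.next {w : ℕ → ℕ} {n : ℕ} {s : St} (hs : SemA w n s) (hm1 : 1 ≤ s.mem.length) :
    SemA w (n + 1) (nxt s (w (n + 1))) := by
  have hpk : (nxt s (w (n + 1))).pk = if s.pk = 0 then
      (if prog.contains (pt (w (n + 1)) :: s.pre) then 0 else
        if s.pre = [1,1,1,1] ∧ s.sh = 3 ∧ s.ph = 0 then 2 else 1) else s.pk := rfl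
  have hmem : [2].isPrefixOf s.mem = true ↔ w n = 3 := by
    match hm : s.mem, hm1 with
    | p :: t, _ =>
      have h1 := hs.mem.2 0 (by rw [hm]; simp)
      simp only [hm, List.getElem_cons_zero, Nat.sub_zero] at h1
      rw [← pt_two, h1]
      simp [List.isPrefixOf]
      exact eq_comm
  have hn1 : 1 ≤ n := hm1.trans hs.mem.1
  refine ⟨?_, ?_, ?_, ?_, ?_, ?_, ?_, ?_, ?_⟩
  · show (trn s.sh (w (n + 1))).1 = (trn (sr w n).1 (w (n + 1))).1
    rw [hs.sh]
  · show s.ph + (trn s.sh (w (n + 1))).2 = (sr w n).2 + (trn (sr w n).1 (w (n + 1))).2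
    rw [hs.sh, hs.ph]
  · intro h
    rw [hpk] at h
    by_cases h0 : s.pk = 0
    · rw [if_pos h0] at h
      by_cases hc : prog.contains (pt (w (n + 1)) :: s.pre) = true
      · have e : (nxt s (w (n + 1))).pre = pt (w (n + 1)) :: s.pre := by
          show (if s.pk = 0 then (if prog.contains (pt (w (n + 1)) :: s.pre) then _ else _) else _) = _
          rw [if_pos h0, if_pos hc]
        rw [e]
        obtain ⟨h3, h4, -⟩ := hs.pre h0
        have h5 := prog_len _ (List.contains_iff_mem.1 hc)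
        rw [List.length_cons, h3] at h5
        exact ⟨by rw [List.length_cons, h3], h4.cons, h5⟩
      · exfalso
        rw [if_neg hc] at h
        by_cases hq : s.pre = [1,1,1,1] ∧ s.sh = 3 ∧ s.ph = 0
        · rw [if_pos hq] at h; exact absurd h (by norm_num)
        · rw [if_neg hq] at h; exact absurd h (by norm_num)
    · rw [if_neg h0] at h
      exact absurd h h0
  · intro h
    rw [hpk] at h
    by_cases h0 : s.pk = 0
    · rw [if_pos h0] at h
      by_cases hc : prog.contains (pt (w (n + 1)) :: s.pre) = true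
      · rw [if_pos hc] at h; exact absurd h (by norm_num)
      rw [if_neg hc] at h
      by_cases hq : s.pre = [1,1,1,1] ∧ s.sh = 3 ∧ s.ph = 0
      · obtain ⟨h3, h4, -⟩ := hs.pre h0
        obtain ⟨h8, h7⟩ := l4_of_pre h3 h4 hq.1 (hs.sh ▸ hq.2.1) (hs.ph ▸ hq.2.2)
        exact ⟨by omega, h7⟩
      · rw [if_neg hq] at h; exact absurd h (by norm_num)
    · rw [if_neg h0] at h
      obtain ⟨h1, h2⟩ := hs.pr4 h
      exact ⟨by omega, h2⟩
  · show min 12 (s.N + wt (w (n + 1))) = min 12 (nw w n + wt (w (n + 1)))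
    rw [hs.N, min_min]
  · exact hs.mem.cons.pre (trim_pre _ _)
  · intro h1 h2
    have h1' : 1 ≤ nsy s (w (n + 1)) := h1
    have h2' : nsy s (w (n + 1)) ≤ 4 := h2
    show nsy s (w (n + 1)) ≤ n + 1 ∧ ∀ i < nsy s (w (n + 1)), w (n + 1 - i) = 2
    by_cases hl : w (n + 1) = 2
    · unfold nsy at h1' h2' ⊢
      rw [if_pos hl] at h1' h2' ⊢
      by_cases h0 : s.sy = 0
      · rw [if_pos h0] at h1' h2' ⊢
        by_cases h3 : [2].isPrefixOf s.mem = true
        · rw [if_pos h3] at h2'; omega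
        · rw [if_neg h3] at h2' ⊢
          refine ⟨by omega, fun i hi => ?_⟩
          have : i = 0 := by omega
          rw [this]; exact hl
      · rw [if_neg h0] at h1' h2' ⊢
        by_cases h3 : s.sy ≤ 3
        · rw [if_pos h3] at h2' ⊢
          obtain ⟨b1, b2⟩ := hs.ys (by omega) (by omega)
          refine ⟨by omega, fun i hi => ?_⟩
          by_cases hi0 : i = 0
          · rw [hi0]; exact hl
          · have := b2 (i - 1) (by omega)
            rwa [show n - (i - 1) = n + 1 - i by omega] at this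
        · rw [if_neg h3] at h2'
          split_ifs at h2' <;> omega
    · exfalso
      unfold nsy at h1'
      rw [if_neg hl] at h1'
      omega
  · intro h1 h2
    have h1' : 5 ≤ nsy s (w (n + 1)) := h1
    have h2' : nsy s (w (n + 1)) ≤ 7 := h2
    show nsy s (w (n + 1)) - 4 + 1 ≤ n + 1 ∧ (∀ i < nsy s (w (n + 1)) - 4, w (n + 1 - i) = 2) ∧
      w (n + 1 - (nsy s (w (n + 1)) - 4)) = 3
    by_cases hl : w (n + 1) = 2
    · unfold nsy at h1' h2' ⊢
      rw [if_pos hl] at h1' h2' ⊢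
      by_cases h0 : s.sy = 0
      · rw [if_pos h0] at h1' h2' ⊢
        by_cases h3 : [2].isPrefixOf s.mem = true
        · rw [if_pos h3]
          refine ⟨by omega, fun i hi => ?_, ?_⟩
          · have : i = 0 := by omega
            rw [this]; exact hl
          · show w n = 3
            exact hmem.1 h3
        · rw [if_neg h3] at h1'; omega
      · rw [if_neg h0] at h1' h2' ⊢
        by_cases h3 : s.sy ≤ 3
        · rw [if_pos h3] at h1'; omega
        · rw [if_neg h3] at h1' h2' ⊢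
          by_cases h4 : s.sy = 5 ∨ s.sy = 6
          · rw [if_pos h4]
            obtain ⟨b1, b2, b3⟩ := hs.yf (by omega) (by omega)
            refine ⟨by omega, fun i hi => ?_, ?_⟩
            · by_cases hi0 : i = 0
              · rw [hi0]; exact hl
              · have := b2 (i - 1) (by omega)
                rwa [show n - (i - 1) = n + 1 - i by omega] at this
            · rw [show n + 1 - (s.sy + 1 - 4) = n - (s.sy - 4) by omega]; exact b3
          · rw [if_neg h4] at h2'; omega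
    · exfalso
      unfold nsy at h1'
      rw [if_neg hl] at h1'
      omega
  · intro h1
    have h1' : 8 ≤ nsy s (w (n + 1)) := h1
    by_cases hl : w (n + 1) = 2
    · unfold nsy at h1'
      rw [if_pos hl] at h1'
      by_cases h0 : s.sy = 0
      · rw [if_pos h0] at h1'
        split_ifs at h1' <;> omega
      · rw [if_neg h0] at h1'
        by_cases h3 : s.sy ≤ 3
        · rw [if_pos h3] at h1'; omega
        · rw [if_neg h3] at h1'
          have h4 : ¬ (s.sy = 5 ∨ s.sy = 6) := by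
            intro h4
            rw [if_pos h4] at h1'; omega
          have h5 : s.sy = 4 ∨ s.sy = 7 ∨ 8 ≤ s.sy := by omega
          rcases h5 with h5 | h5 | h5
          · obtain ⟨b1, b2⟩ := hs.ys (by omega) (by omega)
            refine ⟨by omega, fun i hi => ?_, Or.inl ?_⟩
            · by_cases hi0 : i = 0
              · rw [hi0]; exact hl
              · have := b2 (i - 1) (by omega)
                rwa [show n - (i - 1) = n + 1 - i by omega] at this
            · have := b2 3 (by omega)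
              rwa [show n - 3 = n + 1 - 4 by omega] at this
          · obtain ⟨b1, b2, b3⟩ := hs.yf (by omega) (by omega)
            refine ⟨by omega, fun i hi => ?_, Or.inr ?_⟩
            · by_cases hi0 : i = 0
              · rw [hi0]; exact hl
              · have := b2 (i - 1) (by omega)
                rwa [show n - (i - 1) = n + 1 - i by omega] at this
            · rw [h5] at b3
              rwa [show n - (7 - 4) = n + 1 - 4 by omega] at b3
          · obtain ⟨b1, b2, b3⟩ := hs.y8 h5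
            refine ⟨by omega, fun i hi => ?_, Or.inl ?_⟩
            · by_cases hi0 : i = 0
              · rw [hi0]; exact hl
              · have := b2 (i - 1) (by omega)
                rwa [show n - (i - 1) = n + 1 - i by omega] at this
            · have := b2 3 (by omega)
              rwa [show n - 3 = n + 1 - 4 by omega] at this
    · exfalso
      unfold nsy at h1'
      rw [if_neg hl] at h1'
      omega

/-- The next state, second part. -/
lemma SemB.next {w : ℕ → ℕ} {n : ℕ} {s : St} (hs : SemB w n s) (hn : 1 ≤ n)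
    (hm : 1 ≤ (nxt s (w (n + 1))).mem.length) (hst : stopF s (w (n + 1)) = false)
    (h7 : s.fs ≤ 6) : SemB w (n + 1) (nxt s (w (n + 1))) := by
  have hfs : (nxt s (w (n + 1))).fs = nfs s (w (n + 1)) := rfl
  have hst' : w (n + 1) = 3 → s.fs ≠ 1 ∧ s.fs ≠ 2 ∧ s.fs ≠ 4 ∧ s.fs ≠ 6 := by
    intro h
    unfold stopF at hst
    rw [h] at hst
    simp only [beq_self_eq_true, Bool.true_and, Bool.or_eq_false_iff, beq_eq_false_iff_ne] at hst
    exact ⟨hst.1.1.1, hst.1.1.2, hst.1.2, hst.2⟩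
  by_cases hl : w (n + 1) = 3
  · obtain ⟨q1, q2, q4, q6⟩ := hst' hl
    by_cases h3 : s.fs = 3
    · have e : nfs s (w (n + 1)) = 2 := by unfold nfs; rw [if_pos hl, if_pos h3]
      obtain ⟨a1, a2, a3⟩ := hs.f3 h3
      refine ⟨hm, fun _ => ?_, fun _ _ => Or.inr (hfs.trans e), fun _ _ h => ?_, fun h => ?_,
        fun _ => ?_, fun h => ?_, fun h => ?_, fun h => ?_, fun h => ?_⟩
      · show (s.hf || nfs s (w (n + 1)) == 2) = true
        rw [e]; simp
      · rw [hl] at h; exact absurd h (by norm_num)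
      · rw [hfs, e] at h; exact absurd h (by norm_num)
      · refine ⟨by omega, hl, ?_, ?_⟩
        · rw [Nat.add_sub_cancel]; exact a2
        · rw [show n + 1 - 2 = n - 1 by omega]; exact a3
      all_goals (rw [hfs, e] at h; exact absurd h (by norm_num))
    · have e : nfs s (w (n + 1)) = 1 := by unfold nfs; rw [if_pos hl, if_neg h3]
      refine ⟨hm, ?_, fun _ _ => Or.inl (hfs.trans e), fun _ _ h => ?_, fun _ => ⟨by omega, hl⟩,
        fun h => ?_, fun h => ?_, fun h => ?_, fun h => ?_, fun h => ?_⟩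
      · rintro ⟨i, i1, i2, i3, i4, i5⟩
        show (s.hf || nfs s (w (n + 1)) == 2) = true
        rw [Bool.or_eq_true]
        left
        by_cases hi : i + 2 = n + 1
        · exfalso
          have e1 : i = n - 1 := by omega
          rw [e1] at i3 i4
          rw [show n - 1 + 1 = n by omega] at i4
          rcases hs.f00 (by omega) i3 i4 with h | h
          · exact h3 h
          · exact q4 h
        · exact hs.hf ⟨i, i1, by omega, i3, i4, i5⟩
      · rw [hl] at h; exact absurd h (by norm_num)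
      all_goals (rw [hfs, e] at h; exact absurd h (by norm_num))
  · have hhf : (∃ i, 2 ≤ i ∧ i + 2 ≤ n + 1 ∧ w i = 3 ∧ w (i + 1) = 0 ∧ w (i + 2) = 3) →
        (nxt s (w (n + 1))).hf = true := by
      rintro ⟨i, i1, i2, i3, i4, i5⟩
      show (s.hf || nfs s (w (n + 1)) == 2) = true
      rw [Bool.or_eq_true]
      left
      by_cases hi : i + 2 = n + 1
      · rw [hi] at i5; exact absurd i5 hl
      · exact hs.hf ⟨i, i1, by omega, i3, i4, i5⟩
    by_cases h0 : s.fs = 0
    · have e : nfs s (w (n + 1)) = 0 := by unfold nfs; rw [if_neg hl, if_pos h0]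
      refine ⟨hm, hhf, fun _ h => absurd h hl, fun h1 h2 h => ?_, fun h => ?_, fun h => ?_,
        fun h => ?_, fun h => ?_, fun h => ?_, fun h => ?_⟩
      · rw [Nat.add_sub_cancel] at h2
        rcases hs.f0 (by omega) h2 with h3 | h3 <;> omega
      all_goals (rw [hfs, e] at h; exact absurd h (by norm_num))
    by_cases h1 : s.fs = 1
    · obtain ⟨a1, a2⟩ := hs.f1 h1
      by_cases hz : w (n + 1) = 0
      · have e : nfs s (w (n + 1)) = 3 := by
          unfold nfs; rw [if_neg hl, if_neg h0, if_pos h1, if_pos hz]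
        refine ⟨hm, hhf, fun _ h => absurd h hl, fun _ _ _ => Or.inl (hfs.trans e), fun h => ?_,
          fun h => ?_, fun _ => ?_, fun h => ?_, fun h => ?_, fun h => ?_⟩
        · rw [hfs, e] at h; exact absurd h (by norm_num)
        · rw [hfs, e] at h; exact absurd h (by norm_num)
        · exact ⟨by omega, hz, by rw [Nat.add_sub_cancel]; exact a2⟩
        all_goals (rw [hfs, e] at h; exact absurd h (by norm_num))
      · have e : nfs s (w (n + 1)) = 5 := by
          unfold nfs; rw [if_neg hl, if_neg h0, if_pos h1, if_neg hz]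
        refine ⟨hm, hhf, fun _ h => absurd h hl, fun _ _ h => absurd h hz, fun h => ?_, fun h => ?_,
          fun h => ?_, fun h => ?_, fun _ => ⟨by omega, hl, by rw [Nat.add_sub_cancel]; exact a2⟩,
          fun h => ?_⟩
        all_goals (rw [hfs, e] at h; exact absurd h (by norm_num))
    by_cases h2 : s.fs = 2
    · obtain ⟨a1, a2, a3, a4⟩ := hs.f2 h2
      by_cases hz : w (n + 1) = 0
      · have e : nfs s (w (n + 1)) = 4 := by
          unfold nfs; rw [if_neg hl, if_neg h0, if_neg h1, if_pos h2, if_pos hz]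
        refine ⟨hm, hhf, fun _ h => absurd h hl, fun _ _ _ => Or.inr (hfs.trans e), fun h => ?_,
          fun h => ?_, fun h => ?_, fun _ => ?_, fun h => ?_, fun h => ?_⟩
        · rw [hfs, e] at h; exact absurd h (by norm_num)
        · rw [hfs, e] at h; exact absurd h (by norm_num)
        · rw [hfs, e] at h; exact absurd h (by norm_num)
        · refine ⟨by omega, hz, ?_, ?_, ?_⟩
          · rw [Nat.add_sub_cancel]; exact a2
          · rw [show n + 1 - 2 = n - 1 by omega]; exact a3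
          · rw [show n + 1 - 3 = n - 2 by omega]; exact a4
        all_goals (rw [hfs, e] at h; exact absurd h (by norm_num))
      · have e : nfs s (w (n + 1)) = 5 := by
          unfold nfs; rw [if_neg hl, if_neg h0, if_neg h1, if_pos h2, if_neg hz]
        refine ⟨hm, hhf, fun _ h => absurd h hl, fun _ _ h => absurd h hz, fun h => ?_, fun h => ?_,
          fun h => ?_, fun h => ?_, fun _ => ⟨by omega, hl, by rw [Nat.add_sub_cancel]; exact a2⟩,
          fun h => ?_⟩
        all_goals (rw [hfs, e] at h; exact absurd h (by norm_num))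
    have e : nfs s (w (n + 1)) = 6 := by
      unfold nfs; rw [if_neg hl, if_neg h0, if_neg h1, if_neg h2]
    refine ⟨hm, hhf, fun _ h => absurd h hl, fun h3 h4 h => ?_, fun h => ?_, fun h => ?_,
      fun h => ?_, fun h => ?_, fun h => ?_, fun _ => ?_⟩
    · rw [Nat.add_sub_cancel] at h4
      rcases hs.f0 (by omega) h4 with h5 | h5
      · exact absurd h5 h1
      · exact absurd h5 h2
    · rw [hfs, e] at h; exact absurd h (by norm_num)
    · rw [hfs, e] at h; exact absurd h (by norm_num)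
    · rw [hfs, e] at h; exact absurd h (by norm_num)
    · rw [hfs, e] at h; exact absurd h (by norm_num)
    · rw [hfs, e] at h; exact absurd h (by norm_num)
    · have h3 : s.fs = 3 ∨ s.fs = 4 ∨ s.fs = 5 ∨ s.fs = 6 := by omega
      have hA : w n ≠ 3 → w (n - 1) = 3 → 3 ≤ n →
          ∃ i, 2 ≤ i ∧ i + 2 ≤ n + 1 ∧ w i = 3 ∧ ∀ j, i < j → j ≤ n + 1 → w j ≠ 3 := by
        intro b1 b2 b3
        refine ⟨n - 1, by omega, by omega, b2, fun j j1 j2 => ?_⟩
        have : j = n ∨ j = n + 1 := by omega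
        rcases this with rfl | rfl
        · exact b1
        · exact hl
      rcases h3 with h3 | h3 | h3 | h3
      · obtain ⟨b1, b2, b3⟩ := hs.f3 h3
        exact hA (by rw [b2]; norm_num) b3 b1
      · obtain ⟨b1, b2, b3, -⟩ := hs.f4 h3
        exact hA (by rw [b2]; norm_num) b3 (by omega)
      · obtain ⟨b1, b2, b3⟩ := hs.f5 h3
        exact hA b2 b3 b1
      · obtain ⟨i, b1, b2, b3, b4⟩ := hs.f6 (by omega)
        refine ⟨i, b1, by omega, b3, fun j j1 j2 => ?_⟩
        by_cases hj : j = n + 1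
        · rw [hj]; exact hl
        · exact b4 j j1 (by omega)

/-- The states after the first letter. -/
def s1 : ℕ → St
  | 0 => ⟨1, 1, 1, [], 0, [0], false, 0, 0⟩
  | 1 => ⟨3, 0, 0, [1], 1, [1], false, 0, 0⟩
  | 2 => ⟨4, 1, 0, [1], 1, [1], false, 0, 1⟩
  | 3 => ⟨4, 0, 0, [2], 2, [2], false, 0, 0⟩
  | _ => ⟨3, 1, 0, [3], 2, [3], false, 0, 0⟩

lemma s1_ok : ∀ l < 5, (tree.mem (enc (s1 l)) && (dec (enc (s1 l))).eqb (s1 l)) = true := by
  decide +kernel

lemma s1_num : ∀ l < 5, (s1 l).sh = (trn 0 l).1 ∧ (s1 l).ph = (trn 0 l).2 ∧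
    (s1 l).N = min 12 (0 + wt l) ∧ (s1 l).pk ≠ 2 ∧ ((s1 l).pk = 0 → (s1 l).pre = [pt l]) ∧
    (s1 l).mem = [pt l] ∧ (s1 l).fs = 0 ∧ (s1 l).sy ≤ 1 ∧ ((s1 l).sy = 1 → l = 2) := by
  decide +kernel

lemma lst_one {w : ℕ → ℕ} : Lst w 1 [pt (w 1)] :=
  ⟨by simp, fun i hi => by
    have : i = 0 := by simpa using hi
    subst this
    rfl⟩

lemma sem1 {w : ℕ → ℕ} (h : w 1 < 5) : SemA w 1 (s1 (w 1)) ∧ SemB w 1 (s1 (w 1)) := by
  obtain ⟨a1, a2, a3, a4, a5, a6, a7, a8, a9⟩ := s1_num (w 1) h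
  constructor
  · refine ⟨a1, ?_, fun h0 => ?_, fun h0 => absurd h0 a4, a3, ?_, fun h1 h2 => ?_, fun h1 => ?_,
      fun h1 => ?_⟩
    · show _ = 0 + (trn 0 (w 1)).2
      rw [a2]; omega
    · rw [a5 h0]
      exact ⟨rfl, lst_one, by norm_num⟩
    · rw [a6]; exact lst_one
    · have h3 : (s1 (w 1)).sy = 1 := by omega
      refine ⟨by omega, fun i hi => ?_⟩
      have : i = 0 := by omega
      rw [this]
      exact a9 h3
    · omega
    · omega
  · refine ⟨by rw [a6]; simp, ?_, fun h1 => ?_, fun h1 => ?_, fun h1 => ?_, fun h1 => ?_,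
      fun h1 => ?_, fun h1 => ?_, fun h1 => ?_, fun h1 => ?_⟩
    · rintro ⟨i, i1, i2, -⟩; omega
    all_goals omega

/-- The run of the automaton. -/
theorem run {w : ℕ → ℕ} {n k : ℕ} (h1 : 1 ≤ n) (hn : n + 1 ≤ k) (hw1 : w 1 < 5)
    (hw : ∀ i, 2 ≤ i → i ≤ n → w i ≤ 3) (hp : (sr w n).2 ≤ 1) (hF : HF w k) :
    Out w k ∨ ∃ c, tree.mem c = true ∧ SemA w n (dec c) ∧ SemB w n (dec c) := by
  have key : ∀ m, 1 ≤ m → m ≤ n →
      Out w k ∨ ∃ c, tree.mem c = true ∧ SemA w m (dec c) ∧ SemB w m (dec c) := by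
    intro m hm
    induction m, hm using Nat.le_induction with
    | base =>
      intro _
      right
      have h01 := s1_ok (w 1) hw1
      rw [Bool.and_eq_true] at h01
      refine ⟨enc (s1 (w 1)), h01.1, ?_⟩
      rw [St.eq_of_eqb h01.2]
      exact sem1 hw1
    | succ m hm ih =>
      intro hm'
      rcases ih (by omega) with h | ⟨c, hc, hs, ht⟩
      · exact Or.inl h
      have hck := Tr.all_mem chk_all hc
      unfold chk at hck
      rw [Bool.and_eq_true, List.all_eq_true] at hck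
      have h3 := hw (m + 1) (by omega) hm'
      have h4 := hck.2 (w (m + 1)) (by
        have : w (m + 1) = 0 ∨ w (m + 1) = 1 ∨ w (m + 1) = 2 ∨ w (m + 1) = 3 := by omega
        rcases this with h | h | h | h <;> rw [h] <;> simp)
      rw [Bool.or_eq_true, Bool.and_eq_true, Bool.or_eq_true, Bool.and_eq_true,
        Bool.and_eq_true] at h4
      by_cases hA : stopA (dec c) (w (m + 1)) = true
      · left
        exact stepA (n := m) (by omega) ((sr_mono (show m + 1 ≤ n by omega)).trans hp) hs hA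
      rcases h4 with h4 | ⟨-, h4⟩
      · exact absurd h4 hA
      by_cases hB : stopF (dec c) (w (m + 1)) = true
      · exact absurd (stepF (n := m) (by omega) hF ht hB) id
      rcases h4 with h4 | ⟨⟨h4, h5⟩, h6⟩
      · exact absurd h4 hB
      right
      refine ⟨enc (nxt (dec c) (w (m + 1))), h4, ?_⟩
      rw [St.eq_of_eqb h5]
      rw [Nat.blt_eq] at h6
      refine ⟨hs.next ht.mem1, ht.next hm h6 (by simpa using hB) ?_⟩
      show c / 126 % 7 ≤ 6
      have := Nat.mod_lt (c / 126) (show 0 < 7 by norm_num)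
      omega
  exact key n h1 le_rfl

lemma r4_of {w : ℕ → ℕ} {k : ℕ} {l : List ℕ} (hl : Lst w k l) (h : [1,1,1,1].isPrefixOf l = true) :
    R4 w k := by
  rw [List.isPrefixOf_iff_prefix] at h
  have h6 := hl.pre h
  refine ⟨h6.1, fun i hi => ?_⟩
  rw [h6.2 i (by simpa using hi)]
  have hi4 : i = 0 ∨ i = 1 ∨ i = 2 ∨ i = 3 := by omega
  rcases hi4 with rfl | rfl | rfl | rfl <;> rfl

lemma l4_of {w : ℕ → ℕ} {n : ℕ} {s : St} (hs : SemA w n s) (h : l4 s = true) : L4 w n := by
  unfold l4 at h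
  simp only [Bool.or_eq_true, Bool.and_eq_true, beq_iff_eq] at h
  rcases h with h | ⟨⟨⟨h1, h2⟩, h3⟩, h4⟩
  · exact hs.pr4 h
  · obtain ⟨h5, h6, -⟩ := hs.pre h1
    exact l4_of_pre h5 h6 h2 (hs.sh ▸ h3) (hs.ph ▸ h4)

/-- **Words** with two full units at distance two inside. -/
theorem words {w : ℕ → ℕ} {k : ℕ} (hk : 2 ≤ k) (h1 : w 1 ≤ 4) (h3 : ∀ i, 2 ≤ i → i < k → w i ≤ 3)
    (hlast : w k ≤ 3 ∨ w k = 5) (hl : Law w k) (hF : HF w k)
    (hv : ∃ i, 2 ≤ i ∧ i + 3 ≤ k ∧ w i = 3 ∧ w (i + 1) = 0 ∧ w (i + 2) = 3) :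
    LG w k ∨ RG w k ∨ (5 ≤ k ∧ L4 w k ∧ (w 5 = 1 ∨ w 5 = 3)) ∨ R5 w k ∨ (L4 w k ∧ R4 w k) ∨
      nw w k ≤ 11 := by
  obtain ⟨n, rfl⟩ : ∃ n, k = n + 1 := ⟨k - 1, by omega⟩
  have hn1 : 1 ≤ n := by omega
  have hOut : Out w (n + 1) → LG w (n + 1) ∨ RG w (n + 1) ∨
      (5 ≤ n + 1 ∧ L4 w (n + 1) ∧ (w 5 = 1 ∨ w 5 = 3)) ∨ R5 w (n + 1) ∨
      (L4 w (n + 1) ∧ R4 w (n + 1)) ∨ nw w (n + 1) ≤ 11 := by
    rintro (h | h)
    · exact Or.inl h
    · exact Or.inr (Or.inr (Or.inl h))
  have hv' : ∃ i, 2 ≤ i ∧ i + 2 ≤ n ∧ w i = 3 ∧ w (i + 1) = 0 ∧ w (i + 2) = 3 := by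
    obtain ⟨i, i1, i2, i3⟩ := hv
    exact ⟨i, i1, by omega, i3⟩
  rcases hlast with hlast | hlast
  · have hvd : Vd w (n + 1) := ⟨fun i i1 i2 => by
      by_cases hi : i = 1
      · rw [hi]; exact h1
      · by_cases hik : i = n + 1
        · rw [hik]; omega
        · have := h3 i (by omega) (by omega); omega, fun i i1 i2 => by
      by_cases hik : i = n + 1
      · rw [hik]; omega
      · exact h3 i (by omega) (by omega)⟩
    have hacc := law_acc hvd hl
    have hp : (sr w (n + 1)).2 ≤ 1 := by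
      unfold acc at hacc
      rw [decide_eq_true_eq] at hacc
      omega
    rcases run hn1 le_rfl (by omega) (fun i i1 i2 => h3 i i1 (by omega))
      ((sr_mono (show n ≤ n + 1 by omega)).trans hp) hF with h | ⟨c, hc, hs, ht⟩
    · exact hOut h
    have hck := Tr.all_mem chk_all hc
    unfold chk at hck
    rw [Bool.and_eq_true, List.all_eq_true] at hck
    have h4 := hck.2 (w (n + 1)) (by
      have : w (n + 1) = 0 ∨ w (n + 1) = 1 ∨ w (n + 1) = 2 ∨ w (n + 1) = 3 := by omega
      rcases this with h | h | h | h <;> rw [h] <;> simp)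
    rw [Bool.or_eq_true, Bool.and_eq_true] at h4
    rcases h4 with h4 | ⟨h4, -⟩
    · exact hOut (stepA le_rfl hp hs h4)
    have hs' := hs.next ht.mem1
    rw [ht.hf hv'] at h4
    unfold fin at h4
    simp only [Bool.or_eq_true, Bool.not_eq_true', Bool.and_eq_true, beq_iff_eq] at h4
    rcases h4 with ((((h4 | h4) | h4) | h4) | h4) | h4
    · exact absurd h4 (by simp)
    · rw [hs'.sh, hs'.ph, hacc] at h4
      exact absurd h4 (by simp)
    · exact Or.inr (Or.inl (rg_of hs'.mem h4))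
    · exact Or.inr (Or.inr (Or.inr (Or.inl (hs'.y8 (by omega)))))
    · rw [Nat.blt_eq, hs'.N] at h4
      exact Or.inr (Or.inr (Or.inr (Or.inr (Or.inr (by omega)))))
    · exact Or.inr (Or.inr (Or.inr (Or.inr (Or.inl ⟨l4_of hs' h4.1, r4_of hs'.mem h4.2⟩))))
  · have hvd : Vd w n := ⟨fun i i1 i2 => by
      by_cases hi : i = 1
      · rw [hi]; exact h1
      · have := h3 i (by omega) (by omega); omega, fun i i1 i2 => h3 i (by omega) (by omega)⟩
    have hacc := law_acce hvd hlast hl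
    have hp : (sr w n).2 ≤ 1 := by
      unfold acce at hacc
      rw [decide_eq_true_eq] at hacc
      omega
    rcases run hn1 le_rfl (by omega) (fun i i1 i2 => h3 i i1 (by omega)) hp hF with
      h | ⟨c, hc, hs, ht⟩
    · exact hOut h
    have hck := Tr.all_mem chk_all hc
    unfold chk at hck
    rw [Bool.and_eq_true] at hck
    have h5 := hck.1
    unfold fine at h5
    simp only [Bool.or_eq_true, Bool.not_eq_true'] at h5
    have e1 : nw w (n + 1) = nw w n + 2 := by
      show nw w n + wt (w (n + 1)) = _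
      rw [hlast]; rfl
    rcases h5 with ((h5 | h5) | h5) | h5
    · rw [ht.hf hv'] at h5
      exact absurd h5 (by simp)
    · rw [hs.sh, hs.ph, hacc] at h5
      exact absurd h5 (by simp)
    · refine Or.inr (Or.inl (rg_of ?_ h5))
      have := hs.mem.cons
      rw [hlast] at this
      exact this
    · rw [Nat.blt_eq, hs.N] at h5
      exact Or.inr (Or.inr (Or.inr (Or.inr (Or.inr (by omega)))))

end CLB.H3.Wf
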