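import Pool.Agent.Helper3_DA.WdFin
import Pool.Agent.Helper3_DA.Wf

/-!
The word theorem for two full units at distance two inside the chain.
-/

set_option autoImplicit false
set_option linter.unusedSectionVars false

namespace CLB.H3

open Finset Classical
open H3DA (Q neg nr)
open CLB.H95
open CLB.H3.Wd (pt wt bl okc nst inc stat gn bd Law nw L4 R4)

variable {V : Type*} {G : SimpleGraph V} {R : V → Bool} [Fintype V]
variable {m : ℕ} {z c : ℕ → V} {k : ℕ} {x y : ℕ → V}

/-- A good end which is the whole word has few ports. -/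
lemma nw_goods4 {w : ℕ → ℕ} {g : List ℕ} (hg : g ∈ goods4)
    (h : ∀ i (h : i < g.length), pt (w (i + 1)) = g[i]) : nw w g.length ≤ 6 := by
  have key : ∀ i (h : i < g.length), wt (w (i + 1)) ≤ (g.map (fun p => min p 2))[i]'(by simpa using h) := by
    intro i hi
    have h1 := h i hi
    rw [List.getElem_map, ← h1]
    unfold pt wt
    split_ifs <;> omega
  have h3 : nw w g.length ≤ (g.map (fun p => min p 2)).sum := by
    have h4 : ∀ n, n ≤ g.length → nw w n ≤ ((g.map (fun p => min p 2)).take n).sum := by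
      intro n hn
      induction n with
      | zero => simp [nw]
      | succ n ih =>
        show nw w n + wt (w (n + 1)) ≤ _
        rw [List.sum_take_succ _ n (by simp; omega)]
        exact Nat.add_le_add (ih (by omega)) (key n (by omega))
    have h5 := h4 _ le_rfl
    rwa [List.take_of_length_le (by simp)] at h5
  refine h3.trans ?_
  revert hg
  have : ∀ g ∈ goods4, (g.map (fun p => min p 2)).sum ≤ 6 := by decide
  exact this g

lemma lgx_of_left (hG : ClassC G R) (hcat : Cat G R m z c) (h : Chn G R k x y) (hno : NoG k x y m c)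
    (hm : 6 ≤ m) (hout : outN k x y m c ≤ 1) {g : List ℕ} (hg : g ∈ goods4) (hgk : g.length ≤ k)
    (hp : ∀ i (h : i < g.length), pt (ltr m c x y (i + 1)) = g[i]) : LGx k x y m c := by
  have hnw := nw_ltr hG hcat h hno
  refine Or.inl ⟨g, hg, ?_, hp⟩
  by_contra hcon
  have e : g.length = k := by omega
  have := nw_goods4 hg hp
  rw [e] at this
  omega

lemma goods_mem {g : List ℕ} (h : g ∈ Wf.goods) : g ∈ goods4 ∨ g = [1,2,0,2] := by
  revert g
  decide

/-- **Words with two full units at distance two inside.** -/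
theorem word_fuf (hG : ClassC G R) (h : Chn G R k x y) (hcat : Cat G R m z c)
    (hm : 11 ≤ m) (hn : NCp m (JC k x y c)) (hno : NoG k x y m c) {v : ℕ} (v1 : 2 ≤ v)
    (v2 : v + 3 ≤ k) (e1 : ltr m c x y v = 3) (e2 : ltr m c x y (v + 1) = 0)
    (e3 : ltr m c x y (v + 2) = 3)
    (hFF : ∀ i, 2 ≤ i → i + 2 ≤ k → ltr m c x y i = 3 → ltr m c x y (i + 1) ≠ 3)
    (hoth : ∀ i, 2 ≤ i → i + 1 ≤ k → ltr m c x y i = 3 → i = v ∨ i = v + 2 ∨
      (i + 2 = v ∧ ltr m c x y (v - 1) ≠ 0) ∨ (i = v + 4 ∧ ltr m c x y (v + 3) ≠ 0)) :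
    LGx k x y m c ∨ LGx k (fun i => y (k + 1 - i)) (fun i => x (k + 1 - i)) m c ∨
      (v = 2 ∧ (ltr m c x y 1 = 1 ∨ ltr m c x y 1 = 2)) ∨
      (v + 3 = k ∧ (ltr m c x y k = 1 ∨ ltr m c x y k = 2)) := by
  have hk : 2 ≤ k := by omega
  have hout := outN_le (by omega) hn
  have hout' : outN k (fun i => y (k + 1 - i)) (fun i => x (k + 1 - i)) m c ≤ 1 := by
    rw [outN_mir]; exact hout
  have hno' := hno.rev
  have h' := Chn.rev h
  have hnw := nw_ltr hG hcat h hno
  have hlaw := ltr_law hG hcat h hno hout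
  obtain ⟨l1, l2, l3⟩ := ltr_le hG hcat h hk
  have hk5 : k ≠ 5 := by
    intro e
    have hle : nw (ltr m c x y) k ≤ 10 := by
      rw [e]
      have hw2 : ∀ j, wt (ltr m c x y j) ≤ 2 := by
        intro j
        unfold wt
        split_ifs <;> omega
      have : nw (ltr m c x y) 5 = 0 + wt (ltr m c x y 1) + wt (ltr m c x y 2) + wt (ltr m c x y 3) +
          wt (ltr m c x y 4) + wt (ltr m c x y 5) := rfl
      have := hw2 1
      have := hw2 2
      have := hw2 3
      have := hw2 4
      have := hw2 5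
      omega
    omega
  have hHF : Wf.HF (ltr m c x y) k := by
    refine ⟨hFF, ?_, ?_⟩
    · intro i i1 i2 a0 a1 a2 a3 a4
      have b0 := hoth i i1 (by omega) a0
      have b4 := hoth (i + 4) (by omega) (by omega) a4
      rcases b0 with b0 | b0 | ⟨b0, b5⟩ | ⟨b0, b5⟩
      · rcases b4 with b4 | b4 | ⟨b4, b6⟩ | ⟨b4, b6⟩
        · omega
        · omega
        · omega
        · rw [← b0] at b6; exact b6 a3
      · omega
      · rw [← b0, show i + 2 - 1 = i + 1 by omega] at b5
        exact b5 a1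
      · omega
    · intro i j i1 hij hj a1 a2 a3
      have b1 := hoth i i1 (by omega) a1
      have b2 := hoth j (by omega) hj a2
      have c1 : ¬ (i < v ∧ v < j) := fun hh => a3 v hh.1 hh.2 e1
      have c2 : ¬ (i < v + 2 ∧ v + 2 < j) := fun hh => a3 (v + 2) hh.1 hh.2 e3
      omega
  have hmir4 : ∀ {g : List ℕ}, (∀ i (h : i < g.length), pt (ltr m c x y (k - i)) = g[i]) →
      g.length ≤ k → ∀ i (h : i < g.length),
      pt (ltr m c (fun i => y (k + 1 - i)) (fun i => x (k + 1 - i)) (i + 1)) = g[i] := by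
    intro g hp hgk i hi
    rw [ltr_mir, show k + 1 - (i + 1) = k - i by omega]
    exact hp i hi
  rcases Wf.words hk l1 l2 l3 hlaw hHF ⟨v, v1, v2, e1, e2, e3⟩ with
    ⟨g, hg, hgk, hp⟩ | ⟨g, hg, hgk, hp⟩ | ⟨a1, a2, a3⟩ | ⟨a1, a2, a3⟩ | ⟨a1, a2⟩ | a1
  · rcases goods_mem hg with hg | rfl
    · exact Or.inl (lgx_of_left hG hcat h hno (by omega) hout hg hgk hp)
    · right; right; left
      have p0 := hp 0 (by norm_num)
      have p1 := hp 1 (by norm_num)
      have p2 := hp 2 (by norm_num)
      have p3 := hp 3 (by norm_num)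
      have q0 : pt (ltr m c x y 1) = 1 := p0
      have q1 : ltr m c x y 2 = 3 := Wd.pt_two.1 p1
      have q2 : ltr m c x y 3 = 0 := Wd.pt_zero.1 p2
      have q3 : ltr m c x y 4 = 3 := Wd.pt_two.1 p3
      have b := hoth 2 le_rfl (by omega) q1
      refine ⟨?_, Wd.pt_one.1 q0⟩
      rcases b with b | b | ⟨b, b'⟩ | ⟨b, b'⟩
      · exact b.symm
      · omega
      · rw [← b] at b'; exact absurd q2 b'
      · omega
  · rcases goods_mem hg with hg | rfl
    · exact Or.inr (Or.inl (lgx_of_left hG hcat h' hno' (by omega) hout' hg hgk (hmir4 hp hgk)))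
    · right; right; right
      have p0 := hp 0 (by norm_num)
      have p1 := hp 1 (by norm_num)
      have p2 := hp 2 (by norm_num)
      have p3 := hp 3 (by norm_num)
      have q0 : pt (ltr m c x y k) = 1 := p0
      have q1 : ltr m c x y (k - 1) = 3 := Wd.pt_two.1 p1
      have q2 : ltr m c x y (k - 2) = 0 := Wd.pt_zero.1 p2
      have q3 : ltr m c x y (k - 3) = 3 := Wd.pt_two.1 p3
      have b := hoth (k - 1) (by omega) (by omega) q1
      refine ⟨?_, Wd.pt_one.1 q0⟩
      rcases b with b | b | ⟨b, b'⟩ | ⟨b, b'⟩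
      · omega
      · omega
      · omega
      · rw [show v + 3 = k - 2 by omega] at b'; exact absurd q2 b'
  · left; right
    exact ⟨a1, a2, Or.inl ⟨by omega, a3⟩⟩
  · right; left; right
    have hL : L4 (ltr m c (fun i => y (k + 1 - i)) (fun i => x (k + 1 - i))) k := by
      refine ⟨by omega, fun i hi => ?_⟩
      have b := ltr_two.1 (a2 i hi)
      refine ltr_one.2 ⟨?_, ?_⟩
      · show pc m c (y (k + 1 - (i + 1))) = 1
        rw [show k + 1 - (i + 1) = k - i by omega]; exact b.2
      · show pc m c (x (k + 1 - (i + 1))) = 0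
        rw [show k + 1 - (i + 1) = k - i by omega]; exact b.1
    refine ⟨a1, hL, Or.inl ⟨?_, ?_⟩⟩
    · omega
    · rcases a3 with a3 | a3
      · left
        have b := ltr_two.1 a3
        refine ltr_one.2 ⟨?_, ?_⟩
        · show pc m c (y (k + 1 - 5)) = 1
          rw [show k + 1 - 5 = k - 4 by omega]; exact b.2
        · show pc m c (x (k + 1 - 5)) = 0
          rw [show k + 1 - 5 = k - 4 by omega]; exact b.1
      · right
        have b := ltr_three.1 a3
        refine ltr_three.2 ⟨?_, ?_⟩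
        · show 1 ≤ pc m c (y (k + 1 - 5))
          rw [show k + 1 - 5 = k - 4 by omega]; exact b.2
        · show 1 ≤ pc m c (x (k + 1 - 5))
          rw [show k + 1 - 5 = k - 4 by omega]; exact b.1
  · left; right
    exact ⟨by omega, a1, Or.inr (Or.inl a2)⟩
  · exfalso; omega

end CLB.H3
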