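import Pool.Agent.Helper45_DA.FUFI
import Pool.Agent.Helper3_DA.WfOut
import Pool.Agent.Helper3_DA.LocAsm

/-!
No full units at distance two inside the chain: the assembly.
-/

set_option autoImplicit false
set_option linter.unusedSectionVars false

namespace CLB.H3

open Finset Classical
open CLB.H95
open CLB.H45 (Shp FStar shp fufi)

/-- The end case. -/
def SFuf : Prop := ∀ (V : Type) [Fintype V] (G : SimpleGraph V) (R : V → Bool) (k m : ℕ)
  (x y z c : ℕ → V), ClassC G R → Crit G R → Chn G R k x y → 7 ≤ k → (∀ w, ¬ Lk G R (x 1) w) →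
  (∀ w, ¬ Lk G R (y k) w) → Cat G R m z c → 11 ≤ m → FStar G R x y m c 2 →
  (∀ j ≤ m + 1, c j ≠ x 3 ∧ c j ≠ y 3) →
  ((∃ j ≤ m + 1, c j = x 1) ∨ ∃ j ≤ m + 1, c j = y 1) → False

section star

variable {V : Type*} {G : SimpleGraph V} {R : V → Bool} [Fintype V] {k : ℕ} {x y : ℕ → V}
  {m : ℕ} {z c : ℕ → V}

/-- Leaves of one fork in two inner units. -/
lemma leaf_units (hG : ClassC G R) (h : Chn G R k x y) (hcat : Cat G R m z c) {a b : ℕ}
    (ha : 2 ≤ a) (ha' : a + 1 ≤ k) (hb : 2 ≤ b) (hb' : b + 1 ≤ k) (hab : a ≠ b) {j j' : ℕ}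
    (hj : j ≤ m + 1) (hj' : j' ≤ m + 1) (hp : pos m j = pos m j') (hu : InU x y a (c j))
    (hu' : InU x y b (c j')) : a = b + 2 ∨ b = a + 2 := by
  have hun : ∀ p q, 1 ≤ p → p ≤ k → 1 ≤ q → q ≤ k → ∀ w, InU x y p w → InU x y q w → p = q := by
    rintro p q p1 p2 q1 q2 w (e1 | e1) (e2 | e2)
    · exact h.injx p q p1 p2 q1 q2 (e1.symm.trans e2)
    · exact absurd (e1.symm.trans e2) (h.xy p q p1 p2 q1 q2)
    · exact absurd (e2.symm.trans e1) (h.xy q p q1 q2 p1 p2)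
    · exact h.injy p q p1 p2 q1 q2 (e1.symm.trans e2)
  have hne : j ≠ j' := by
    rintro rfl
    exact hab (hun a b (by omega) (by omega) (by omega) (by omega) _ hu hu')
  have n1 : ∀ u w, 2 ≤ u → u + 1 ≤ k → InU x y u w → ¬ (w = x 1 ∨ w = y k) := by
    rintro u w u1 u2 hw (e | e)
    · have := hun u 1 (by omega) (by omega) le_rfl (by omega) w hw (Or.inl e); omega
    · have := hun u k (by omega) (by omega) (by omega) le_rfl w hw (Or.inr e); omega
  rcases fork_cases hG h hcat hj hj' hne hp (hu.inC (by omega) (by omega))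
    (hu'.inC (by omega) (by omega)) with h1 | h1 | ⟨i, i1, i2, ⟨h1, h2⟩ | ⟨h1, h2⟩⟩
  · exact absurd h1 (n1 a _ ha ha' hu)
  · exact absurd h1 (n1 b _ hb hb' hu')
  · have e1 := hun a i (by omega) (by omega) i1 (by omega) _ hu (Or.inr h1)
    have e2 := hun b (i + 2) (by omega) (by omega) (by omega) i2 _ hu' (Or.inl h2)
    omega
  · have e1 := hun b i (by omega) (by omega) i1 (by omega) _ hu' (Or.inr h1)
    have e2 := hun a (i + 2) (by omega) (by omega) (by omega) i2 _ hu (Or.inl h2)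
    omega

lemma pos_inner {g : ℕ} (h1 : 2 ≤ g) (h2 : g + 1 ≤ m) : pos m g = g := by
  unfold pos; rw [if_neg (by omega), if_neg (by omega)]

lemma leaf_pos {l : ℕ} (hm : 2 ≤ m) (h : l = 0 ∨ l = 1 ∨ l = m ∨ l = m + 1) :
    pos m l = 1 ∨ pos m l = m := by
  unfold pos
  rcases h with rfl | rfl | rfl | rfl
  · left; rfl
  · left; rw [if_neg (by omega), if_neg (by omega)]
  · right; rw [if_neg (by omega), if_neg (by omega)]
  · right; rw [if_neg (by omega), if_pos rfl]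

/-- The other full units. -/
theorem star_other (hG : ClassC G R) (hc : Crit G R) (h : Chn G R k x y) (hcat : Cat G R m z c)
    {v : ℕ} (v1 : 2 ≤ v) (v2 : v + 3 ≤ k) (hS : FStar G R x y m c v) {i : ℕ} (i1 : 2 ≤ i)
    (i2 : i + 1 ≤ k) (ax : ∃ j ≤ m + 1, c j = x i) (ay : ∃ j ≤ m + 1, c j = y i) : i = v ∨ i = v + 2 ∨
      (i + 2 = v ∧ ¬ ∀ j ≤ m + 1, c j ≠ x (v - 1) ∧ c j ≠ y (v - 1)) ∨
      (i = v + 4 ∧ ¬ ∀ j ≤ m + 1, c j ≠ x (v + 3) ∧ c j ≠ y (v + 3)) := by
  obtain ⟨l, g, l', g', s, s', hm4, hm, hpos, hin, hlet⟩ := hS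
  by_cases hiv : i = v
  · exact Or.inl hiv
  by_cases hiv2 : i = v + 2
  · exact Or.inr (Or.inl hiv2)
  right; right
  obtain ⟨l2, g2, s2⟩ := shp hG hc hcat (by omega) h i1 i2 ax ay
  have pg := pos_inner (m := m) hin.1 hin.2.1
  have pg' := pos_inner (m := m) hin.2.2.1 hin.2.2.2
  have hp2 := leaf_pos (m := m) (by omega) s2.leaf
  have hor : pos m l2 = pos m l ∨ pos m l2 = pos m l' := by omega
  rcases hor with hp | hp
  · left
    have hu := leaf_units hG h hcat i1 i2 v1 (by omega) hiv s2.l1 s.l1 hp s2.inl s.inl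
    have hi : i + 2 = v := by omega
    refine ⟨hi, fun hun => ?_⟩
    have hS2 := fufi hG hc hcat (by omega) h i1 (by omega) ax ay (by rw [hi]; exact s.px)
      (by rw [hi]; exact s.py) (by rw [show i + 1 = v - 1 by omega]; exact hun)
    obtain ⟨l3, g3, l3', g3', t, t', -, -, tpos, tin, -⟩ := hS2
    rw [hi] at t'
    have pg3 := pos_inner (m := m) tin.1 tin.2.1
    have q1 : l3' = l := by
      rcases s.only l3' t'.l1 t'.inl with e | e
      · exact e
      · exfalso; rw [e] at tpos; omega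
    have q2 : l2 = l3 := by
      rcases t.only l2 s2.l1 s2.inl with e | e
      · exact e
      · exfalso; rw [e] at hp2; omega
    rw [q1, ← q2, hp] at tpos
    omega
  · right
    have hu := leaf_units hG h hcat i1 i2 (show 2 ≤ v + 2 by omega) (by omega) hiv2 s2.l1 s'.l1 hp
      s2.inl s'.inl
    have hi : i = v + 4 := by omega
    refine ⟨hi, fun hun => ?_⟩
    have hS2 := fufi hG hc hcat (by omega) h (v := v + 2) (by omega) (by omega) s'.px s'.py
      (by rw [show v + 2 + 2 = i by omega]; exact ax) (by rw [show v + 2 + 2 = i by omega]; exact ay)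
      (by rw [show v + 2 + 1 = v + 3 by omega]; exact hun)
    obtain ⟨l3, g3, l3', g3', t, t', -, -, tpos, tin, -⟩ := hS2
    rw [show v + 2 + 2 = i by omega] at t'
    have pg3' := pos_inner (m := m) tin.2.2.1 tin.2.2.2
    have q1 : l3 = l' := by
      rcases s'.only l3 t.l1 t.inl with e | e
      · exact e
      · exfalso; rw [e] at tpos; omega
    have q2 : l2 = l3' := by
      rcases t'.only l2 s2.l1 s2.inl with e | e
      · exact e
      · exfalso; rw [e] at hp2; omega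
    rw [q1, ← q2, hp] at tpos
    omega

lemma ltr_seen {i : ℕ} (h : ¬ ∀ j ≤ m + 1, c j ≠ x i ∧ c j ≠ y i) : ltr m c x y i ≠ 0 :=
  fun h0 => h (unseen_of h0)

lemma ltr_full {i : ℕ} (ax : ∃ j ≤ m + 1, c j = x i) (ay : ∃ j ≤ m + 1, c j = y i) :
    ltr m c x y i = 3 := ltr_three.2 ⟨pc_pos.2 ax, pc_pos.2 ay⟩

lemma ltr_unseen {i : ℕ} (h : ∀ j ≤ m + 1, c j ≠ x i ∧ c j ≠ y i) : ltr m c x y i = 0 := by
  refine ltr_zero.2 ⟨?_, ?_⟩
  · by_contra h0
    obtain ⟨j, hj, e⟩ := pc_pos.1 (show 1 ≤ pc m c (x i) by omega)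
    exact (h j hj).1 e
  · by_contra h0
    obtain ⟨j, hj, e⟩ := pc_pos.1 (show 1 ≤ pc m c (y i) by omega)
    exact (h j hj).2 e

/-- Mirror image. -/
lemma fstar_mir {v : ℕ} (hk : v + 3 = k) (hS : FStar G R x y m c v) :
    FStar G R (fun i => y (k + 1 - i)) (fun i => x (k + 1 - i)) m c 2 := by
  obtain ⟨l, g, l', g', s, s', hm4, hm, hpos, hin, hlet⟩ := hS
  have e2 : k + 1 - 2 = v + 2 := by omega
  have e4 : k + 1 - (2 + 2) = v := by omega
  have a1 : (fun i => y (k + 1 - i)) 2 = y (v + 2) := by show y (k + 1 - 2) = _; rw [e2]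
  have a2 : (fun i => x (k + 1 - i)) 2 = x (v + 2) := by show x (k + 1 - 2) = _; rw [e2]
  have a3 : (fun i => y (k + 1 - i)) (2 + 2) = y v := by show y (k + 1 - (2 + 2)) = _; rw [e4]
  have a4 : (fun i => x (k + 1 - i)) (2 + 2) = x v := by show x (k + 1 - (2 + 2)) = _; rw [e4]
  refine ⟨l', g', l, g, s'.mir a1 a2, s.mir a3 a4, hm4, hm, by omega, ⟨hin.2.2.1, hin.2.2.2, hin.1,
    hin.2.1⟩, ?_⟩
  rcases hlet with ⟨b1, b2⟩ | ⟨b1, b2⟩
  · left
    exact ⟨b2.trans a1.symm, b1.trans a4.symm⟩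
  · right
    exact ⟨b2.trans a2.symm, b1.trans a3.symm⟩

end star

theorem fufAll_of (hs : SFuf) : FufAll := by
  intro V _ H R k m x y z c hG hc h hk e1 e2 _ hcat hm hN g1 g2 v v1 v2 a1 a2 hun a3 a4
  have hS := fufi hG hc hcat hm h v1 v2 a1 a2 a3 a4 hun
  have hno : NoG k x y m c := noG hG hc hcat h (by omega) ⟨e1, e2⟩
  have hm11 : 11 ≤ m := by
    obtain ⟨-, -, -, -, -, -, -, h11, -⟩ := hS
    exact h11
  have hout := outN_le (by omega) hN
  have hnw := nw_ltr hG hcat h hno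
  have l0 : ltr m c x y (v + 1) = 0 := ltr_unseen hun
  have hk7 : 7 ≤ k := by
    by_contra hcon
    have hw2 : ∀ j, Wd.wt (ltr m c x y j) ≤ 2 := by
      intro j
      unfold Wd.wt
      split_ifs <;> omega
    have hle : Wd.nw (ltr m c x y) k ≤ ∑ j ∈ (Icc 1 k).erase (v + 1), 2 := by
      rw [nw_eq, ← Finset.add_sum_erase (Icc 1 k) (fun j => Wd.wt (ltr m c x y j))
        (mem_Icc.2 ⟨by omega, by omega⟩ : v + 1 ∈ Icc 1 k), l0]
      have : Wd.wt 0 = 0 := rfl
      rw [this, Nat.zero_add]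
      exact sum_le_sum fun j _ => hw2 j
    rw [sum_const, card_erase_of_mem (mem_Icc.2 ⟨by omega, by omega⟩), Nat.card_Icc, smul_eq_mul]
      at hle
    omega
  rcases word_fuf hG h hcat hm11 hN hno v1 v2 (ltr_full a1 a2) l0 (ltr_full a3 a4)
    (fun i i1 i2 i3 i4 => by
      obtain ⟨b1, b2⟩ := ltr_three.1 i3
      obtain ⟨b3, b4⟩ := ltr_three.1 i4
      exact CLB.H45.ffi hG hc hcat hm h i1 i2 (pc_pos.1 b1) (pc_pos.1 b2) (pc_pos.1 b3) (pc_pos.1 b4))
    (fun i i1 i2 i3 => by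
      obtain ⟨b1, b2⟩ := ltr_three.1 i3
      rcases star_other hG hc h hcat v1 v2 hS i1 i2 (pc_pos.1 b1) (pc_pos.1 b2) with
        d | d | ⟨d, d'⟩ | ⟨d, d'⟩
      · exact Or.inl d
      · exact Or.inr (Or.inl d)
      · exact Or.inr (Or.inr (Or.inl ⟨d, ltr_seen d'⟩))
      · exact Or.inr (Or.inr (Or.inr ⟨d, ltr_seen d'⟩))) with h1 | h1 | ⟨rfl, h1⟩ | ⟨hvk, h1⟩
  · exact g1 h1
  · exact g2 h1
  · refine hs V H R k m x y z c hG hc h hk7 e1 e2 hcat hm11 hS hun ?_
    rcases h1 with h1 | h1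
    · exact Or.inl (pc_pos.1 (by have := (ltr_one.1 h1).1; omega))
    · exact Or.inr (pc_pos.1 (by have := (ltr_two.1 h1).2; omega))
  · refine hs V H R k m (fun i => y (k + 1 - i)) (fun i => x (k + 1 - i)) z c hG hc (Chn.rev h) hk7
      ?_ ?_ hcat hm11 (fstar_mir hvk hS) ?_ ?_
    · intro w
      show ¬ Lk H R (y (k + 1 - 1)) w
      rw [show k + 1 - 1 = k by omega]
      exact e2 w
    · intro w
      show ¬ Lk H R (x (k + 1 - k)) w
      rw [show k + 1 - k = 1 by omega]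
      exact e1 w
    · intro j hj
      show c j ≠ y (k + 1 - 3) ∧ c j ≠ x (k + 1 - 3)
      rw [show k + 1 - 3 = v + 1 by omega]
      exact (hun j hj).symm
    · rcases h1 with h1 | h1
      · right
        show ∃ j ≤ m + 1, c j = x (k + 1 - 1)
        rw [show k + 1 - 1 = k by omega]
        exact pc_pos.1 (by have := (ltr_one.1 h1).1; omega)
      · left
        show ∃ j ≤ m + 1, c j = y (k + 1 - 1)
        rw [show k + 1 - 1 = k by omega]
        exact pc_pos.1 (by have := (ltr_two.1 h1).2; omega)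

end CLB.H3
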