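import Pool.Agent.Helper3_DA.Struct
import Pool.Agent.Helper3_DA.Fork

/-!
The inequality of maximum cuts in choice form: for a segment of a caterpillar choose a set `X` of units
seen through `x` and a set `Y` of units seen through `y`; add unseen units next to them.
-/

set_option autoImplicit false
set_option linter.unusedSectionVars false

namespace CLB.H3

open Finset Classical
open H3DA (Q neg nr)
open CLB.H95

variable {V : Type*} {G : SimpleGraph V} {R : V → Bool} [Fintype V]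
variable {m : ℕ} {z c : ℕ → V} {k : ℕ} {x y : ℕ → V}

/-- **The choice form.** `Ux`, `Uy` are unseen units, to be entered through `x`, `y`. -/
theorem rstar (hG : ClassC G R) (h : Chn G R k x y) (hcat : Cat G R m z c)
    {p q : ℕ} (hp : 1 ≤ p) (hpq : p ≤ q) (hq : q ≤ m) {X Y Ux Uy : Finset ℕ} {O : Finset V}
    (hX : ∀ i ∈ X, 1 ≤ i ∧ i ≤ k) (hY : ∀ i ∈ Y, 1 ≤ i ∧ i ≤ k)
    (hO : ∀ w ∈ O, Cov G R w ∧ ¬ InC k x y w)
    (hUx : ∀ i ∈ Ux, (2 ≤ i ∧ i ≤ k) ∧ i ∉ X ∧ i ∉ Y ∧ i - 1 ∈ Y)
    (hUy : ∀ i ∈ Uy, (1 ≤ i ∧ i < k) ∧ i ∉ X ∧ i ∉ Y ∧ i + 1 ∈ X)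
    (hU : Disjoint Ux Uy) {J : Finset ℕ}
    (hJ : ∀ j ∈ J, j ≤ m + 1 ∧ p ≤ pos m j ∧ pos m j ≤ q)
    (hS : ∀ j ∈ J, c j ∈ chs x y X Y O) :
    2 * (Y.filter (fun i => i < k ∧ i + 1 ∈ X)).card + Ux.card + Uy.card + 2 * J.card
      ≤ (q - p) + 3 + (X.card + Y.card + O.card) + (2 * (X ∩ Y).card + mmS G R O) := by
  have hXU : Disjoint X Ux := by
    rw [Finset.disjoint_left]; intro i hi hi'; exact (hUx i hi').2.1 hi
  have hYU : Disjoint Y Uy := by
    rw [Finset.disjoint_left]; intro i hi hi'; exact (hUy i hi').2.2.1 hi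
  have key := seg_law hG h hcat hp hpq hq (X := X ∪ Ux) (Y := Y ∪ Uy) (O := O)
    (fun i hi => by
      rw [mem_union] at hi
      rcases hi with hi | hi
      · exact hX i hi
      · have := (hUx i hi).1; omega)
    (fun i hi => by
      rw [mem_union] at hi
      rcases hi with hi | hi
      · exact hY i hi
      · have := (hUy i hi).1; omega) hO hJ
    (fun j hj => by
      have := hS j hj
      rw [mem_chs] at this ⊢
      rcases this with ⟨i, hi, e⟩ | ⟨i, hi, e⟩ | hw
      · exact Or.inl ⟨i, mem_union_left _ hi, e⟩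
      · exact Or.inr (Or.inl ⟨i, mem_union_left _ hi, e⟩)
      · exact Or.inr (Or.inr hw))
  have e1 : (X ∪ Ux) ∩ (Y ∪ Uy) = X ∩ Y := by
    ext i
    simp only [mem_inter, mem_union]
    constructor
    · rintro ⟨h1 | h1, h2 | h2⟩
      · exact ⟨h1, h2⟩
      · exact absurd h1 (hUy i h2).2.1
      · exact absurd h2 (hUx i h1).2.2.1
      · exact absurd h2 (Finset.disjoint_left.1 hU h1)
    · rintro ⟨h1, h2⟩
      exact ⟨Or.inl h1, Or.inl h2⟩
  have e2 : (X ∪ Ux).card = X.card + Ux.card := Finset.card_union_of_disjoint hXU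
  have e3 : (Y ∪ Uy).card = Y.card + Uy.card := Finset.card_union_of_disjoint hYU
  have e4 : (Y.filter (fun i => i < k ∧ i + 1 ∈ X)).card + Ux.card + Uy.card
      ≤ ((Y ∪ Uy).filter (fun i => i < k ∧ i + 1 ∈ X ∪ Ux)).card := by
    have a1 : Ux.card = (Ux.image (fun i => i - 1)).card := by
      refine (Finset.card_image_of_injOn fun a ha b hb hab => ?_).symm
      have h1 := (hUx a ha).1
      have h2 := (hUx b hb).1
      have h3 : a - 1 = b - 1 := hab
      omega
    have a2 : Disjoint (Y.filter (fun i => i < k ∧ i + 1 ∈ X)) (Ux.image (fun i => i - 1)) := by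
      rw [Finset.disjoint_left]
      intro i hi hi'
      rw [mem_filter] at hi
      rw [mem_image] at hi'
      obtain ⟨j, hj, rfl⟩ := hi'
      have h1 := hUx j hj
      have h2 := hi.2.2
      rw [show j - 1 + 1 = j by omega] at h2
      exact h1.2.1 h2
    have a3 : Disjoint ((Y.filter (fun i => i < k ∧ i + 1 ∈ X)) ∪ (Ux.image (fun i => i - 1))) Uy := by
      rw [Finset.disjoint_left]
      intro i hi hi'
      rw [mem_union, mem_filter, mem_image] at hi
      rcases hi with hi | ⟨j, hj, rfl⟩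
      · exact (hUy i hi').2.2.1 hi.1
      · exact (hUy _ hi').2.2.1 (hUx j hj).2.2.2
    rw [a1, ← Finset.card_union_of_disjoint a2, ← Finset.card_union_of_disjoint a3]
    refine Finset.card_le_card fun i hi => ?_
    rw [mem_union, mem_union, mem_filter, mem_image] at hi
    rw [mem_filter, mem_union, mem_union]
    rcases hi with (hi | ⟨j, hj, rfl⟩) | hi
    · exact ⟨Or.inl hi.1, hi.2.1, Or.inl hi.2.2⟩
    · have h1 := hUx j hj
      refine ⟨Or.inl h1.2.2.2, by omega, Or.inr ?_⟩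
      rw [show j - 1 + 1 = j by omega]
      exact hj
    · have h1 := hUy i hi
      exact ⟨Or.inr hi, h1.1.2, Or.inl h1.2.2.2⟩
  rw [e1, e2, e3] at key
  omega

end CLB.H3
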