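import Pool.Agent.Helper3_DA.Wd
import Pool.Agent.Helper3_DA.RStar
import Pool.Agent.Helper3_DA.CritK

/-!
The word of a caterpillar over the units of a chain satisfies the law.
-/

set_option autoImplicit false
set_option linter.unusedSectionVars false

namespace CLB.H3

open Finset Classical
open H3DA (Q neg nr)
open CLB.H95
open CLB.H3.Wd (pt wt bl okc nst inc stat gn bd Law nw LG RG L4 R4)

/-! ### The gain of a choice -/

section gain

variable {c : ℕ → ℕ}

lemma stat_four {n : ℕ} (hc : ∀ i, 1 ≤ i → i ≤ n → c i ≤ 2) : stat c n = 4 ↔ 1 ≤ n ∧ c n = 2 := by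
  cases n with
  | zero => simp [stat]
  | succ n =>
    have h := hc (n + 1) (by omega) le_rfl
    show nst (stat c n) (c (n + 1)) = 4 ↔ _
    unfold nst
    constructor
    · intro h1
      refine ⟨by omega, ?_⟩
      by_contra h2
      by_cases h3 : c (n + 1) = 0
      · rw [if_pos h3] at h1
        split_ifs at h1 <;> omega
      · rw [if_neg h3, if_pos (by omega)] at h1
        omega
    · rintro ⟨-, h1⟩
      rw [h1]; simp

lemma stat_one {n : ℕ} (hc : ∀ i, 1 ≤ i → i ≤ n → c i ≤ 2) :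
    stat c n = 1 ↔ 1 ≤ n ∧ c n = 0 ∧ ¬ (2 ≤ n ∧ c (n - 1) = 2) := by
  cases n with
  | zero => simp [stat]
  | succ n =>
    have h := hc (n + 1) (by omega) le_rfl
    have h4 := stat_four (c := c) (n := n) (fun i i1 i2 => hc i i1 (by omega))
    show nst (stat c n) (c (n + 1)) = 1 ↔ _
    unfold nst
    rw [Nat.add_sub_cancel]
    constructor
    · intro h1
      by_cases h3 : c (n + 1) = 0
      · rw [if_pos h3] at h1
        refine ⟨by omega, h3, ?_⟩
        rintro ⟨h5, h6⟩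
        rw [if_pos (h4.2 ⟨by omega, h6⟩)] at h1
        omega
      · rw [if_neg h3] at h1
        split_ifs at h1 <;> omega
    · rintro ⟨-, h1, h2⟩
      rw [if_pos h1, if_neg]
      intro h3
      obtain ⟨h5, h6⟩ := h4.1 h3
      exact h2 ⟨by omega, h6⟩

/-- Links, units faced from the left, units faced from the right only. -/
noncomputable def gA (c : ℕ → ℕ) (n : ℕ) : Finset ℕ :=
  (range n).filter (fun i => 1 ≤ i ∧ c i = 2 ∧ c (i + 1) = 1)

noncomputable def gB (c : ℕ → ℕ) (n : ℕ) : Finset ℕ :=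
  (range n).filter (fun i => 1 ≤ i ∧ c i = 2 ∧ c (i + 1) = 0)

noncomputable def gC (c : ℕ → ℕ) (n : ℕ) : Finset ℕ :=
  (range n).filter (fun i => 1 ≤ i ∧ c i = 0 ∧ c (i + 1) = 1 ∧ ¬ (2 ≤ i ∧ c (i - 1) = 2))

lemma card_filter_succ (p : ℕ → Prop) [DecidablePred p] (n : ℕ) : ((range (n + 1)).filter p).card =
    ((range n).filter p).card + if p n then 1 else 0 := by
  rw [range_add_one, filter_insert]
  split_ifs with h
  · rw [card_insert_of_notMem (by simp)]
  · simp

theorem gn_eq {n : ℕ} (hc : ∀ i, 1 ≤ i → i ≤ n → c i ≤ 2) :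
    gn c n = 2 * (gA c n).card + (gB c n).card + (gC c n).card := by
  induction n with
  | zero => simp [gn, gA, gB, gC]
  | succ n ih =>
    have hc' : ∀ i, 1 ≤ i → i ≤ n → c i ≤ 2 := fun i i1 i2 => hc i i1 (by omega)
    have h := hc (n + 1) (by omega) le_rfl
    have h4 := stat_four hc'
    have h1 := stat_one hc'
    show gn c n + inc (stat c n) (c (n + 1)) = _
    rw [ih hc']
    unfold gA gB gC
    rw [card_filter_succ, card_filter_succ, card_filter_succ]
    have key : inc (stat c n) (c (n + 1)) = 2 * (if 1 ≤ n ∧ c n = 2 ∧ c (n + 1) = 1 then 1 else 0) +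
        (if 1 ≤ n ∧ c n = 2 ∧ c (n + 1) = 0 then 1 else 0) +
        (if 1 ≤ n ∧ c n = 0 ∧ c (n + 1) = 1 ∧ ¬ (2 ≤ n ∧ c (n - 1) = 2) then 1 else 0) := by
      unfold inc
      by_cases e0 : c (n + 1) = 0
      · rw [if_pos e0]
        rw [if_neg (show ¬ (1 ≤ n ∧ c n = 2 ∧ c (n + 1) = 1) by rintro ⟨-, -, h⟩; omega),
          if_neg (show ¬ (1 ≤ n ∧ c n = 0 ∧ c (n + 1) = 1 ∧ ¬ (2 ≤ n ∧ c (n - 1) = 2)) by
            rintro ⟨-, -, h, -⟩; omega)]
        by_cases e4 : stat c n = 4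
        · obtain ⟨a1, a2⟩ := h4.1 e4
          rw [if_pos e4, if_pos ⟨a1, a2, e0⟩]
        · rw [if_neg e4, if_neg (fun h => e4 (h4.2 ⟨h.1, h.2.1⟩))]
      · rw [if_neg e0]
        rw [if_neg (show ¬ (1 ≤ n ∧ c n = 2 ∧ c (n + 1) = 0) by rintro ⟨-, -, h⟩; omega)]
        by_cases e1 : c (n + 1) = 1
        · rw [if_pos e1]
          by_cases e4 : stat c n = 4
          · obtain ⟨a1, a2⟩ := h4.1 e4
            rw [if_pos e4, if_pos ⟨a1, a2, e1⟩, if_neg (by rintro ⟨-, h, -⟩; omega)]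
          · rw [if_neg e4, if_neg (show ¬ (1 ≤ n ∧ c n = 2 ∧ c (n + 1) = 1) from
              fun h => e4 (h4.2 ⟨h.1, h.2.1⟩))]
            by_cases e5 : stat c n = 1
            · obtain ⟨a1, a2, a3⟩ := h1.1 e5
              rw [if_pos e5, if_pos ⟨a1, a2, e1, a3⟩]
            · rw [if_neg e5, if_neg (show ¬ (1 ≤ n ∧ c n = 0 ∧ c (n + 1) = 1 ∧
                ¬ (2 ≤ n ∧ c (n - 1) = 2)) from fun h => e5 (h1.2 ⟨h.1, h.2.1, h.2.2.2⟩))]
        · rw [if_neg e1, if_neg (by rintro ⟨-, -, h⟩; omega), if_neg (by rintro ⟨-, -, h, -⟩; omega)]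
    rw [key]
    ring

end gain

lemma bd_eq (w : ℕ → ℕ) (k : ℕ) : bd w k = ∑ i ∈ Icc 1 k, bl (w i) := by
  induction k with
  | zero => simp [Wd.bd]
  | succ k ih =>
    rw [Finset.sum_Icc_succ_top (by omega), ← ih]; rfl

lemma nw_eq (w : ℕ → ℕ) (k : ℕ) : nw w k = ∑ i ∈ Icc 1 k, wt (w i) := by
  induction k with
  | zero => simp [Wd.nw]
  | succ k ih =>
    rw [Finset.sum_Icc_succ_top (by omega), ← ih]; rfl

section cat

variable {V : Type*} {G : SimpleGraph V} {R : V → Bool} [Fintype V]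
variable {m : ℕ} {z c : ℕ → V} {k : ℕ} {x y : ℕ → V}

/-- The number of ports at `v`. -/
noncomputable def pc (m : ℕ) (c : ℕ → V) (v : V) : ℕ := ((range (m + 2)).filter (fun j => c j = v)).card

lemma pc_pos {v : V} : 1 ≤ pc m c v ↔ ∃ j ≤ m + 1, c j = v := by
  unfold pc
  constructor
  · intro h
    obtain ⟨j, hj⟩ := card_pos.1 h
    rw [mem_filter, mem_range] at hj
    exact ⟨j, by omega, hj.2⟩
  · rintro ⟨j, hj, rfl⟩
    exact card_pos.2 ⟨j, mem_filter.2 ⟨mem_range.2 (by omega), rfl⟩⟩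

lemma pc_le (hcat : Cat G R m z c) (v : V) : pc m c v ≤ (prt G R v).card := by
  unfold pc
  refine card_le_card_of_injOn (fun j => z (pos m j)) ?_ ?_
  · intro j hj
    rw [coe_filter, Set.mem_ofPred_eq, mem_range] at hj
    refine mem_coe.2 (mem_prt.2 ⟨?_, hcat.unc _ (one_le_pos hcat.pos) (pos_le hcat.pos (by omega))⟩)
    have := cat_adj_pos hcat (j := j) (by omega)
    rwa [hj.2] at this
  · intro i hi j hj hij
    rw [coe_filter, Set.mem_ofPred_eq, mem_range] at hi hj
    exact port_unique hcat (by omega) (by omega) (hi.2.trans hj.2.symm) hij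

lemma pc_lk (hG : ClassC G R) (hcat : Cat G R m z c) {v u : V} (hv : Lk G R v u) : pc m c v ≤ 1 :=
  (pc_le hcat v).trans (prt_card_lk hG hv)

lemma pc_cov (hG : ClassC G R) (hcat : Cat G R m z c) {v : V} (hv : Cov G R v) : pc m c v ≤ 2 :=
  (pc_le hcat v).trans (prt_card hG hv)

/-- Two different ports at `v`. -/
lemma pc_two {v : V} (h : 2 ≤ pc m c v) : ∃ i j, i ≤ m + 1 ∧ j ≤ m + 1 ∧ i ≠ j ∧ c i = v ∧ c j = v := by
  unfold pc at h
  obtain ⟨i, hi, j, hj, hij⟩ := one_lt_card.1 (show 1 < _ from h)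
  rw [mem_filter, mem_range] at hi hj
  exact ⟨i, j, by omega, by omega, hij, hi.2, hj.2⟩

/-- One port at `v`. -/
lemma pc_one {v : V} (h : pc m c v ≤ 1) {i j : ℕ} (hi : i ≤ m + 1) (hj : j ≤ m + 1) (h1 : c i = v)
    (h2 : c j = v) : i = j := by
  unfold pc at h
  rw [card_le_one] at h
  exact h i (mem_filter.2 ⟨mem_range.2 (by omega), h1⟩) j (mem_filter.2 ⟨mem_range.2 (by omega), h2⟩)

/-- The letters of the word. -/
noncomputable def ltr (m : ℕ) (c x y : ℕ → V) (i : ℕ) : ℕ :=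
  if pc m c (x i) = 0 then (if pc m c (y i) = 0 then 0 else if pc m c (y i) = 1 then 2 else 5)
  else if pc m c (y i) = 0 then (if pc m c (x i) = 1 then 1 else 4) else 3

/-- Full units have no double port. -/
def NoG (k : ℕ) (x y : ℕ → V) (m : ℕ) (c : ℕ → V) : Prop :=
  ∀ i, 1 ≤ i → i ≤ k → 1 ≤ pc m c (x i) → 1 ≤ pc m c (y i) → pc m c (x i) = 1 ∧ pc m c (y i) = 1

/-- The vertices outside the chain seen by the caterpillar. -/
noncomputable def outV (k : ℕ) (x y : ℕ → V) (m : ℕ) (c : ℕ → V) : Finset V :=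
  ((range (m + 2)).image c).filter (fun v => ¬ InC k x y v)

/-- The number of ports outside the chain. -/
noncomputable def outN (k : ℕ) (x y : ℕ → V) (m : ℕ) (c : ℕ → V) : ℕ :=
  ((range (m + 2)).filter (fun j => ¬ InC k x y (c j))).card

lemma mem_outV {v : V} : v ∈ outV k x y m c ↔ (∃ j ≤ m + 1, c j = v) ∧ ¬ InC k x y v := by
  unfold outV
  rw [mem_filter, mem_image]
  constructor
  · rintro ⟨⟨j, hj, rfl⟩, h⟩
    exact ⟨⟨j, by rw [mem_range] at hj; omega, rfl⟩, h⟩
  · rintro ⟨⟨j, hj, rfl⟩, h⟩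
    exact ⟨⟨j, mem_range.2 (by omega), rfl⟩, h⟩

lemma sum_outV : ∑ v ∈ outV k x y m c, pc m c v = outN k x y m c := by
  unfold outN
  rw [card_eq_sum_card_fiberwise (f := c) (t := outV k x y m c)]
  · refine sum_congr rfl fun v hv => ?_
    unfold pc
    refine congrArg Finset.card ?_
    ext j
    simp only [mem_filter, mem_range]
    constructor
    · rintro ⟨h1, h2⟩
      exact ⟨⟨h1, by rw [h2]; exact (mem_outV.1 hv).2⟩, h2⟩
    · rintro ⟨⟨h1, -⟩, h2⟩
      exact ⟨h1, h2⟩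
  · intro j hj
    rw [coe_filter, Set.mem_ofPred_eq, mem_range] at hj
    exact mem_coe.2 (mem_outV.2 ⟨⟨j, by omega, rfl⟩, hj.2⟩)

lemma outV_card : (outV k x y m c).card ≤ outN k x y m c := by
  rw [← sum_outV, card_eq_sum_ones]
  exact sum_le_sum fun v hv => pc_pos.2 (mem_outV.1 hv).1

lemma mm_small {O : Finset V} (hO : O.card ≤ 1) : mmS G R O = 0 := by
  unfold mmS
  rw [Finset.sum_eq_zero_iff]
  intro w hw
  rw [Finset.card_eq_zero, Finset.filter_eq_empty_iff]
  intro v hv hme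
  rw [card_le_one] at hO
  exact hme.ne (hO w hw v hv)

/-- Counting ports by vertices. -/
lemma count_ports {S : Finset V} {J : Finset ℕ} (hJ : J ⊆ range (m + 2)) (hS : ∀ j ∈ J, c j ∈ S)
    (hS' : ∀ j ∈ range (m + 2), c j ∈ S → j ∈ J) : J.card = ∑ v ∈ S, pc m c v := by
  rw [card_eq_sum_card_fiberwise (f := c) (t := S) (fun j hj => mem_coe.2 (hS j (mem_coe.1 hj)))]
  refine sum_congr rfl fun v hv => ?_
  unfold pc
  refine congrArg Finset.card ?_
  ext j
  simp only [mem_filter]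
  constructor
  · rintro ⟨h1, h2⟩
    exact ⟨hJ h1, h2⟩
  · rintro ⟨h1, h2⟩
    exact ⟨hS' j h1 (by rw [h2]; exact hv), h2⟩

/-- All ports. -/
lemma total_ports (h : Chn G R k x y) : m + 2 = ∑ i ∈ Icc 1 k, (pc m c (x i) + pc m c (y i)) +
    outN k x y m c := by
  have h1 := count_ports (m := m) (c := c) (S := chs x y (Icc 1 k) (Icc 1 k) (outV k x y m c))
    (J := range (m + 2)) (Finset.Subset.refl _) (fun j hj => by
      rw [mem_chs]
      rw [mem_range] at hj
      by_cases hin : InC k x y (c j)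
      · obtain ⟨i, h1, h2, h3 | h3⟩ := hin
        · exact Or.inl ⟨i, mem_Icc.2 ⟨h1, h2⟩, h3.symm⟩
        · exact Or.inr (Or.inl ⟨i, mem_Icc.2 ⟨h1, h2⟩, h3.symm⟩)
      · exact Or.inr (Or.inr (mem_outV.2 ⟨⟨j, by omega, rfl⟩, hin⟩))) (fun j hj _ => hj)
  rw [card_range, chs_sum h (fun i hi => mem_Icc.1 hi) (fun i hi => mem_Icc.1 hi)
    (fun w hw => (mem_outV.1 hw).2), sum_outV, ← sum_add_distrib] at h1
  exact h1

lemma wt_ltr (hG : ClassC G R) (hcat : Cat G R m z c) (h : Chn G R k x y) (hno : NoG k x y m c)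
    {i : ℕ} (h1 : 1 ≤ i) (h2 : i ≤ k) : wt (ltr m c x y i) = pc m c (x i) + pc m c (y i) := by
  have hx := pc_cov hG hcat (h.cov (InC.x h1 h2))
  have hy := pc_cov hG hcat (h.cov (InC.y h1 h2))
  have hn := hno i h1 h2
  unfold ltr
  by_cases a0 : pc m c (x i) = 0
  · rw [if_pos a0]
    by_cases b0 : pc m c (y i) = 0
    · rw [if_pos b0, a0, b0]; rfl
    · rw [if_neg b0]
      by_cases b1 : pc m c (y i) = 1
      · rw [if_pos b1, a0, b1]; rfl
      · rw [if_neg b1, a0, show pc m c (y i) = 2 by omega]; rfl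
  · rw [if_neg a0]
    by_cases b0 : pc m c (y i) = 0
    · rw [if_pos b0]
      by_cases a1 : pc m c (x i) = 1
      · rw [if_pos a1, a1, b0]; rfl
      · rw [if_neg a1, b0, show pc m c (x i) = 2 by omega]; rfl
    · rw [if_neg b0]
      obtain ⟨h3, h4⟩ := hn (by omega) (by omega)
      rw [h3, h4]; rfl

/-- The number of ports in the chain. -/
lemma nw_ltr (hG : ClassC G R) (hcat : Cat G R m z c) (h : Chn G R k x y) (hno : NoG k x y m c) :
    nw (ltr m c x y) k + outN k x y m c = m + 2 := by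
  rw [total_ports (m := m) (c := c) h, nw_eq,
    sum_congr rfl fun i hi => wt_ltr hG hcat h hno (mem_Icc.1 hi).1 (mem_Icc.1 hi).2]

/-- The ports of the chosen vertex. -/
noncomputable def cpc (m : ℕ) (c x y : ℕ → V) (ch : ℕ → ℕ) (i : ℕ) : ℕ :=
  if ch i = 1 then pc m c (x i) else if ch i = 2 then pc m c (y i) else 0

lemma letter_budget (hG : ClassC G R) (hcat : Cat G R m z c) (h : Chn G R k x y)
    (hno : NoG k x y m c) {ch : ℕ → ℕ} {i : ℕ} (h1 : 1 ≤ i) (h2 : i ≤ k)
    (hc : okc (ltr m c x y i) (ch i) = true) :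
    ((pc m c (x i) + pc m c (y i) + (if ch i = 0 then 0 else 1) : ℕ) : ℤ) - 2 * cpc m c x y ch i
      ≤ bl (ltr m c x y i) := by
  have hx := pc_cov hG hcat (h.cov (InC.x h1 h2))
  have hy := pc_cov hG hcat (h.cov (InC.y h1 h2))
  have hn := hno i h1 h2
  unfold ltr at hc ⊢
  unfold cpc
  by_cases a0 : pc m c (x i) = 0
  · rw [if_pos a0] at hc ⊢
    by_cases b0 : pc m c (y i) = 0
    · rw [if_pos b0] at hc ⊢
      have e : ch i = 0 := by simpa [okc] using hc
      rw [e, a0, b0]; simp [bl]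
    · rw [if_neg b0] at hc ⊢
      by_cases b1 : pc m c (y i) = 1
      · rw [if_pos b1] at hc ⊢
        have e : ch i = 2 := by simpa [okc] using hc
        rw [e, a0, b1]; simp [bl]
      · rw [if_neg b1] at hc ⊢
        have e : ch i = 2 := by simpa [okc] using hc
        rw [e, a0, show pc m c (y i) = 2 by omega]; simp [bl]
  · rw [if_neg a0] at hc ⊢
    by_cases b0 : pc m c (y i) = 0
    · rw [if_pos b0] at hc ⊢
      by_cases a1 : pc m c (x i) = 1
      · rw [if_pos a1] at hc ⊢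
        have e : ch i = 1 := by simpa [okc] using hc
        rw [e, a1, b0]; simp [bl]
      · rw [if_neg a1] at hc ⊢
        have e : ch i = 1 := by simpa [okc] using hc
        rw [e, b0, show pc m c (x i) = 2 by omega]; simp [bl]
    · rw [if_neg b0] at hc ⊢
      obtain ⟨h3, h4⟩ := hn (by omega) (by omega)
      have e : ch i = 1 ∨ ch i = 2 := by simpa [okc] using hc
      rcases e with e | e
      · rw [e, h3, h4]; simp [bl]
      · rw [e, h3, h4]; simp [bl]

lemma okc_le {l d : ℕ} (h : okc l d = true) : d ≤ 2 := by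
  unfold okc at h
  simp only [Bool.or_eq_true, Bool.and_eq_true, beq_iff_eq] at h
  omega

/-- **The law.** -/
theorem ltr_law (hG : ClassC G R) (hcat : Cat G R m z c) (h : Chn G R k x y) (hno : NoG k x y m c)
    (hout : outN k x y m c ≤ 1) : Law (ltr m c x y) k := by
  intro ch hch
  have hle : ∀ i, 1 ≤ i → i ≤ k → ch i ≤ 2 := fun i h1 h2 => okc_le (hch i h1 h2)
  rw [gn_eq hle]
  set X := (Icc 1 k).filter (fun i => ch i = 1) with hX
  set Y := (Icc 1 k).filter (fun i => ch i = 2) with hY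
  set Ux := (gB ch k).image (fun i => i + 1) with hUx
  set O := outV k x y m c with hO
  have hm := hcat.pos
  set J := (range (m + 2)).filter (fun j => c j ∈ chs x y X Y O) with hJ
  have key := rstar hG h hcat (p := 1) (q := m) le_rfl hm le_rfl (X := X) (Y := Y) (Ux := Ux)
    (Uy := gC ch k) (O := O) (J := J)
    (fun i hi => mem_Icc.1 (mem_filter.1 hi).1) (fun i hi => mem_Icc.1 (mem_filter.1 hi).1)
    (fun w hw => by
      obtain ⟨⟨j, hj, rfl⟩, h2⟩ := mem_outV.1 hw
      exact ⟨hcat.cov j hj, h2⟩)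
    (fun i hi => by
      rw [hUx, mem_image] at hi
      obtain ⟨j, hj, rfl⟩ := hi
      unfold gB at hj
      rw [mem_filter, mem_range] at hj
      refine ⟨by omega, ?_, ?_, ?_⟩
      · intro hi; have := (mem_filter.1 hi).2; omega
      · intro hi; have := (mem_filter.1 hi).2; omega
      · rw [Nat.add_sub_cancel]
        exact mem_filter.2 ⟨mem_Icc.2 ⟨by omega, by omega⟩, hj.2.2.1⟩)
    (fun i hi => by
      unfold gC at hi
      rw [mem_filter, mem_range] at hi
      refine ⟨by omega, ?_, ?_, ?_⟩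
      · intro hi; have := (mem_filter.1 hi).2; omega
      · intro hi; have := (mem_filter.1 hi).2; omega
      · exact mem_filter.2 ⟨mem_Icc.2 ⟨by omega, by omega⟩, hi.2.2.2.1⟩)
    (by
      rw [Finset.disjoint_left]
      intro i hi hi'
      rw [hUx, mem_image] at hi
      obtain ⟨j, hj, rfl⟩ := hi
      unfold gB at hj
      unfold gC at hi'
      rw [mem_filter, mem_range] at hj hi'
      refine hi'.2.2.2.2 ⟨by omega, ?_⟩
      rw [Nat.add_sub_cancel]
      exact hj.2.2.1)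
    (fun j hj => by
      rw [hJ, mem_filter, mem_range] at hj
      exact ⟨by omega, one_le_pos hm, pos_le hm (by omega)⟩)
    (fun j hj => (mem_filter.1 hj).2)
  have e1 : (gA ch k).card ≤ (Y.filter (fun i => i < k ∧ i + 1 ∈ X)).card := by
    refine card_le_card fun i hi => ?_
    unfold gA at hi
    rw [mem_filter, mem_range] at hi
    refine mem_filter.2 ⟨mem_filter.2 ⟨mem_Icc.2 ⟨by omega, by omega⟩, hi.2.2.1⟩, hi.1,
      mem_filter.2 ⟨mem_Icc.2 ⟨by omega, by omega⟩, hi.2.2.2⟩⟩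
  have e2 : Ux.card = (gB ch k).card := card_image_of_injective _ (fun a b hab => by
    have : a + 1 = b + 1 := hab
    omega)
  have hXY : X ∩ Y = ∅ := by
    rw [Finset.eq_empty_iff_forall_notMem]
    intro i hi
    rw [mem_inter, mem_filter, mem_filter] at hi
    omega
  have e3 : J.card = ∑ i ∈ X, pc m c (x i) + ∑ i ∈ Y, pc m c (y i) + outN k x y m c := by
    rw [count_ports (m := m) (c := c) (S := chs x y X Y O) (J := J) (filter_subset _ _)
      (fun j hj => (mem_filter.1 hj).2) (fun j hj hjS => mem_filter.2 ⟨hj, hjS⟩),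
      chs_sum h (fun i hi => mem_Icc.1 (mem_filter.1 hi).1) (fun i hi => mem_Icc.1 (mem_filter.1 hi).1)
        (fun w hw => (mem_outV.1 hw).2), sum_outV]
  have e4 : ∑ i ∈ Icc 1 k, cpc m c x y ch i = ∑ i ∈ X, pc m c (x i) + ∑ i ∈ Y, pc m c (y i) := by
    rw [hX, hY, sum_filter, sum_filter, ← sum_add_distrib]
    refine sum_congr rfl fun i _ => ?_
    unfold cpc
    by_cases h1 : ch i = 1
    · rw [if_pos h1, if_pos h1, if_neg (by omega)]; rfl
    · rw [if_neg h1, if_neg h1]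
      simp
  have e5 : X.card + Y.card = ∑ i ∈ Icc 1 k, (if ch i = 0 then 0 else 1) := by
    rw [hX, hY, card_filter, card_filter, ← sum_add_distrib]
    refine sum_congr rfl fun i hi => ?_
    have := hle i (mem_Icc.1 hi).1 (mem_Icc.1 hi).2
    by_cases h0 : ch i = 0
    · rw [if_neg (by omega), if_neg (by omega), if_pos h0]
    · by_cases h1 : ch i = 1
      · rw [if_pos h1, if_neg (by omega), if_neg h0]
      · rw [if_neg h1, if_pos (by omega), if_neg h0]
  have e6 := total_ports (m := m) (c := c) h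
  have e7 : mmS G R O = 0 := mm_small (outV_card.trans hout)
  have e8 : O.card ≤ outN k x y m c := outV_card
  have e9 : ((∑ i ∈ Icc 1 k, (pc m c (x i) + pc m c (y i)) + ∑ i ∈ Icc 1 k, (if ch i = 0 then 0 else 1)
      : ℕ) : ℤ) - 2 * (∑ i ∈ Icc 1 k, cpc m c x y ch i : ℕ) ≤ bd (ltr m c x y) k := by
    rw [bd_eq]
    push_cast
    rw [← sum_add_distrib, mul_sum, ← sum_sub_distrib]
    refine sum_le_sum fun i hi => ?_
    have := letter_budget hG hcat h hno (mem_Icc.1 hi).1 (mem_Icc.1 hi).2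
      (hch i (mem_Icc.1 hi).1 (mem_Icc.1 hi).2)
    push_cast at this
    exact this
  rw [hXY, e7, e2, e3, card_empty] at key
  rw [← e5, e4] at e9
  push_cast at e9 ⊢
  have key' : (2 * ((gA ch k).card : ℤ) + (gB ch k).card + (gC ch k).card) +
      2 * (∑ i ∈ X, (pc m c (x i) : ℤ) + ∑ i ∈ Y, (pc m c (y i) : ℤ) + outN k x y m c) ≤
      (m + 2) + (X.card + Y.card + outN k x y m c) := by
    have k2 : 2 * (gA ch k).card + (gB ch k).card + (gC ch k).card +
      2 * (∑ i ∈ X, pc m c (x i) + ∑ i ∈ Y, pc m c (y i) + outN k x y m c) ≤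
      (m + 2) + (X.card + Y.card + outN k x y m c) := by omega
    exact_mod_cast k2
  have e6' : ((m : ℤ) + 2) = ∑ i ∈ Icc 1 k, ((pc m c (x i) : ℤ) + pc m c (y i)) + outN k x y m c := by
    exact_mod_cast e6
  linarith

end cat

end CLB.H3
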