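import Pool.Agent.Helper3_DA.FufAsm
import Pool.Agent.Helper45_DA.SFUF

/-!
No full units at distance two inside the chain.
-/

set_option autoImplicit false

namespace CLB.H3

theorem fuf_all : FufAll := fufAll_of fun _ _ _ _ _ _ _ _ _ _ hG hc h hk e1 e2 hcat _ hs hun h1 =>
  CLB.H45.sfuf hG hc h hk e1 e2 hcat hs hun h1

end CLB.H3
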