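import Pool.Agent.Helper3_DA.Msg

/-!
Gluing: labels of the covered vertices which fit on the matching, on the links, at the vertices with two
covered neighbours and which extend to all the paths of uncovered vertices give a labelling.
-/

set_option autoImplicit false
set_option linter.unusedSectionVars false

namespace CLB.H3

open Finset Classical
open H3DA (Q neg nr)
open CLB.H95

variable {V : Type*} {G : SimpleGraph V} {R : V → Bool}

/-- The labels of the covered neighbours extend to the path. -/
def UPath.Ext (P : UPath G R) (f : V → Q) : Prop := PExt P.m (fun i => f (P.r i)) (f P.a') (f P.b')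

lemma UPath.ext_rev (P : UPath G R) (f : V → Q) : P.rev.Ext f ↔ P.Ext f := by
  unfold UPath.Ext
  exact PExt_rev_iff (m := P.m) (ρ := fun i => f (P.r i))

/-- A labelling of the edges at a path shows that its labels extend. -/
lemma UPath.ext_of_near (P : UPath G R) {f : V → Q}
    (h : ∀ u ∈ P.supp, ∀ v, G.Adj u v → nr (f u) (f v) = true) : P.Ext f :=
  ⟨fun i => f (P.z i), fun i hi => h _ ⟨i, hi, rfl⟩ _ (P.adjr i hi), h _ ⟨0, by omega, rfl⟩ _ P.adja,
    h _ ⟨P.m, le_refl _, rfl⟩ _ P.adjb, fun i hi => h _ ⟨i, by omega, rfl⟩ _ (P.isP.adj i hi)⟩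

/-- The graph of the uncovered vertices. -/
def UG (G : SimpleGraph V) (R : V → Bool) : SimpleGraph V where
  Adj := fun u v => G.Adj u v ∧ ¬ Cov G R u ∧ ¬ Cov G R v
  symm := ⟨fun _ _ h => ⟨h.1.symm, h.2.2, h.2.1⟩⟩
  loopless := ⟨fun _ h => G.loopless.irrefl _ h.1⟩

lemma mem_of_reach {S : Set V} (hS : ∀ u ∈ S, ∀ w, (UG G R).Adj u w → w ∈ S) {u v : V}
    (hr : (UG G R).Reachable u v) (hu : u ∈ S) : v ∈ S := by
  obtain ⟨p⟩ := hr
  induction p with
  | nil => exact hu
  | cons h _ ih => exact ih (hS _ hu _ h)

/-- Labels of the set `S` are compatible with the labels `f` of the covered vertices. -/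
def Fits (G : SimpleGraph V) (R : V → Bool) (f g : V → Q) (S : Set V) : Prop :=
  ∀ u ∈ S, ∀ w, G.Adj u w → (Cov G R w → nr (g u) (f w) = true) ∧ (¬ Cov G R w → nr (g u) (g w) = true)

lemma UPath.fits (P : UPath G R) {f : V → Q} (h : P.Ext f) : ∃ g : V → Q, Fits G R f g P.supp := by
  obtain ⟨w, h1, h2, h3, h4⟩ := h
  have hidx : ∀ v, ∃ i, v ∈ P.supp → i ≤ P.m ∧ P.z i = v := by
    intro v
    by_cases hv : v ∈ P.supp
    · obtain ⟨j, hj, hjv⟩ := hv
      exact ⟨j, fun _ => ⟨hj, hjv⟩⟩
    · exact ⟨0, fun h' => absurd h' hv⟩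
  choose idx hidx using hidx
  have hidz : ∀ i ≤ P.m, idx (P.z i) = i := by
    intro i hi
    obtain ⟨h1, h2⟩ := hidx (P.z i) ⟨i, hi, rfl⟩
    exact P.isP.inj _ h1 _ hi h2
  refine ⟨fun v => w (idx v), ?_⟩
  rintro u ⟨i, hi, rfl⟩ v huv
  simp only [hidz i hi]
  rcases P.nbr i hi v huv with h | ⟨j, hj, h⟩ | ⟨h5, h⟩ | ⟨h5, h⟩ | ⟨h5, h⟩
  · subst h
    exact ⟨fun _ => h1 i hi, fun h' => absurd (P.rcov i hi) h'⟩
  · subst h
    refine ⟨fun h' => absurd h' (P.isP.unc j (by omega)), fun _ => ?_⟩
    rw [hidz j (by omega)]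
    subst hj
    exact nr_symm (h4 j (by omega))
  · subst h
    refine ⟨fun h' => absurd h' (P.isP.unc (i + 1) (by omega)), fun _ => ?_⟩
    rw [hidz (i + 1) (by omega)]
    exact h4 i h5
  · subst h; subst h5
    exact ⟨fun _ => h2, fun h' => absurd P.acov h'⟩
  · subst h; subst h5
    exact ⟨fun _ => h3, fun h' => absurd P.bcov h'⟩

variable [Fintype V]

/-- The gluing theorem. -/
theorem glue (hG : ClassC G R) (hc : Crit G R) (f : V → Q)
    (hM : ∀ u v, Me G R u v → f v = neg (f u))
    (hL : ∀ u v, Lk G R u v → nr (f u) (f v) = true)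
    (hT : ∀ v a b, IsTwo G R v a b → f a ≠ neg (f b))
    (hP : ∀ P : UPath G R, P.Ext f) : False := by
  -- labels of the components
  have hcomp : ∀ C : (UG G R).ConnectedComponent, ∃ g : V → Q,
      Fits G R f g {u | ¬ Cov G R u ∧ (UG G R).connectedComponentMk u = C} := by
    intro C
    induction C using SimpleGraph.ConnectedComponent.ind with
    | _ v =>
    by_cases hv : Cov G R v
    · refine ⟨f, ?_⟩
      rintro u ⟨hu, huv⟩
      exfalso
      have hr := SimpleGraph.ConnectedComponent.exact huv
      have := mem_of_reach (S := {w | w = v}) (by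
        rintro _ rfl w hw
        exact absurd hv hw.2.1) hr.symm rfl
      exact hu (this ▸ hv)
    · have hsing : (∀ w, G.Adj v w → Cov G R w) → ∀ u, ¬ Cov G R u →
          (UG G R).connectedComponentMk u = (UG G R).connectedComponentMk v → u = v := by
        intro hw u hu huv
        have hr := SimpleGraph.ConnectedComponent.exact huv
        exact mem_of_reach (S := {w | w = v}) (by
          rintro _ rfl w hw'
          exact absurd (hw w hw'.1) hw'.2.2) hr.symm rfl
      rcases unc_structure hG hc hv with h | ⟨a, b, h⟩ | ⟨P, hvP⟩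
      · refine ⟨f, ?_⟩
        rintro u ⟨hu, huv⟩ w hw
        have := hsing (fun w hw => absurd hw (h w)) u hu huv
        subst this
        exact absurd hw (h w)
      · obtain ⟨y, hy1, hy2⟩ := H3DA.near2 (hT v a b h)
        refine ⟨fun _ => y, ?_⟩
        rintro u ⟨hu, huv⟩ w hw
        obtain ⟨-, -, -, -, hca, hcb, hall⟩ := h
        have hcw : ∀ w, G.Adj v w → Cov G R w := by
          intro w hw
          rcases hall w hw with h | h
          · rw [h]; exact hca
          · rw [h]; exact hcb
        have := hsing hcw u hu huv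
        subst this
        refine ⟨fun _ => ?_, fun h' => absurd (hcw w hw) h'⟩
        rcases hall w hw with h | h
        · rw [h]; exact hy1
        · rw [h]; exact hy2
      · obtain ⟨g, hg⟩ := P.fits (hP P)
        refine ⟨g, ?_⟩
        rintro u ⟨hu, huv⟩ w hw
        have hr := SimpleGraph.ConnectedComponent.exact huv
        have huP : u ∈ P.supp := mem_of_reach (S := P.supp)
          (fun x hx y hxy => P.closed hx hxy.2.2 hxy.1) hr.symm hvP
        exact hg u huP w hw
  choose g hg using hcomp
  apply hc.1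
  refine ⟨fun v => if Cov G R v then f v else g ((UG G R).connectedComponentMk v) v, fun u v huv => ?_⟩
  have key : ∀ u v, ¬ Cov G R u → G.Adj u v → nr (g ((UG G R).connectedComponentMk u) u)
      (if Cov G R v then f v else g ((UG G R).connectedComponentMk v) v) = true := by
    intro u v hu huv
    obtain ⟨h1, h2⟩ := hg ((UG G R).connectedComponentMk u) u ⟨hu, rfl⟩ v huv
    by_cases hv : Cov G R v
    · simp only [hv, if_true]; exact h1 hv
    · simp only [hv, if_false]
      have : (UG G R).connectedComponentMk u = (UG G R).connectedComponentMk v :=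
        SimpleGraph.ConnectedComponent.sound
          (SimpleGraph.Adj.reachable (show (UG G R).Adj u v from ⟨huv, hu, hv⟩))
      rw [← this]
      exact h2 hv
  by_cases hu : Cov G R u
  · by_cases hv : Cov G R v
    · constructor
      · intro hR
        simp only [hu, hv, if_true]
        exact hM u v ⟨huv, hR⟩
      · intro hR
        simp only [hu, hv, if_true]
        exact hL u v ⟨⟨huv, hR⟩, hu, hv⟩
    · have hR := (he_of_unc hv huv.symm).2
      refine ⟨fun h => absurd h.symm hR, fun _ => ?_⟩
      have := key v u hv huv.symm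
      simp only [hu, hv, if_true, if_false] at this ⊢
      exact nr_symm this
  · have hR := (he_of_unc hu huv).2
    refine ⟨fun h => absurd h hR, fun _ => ?_⟩
    have := key u v hu huv
    simp only [hu, if_false]
    exact this

end CLB.H3
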