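import Pool.Agent.Helper3_DA.SegW
import Pool.Agent.Helper3_DA.FLemma

/-!
Isolated full units do not occur for paths with six, seven or eight vertices.
-/

set_option autoImplicit false
set_option linter.unusedSectionVars false

namespace CLB.H3

open Finset Classical
open H3DA (Q neg nr)
open CLB.H95
open CLB.H3.Wd (gn)

lemma desc {P : ℕ → Prop} {a u : ℕ} (hau : a ≤ u) (hP : P u)
    (hs : ∀ i, a < i → i ≤ u → P i → P (i - 1)) : P a := by
  obtain ⟨n, rfl⟩ : ∃ n, u = a + n := ⟨u - a, by omega⟩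
  clear hau
  induction n with
  | zero => exact hP
  | succ n ih =>
    refine ih ?_ (fun i h1 h2 h3 => hs i h1 (by omega) h3)
    have := hs (a + (n + 1)) (by omega) le_rfl hP
    rwa [show a + (n + 1) - 1 = a + n by omega] at this

lemma asc {P : ℕ → Prop} {a u : ℕ} (hau : a ≤ u) (hP : P a)
    (hs : ∀ i, a ≤ i → i < u → P i → P (i + 1)) : P u := by
  induction u, hau using Nat.le_induction with
  | base => exact hP
  | succ u hu ih => exact hs u hu (by omega) (ih (fun i h1 h2 h3 => hs i h1 (by omega) h3))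

section cat

variable {V : Type*} {G : SimpleGraph V} {R : V → Bool} [Fintype V]
variable {m : ℕ} {z c : ℕ → V} {k : ℕ} {x y : ℕ → V}

lemma out_unique (hout : outN k x y m c ≤ 1) {s t : ℕ} (hs : s ≤ m + 1) (ht : t ≤ m + 1)
    (h1 : ¬ InC k x y (c s)) (h2 : ¬ InC k x y (c t)) : s = t := by
  unfold outN at hout
  rw [card_le_one] at hout
  exact hout s (mem_filter.2 ⟨mem_range.2 (by omega), h1⟩) t
    (mem_filter.2 ⟨mem_range.2 (by omega), h2⟩)

lemma inJ_range {j : ℕ} {v : V} : InJ c (range (j + 1)) v ↔ ∃ s ≤ j, c s = v := by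
  unfold InJ
  constructor
  · rintro ⟨s, hs, e⟩
    exact ⟨s, by rw [mem_range] at hs; omega, e⟩
  · rintro ⟨s, hs, e⟩
    exact ⟨s, mem_range.2 (by omega), e⟩

lemma inJ_Icc {j l : ℕ} {v : V} : InJ c (Icc j l) v ↔ ∃ s, j ≤ s ∧ s ≤ l ∧ c s = v := by
  unfold InJ
  constructor
  · rintro ⟨s, hs, e⟩
    rw [mem_Icc] at hs
    exact ⟨s, hs.1, hs.2, e⟩
  · rintro ⟨s, h1, h2, e⟩
    exact ⟨s, mem_Icc.2 ⟨h1, h2⟩, e⟩

/-- Left segments with an isolated full unit seen through `x` only. -/
lemma left_run (hG : ClassC G R) (h : Chn G R k x y) (hcat : Cat G R m z c) {j : ℕ}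
    (h1 : 1 ≤ j) (hj : j < m) (hinj : ∀ i j, i ≤ m + 1 → j ≤ m + 1 → c i = c j → i = j)
    (hpair : ∀ i, 1 ≤ i → i ≤ k → ¬ (InJ c (range (j + 1)) (x i) ∧ InJ c (range (j + 1)) (y i)))
    (hout : outN k x y m c ≤ 1) {v : ℕ} (hv2 : 2 ≤ v) (hvk : v ≤ k)
    (hv : InJ c (range (j + 1)) (x v)) (hu : ∀ j ≤ m + 1, c j ≠ x (v - 1))
    (hs1 : ∀ j ≤ m + 1, 3 ≤ v → c j ≠ y (v - 2)) :
    (∀ i, 2 ≤ i → i ≤ k → i ≠ v → InJ c (range (j + 1)) (x i) → InJ c (range (j + 1)) (x (i - 1))) ∧
    (∀ i, 1 ≤ i → i + 1 ≤ k → InJ c (range (j + 1)) (y i) → InJ c (range (j + 1)) (y (i + 1))) := by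
  have hg : GU k x y c (range (j + 1)) (v - 1) := by
    refine Or.inl ⟨by omega, by omega, by rw [show v - 1 + 1 = v by omega]; exact hv, ?_⟩
    rintro ⟨s, hs, e⟩
    rw [mem_range] at hs
    exact hu s (by omega) e
  have hO := sO_card (k := k) (x := x) (y := y) (m := m) (c := c) (J := range (j + 1))
    (fun i hi => by rw [mem_range] at hi; omega)
  have hI : Set.InjOn c (range (j + 1) : Set ℕ) := by
    intro a ha b hb e
    rw [mem_coe, mem_range] at ha hb
    exact hinj a b (by omega) (by omega) e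
  constructor
  · intro i i1 i2 i3 i4
    by_contra hcon
    have hg' : GU k x y c (range (j + 1)) (i - 1) :=
      Or.inl ⟨by omega, by omega, by rw [show i - 1 + 1 = i by omega]; exact i4, hcon⟩
    have := left_two hG h hcat h1 hj hI hpair (hO.trans hout) hg hg'
    omega
  · intro i i1 i2 i3
    by_contra hcon
    have hg' : GU k x y c (range (j + 1)) (i + 1) :=
      Or.inr ⟨by omega, by omega, by rw [Nat.add_sub_cancel]; exact i3, hcon⟩
    have h5 := left_two hG h hcat h1 hj hI hpair (hO.trans hout) hg hg'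
    obtain ⟨s, hs, e⟩ := i3
    rw [mem_range] at hs
    refine hs1 s (by omega) (by omega) ?_
    rw [e, show v - 2 = i by omega]

/-- Right segments with an isolated full unit seen through `y` only. -/
lemma right_run (hG : ClassC G R) (h : Chn G R k x y) (hcat : Cat G R m z c) {j : ℕ}
    (h1 : 2 ≤ j) (hj : j ≤ m) (hinj : ∀ i j, i ≤ m + 1 → j ≤ m + 1 → c i = c j → i = j)
    (hpair : ∀ i, 1 ≤ i → i ≤ k → ¬ (InJ c (Icc j (m + 1)) (x i) ∧ InJ c (Icc j (m + 1)) (y i)))
    (hout : outN k x y m c ≤ 1) {v : ℕ} (hv1 : 1 ≤ v) (hvk : v + 1 ≤ k)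
    (hv : InJ c (Icc j (m + 1)) (y v)) (hu : ∀ j ≤ m + 1, c j ≠ y (v + 1))
    (hs2 : ∀ j ≤ m + 1, v + 2 ≤ k → c j ≠ x (v + 2)) :
    (∀ i, 2 ≤ i → i ≤ k → InJ c (Icc j (m + 1)) (x i) → InJ c (Icc j (m + 1)) (x (i - 1))) ∧
    (∀ i, 1 ≤ i → i + 1 ≤ k → i ≠ v → InJ c (Icc j (m + 1)) (y i) →
      InJ c (Icc j (m + 1)) (y (i + 1))) := by
  have hg : GU k x y c (Icc j (m + 1)) (v + 1) := by
    refine Or.inr ⟨by omega, by omega, by rw [Nat.add_sub_cancel]; exact hv, ?_⟩
    rintro ⟨s, hs, e⟩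
    rw [mem_Icc] at hs
    exact hu s (by omega) e
  have hO := sO_card (k := k) (x := x) (y := y) (m := m) (c := c) (J := Icc j (m + 1))
    (fun i hi => by rw [mem_Icc] at hi; omega)
  have hI : Set.InjOn c (Icc j (m + 1) : Set ℕ) := by
    intro a ha b hb e
    rw [mem_coe, mem_Icc] at ha hb
    exact hinj a b (by omega) (by omega) e
  constructor
  · intro i i1 i2 i3
    by_contra hcon
    have hg' : GU k x y c (Icc j (m + 1)) (i - 1) :=
      Or.inl ⟨by omega, by omega, by rw [show i - 1 + 1 = i by omega]; exact i3, hcon⟩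
    have h5 := right_two hG h hcat h1 hj hI hpair (hO.trans hout) hg hg'
    obtain ⟨s, hs, e⟩ := i3
    rw [mem_Icc] at hs
    refine hs2 s (by omega) (by omega) ?_
    rw [e, show v + 2 = i by omega]
  · intro i i1 i2 i3 i4
    by_contra hcon
    have hg' : GU k x y c (Icc j (m + 1)) (i + 1) :=
      Or.inr ⟨by omega, by omega, by rw [Nat.add_sub_cancel]; exact i4, hcon⟩
    have := right_two hG h hcat h1 hj hI hpair (hO.trans hout) hg hg'
    omega

/-- **No isolated full unit**, six to eight vertices, leaf `x v` at the first vertex. -/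
theorem iso_small (hG : ClassC G R) (hc : Crit G R) (h : Chn G R k x y) (hcat : Cat G R m z c)
    (hm6 : 6 ≤ m) (hm8 : m ≤ 8) (hinj : ∀ i j, i ≤ m + 1 → j ≤ m + 1 → c i = c j → i = j)
    (hout : outN k x y m c ≤ 1) {v : ℕ} (hv2 : 2 ≤ v) (hvk : v + 1 ≤ k)
    (hu : ∀ j ≤ m + 1, c j ≠ x (v - 1) ∧ c j ≠ y (v - 1) ∧ c j ≠ x (v + 1) ∧ c j ≠ y (v + 1))
    (hs1 : ∀ j ≤ m + 1, 3 ≤ v → c j ≠ y (v - 2)) (hs2 : ∀ j ≤ m + 1, v + 2 ≤ k → c j ≠ x (v + 2))
    {jx jy : ℕ} (hjx : jx ≤ 1) (hjy : jy ≤ m + 1) (hcx : c jx = x v) (hcy : c jy = y v) : False := by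
  have hpd : ∀ i s t, 1 ≤ i → i ≤ k → s ≤ m + 1 → t ≤ m + 1 → c s = x i → c t = y i →
      pos m s % 4 = pos m t % 4 ∧ pos m s ≠ pos m t := by
    intro i s t i1 i2 hs ht e1 e2
    exact mates_dist hG hc hcat hs ht (by rw [e1, e2]; exact h.me i i1 i2)
  have hjy5 : jy = 5 := by
    have h1 := hpd v jx jy (by omega) (by omega) (by omega) hjy hcx hcy
    have h2 : pos m jx = 1 := by
      unfold pos; split_ifs <;> omega
    unfold pos at h1 h2
    split_ifs at h1 h2 <;> omega
  subst hjy5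
  -- no pairs in short segments
  have hpL : ∀ j, j ≤ 4 → ∀ i, 1 ≤ i → i ≤ k →
      ¬ (InJ c (range (j + 1)) (x i) ∧ InJ c (range (j + 1)) (y i)) := by
    rintro j hj i i1 i2 ⟨⟨s, hs, e1⟩, ⟨t, ht, e2⟩⟩
    rw [mem_range] at hs ht
    have h1 := hpd i s t i1 i2 (by omega) (by omega) e1 e2
    unfold pos at h1
    split_ifs at h1 <;> omega
  have hpR5 : ∀ i, 1 ≤ i → i ≤ k →
      ¬ (InJ c (Icc 5 (m + 1)) (x i) ∧ InJ c (Icc 5 (m + 1)) (y i)) := by
    rintro i i1 i2 ⟨⟨s, hs, e1⟩, ⟨t, ht, e2⟩⟩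
    rw [mem_Icc] at hs ht
    have h1 := hpd i s t i1 i2 (by omega) (by omega) e1 e2
    unfold pos at h1
    split_ifs at h1 <;> omega
  have hL : ∀ j, 1 ≤ j → j ≤ 4 → _ := fun j j1 j2 => left_run hG h hcat (j := j) j1 (by omega) hinj
    (hpL j j2) hout hv2 (by omega) ⟨jx, mem_range.2 (by omega), hcx⟩ (fun j hj => (hu j hj).1) hs1
  have hR5 := right_run hG h hcat (j := 5) (by omega) (by omega) hinj hpR5 hout (by omega) hvk
    ⟨5, mem_Icc.2 ⟨le_rfl, by omega⟩, hcy⟩ (fun j hj => (hu j hj).2.2.2) hs2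
  -- no other full unit
  have hF : ∀ u, 1 ≤ u → u ≤ k → ∀ s t, s ≤ m + 1 → t ≤ m + 1 → c s = x u → c t = y u → u = v := by
    intro u u1 u2 s t hs ht e1 e2
    by_contra hne
    have h1 := hpd u s t u1 u2 hs ht e1 e2
    have h2 : (s ≤ 4 ∧ 5 ≤ t) ∨ (t ≤ 4 ∧ 5 ≤ s) := by
      unfold pos at h1
      split_ifs at h1 <;> omega
    rcases h2 with ⟨h2, h3⟩ | ⟨h2, h3⟩
    · rcases Nat.lt_or_gt_of_ne hne with h4 | h4
      · obtain ⟨a, ha, e⟩ := asc (P := fun i => InJ c (Icc 5 (m + 1)) (y i)) (a := u) (u := v - 1)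
          (by omega) ⟨t, mem_Icc.2 ⟨h3, ht⟩, e2⟩ (fun i i1 i2 i3 => hR5.2 i (by omega) (by omega)
            (by omega) i3)
        rw [mem_Icc] at ha
        exact (hu a (by omega)).2.1 e
      · obtain ⟨a, ha, e⟩ := desc (P := fun i => InJ c (range 5) (x i)) (a := v + 1) (u := u)
          (by omega) ⟨s, mem_range.2 (by omega), e1⟩ (fun i i1 i2 i3 =>
            (hL 4 (by omega) le_rfl).1 i (by omega) (by omega) (by omega) i3)
        rw [mem_range] at ha
        exact (hu a (by omega)).2.2.1 e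
    · rcases Nat.lt_or_gt_of_ne hne with h4 | h4
      · obtain ⟨a, ha, e⟩ := asc (P := fun i => InJ c (range 5) (y i)) (a := u) (u := v - 1)
          (by omega) ⟨t, mem_range.2 (by omega), e2⟩ (fun i i1 i2 i3 =>
            (hL 4 (by omega) le_rfl).2 i (by omega) (by omega) i3)
        rw [mem_range] at ha
        exact (hu a (by omega)).2.1 e
      · obtain ⟨a, ha, e⟩ := desc (P := fun i => InJ c (Icc 5 (m + 1)) (x i)) (a := v + 1) (u := u)
          (by omega) ⟨s, mem_Icc.2 ⟨h3, hs⟩, e1⟩ (fun i i1 i2 i3 =>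
            hR5.1 i (by omega) (by omega) i3)
        rw [mem_Icc] at ha
        exact (hu a (by omega)).2.2.1 e
  have hpR : ∀ j, 2 ≤ j → ∀ i, 1 ≤ i → i ≤ k →
      ¬ (InJ c (Icc j (m + 1)) (x i) ∧ InJ c (Icc j (m + 1)) (y i)) := by
    rintro j hj i i1 i2 ⟨⟨s, hs, e1⟩, ⟨t, ht, e2⟩⟩
    rw [mem_Icc] at hs ht
    have h1 := hF i i1 i2 s t hs.2 ht.2 e1 e2
    subst h1
    have := hinj s jx hs.2 (by omega) (e1.trans hcx.symm)
    omega
  have hR : ∀ j, 2 ≤ j → j ≤ 4 → _ := fun j j1 j2 => right_run hG h hcat (j := j) j1 (by omega) hinj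
    (hpR j j1) hout (by omega) hvk ⟨5, mem_Icc.2 ⟨by omega, by omega⟩, hcy⟩
    (fun j hj => (hu j hj).2.2.2) hs2
  -- the four ports
  have key : ∀ t ∈ ({1 - jx, 2, 3, 4} : Finset ℕ), c t = x 1 ∨ c t = y k ∨ ¬ InC k x y (c t) := by
    intro t ht
    simp only [mem_insert, mem_singleton] at ht
    by_cases hin : InC k x y (c t)
    swap
    · exact Or.inr (Or.inr hin)
    have htj : t ≠ jx := by omega
    obtain ⟨i, i1, i2, e | e⟩ := hin
    · replace e := e.symm
      left
      by_cases hi : i = 1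
      · rw [← hi]; exact e.symm
      exfalso
      have hiv : i ≠ v := by
        rintro rfl
        exact htj (hinj t jx (by omega) (by omega) (e.symm.trans hcx.symm))
      rcases ht with ht | ht
      · obtain ⟨s, hs, e'⟩ := (hL 1 le_rfl (by omega)).1 i (by omega) i2 hiv
          ⟨t, mem_range.2 (by omega), e.symm⟩
        rw [mem_range] at hs
        have h5 : s = jx ∨ s = t := by omega
        rcases h5 with rfl | rfl
        · have := h.injx _ _ (by omega) (by omega) (by omega) (by omega) (e'.symm.trans hcx)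
          refine (hu t (by omega)).2.2.1 ?_
          rw [← e, show v + 1 = i by omega]
        · have := h.injx _ _ (by omega) (by omega) (by omega) (by omega) (e'.symm.trans e.symm)
          omega
      · obtain ⟨s, hs, e'⟩ := (hL t (by omega) (by omega)).1 i (by omega) i2 hiv
          ⟨t, mem_range.2 (by omega), e.symm⟩
        obtain ⟨s', hs', e''⟩ := (hR t (by omega) (by omega)).1 i (by omega) i2
          ⟨t, mem_Icc.2 ⟨by omega, by omega⟩, e.symm⟩
        rw [mem_range] at hs
        rw [mem_Icc] at hs'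
        have h5 := hinj s s' (by omega) (by omega) (e'.trans e''.symm)
        have h6 : s = t := by omega
        subst h6
        have := h.injx _ _ (by omega) (by omega) (by omega) (by omega) (e'.symm.trans e.symm)
        omega
    · replace e := e.symm
      right; left
      by_cases hi : i = k
      · rw [← hi]; exact e.symm
      exfalso
      rcases ht with ht | ht
      · obtain ⟨s, hs, e'⟩ := (hL 1 le_rfl (by omega)).2 i (by omega) (by omega)
          ⟨t, mem_range.2 (by omega), e.symm⟩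
        rw [mem_range] at hs
        have h5 : s = jx ∨ s = t := by omega
        rcases h5 with rfl | rfl
        · exact h.xy _ _ (by omega) (by omega) (by omega) (by omega) (hcx.symm.trans e')
        · have := h.injy _ _ (by omega) (by omega) (by omega) (by omega) (e'.symm.trans e.symm)
          omega
      · have hiv : i ≠ v := by
          rintro rfl
          have := hinj t 5 (by omega) (by omega) (e.symm.trans hcy.symm)
          omega
        obtain ⟨s, hs, e'⟩ := (hL t (by omega) (by omega)).2 i (by omega) (by omega)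
          ⟨t, mem_range.2 (by omega), e.symm⟩
        obtain ⟨s', hs', e''⟩ := (hR t (by omega) (by omega)).2 i (by omega) (by omega) hiv
          ⟨t, mem_Icc.2 ⟨by omega, by omega⟩, e.symm⟩
        rw [mem_range] at hs
        rw [mem_Icc] at hs'
        have h5 := hinj s s' (by omega) (by omega) (e'.trans e''.symm)
        have h6 : s = t := by omega
        subst h6
        have := h.injy _ _ (by omega) (by omega) (by omega) (by omega) (e'.symm.trans e.symm)
        omega
  obtain ⟨s, hs, t, ht, hne, he⟩ := exists_ne_map_eq_of_card_lt_of_maps_to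
    (s := ({1 - jx, 2, 3, 4} : Finset ℕ)) (t := range 3)
    (f := fun t => if c t = x 1 then 0 else if c t = y k then 1 else 2) (by
      have h5 : jx = 0 ∨ jx = 1 := by omega
      rcases h5 with rfl | rfl <;> decide) (fun t _ => by
      simp only [coe_range, Set.mem_Iio]
      split_ifs <;> omega)
  have hs' : s ≤ m + 1 := by
    simp only [mem_insert, mem_singleton] at hs; omega
  have ht' : t ≤ m + 1 := by
    simp only [mem_insert, mem_singleton] at ht; omega
  refine hne ?_
  have ks := key s hs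
  have kt := key t ht
  by_cases a1 : c s = x 1
  · by_cases b1 : c t = x 1
    · exact hinj s t hs' ht' (a1.trans b1.symm)
    · simp only [if_pos a1, if_neg b1] at he
      split_ifs at he
  · by_cases b1 : c t = x 1
    · simp only [if_neg a1, if_pos b1] at he
      split_ifs at he
    · simp only [if_neg a1, if_neg b1] at he
      by_cases a2 : c s = y k
      · by_cases b2 : c t = y k
        · exact hinj s t hs' ht' (a2.trans b2.symm)
        · rw [if_pos a2, if_neg b2] at he; omega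
      · by_cases b2 : c t = y k
        · rw [if_neg a2, if_pos b2] at he; omega
        · exact out_unique hout hs' ht' (by tauto) (by tauto)

end cat

end CLB.H3
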