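import Mathlib

/-!
Labels of the 3-cube, written as triples of Booleans: `nr x y` says that the Hamming distance is at most 1,
`neg` is the antipode. Everything here is decidable finite combinatorics.
-/

set_option autoImplicit false

namespace H3DA

abbrev Q := Bool × Bool × Bool

def neg (x : Q) : Q := (!x.1, !x.2.1, !x.2.2)

def nr (x y : Q) : Bool :=
  (x.1 == y.1 && x.2.1 == y.2.1) || (x.1 == y.1 && x.2.2 == y.2.2) || (x.2.1 == y.2.1 && x.2.2 == y.2.2)

lemma neg_neg (x : Q) : neg (neg x) = x := by
  revert x; decide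

lemma neg_inj {x y : Q} (h : neg x = neg y) : x = y := by
  have := congrArg neg h
  rwa [neg_neg, neg_neg] at this

lemma neg_ne (x : Q) : neg x ≠ x := by
  revert x; decide

lemma nr_self (x : Q) : nr x x = true := by
  revert x; decide

lemma nr_comm (x y : Q) : nr x y = nr y x := by
  revert x y; decide

lemma nr_common {x y z : Q} (h1 : nr x y = true) (h2 : nr x z = true) : y ≠ neg z := by
  revert x y z; decide

lemma near2 {y z : Q} (h : y ≠ neg z) : ∃ x, nr x y = true ∧ nr x z = true := by
  revert y z; decide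

lemma near3 {y z w : Q} (h1 : y ≠ neg z) (h2 : y ≠ neg w) (h3 : z ≠ neg w) :
    ∃ x, nr x y = true ∧ nr x z = true ∧ nr x w = true := by
  have key : ∀ y z w : Q, (y ≠ neg z ∧ y ≠ neg w ∧ z ≠ neg w) →
      ∃ x, nr x y = true ∧ nr x z = true ∧ nr x w = true := by decide
  exact key y z w ⟨h1, h2, h3⟩

lemma opt2 {y z : Q} (h : y ≠ neg z) (b : Q) :
    ∃ x, x ≠ b ∧ nr x y = true ∧ nr x z = true := by
  revert y z b; decide

lemma ne_neg_symm {x y : Q} (h : x ≠ neg y) : y ≠ neg x := by
  intro h1
  apply h
  rw [h1, neg_neg]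

lemma eq_neg_symm {x y : Q} (h : x = neg y) : y = neg x := by
  rw [h, neg_neg]

lemma card_Q : Fintype.card Q = 8 := by decide

end H3DA
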