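import Pool.Agent.Helper3_DA.Rot
import Pool.Agent.Helper95_CLB.Brooks

/-!
There is no minimal counterexample: the graph of the edges of the matching has maximum degree 4 and no
5-clique, so it is 4-colourable by Brooks' theorem, and the four colours give the labels.
-/

set_option autoImplicit false
set_option linter.unusedSectionVars false
set_option linter.unusedVariables false

namespace H3DA

variable {V : Type*} {H M : SimpleGraph V} {R : V → Bool}

/-- The classes: edges of the matching and single uncovered vertices. -/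
def clsSetoid (M : SimpleGraph V) (hmm : ∀ u v w, M.Adj u v → M.Adj u w → v = w) : Setoid V where
  r x y := x = y ∨ M.Adj x y
  iseqv := by
    refine ⟨fun x => Or.inl rfl, ?_, ?_⟩
    · rintro x y (h | h)
      · exact Or.inl h.symm
      · exact Or.inr h.symm
    · rintro x y z (h | h) (h' | h')
      · exact Or.inl (h.trans h')
      · rw [h]; exact Or.inr h'
      · rw [← h']; exact Or.inr h
      · exact Or.inl (hmm y x z h.symm h')

abbrev U (M : SimpleGraph V) (hmm : ∀ u v w, M.Adj u v → M.Adj u w → v = w) : Type _ :=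
  Quotient (clsSetoid M hmm)

def cls (M : SimpleGraph V) (hmm : ∀ u v w, M.Adj u v → M.Adj u w → v = w) (x : V) : U M hmm :=
  Quotient.mk (clsSetoid M hmm) x

lemma cls_eq {hmm : ∀ u v w, M.Adj u v → M.Adj u w → v = w} {x y : V} :
    cls M hmm x = cls M hmm y ↔ x = y ∨ M.Adj x y := by
  constructor
  · intro h
    exact Quotient.exact h
  · intro h
    exact Quotient.sound h

/-- The graph of the classes: two classes are adjacent if they have a common uncovered neighbour. -/
def CG (H M : SimpleGraph V) (hmm : ∀ u v w, M.Adj u v → M.Adj u w → v = w) : SimpleGraph (U M hmm) where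
  Adj p q := p ≠ q ∧ ∃ v x y, ¬ Cov M v ∧ H.Adj v x ∧ H.Adj v y ∧ cls M hmm x = p ∧ cls M hmm y = q
  symm := ⟨by
    rintro p q ⟨h, v, x, y, h1, h2, h3, h4, h5⟩
    exact ⟨h.symm, v, y, x, h1, h3, h2, h5, h4⟩⟩
  loopless := ⟨fun _ h => h.1 rfl⟩

section Count

variable [Fintype V]

lemma tight' (hm : MinBad H M R) {a b : V} (hab : M.Adj a b) :
    (nb H a).card = 2 ∧ ∀ v, H.Adj a v → (nb H v).card = 3 := by
  obtain ⟨f, hf⟩ := exists_UOff hm hab
  exact card_PP_eq4 hm.toAdm hab (tight hm hab hf).1

/-- The second connection of a pair. -/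
lemma second (hm : MinBad H M R) {a a' v s : V} (haa : M.Adj a a') (hav : H.Adj a v) (hvs : H.Adj v s)
    (hsa : s ≠ a) : ∃ s', M.Adj s s' ∧
      ((∃ w, H.Adj a w ∧ H.Adj w s') ∨ (∃ w, H.Adj a' w ∧ H.Adj w s)) := by
  classical
  have hA := hm.toAdm
  have hv : ¬ Cov M v := hA.lf a v hav ⟨a', haa⟩
  have h3 := (tight' hm haa).2 v hav
  obtain ⟨t, ht, hta, hts⟩ : ∃ t, H.Adj v t ∧ t ≠ a ∧ t ≠ s := by
    by_contra hcon
    push Not at hcon
    have : nb H v ⊆ {a, s} := by
      intro t ht
      rw [mem_nb] at ht
      by_cases h : t = a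
      · simp [h]
      · simp [hcon t ht h]
    have h4 := (Finset.card_le_card this).trans Finset.card_le_two
    omega
  have hcs : Cov M s := by
    by_contra h
    exact no_uu hm hv h hvs
  have hct : Cov M t := by
    by_contra h
    exact no_uu hm hv h ht
  obtain ⟨s', hs'⟩ := hcs
  obtain ⟨t', ht'⟩ := hct
  exact ⟨s', hs', dbl hm haa ht' hs' hav.symm ht hvs hta.symm hsa.symm hts⟩

open Classical in
lemma CG_degree (hm : MinBad H M R) (p : U M hm.mm) :
    (Finset.univ.filter (fun q => (CG H M hm.mm).Adj p q)).card ≤ 4 := by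
  have hA := hm.toAdm
  by_cases hne : ∃ q, (CG H M hm.mm).Adj p q
  · obtain ⟨q, -, v, x, y, hv, hvx, hvy, hxp, -⟩ := hne
    have hcx : Cov M x := by
      by_contra h
      exact no_uu hm hv h hvx
    obtain ⟨x', hx'⟩ := hcx
    set D : Finset ((V × V) ⊕ (V × V)) := (PP H x).disjSum (PP H x') with hD
    let g : (V × V) ⊕ (V × V) → U M hm.mm := Sum.elim (fun p => cls M hm.mm p.2) (fun p => cls M hm.mm p.2)
    have hsub : Finset.univ.filter (fun q => (CG H M hm.mm).Adj p q) ⊆ D.image g := by
      intro q hq
      rw [Finset.mem_filter] at hq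
      obtain ⟨-, hpq, w, c, d, hw, hwc, hwd, hcp, hdq⟩ := hq
      rw [Finset.mem_image]
      have h1 : d ≠ c := by
        rintro rfl
        exact hpq (hcp.symm.trans hdq)
      rw [← hxp, cls_eq] at hcp
      rcases hcp with h | h
      · subst h
        refine ⟨Sum.inl (w, d), ?_, hdq⟩
        rw [hD, Finset.inl_mem_disjSum]
        exact mem_PP.2 ⟨hwc.symm, hwd, h1⟩
      · have h2 : c = x' := hA.mm x c x' h.symm hx'
        subst h2
        refine ⟨Sum.inr (w, d), ?_, hdq⟩
        rw [hD, Finset.inr_mem_disjSum]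
        exact mem_PP.2 ⟨hwc.symm, hwd, h1⟩
    have hfib : ∀ q ∈ D.image g, 2 ≤ (D.filter (fun d => g d = q)).card := by
      intro q hq
      rw [Finset.mem_image] at hq
      obtain ⟨d, hd, rfl⟩ := hq
      have : ∃ d' ∈ D, g d' = g d ∧ d' ≠ d := by
        rcases d with ⟨v, s⟩ | ⟨v, s⟩
        · rw [hD, Finset.inl_mem_disjSum] at hd
          obtain ⟨h1, h2, h3⟩ := mem_PP.1 hd
          obtain ⟨s', hs', h4⟩ := second hm hx' h1 h2 h3
          rcases h4 with ⟨w, h5, h6⟩ | ⟨w, h5, h6⟩
          · refine ⟨Sum.inl (w, s'), ?_, ?_, ?_⟩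
            · rw [hD, Finset.inl_mem_disjSum]
              refine mem_PP.2 ⟨h5, h6, ?_⟩
              rintro rfl
              exact hA.tri s' s v hs'.symm h1 h2.symm
            · exact cls_eq.2 (Or.inr hs'.symm)
            · intro h
              have h7 := Sum.inl_injective h
              exact hs'.ne' (congrArg Prod.snd h7)
          · refine ⟨Sum.inr (w, s), ?_, rfl, ?_⟩
            · rw [hD, Finset.inr_mem_disjSum]
              refine mem_PP.2 ⟨h5, h6, ?_⟩
              rintro rfl
              exact hA.tri x s v hx' h1 h2.symm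
            · exact fun h => Sum.inl_ne_inr h.symm
        · rw [hD, Finset.inr_mem_disjSum] at hd
          obtain ⟨h1, h2, h3⟩ := mem_PP.1 hd
          obtain ⟨s', hs', h4⟩ := second hm hx'.symm h1 h2 h3
          rcases h4 with ⟨w, h5, h6⟩ | ⟨w, h5, h6⟩
          · refine ⟨Sum.inr (w, s'), ?_, ?_, ?_⟩
            · rw [hD, Finset.inr_mem_disjSum]
              refine mem_PP.2 ⟨h5, h6, ?_⟩
              rintro rfl
              exact hA.tri s' s v hs'.symm h1 h2.symm
            · exact cls_eq.2 (Or.inr hs'.symm)
            · intro h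
              have h7 := Sum.inr_injective h
              exact hs'.ne' (congrArg Prod.snd h7)
          · refine ⟨Sum.inl (w, s), ?_, rfl, ?_⟩
            · rw [hD, Finset.inl_mem_disjSum]
              refine mem_PP.2 ⟨h5, h6, ?_⟩
              rintro rfl
              exact hA.tri x' s v hx'.symm h1 h2.symm
            · exact Sum.inl_ne_inr
      obtain ⟨d', h1, h2, h3⟩ := this
      have h4 : ({d', d} : Finset ((V × V) ⊕ (V × V))) ⊆ D.filter (fun e => g e = g d) := by
        intro e he
        rw [Finset.mem_insert, Finset.mem_singleton] at he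
        rw [Finset.mem_filter]
        rcases he with rfl | rfl
        · exact ⟨h1, h2⟩
        · exact ⟨hd, rfl⟩
      have h5 := Finset.card_le_card h4
      rw [Finset.card_pair h3] at h5
      exact h5
    have h1 := Finset.mul_card_image_le_card D 2 hfib
    have h2 : D.card = (PP H x).card + (PP H x').card := by rw [hD, Finset.card_disjSum]
    have h3 := card_PP_le4 hA hx'
    have h4 := card_PP_le4 hA hx'.symm
    have h5 := Finset.card_le_card hsub
    omega
  · push Not at hne
    rw [Finset.filter_false_of_mem (fun q _ => hne q)]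
    simp

lemma CG_cliqueFree (hm : MinBad H M R) : (CG H M hm.mm).CliqueFree 5 := by
  classical
  have hA := hm.toAdm
  intro K hK
  have hcard : K.card = 5 := hK.card_eq
  have hclique : ∀ p ∈ K, ∀ q ∈ K, p ≠ q → (CG H M hm.mm).Adj p q := fun p hp q hq hpq =>
    hK.isClique hp hq hpq
  -- K is closed
  have hclosed : ∀ p ∈ K, ∀ q, (CG H M hm.mm).Adj p q → q ∈ K := by
    intro p hp q hpq
    by_contra hq
    have h1 : insert q (K.erase p) ⊆ Finset.univ.filter (fun q => (CG H M hm.mm).Adj p q) := by
      intro r hr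
      rw [Finset.mem_insert, Finset.mem_erase] at hr
      rw [Finset.mem_filter]
      refine ⟨Finset.mem_univ _, ?_⟩
      rcases hr with rfl | ⟨hr1, hr2⟩
      · exact hpq
      · exact hclique p hp r hr2 (Ne.symm hr1)
    have h2 := Finset.card_le_card h1
    rw [Finset.card_insert_of_notMem (fun h => hq (Finset.mem_of_mem_erase h)),
      Finset.card_erase_of_mem hp, hcard] at h2
    have h3 := CG_degree hm p
    omega
  -- every class of K is an edge of the matching
  have hedge : ∀ p ∈ K, ∃ x x', M.Adj x x' ∧ cls M hm.mm x = p := by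
    intro p hp
    obtain ⟨q, hq, hpq⟩ : ∃ q ∈ K, p ≠ q := by
      obtain ⟨q, hq⟩ : (K.erase p).Nonempty := by
        rw [← Finset.card_pos, Finset.card_erase_of_mem hp, hcard]
        norm_num
      rw [Finset.mem_erase] at hq
      exact ⟨q, hq.2, Ne.symm hq.1⟩
    obtain ⟨-, v, x, y, hv, hvx, hvy, hxp, -⟩ := hclique p hp q hq hpq
    have hcx : Cov M x := by
      by_contra h
      exact no_uu hm hv h hvx
    obtain ⟨x', hx'⟩ := hcx
    exact ⟨x, x', hx', hxp⟩
  set W : Finset V := Finset.univ.filter (fun x => cls M hm.mm x ∈ K) with hW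
  have hWm : ∀ x, x ∈ W ↔ cls M hm.mm x ∈ K := fun x => by rw [hW, Finset.mem_filter]; simp
  have hWcov : ∀ x ∈ W, ∃ x', M.Adj x x' := by
    intro x hx
    rw [hWm] at hx
    obtain ⟨y, y', hy, hyx⟩ := hedge _ hx
    rw [cls_eq] at hyx
    rcases hyx with h | h
    · subst h
      exact ⟨y', hy⟩
    · exact ⟨y, h.symm⟩
  have hWcard : W.card * 1 = K.card * 2 := by
    apply Finset.card_mul_eq_card_mul (fun x p => cls M hm.mm x = p)
    · intro x hx
      rw [Finset.card_eq_one]
      refine ⟨cls M hm.mm x, ?_⟩
      ext p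
      rw [Finset.mem_bipartiteAbove, Finset.mem_singleton]
      constructor
      · exact fun h => h.2.symm
      · rintro rfl
        exact ⟨(hWm x).1 hx, rfl⟩
    · intro p hp
      obtain ⟨y, y', hy, hyp⟩ := hedge p hp
      rw [Finset.card_eq_two]
      refine ⟨y, y', hy.ne, ?_⟩
      ext x
      rw [Finset.mem_bipartiteBelow, Finset.mem_insert, Finset.mem_singleton]
      constructor
      · rintro ⟨-, h⟩
        rw [← hyp, cls_eq] at h
        rcases h with h | h
        · exact Or.inl h
        · exact Or.inr (hA.mm y x y' h.symm hy)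
      · rintro (rfl | rfl)
        · exact ⟨(hWm _).2 (hyp ▸ hp), hyp⟩
        · have h : cls M hm.mm x = p := by
            rw [← hyp]
            exact cls_eq.2 (Or.inr hy.symm)
          exact ⟨(hWm _).2 (h ▸ hp), h⟩
  set T : Finset V := Finset.univ.filter (fun v => ∃ x ∈ W, H.Adj x v) with hT
  have hTcard : W.card * 2 = T.card * 3 := by
    apply Finset.card_mul_eq_card_mul (fun x v => H.Adj x v)
    · intro x hx
      obtain ⟨x', hx'⟩ := hWcov x hx
      rw [← (tight' hm hx').1]
      congr 1
      ext v
      rw [Finset.mem_bipartiteAbove, mem_nb, hT, Finset.mem_filter]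
      constructor
      · exact fun h => h.2
      · exact fun h => ⟨⟨Finset.mem_univ _, x, hx, h⟩, h⟩
    · intro v hv
      rw [hT, Finset.mem_filter] at hv
      obtain ⟨-, x, hx, hxv⟩ := hv
      obtain ⟨x', hx'⟩ := hWcov x hx
      rw [← (tight' hm hx').2 v hxv]
      congr 1
      ext y
      rw [Finset.mem_bipartiteBelow, mem_nb]
      constructor
      · exact fun h => h.2.symm
      · intro h
        refine ⟨?_, h.symm⟩
        rw [hWm]
        by_cases he : cls M hm.mm x = cls M hm.mm y
        · rw [← he]; exact (hWm x).1 hx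
        · exact hclosed _ ((hWm x).1 hx) _
            ⟨he, v, x, y, hA.lf x v hxv ⟨x', hx'⟩, hxv.symm, h, rfl, rfl⟩
  rw [hcard] at hWcard
  omega

/-- Labels of the four colours. -/
def rep (i : Fin 4) : Q := ![(false, false, false), (false, false, true), (false, true, false), (false, true, true)] i

lemma rep_ne (i j : Fin 4) (h : i ≠ j) : rep i ≠ rep j ∧ rep i ≠ neg (rep j) := by
  revert i j; decide

theorem no_minBad (hm : MinBad H M R) : False := by
  classical
  have hA := hm.toAdm
  obtain ⟨c⟩ := CLB.H95.brooks (G := CG H M hm.mm) (k := 4) (by norm_num)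
    (fun p => by
      have := CG_degree hm p
      convert this) (CG_cliqueFree hm)
  let ou : V → V := fun a => Quotient.out (cls M hm.mm a)
  have hou : ∀ a, ou a = a ∨ M.Adj (ou a) a := by
    intro a
    have : cls M hm.mm (ou a) = cls M hm.mm a := Quotient.out_eq _
    exact cls_eq.1 this
  apply not_UL hm (fun a => if ou a = a then rep (c (cls M hm.mm a)) else neg (rep (c (cls M hm.mm a))))
  constructor
  · intro a b hab
    have h1 : cls M hm.mm a = cls M hm.mm b := cls_eq.2 (Or.inr hab)
    have h2 : ou a = ou b := by simp only [ou, h1]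
    have h3 : ou a = a ↔ ¬ ou b = b := by
      rw [← h2]
      constructor
      · intro h h'
        exact hab.ne (h.symm.trans h')
      · intro h
        rcases hou a with h4 | h4
        · exact h4
        · exact (h (hA.mm a (ou a) b h4.symm hab)).elim
    simp only
    rw [h1]
    by_cases h4 : ou b = b
    · rw [if_pos h4, if_neg (fun h => (h3.1 h) h4), neg_neg]
    · rw [if_neg h4, if_pos (h3.2 h4)]
  · intro v a s hv hva hvs
    by_cases has : a = s
    · subst has
      exact ne_neg_self _
    · have h1 : cls M hm.mm a ≠ cls M hm.mm s := by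
        intro h
        rcases cls_eq.1 h with h | h
        · exact has h
        · exact hA.tri a s v h hva.symm hvs.symm
      have h2 : c (cls M hm.mm a) ≠ c (cls M hm.mm s) :=
        c.valid ⟨h1, v, a, s, hv, hva, hvs, rfl, rfl⟩
      obtain ⟨h3, h4⟩ := rep_ne _ _ h2
      simp only
      split_ifs
      · exact h4
      · rw [neg_neg]; exact h3
      · exact fun h => h3 (neg_inj h)
      · rw [neg_neg]
        intro h
        apply h4
        rw [← h, neg_neg]

end Count

/-- Every admissible pair has a labelling. -/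
theorem LinkFree [Finite V] (h : Adm H M R) : ∃ f : V → Q, Lab H M f := by
  cases nonempty_fintype V
  by_contra hcon
  push Not at hcon
  obtain ⟨H', M', hm⟩ := exists_minBad h hcon
  exact no_minBad hm

end H3DA
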