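import Pool.Agent.Helper91_DA.M5Defs2
import Pool.Agent.Helper80_DA.CleanEnd
import Pool.Agent.Helper95_CLB.WinK

/-!
Components with five vertices: the windows W2, W6, W3, E1.
-/

set_option autoImplicit false
set_option linter.unusedSectionVars false

namespace CLB.H3

open Finset Classical
open H3DA (Q neg nr)
open CLB.H95
open CLB.H91 (K5 OutU Base W2Stmt W3Stmt W6Stmt E1Stmt)
open CLB.H80 (own_lk)

variable {V : Type*} {H : SimpleGraph V} {R : V → Bool} [Fintype V] {k : ℕ} {x y : ℕ → V}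
  {z c : ℕ → V}

/-- The left window of three units is clean if `x 1`, `x 2`, `x 3` are ports. -/
lemma clean3 (hB : Base H R k x y) (hcat : Cat H R 5 z c) (hk : 5 ≤ k) {a b d : ℕ} (ha : a ≤ 6)
    (hb : b ≤ 6) (hd : d ≤ 6) (ea : c a = x 1) (eb : c b = x 2) (ed : c d = x 3) {m' : ℕ}
    {z' c' : ℕ → V} (hC : Cat H R m' z' c') (hne : cSupp m' z' ≠ cSupp 5 z) :
    (m' = 1 → ∀ i j, i ≤ 2 → j ≤ 2 → InC 3 x y (c' i) → InC 3 x y (c' j) → i = j) ∧
    (2 ≤ m' → ¬ NCp m' (fun j => InC 3 x y (c' j))) := by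
  have hne12 : a ≠ b := by
    rintro rfl
    have := hB.ch.injx 1 2 le_rfl (by omega) (by omega) (by omega) (ea.symm.trans eb)
    omega
  have hown : 2 * 3 ≤ 4 + ((range (5 + 2)).filter (fun j => InC 3 x y (c j))).card := by
    have : 1 < ((range (5 + 2)).filter (fun j => InC 3 x y (c j))).card := by
      rw [one_lt_card]
      refine ⟨a, ?_, b, ?_, hne12⟩
      · rw [mem_filter, mem_range]
        exact ⟨by omega, ⟨1, le_rfl, by norm_num, Or.inl ea⟩⟩
      · rw [mem_filter, mem_range]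
        exact ⟨by omega, ⟨2, by norm_num, by norm_num, Or.inl eb⟩⟩
    omega
  obtain ⟨h1, h2⟩ := CLB.H80.clean_end' hB.hG hB.hc hB.ch ⟨hB.e1, hB.ek⟩ hcat
    (show 3 < k by omega) (Or.inl ⟨le_rfl, hk⟩) hown hC hne
  have lk2 : Lk H R (x 2) (y 1) := (hB.ch.lk 1 le_rfl (by omega)).symm
  have key : ∀ l ≤ m' + 1, c' l ≠ x 2 := fun l hl e =>
    hne (own_lk hB.hG hcat hC lk2 hb hl eb e)
  refine ⟨h1, fun hm' => ?_⟩
  rcases h2 hm' with h3 | h3 | h3
  · exfalso
    obtain ⟨rfl, p, q, hp, hq, -, -, h4 | h4⟩ := h3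
    · exact key q (by omega) h4.2
    · exact key p (by omega) h4.1
  · exfalso
    obtain ⟨rfl, -, o, o', q, q', l1, l2, -, -, -, h4, -⟩ := h3
    refine key q ?_ h4
    unfold CLB.H91.LM at l2
    omega
  · exact h3

/-- The reversed left window of three units. -/
lemma wnR3 (hB : Base H R k x y) (hcat : Cat H R 5 z c) (hk : 5 ≤ k) {f : V → Q} {D : Ty}
    (hK : KTight H R 5 z c f D) {a b d : ℕ} (ha : a ≤ 6) (hb : b ≤ 6) (hd : d ≤ 6) (ea : c a = x 1)
    (eb : c b = x 2) (ed : c d = x 3) :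
    ∃ f', Wn H R 3 (fun i => y (4 - i)) (fun i => x (4 - i)) 5 z c f' D ∧
      ∀ v, Cov H R v → f' v = f v := by
  have hin3 : ∀ v, InC 3 (fun i => y (4 - i)) (fun i => x (4 - i)) v → InC 3 x y v := by
    rintro v ⟨i, i1, i2, i3⟩
    exact ⟨4 - i, by omega, by omega, i3.symm⟩
  have hin3' : ∀ v, InC 3 x y v → InC 3 (fun i => y (4 - i)) (fun i => x (4 - i)) v := by
    rintro v ⟨i, i1, i2, i3⟩
    refine ⟨4 - i, by omega, by omega, ?_⟩
    show v = y (4 - (4 - i)) ∨ v = x (4 - (4 - i))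
    rw [show 4 - (4 - i) = i by omega]
    exact i3.symm
  have hends' : (∀ w, ¬ Lk H R ((fun i => y (k + 1 - i)) 1) w) ∧
      ∀ w, ¬ Lk H R ((fun i => x (k + 1 - i)) k) w := by
    constructor
    · show ∀ w, ¬ Lk H R (y (k + 1 - 1)) w
      rw [show k + 1 - 1 = k by omega]; exact hB.ek
    · show ∀ w, ¬ Lk H R (x (k + 1 - k)) w
      rw [show k + 1 - k = 1 by omega]; exact hB.e1
  have eX : (fun i => (fun i => y (k + 1 - i)) (k - 2 - 1 + i)) = fun i => y (4 - i) := by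
    funext i
    show y (k + 1 - (k - 2 - 1 + i)) = y (4 - i)
    rw [show k + 1 - (k - 2 - 1 + i) = 4 - i by omega]
  have eY : (fun i => (fun i => x (k + 1 - i)) (k - 2 - 1 + i)) = fun i => x (4 - i) := by
    funext i
    show x (k + 1 - (k - 2 - 1 + i)) = x (4 - i)
    rw [show k + 1 - (k - 2 - 1 + i) = 4 - i by omega]
  have er : k + 1 - (k - 2) = 3 := by omega
  have hw := wn_of hB.hG hB.hc hcat (by norm_num) (Chn.rev hB.ch) hends' hK (a := k - 2) (b := k)
    (by omega) (by omega) le_rfl ⟨a, by omega, k, by omega, le_rfl, Or.inr (by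
      show c a = x (k + 1 - k)
      rw [show k + 1 - k = 1 by omega]; exact ea)⟩ (by
      rw [eX, eY, er]
      intro m' z' c' hC hne hex
      obtain ⟨h1, h2⟩ := clean3 hB hcat hk ha hb hd ea eb ed hC hne
      refine ⟨fun hm i j hi hj h3 h4 => h1 hm i j hi hj (hin3 _ h3) (hin3 _ h4), fun hm hN => ?_⟩
      refine h2 hm ?_
      have e : (fun j => InC 3 (fun i => y (4 - i)) (fun i => x (4 - i)) (c' j)) =
          fun j => InC 3 x y (c' j) := by
        funext j
        exact propext ⟨hin3 _, hin3' _⟩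
      rw [e] at hN
      exact hN)
  rw [eX, eY, er] at hw
  exact hw

/-- The sizes of the lists in the reversed window. -/
lemma sizes3 (hB : Base H R k x y) (hcat : Cat H R 5 z c) (hk : 5 ≤ k) {a b d : ℕ} (ha : a ≤ 6)
    (hb : b ≤ 6) (hd : d ≤ 6) (ea : c a = x 1) (eb : c b = x 2) (ed : c d = x 3) :
    2 ≤ wsz H R 3 (fun i => y (4 - i)) (fun i => x (4 - i)) 5 z 1 ∧
    6 ≤ wsz H R 3 (fun i => y (4 - i)) (fun i => x (4 - i)) 5 z 2 ∧
    4 ≤ wsz H R 3 (fun i => y (4 - i)) (fun i => x (4 - i)) 5 z 3 := by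
  have hG := hB.hG
  have fx3 : fp H R 5 z (x 3) = 0 := by
    rw [← ed]
    exact fp_own_lk hG hcat (by omega) (w := y 2) (ed ▸ (hB.ch.lk 2 (by omega) (by omega)).symm)
  have fx2 : fp H R 5 z (x 2) = 0 := by
    rw [← eb]
    exact fp_own_lk hG hcat (by omega) (w := y 1) (eb ▸ (hB.ch.lk 1 (by omega) (by omega)).symm)
  have fx1 : fp H R 5 z (x 1) ≤ 1 := by
    rw [← ea]
    exact fp_own_cov hG hcat (by omega)
  have fy : ∀ i, 1 ≤ i → i < k → fp H R 5 z (y i) ≤ 1 := fun i i1 i2 => fp_lk hG (hB.ch.lk i i1 i2)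
  have fy1 := fy 1 le_rfl (by omega)
  have fy2 := fy 2 (by omega) (by omega)
  have fy3 := fy 3 (by omega) (by omega)
  have w1 := wl_le (G := H) (R := R) (X := fun i => y (4 - i)) 1
  have w2 : wl H R (fun i => y (4 - i)) 2 = 0 := wl_ne (by norm_num)
  have w3 : wl H R (fun i => y (4 - i)) 3 = 0 := wl_ne (by norm_num)
  have r1 : wr H R 3 (fun i => x (4 - i)) 1 = 0 := wr_ne (by norm_num)
  have r2 : wr H R 3 (fun i => x (4 - i)) 2 = 0 := wr_ne (by norm_num)
  have r3 : wr H R 3 (fun i => x (4 - i)) 3 = 0 := wr_end hB.e1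
  refine ⟨?_, ?_, ?_⟩
  · show 2 ≤ 8 - 2 * (fp H R 5 z (y 3) + fp H R 5 z (x 3)) - wl H R (fun i => y (4 - i)) 1 -
      wr H R 3 (fun i => x (4 - i)) 1
    omega
  · show 6 ≤ 8 - 2 * (fp H R 5 z (y 2) + fp H R 5 z (x 2)) - wl H R (fun i => y (4 - i)) 2 -
      wr H R 3 (fun i => x (4 - i)) 2
    omega
  · show 4 ≤ 8 - 2 * (fp H R 5 z (y 1) + fp H R 5 z (x 1)) - wl H R (fun i => y (4 - i)) 3 -
      wr H R 3 (fun i => x (4 - i)) 3
    omega

/-- A vertex of a far unit is not in the reversed window. -/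
lemma outW {v : V} (h : OutU x y 3 v) : ¬ InC 3 (fun i => y (4 - i)) (fun i => x (4 - i)) v := by
  rintro ⟨i, i1, i2, i3⟩
  obtain ⟨h1, h2⟩ := h (4 - i) (by omega) (by omega)
  rcases i3 with i3 | i3
  · exact h2 i3
  · exact h1 i3

lemma outU_far (hch : Chn H R k x y) {n v : ℕ} (hv : n < v) (hvk : v ≤ k) :
    OutU x y n (x v) ∧ OutU x y n (y v) := by
  refine ⟨fun i i1 i2 => ⟨fun e => ?_, fun e => ?_⟩, fun i i1 i2 => ⟨fun e => ?_, fun e => ?_⟩⟩
  · have := hch.injx v i (by omega) hvk i1 (by omega) e; omega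
  · exact hch.xy v i (by omega) hvk i1 (by omega) e
  · exact hch.xy i v i1 (by omega) (by omega) hvk e.symm
  · have := hch.injy v i (by omega) hvk i1 (by omega) e; omega

/-- Not in a unit of the reversed window. -/
lemma outIn {v : V} (h : OutU x y 3 v) {i : ℕ} (h1 : 1 ≤ i) (h2 : i ≤ 3) :
    ¬ InU (fun i => y (4 - i)) (fun i => x (4 - i)) i v := by
  intro h3
  exact outW h ⟨i, h1, h2, h3⟩

theorem w2 : W2Stmt := by
  intro V _ H R k x y z c v hB h5 hv hvk hor o0 o6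
  have hcat := h5.cat
  have hk : 5 ≤ k := by have := h5.vk; omega
  have hvk' := h5.vk
  obtain ⟨f, D, hK⟩ := exists_ktight hB.hG hB.hc hcat (by norm_num)
  obtain ⟨ox, oy⟩ := outU_far hB.ch (n := 3) (show 3 < v by omega) hvk'
  have o1 : OutU x y 3 (c 1) := by rw [h5.c1]; exact ox
  have o5 : OutU x y 3 (c 5) := by rw [h5.c5]; exact oy
  -- the inner port at `x 1`
  obtain ⟨g, g', g2, g4, ea, eb, ed⟩ : ∃ g g', ((g = 4 ∧ g' = 2) ∨ (g = 2 ∧ g' = 4)) ∧ g ≤ 6 ∧
      c g = x 1 ∧ c 3 = x 2 ∧ c g' = x 3 := by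
    rcases hor with ⟨h1, h2, h3⟩ | ⟨h1, h2, h3⟩
    · exact ⟨4, 2, Or.inl ⟨rfl, rfl⟩, by norm_num, h1, h2, h3⟩
    · exact ⟨2, 4, Or.inr ⟨rfl, rfl⟩, by norm_num, h1, h2, h3⟩
  have g6 : g' ≤ 6 := by omega
  obtain ⟨f', w, hff⟩ := wnR3 hB hcat hk hK g4 (by norm_num) g6 ea eb ed
  obtain ⟨s1, s2, s3⟩ := sizes3 hB hcat hk g4 (by norm_num) g6 ea eb ed
  have hl : ∀ i, 1 ≤ i → i ≤ 3 →
      lfn 3 (fun i => y (4 - i)) (fun i => x (4 - i)) 5 c i = 0 := fun i i1 i2 =>
    lfn_zero (outIn o0 i1 i2) (outIn o1 i1 i2) (outIn o5 i1 i2) (outIn o6 i1 i2)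
  set J : ℕ → Prop := fun j => InC 3 (fun i => y (4 - i)) (fun i => x (4 - i)) (c j) with hJ
  have hT : TB 5 J (fun j => f' (c j)) g 2 := by
    have n0 : ¬ J 0 := outW o0
    have n1 : ¬ J 1 := outW o1
    have n5 : ¬ J 5 := outW o5
    have n6 : ¬ J 6 := outW o6
    rcases g2 with ⟨rfl, -⟩ | ⟨rfl, -⟩
    · exact tb_inner2r (by norm_num) (by norm_num) n5 (known_left (by norm_num) w.tight n0 n1)
    · exact tb_inner2l (by norm_num) (by norm_num) n1 (known_right w.tight n5 n6)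
  obtain ⟨B, hBc, hB'⟩ := hT
  have := w.last (s := fun i => if i = 1 then 2 else if i = 2 then 6 else 4)
    (fun i i1 i2 => by
      rw [hl i i1 i2]
      have : i = 1 ∨ i = 2 ∨ i = 3 := by omega
      rcases this with rfl | rfl | rfl
      · simpa using s1
      · simpa using s2
      · simpa using s3) le_rfl (by norm_num) (by intro i i1 i2; omega) (v := c g)
    (by
      right
      show c g = x (4 - 3)
      exact ea) (B := B) (fun mu D' hD' => hB' _ (fun j hj hn => lbl_out hn) D' hD')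
  have e : nbc (6 + (fun i => if i = 1 then 2 else if i = 2 then 6 else 4) (3 - 1) - 8) +
      (fun i => if i = 1 then 2 else if i = 2 then 6 else 4) 3 - 8 = 3 := by decide
  rw [e] at this
  omega

theorem w6 : W6Stmt := by
  intro V _ H R k x y z c v hB h5 hv hvk hor
  have hcat := h5.cat
  have hk : 5 ≤ k := by have := h5.vk; omega
  have hvk' := h5.vk
  obtain ⟨f, D, hK⟩ := exists_ktight hB.hG hB.hc hcat (by norm_num)
  obtain ⟨ox, oy⟩ := outU_far hB.ch (n := 3) (show 3 < v by omega) hvk'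
  have o1 : OutU x y 3 (c 1) := by rw [h5.c1]; exact ox
  have o5 : OutU x y 3 (c 5) := by rw [h5.c5]; exact oy
  -- the leaf at `x 1`
  obtain ⟨g, g', ea, eb, ed, hcase⟩ : ∃ g g', c g = x 1 ∧ c g' = x 2 ∧ c 3 = x 3 ∧
      ((g = 6 ∧ g' = 4 ∧ OutU x y 3 (c 0)) ∨ (g = 0 ∧ g' = 2 ∧ OutU x y 3 (c 6))) := by
    rcases hor with ⟨h1, h2, h3, h4, -⟩ | ⟨h1, h2, h3, -, h4⟩
    · exact ⟨6, 4, h1, h2, h3, Or.inl ⟨rfl, rfl, h4⟩⟩
    · exact ⟨0, 2, h1, h2, h3, Or.inr ⟨rfl, rfl, h4⟩⟩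
  have g6 : g ≤ 6 := by omega
  have g6' : g' ≤ 6 := by omega
  obtain ⟨f', w, hff⟩ := wnR3 hB hcat hk hK g6 g6' (by norm_num) ea eb ed
  obtain ⟨s1, s2, s3⟩ := sizes3 hB hcat hk g6 g6' (by norm_num) ea eb ed
  -- `c g` is in the last unit of the window only
  have hg12 : ∀ i, 1 ≤ i → i ≤ 2 → ¬ InU (fun i => y (4 - i)) (fun i => x (4 - i)) i (c g) := by
    intro i i1 i2 h3
    rw [ea] at h3
    rcases h3 with h3 | h3
    · exact hB.ch.xy 1 (4 - i) le_rfl (by omega) (by omega) (by omega) h3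
    · have := hB.ch.injx 1 (4 - i) le_rfl (by omega) (by omega) (by omega) h3
      omega
  have hl : ∀ i, 1 ≤ i → i ≤ 2 →
      lfn 3 (fun i => y (4 - i)) (fun i => x (4 - i)) 5 c i = 0 := by
    intro i i1 i2
    rcases hcase with ⟨rfl, -, o0⟩ | ⟨rfl, -, o6⟩
    · exact lfn_zero (outIn o0 i1 (by omega)) (outIn o1 i1 (by omega)) (outIn o5 i1 (by omega))
        (hg12 i i1 i2)
    · exact lfn_zero (hg12 i i1 i2) (outIn o1 i1 (by omega)) (outIn o5 i1 (by omega))
        (outIn o6 i1 (by omega))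
  have hl3 : lfn 3 (fun i => y (4 - i)) (fun i => x (4 - i)) 5 c 3 ≤ 1 := by
    have z1 : ∀ u, cw 3 (fun i => y (4 - i)) (fun i => x (4 - i)) 3 (c 1) u = 0 :=
      fun u => cw_zero (outIn o1 (by norm_num) le_rfl)
    have z5 : ∀ u, cw 3 (fun i => y (4 - i)) (fun i => x (4 - i)) 3 (c 5) u = 0 :=
      fun u => cw_zero (outIn o5 (by norm_num) le_rfl)
    unfold lfn
    rw [z1, z5]
    rcases hcase with ⟨rfl, -, o0⟩ | ⟨rfl, -, o6⟩
    · rw [cw_zero (outIn o0 (by norm_num) le_rfl)]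
      have := cw_out (i := 3) (v := c (5 + 1)) (outW o5)
      omega
    · rw [cw_zero (v := c (5 + 1)) (outIn o6 (by norm_num) le_rfl)]
      have := cw_out (i := 3) (v := c 0) (outW o1)
      omega
  set J : ℕ → Prop := fun j => InC 3 (fun i => y (4 - i)) (fun i => x (4 - i)) (c j) with hJ
  have n1 : ¬ J 1 := outW o1
  have n5 : ¬ J 5 := outW o5
  have hT : TB 5 J (fun j => f' (c j)) g 1 := by
    rcases hcase with ⟨rfl, -, o0⟩ | ⟨rfl, -, o6⟩
    · have n0 : ¬ J 0 := outW o0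
      exact TB.rev (by norm_num) (tb_leaf1 (D₀ := _) w.tight.rev (by norm_num) n5 n1 n0)
    · have n6 : ¬ J 6 := outW o6
      exact tb_leaf1 w.tight (by norm_num) n1 n5 n6
  obtain ⟨B, hBc, hB'⟩ := hT
  have := w.last (s := fun i => if i = 1 then 2 else if i = 2 then 6 else 3)
    (fun i i1 i2 => by
      have : i = 1 ∨ i = 2 ∨ i = 3 := by omega
      rcases this with rfl | rfl | rfl
      · rw [hl 1 le_rfl (by norm_num)]; simpa using s1
      · rw [hl 2 (by norm_num) le_rfl]; simpa using s2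
      · show (if 3 = 1 then 2 else if 3 = 2 then 6 else 3) ≤ _
        rw [if_neg (by norm_num), if_neg (by norm_num)]
        omega) le_rfl (by norm_num) (by intro i i1 i2; omega) (v := c g)
    (by
      right
      show c g = x (4 - 3)
      exact ea) (B := B) (fun mu D' hD' => hB' _ (fun j hj hn => lbl_out hn) D' hD')
  have e : nbc (6 + (fun i => if i = 1 then 2 else if i = 2 then 6 else 3) (3 - 1) - 8) +
      (fun i => if i = 1 then 2 else if i = 2 then 6 else 3) 3 - 8 = 2 := by decide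
  rw [e] at this
  omega

/-- Nearly closed patterns have three ports if there are at least three vertices. -/
lemma ncp3 {m : ℕ} {J : ℕ → Prop} (hm : 3 ≤ m) (h : NCp m J) : ∃ p q r, p ≤ m + 1 ∧ q ≤ m + 1 ∧
    r ≤ m + 1 ∧ p ≠ q ∧ q ≠ r ∧ p ≠ r ∧ J p ∧ J q ∧ J r := by
  rcases h with h | ⟨h0, h1, -, h2, -⟩ | ⟨h0, h1, -, h2, -⟩ | ⟨h0, h1, h2, -, -⟩ |
    ⟨-, ⟨h0, h1, h2⟩ | ⟨h0, h1, h2⟩⟩ | ⟨-, h0, h1, h2, -⟩
  · omega
  · rcases h2 with h2 | h2
    · exact ⟨0, 1, m, by omega, by omega, by omega, by omega, by omega, by omega, h0, h1, h2⟩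
    · exact ⟨0, 1, m + 1, by omega, by omega, by omega, by omega, by omega, by omega, h0, h1, h2⟩
  · rcases h2 with h2 | h2
    · exact ⟨m, m + 1, 0, by omega, by omega, by omega, by omega, by omega, by omega, h0, h1, h2⟩
    · exact ⟨m, m + 1, 1, by omega, by omega, by omega, by omega, by omega, by omega, h0, h1, h2⟩
  · exact ⟨0, 1, m, by omega, by omega, by omega, by omega, by omega, by omega, h0, h1, h2⟩
  · rcases h2 with h2 | h2
    · exact ⟨0, 1, m, by omega, by omega, by omega, by omega, by omega, by omega, h0, h1, h2⟩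
    · exact ⟨0, 1, m + 1, by omega, by omega, by omega, by omega, by omega, by omega, h0, h1, h2⟩
  · rcases h2 with h2 | h2
    · exact ⟨m, m + 1, 0, by omega, by omega, by omega, by omega, by omega, by omega, h0, h1, h2⟩
    · exact ⟨m, m + 1, 1, by omega, by omega, by omega, by omega, by omega, by omega, h0, h1, h2⟩
  · exact ⟨0, 1, m, by omega, by omega, by omega, by omega, by omega, by omega, h0, h1, h2⟩

lemma ncp2 {J : ℕ → Prop} (h : NCp 2 J) : ∃ p q, p ≤ 1 ∧ 2 ≤ q ∧ q ≤ 3 ∧ J p ∧ J q := by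
  have h' : (J 0 ∨ J 1) ∧ (J 2 ∨ J 3) := by
    rcases h with ⟨-, h0, h1⟩ | ⟨h0, h1, -, h2, -⟩ | ⟨h0, h1, -, h2, -⟩ | ⟨h0, h1, h2, -, -⟩ |
      ⟨h, -⟩ | ⟨h, -⟩
    · exact ⟨h0, h1⟩
    · exact ⟨Or.inl h0, h2⟩
    · exact ⟨h2, Or.inl h0⟩
    · exact ⟨Or.inl h0, Or.inl h2⟩
    · omega
    · omega
  obtain ⟨h0 | h0, h1 | h1⟩ := h'
  · exact ⟨0, 2, by norm_num, by norm_num, by norm_num, h0, h1⟩
  · exact ⟨0, 3, by norm_num, by norm_num, by norm_num, h0, h1⟩
  · exact ⟨1, 2, by norm_num, by norm_num, by norm_num, h0, h1⟩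
  · exact ⟨1, 3, by norm_num, by norm_num, by norm_num, h0, h1⟩

/-- A component whose ports in the window are single ports at two mates only. -/
lemma clean_mates (hG : ClassC H R) (hc : Crit H R) {m' : ℕ} {z' c' : ℕ → V}
    (hC : Cat H R m' z' c') {u v : V} (hme : Me H R u v) {P : V → Prop}
    (hP : ∀ l ≤ m' + 1, P (c' l) → c' l = u ∨ c' l = v)
    (hu : ∀ i j, i ≤ m' + 1 → j ≤ m' + 1 → c' i = u → c' j = u → i = j)
    (hv : ∀ i j, i ≤ m' + 1 → j ≤ m' + 1 → c' i = v → c' j = v → i = j) :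
    (m' = 1 → ∀ i j, i ≤ 2 → j ≤ 2 → P (c' i) → P (c' j) → i = j) ∧
    (2 ≤ m' → ¬ NCp m' (fun j => P (c' j))) := by
  constructor
  · rintro rfl i j hi hj h1 h2
    have hpos : ∀ l ≤ 1 + 1, pos 1 l = 1 := by intro l hl; unfold pos; split_ifs <;> omega
    rcases hP i hi h1 with e1 | e1 <;> rcases hP j hj h2 with e2 | e2
    · exact hu i j hi hj e1 e2
    · exact absurd ((hpos i hi).trans (hpos j hj).symm)
        (mates_dist hG hc hC hi hj (by rw [e1, e2]; exact hme)).2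
    · exact absurd ((hpos i hi).trans (hpos j hj).symm)
        (mates_dist hG hc hC hi hj (by rw [e1, e2]; exact hme.symm)).2
    · exact hv i j hi hj e1 e2
  · intro hm' hN
    by_cases h2 : m' = 2
    · subst h2
      obtain ⟨p, q, hp, hq, hq', h3, h4⟩ := ncp2 hN
      have pp : pos 2 p = 1 := by unfold pos; split_ifs <;> omega
      have pq : pos 2 q = 2 := by unfold pos; split_ifs <;> omega
      rcases hP p (by omega) h3 with e1 | e1 <;> rcases hP q (by omega) h4 with e2 | e2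
      · have := hu p q (by omega) (by omega) e1 e2; omega
      · have := (mates_dist hG hc hC (i := p) (j := q) (by omega) (by omega)
          (by rw [e1, e2]; exact hme)).1
        rw [pp, pq] at this; omega
      · have := (mates_dist hG hc hC (i := p) (j := q) (by omega) (by omega)
          (by rw [e1, e2]; exact hme.symm)).1
        rw [pp, pq] at this; omega
      · have := hv p q (by omega) (by omega) e1 e2; omega
    · obtain ⟨p, q, r, hp, hq, hr, n1, n2, n3, h3, h4, h5⟩ := ncp3 (by omega) hN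
      rcases hP p hp h3 with e1 | e1 <;> rcases hP q hq h4 with e2 | e2 <;>
        rcases hP r hr h5 with e3 | e3
      · exact n1 (hu p q hp hq e1 e2)
      · exact n1 (hu p q hp hq e1 e2)
      · exact n3 (hu p r hp hr e1 e3)
      · exact n2 (hv q r hq hr e2 e3)
      · exact n2 (hu q r hq hr e2 e3)
      · exact n3 (hv p r hp hr e1 e3)
      · exact n1 (hv p q hp hq e1 e2)
      · exact n1 (hv p q hp hq e1 e2)

/-- A vertex with a foreign port edge only once. -/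
lemma once (hG : ClassC H R) {m' : ℕ} {z' c' : ℕ → V} (hC : Cat H R m' z' c')
    (hne : cSupp m' z' ≠ cSupp 5 z) (hcat : Cat H R 5 z c) {v : V} (h1 : fp H R 5 z v ≤ 1) {i j : ℕ}
    (hi : i ≤ m' + 1) (hj : j ≤ m' + 1) (e1 : c' i = v) (e2 : c' j = v) : i = j := by
  have hn : ∀ l, 1 ≤ l → l ≤ m' → z' l ∉ cSupp 5 z := fun l l1 l2 hl =>
    hne (cSupp_eq hC hcat (mem_cSupp l1 l2) hl)
  have h2 := CLB.H80.see_card hC hn v
  have h3 : CLB.H80.fpE H R (cSupp 5 z) v = fp H R 5 z v := rfl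
  rw [h3] at h2
  have h4 := Finset.card_le_one.1 (h2.trans h1)
  exact h4 i (by rw [mem_filter, mem_range]; exact ⟨by omega, e1⟩) j
    (by rw [mem_filter, mem_range]; exact ⟨by omega, e2⟩)

/-- The left window of two units. -/
lemma wnL2 (hB : Base H R k x y) (hcat : Cat H R 5 z c) (hk : 3 ≤ k) {f : V → Q} {D : Ty}
    (hK : KTight H R 5 z c f D) {a : ℕ} (ha : a ≤ 6) (ea : c a = x 1)
    (hcl : CleanW H R 2 x y 5 z) :
    ∃ f', Wn H R 2 x y 5 z c f' D ∧ ∀ v, Cov H R v → f' v = f v := by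
  have eX : (fun i => x (1 - 1 + i)) = x := by funext i; simp
  have eY : (fun i => y (1 - 1 + i)) = y := by funext i; simp
  have hw := wn_of hB.hG hB.hc hcat (by norm_num) hB.ch ⟨hB.e1, hB.ek⟩ hK (a := 1) (b := 2)
    le_rfl (by norm_num) (by omega) ⟨a, by omega, 1, le_rfl, by norm_num, Or.inl ea⟩ (by
      rw [eX, eY]; exact hcl)
  rw [eX, eY] at hw
  exact hw

theorem w3 : W3Stmt := by
  intro V _ H R k x y z c hB h5 hk e2 o0 o3 o4 o6
  have hcat := h5.cat
  have hG := hB.hG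
  have e1 := h5.c1
  have e5 := h5.c5
  obtain ⟨f, D, hK⟩ := exists_ktight hB.hG hB.hc hcat (by norm_num)
  have lk1 : Lk H R (x 2) (y 1) := (hB.ch.lk 1 le_rfl (by omega)).symm
  have lk2 : Lk H R (y 2) (x (2 + 1)) := hB.ch.lk 2 (by omega) (by omega)
  have fx2 : fp H R 5 z (x 2) = 0 := by
    rw [← e1]; exact fp_own_lk hG hcat (by omega) (e1 ▸ lk1)
  have fy2 : fp H R 5 z (y 2) = 0 := by
    rw [← e5]; exact fp_own_lk hG hcat (by omega) (e5 ▸ lk2)
  have fx1 : fp H R 5 z (x 1) ≤ 1 := by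
    rw [← e2]; exact fp_own_cov hG hcat (by omega)
  have fy1 : fp H R 5 z (y 1) ≤ 1 := fp_lk hG (hB.ch.lk 1 le_rfl (by omega))
  have hcl : CleanW H R 2 x y 5 z := by
    intro m' z' c' hC hne hex
    refine clean_mates hG hB.hc hC (hB.ch.me 1 le_rfl (by omega)) (P := fun v => InC 2 x y v) ?_
      (fun i j hi hj a b => once hG hC hne hcat fx1 hi hj a b)
      (fun i j hi hj a b => once hG hC hne hcat fy1 hi hj a b)
    rintro l hl ⟨i, i1, i2, i3⟩
    have hi : i = 1 ∨ i = 2 := by omega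
    rcases hi with rfl | rfl
    · exact i3
    · exfalso
      rcases i3 with i3 | i3
      · exact hne (own_lk hG hcat hC lk1 (by norm_num) hl e1 i3)
      · exact hne (own_lk hG hcat hC lk2 (by norm_num) hl e5 i3)
  obtain ⟨f', w, hff⟩ := wnL2 hB hcat hk hK (a := 2) (by norm_num) e2 hcl
  -- the ports in the window
  have out : ∀ {j : ℕ}, OutU x y 2 (c j) → ¬ InC 2 x y (c j) := by
    rintro j h ⟨i, i1, i2, i3⟩
    obtain ⟨h1, h2⟩ := h i i1 i2
    rcases i3 with i3 | i3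
    · exact h1 i3
    · exact h2 i3
  have outI : ∀ {j i : ℕ}, OutU x y 2 (c j) → 1 ≤ i → i ≤ 2 → ¬ InU x y i (c j) :=
    fun h i1 i2 h3 => out h ⟨_, i1, i2, h3⟩
  have hJ : ∀ j ≤ 6, InC 2 x y (c j) → j = 2 ∨ j = 1 ∨ j = 5 := by
    intro j hj hin
    have : j = 0 ∨ j = 1 ∨ j = 2 ∨ j = 3 ∨ j = 4 ∨ j = 5 ∨ j = 6 := by omega
    rcases this with rfl | rfl | rfl | rfl | rfl | rfl | rfl
    · exact absurd hin (out o0)
    · omega
    · omega
    · exact absurd hin (out o3)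
    · exact absurd hin (out o4)
    · omega
    · exact absurd hin (out o6)
  have hne1 : ∀ {v : V}, (v = x 2 ∨ v = y 2) → ¬ InU x y 1 v := by
    rintro v (rfl | rfl) (h | h)
    · have := hB.ch.injx 2 1 (by omega) (by omega) le_rfl (by omega) h; omega
    · exact hB.ch.xy 2 1 (by omega) (by omega) le_rfl (by omega) h
    · exact hB.ch.xy 1 2 le_rfl (by omega) (by omega) (by omega) h.symm
    · have := hB.ch.injy 2 1 (by omega) (by omega) le_rfl (by omega) h; omega
  have hl1 : lfn 2 x y 5 c 1 = 0 :=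
    lfn_zero (outI o0 le_rfl (by norm_num)) (hne1 (Or.inl e1)) (hne1 (Or.inr e5))
      (outI o6 le_rfl (by norm_num))
  have hl2 : lfn 2 x y 5 c 2 ≤ 2 := by
    unfold lfn
    rw [cw_zero (v := c 0) (outI o0 (by norm_num) le_rfl),
      cw_zero (v := c (5 + 1)) (outI o6 (by norm_num) le_rfl)]
    have a1 := cw_out (i := 2) (v := c 1) (out o0)
    have a2 : cw 2 x y 2 (c 5) (c (5 + 1)) ≤ 1 := cw_out (i := 2) (v := c 5) (out o6)
    omega
  have hme : Me H R (x 2) (y 2) := hB.ch.me 2 (by omega) (by omega)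
  have hf : f' (c 5) = neg (f' (c 1)) := by
    rw [hff _ (hcat.cov 5 (by norm_num)), hff _ (hcat.cov 1 (by norm_num)), e5, e1]
    exact (fits_other hcat hK.ok).1 _ _ hme
  have := w.first2 (s := fun i => if i = 1 then 4 else 2)
    (fun i i1 i2 => by
      have hi : i = 1 ∨ i = 2 := by omega
      rcases hi with rfl | rfl
      · rw [hl1]
        show 4 ≤ 8 - 2 * (fp H R 5 z (x 1) + fp H R 5 z (y 1)) - wl H R x 1 - wr H R 2 y 1 - 0
        rw [wl_end hB.e1, wr_ne (by norm_num)]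
        omega
      · show 2 ≤ 8 - 2 * (fp H R 5 z (x 2) + fp H R 5 z (y 2)) - wl H R x 2 - wr H R 2 y 2 -
          lfn 2 x y 5 c 2
        rw [wl_ne (i := 2) (by norm_num), fx2, fy2]
        have := wr_le (G := H) (R := R) (r := 2) (Y := y) 2
        omega) (v := c 2) (Or.inl e2) (B := {f' (c 2)})
    (fun mu D' hD' => by
      rw [mem_singleton]
      refine tb_ll5 (J := fun j => InC 2 x y (c j)) (s₀ := fun j => f' (c j)) (e := 1) (e' := 5)
        (g := 2) (Or.inr rfl) (Or.inl rfl) w.tight hf (by norm_num) (by norm_num) (by norm_num) hJ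
        (fun j => lbl 2 x y mu f' (c j)) (fun j hj hn => lbl_out hn) ?_ D' hD'
      show lbl 2 x y mu f' (c 5) = neg (lbl 2 x y mu f' (c 1))
      rw [e5, e1, lbl_x w.ch (by norm_num) le_rfl, lbl_y w.ch (by norm_num) le_rfl])
  have e : (fun i => if i = 1 then 4 else 2) 1 + nbc ((fun i => if i = 1 then 4 else 2) 2) - 8 =
      2 := by decide
  rw [e] at this
  simp at this

lemma nr_both : ∀ a b : Q, nr a b = true → nr (neg b) a = true → False := by decide +kernel

theorem e1 : E1Stmt := by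
  intro V _ H R x y z c hB h5 e0 e2 o3 e4 e6
  have hcat := h5.cat
  have hG := hB.hG
  have e1 := h5.c1
  have e5 := h5.c5
  obtain ⟨f, D, hK⟩ := exists_ktight hB.hG hB.hc hcat (by norm_num)
  have lk1 : Lk H R (x 2) (y 1) := (hB.ch.lk 1 le_rfl (by omega)).symm
  have lk2 : Lk H R (y 2) (x (2 + 1)) := hB.ch.lk 2 (by omega) (by omega)
  have fx2 : fp H R 5 z (x 2) = 0 := by
    rw [← e2]; exact fp_own_lk hG hcat (by omega) (e2 ▸ lk1)
  have fy2 : fp H R 5 z (y 2) ≤ 1 := fp_lk hG lk2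
  have fx1 : fp H R 5 z (x 1) ≤ 1 := by
    rw [← e0]; exact fp_own_cov hG hcat (by omega)
  have fy1 : fp H R 5 z (y 1) ≤ 1 := fp_lk hG (hB.ch.lk 1 le_rfl (by omega))
  have hcl : CleanW H R 2 x y 5 z := by
    intro m' z' c' hC hne hex
    have hown : 2 * 2 ≤ 4 + ((range (5 + 2)).filter (fun j => InC 2 x y (c j))).card := by omega
    obtain ⟨h1, h2⟩ := CLB.H80.clean_end' hG hB.hc hB.ch ⟨hB.e1, hB.ek⟩ hcat
      (show 2 < 5 by omega) (Or.inl ⟨by norm_num, le_rfl⟩) hown hC hne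
    refine ⟨h1, fun hm' => ?_⟩
    have key : ∀ l ≤ m' + 1, c' l ≠ x 2 := fun l hl e =>
      hne (own_lk hG hcat hC lk1 (by norm_num) hl e2 e)
    rcases h2 hm' with h3 | h3 | h3
    · exfalso
      obtain ⟨rfl, p, q, hp, hq, -, -, h4 | h4⟩ := h3
      · exact key q (by omega) h4.2
      · exact key p (by omega) h4.1
    · exact absurd h3.2.1 (by norm_num)
    · exact h3
  obtain ⟨f', w, hff⟩ := wnL2 hB hcat (by norm_num) hK (a := 0) (by norm_num) e0 hcl
  -- outside the window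
  have far : ∀ i, 3 ≤ i → i ≤ 5 → ¬ InC 2 x y (x i) ∧ ¬ InC 2 x y (y i) := by
    intro i i1 i2
    obtain ⟨a, b⟩ := outU_far hB.ch (n := 2) (show 2 < i by omega) i2
    refine ⟨?_, ?_⟩
    · rintro ⟨u, u1, u2, u3 | u3⟩
      · exact (a u u1 u2).1 u3
      · exact (a u u1 u2).2 u3
    · rintro ⟨u, u1, u2, u3 | u3⟩
      · exact (b u u1 u2).1 u3
      · exact (b u u1 u2).2 u3
  have hme : Me H R (x 3) (y 3) := hB.ch.me 3 (by omega) (by omega)
  have hf : f' (y 3) = neg (f' (x 3)) := by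
    have h1 := hff _ (hcat.cov 5 (by norm_num))
    have h2 := hff _ (hcat.cov 1 (by norm_num))
    rw [e5] at h1
    rw [e1] at h2
    rw [h1, h2]
    exact (fits_other hcat hK.ok).1 _ _ hme
  obtain ⟨F, hd, hF, hKF⟩ := win_forb w.hG w.hc w.cat w.ch w.ncyc w.off w.clean
  have hA : HG 2 (fun i g => wall H R 2 x y f' i \ F i g) (wsz H R 2 x y 5 z) := by
    refine ⟨?_, ?_⟩
    · intro i h1 h2 g g' hs
      show _ \ F i g = _ \ F i g'
      rw [hd i h1 h2 g g' hs]
    · intro i h1 h2 g g'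
      have e1 : wall H R 2 x y f' i \ (F i g ∪ F i g') ⊆
          (wall H R 2 x y f' i \ F i g) ∩ (wall H R 2 x y f' i \ F i g') := by
        intro t ht
        simp only [mem_sdiff, mem_inter, mem_union, not_or] at ht ⊢
        exact ⟨⟨ht.1, ht.2.1⟩, ht.1, ht.2.2⟩
      have e2 := Finset.card_le_card e1
      have e3 := Finset.le_card_sdiff (F i g ∪ F i g') (wall H R 2 x y f' i)
      have e4 := hF i g g'
      have e7 := wall_card (r := 2) (X := x) (Y := y) (f := f') hG i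
      unfold wsz
      omega
  have hs : HG 2 (fun i g => wall H R 2 x y f' i \ F i g) (fun i => if i = 1 then 4 else 2) := by
    refine hA.mono fun i i1 i2 => ?_
    have hi : i = 1 ∨ i = 2 := by omega
    rcases hi with rfl | rfl
    · show 4 ≤ 8 - 2 * (fp H R 5 z (x 1) + fp H R 5 z (y 1)) - wl H R x 1 - wr H R 2 y 1
      rw [wl_end hB.e1, wr_ne (by norm_num)]
      omega
    · show 2 ≤ 8 - 2 * (fp H R 5 z (x 2) + fp H R 5 z (y 2)) - wl H R x 2 - wr H R 2 y 2
      rw [wl_ne (i := 2) (by norm_num), fx2]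
      have := wr_le (G := H) (R := R) (r := 2) (Y := y) 2
      omega
  obtain ⟨T, hT1, hT2⟩ := (game_two hs).2
  have hB' : ∀ mu, HW 2 (fun i g => wall H R 2 x y f' i \ F i g) mu →
      lbl 2 x y mu f' (x 1) ∈ ({f' (c 6)} : Finset Q) := by
    intro mu hmu
    have hm1 : ∀ i, 1 ≤ i → i ≤ 2 → mu i ∈ wall H R 2 x y f' i ∧ mu i ∉ F i mu := fun i i1 i2 =>
      mem_sdiff.1 (hmu.mem i i1 i2)
    have hno := hKF mu hmu.nwk (fun i i1 i2 => (hm1 i i1 i2).2) (fun i i1 i2 => (hm1 i i1 i2).1)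
    have s0 : lbl 2 x y mu f' (c 0) = neg (mu 1) := by
      rw [e0, lbl_x w.ch le_rfl (by norm_num), sg_odd (by norm_num)]
    have s1 : lbl 2 x y mu f' (c 1) = f' (x 3) := by
      rw [e1, lbl_out (far 3 (by norm_num) (by norm_num)).1]
    have s5 : lbl 2 x y mu f' (c 5) = f' (y 3) := by
      rw [e5, lbl_out (far 3 (by norm_num) (by norm_num)).2]
    have s6 : lbl 2 x y mu f' (c 6) = f' (c 6) := by
      rw [lbl_out]
      rw [e6]
      exact (far 5 (by norm_num) (by norm_num)).2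
    have n0 : lbl 2 x y mu f' (c 0) ≠ neg (lbl 2 x y mu f' (c 1)) := by
      rw [s0, s1]
      intro he
      have he' : mu 1 = f' (x 3) := H3DA.neg_inj he
      have hw := (hm1 2 (by norm_num) le_rfl).1
      unfold wall at hw
      rw [mem_inter, mem_filter, mem_filter] at hw
      have h7 := hw.2.2 rfl _ lk2
      rw [sg_even (by norm_num)] at h7
      have h8 := hmu.nwk 1 le_rfl (by norm_num)
      rw [he'] at h8
      exact nr_both _ _ h8 h7
    have nm : lbl 2 x y mu f' (c 5) ≠ neg (lbl 2 x y mu f' (c (5 + 1))) := by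
      have := (frk_ne _ _ _ w.tight.2.2).2
      show lbl 2 x y mu f' (c 5) ≠ neg (lbl 2 x y mu f' (c 6))
      rw [s5, s6, ← e5]
      exact this
    have hex : ∃ D', Tight D' (fun j => lbl 2 x y mu f' (c j)) 5 := by
      by_contra hcon
      push Not at hcon
      exact hno ((cext_iff (by norm_num)).2 ⟨n0, nm, hcon⟩)
    obtain ⟨D', hD'⟩ := hex
    have h9 := (ll5' (e := 1) (e' := 5) (Or.inr rfl) (Or.inl rfl) hD' (by
      show lbl 2 x y mu f' (c 5) = neg (lbl 2 x y mu f' (c 1))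
      rw [s5, s1]; exact hf)).1
    have h10 : lbl 2 x y mu f' (c 0) = lbl 2 x y mu f' (c 6) := h9
    rw [mem_singleton, ← e0, h10, s6]
  have h11 := hT1.trans (target_card w.ch le_rfl (by norm_num) (Or.inl rfl) hT2 (f := f') hB')
  have e : (fun i => if i = 1 then 4 else 2) 1 + nbc ((fun i => if i = 1 then 4 else 2) 2) - 8 =
      2 := by decide
  rw [e] at h11
  simp at h11

end CLB.H3
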