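import Pool.Agent.Helper3_DA.Lab

/-!
Minimal counterexamples for the labelling problem. `H` is the graph of the edges whose ends must get labels
at distance at most 1 (it is bipartite with sides `R`), `M` is a matching whose ends must get antipodal labels.
-/

set_option autoImplicit false

namespace H3DA

variable {V : Type*}

/-- The vertex is covered by the matching. -/
def Cov (M : SimpleGraph V) (v : V) : Prop := ∃ m, M.Adj v m

/-- A labelling of the part of the graph outside `S`. -/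
def Off (H M : SimpleGraph V) (S : V → Prop) (f : V → Q) : Prop :=
  (∀ u v, ¬ S u → ¬ S v → H.Adj u v → nr (f u) (f v) = true) ∧
  (∀ u v, ¬ S u → ¬ S v → M.Adj u v → f v = neg (f u))

/-- A full labelling. -/
def Lab (H M : SimpleGraph V) (f : V → Q) : Prop :=
  (∀ u v, H.Adj u v → nr (f u) (f v) = true) ∧ (∀ u v, M.Adj u v → f v = neg (f u))

/-- The basic conditions (all of them are inherited by subgraphs). -/
structure Adm (H M : SimpleGraph V) (R : V → Bool) : Prop where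
  hR : ∀ u v, H.Adj u v → R u ≠ R v
  mR : ∀ u v, M.Adj u v → R u = R v
  mm : ∀ u v w, M.Adj u v → M.Adj u w → v = w
  tri : ∀ u v w, M.Adj u v → H.Adj u w → ¬ H.Adj v w
  d3 : ∀ v c, H.Adj v c → ∃ w1 w2, ∀ w, H.Adj v w → w ≠ c → w = w1 ∨ w = w2
  d2 : ∀ v m c, M.Adj v m → H.Adj v c → ∃ w1, ∀ w, H.Adj v w → w ≠ c → w = w1
  lf : ∀ u v, H.Adj u v → Cov M u → ¬ Cov M v

lemma Adm.mono {H M H' M' : SimpleGraph V} {R : V → Bool} (h : Adm H M R) (hH : H' ≤ H) (hM : M' ≤ M) :
    Adm H' M' R where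
  hR u v huv := h.hR u v (hH huv)
  mR u v huv := h.mR u v (hM huv)
  mm u v w h1 h2 := h.mm u v w (hM h1) (hM h2)
  tri u v w h1 h2 h3 := h.tri u v w (hM h1) (hH h2) (hH h3)
  d3 v c hvc := by
    obtain ⟨w1, w2, hw⟩ := h.d3 v c (hH hvc)
    exact ⟨w1, w2, fun w h1 h2 => hw w (hH h1) h2⟩
  d2 v m c hvm hvc := by
    obtain ⟨w1, hw⟩ := h.d2 v m c (hM hvm) (hH hvc)
    exact ⟨w1, fun w h1 h2 => hw w (hH h1) h2⟩
  lf u v huv hu hv := by
    refine h.lf u v (hH huv) ?_ ?_
    · obtain ⟨m, hm⟩ := hu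
      exact ⟨m, hM hm⟩
    · obtain ⟨m, hm⟩ := hv
      exact ⟨m, hM hm⟩

/-- A minimal counterexample. -/
structure MinBad (H M : SimpleGraph V) (R : V → Bool) : Prop extends Adm H M R where
  bad : ∀ f, ¬ Lab H M f
  delH : ∀ x p, H.Adj x p → ∃ f : V → Q,
    (∀ u v, H.Adj u v → ¬ (u = x ∧ v = p) → ¬ (u = p ∧ v = x) → nr (f u) (f v) = true) ∧
    (∀ u v, M.Adj u v → f v = neg (f u))
  delM : ∀ a b, M.Adj a b → ∃ f : V → Q, (∀ u v, H.Adj u v → nr (f u) (f v) = true) ∧
    (∀ u v, M.Adj u v → ¬ (u = a ∧ v = b) → ¬ (u = b ∧ v = a) → f v = neg (f u))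

lemma exists_minBad [Finite V] {H M : SimpleGraph V} {R : V → Bool} (h : Adm H M R)
    (hb : ∀ f, ¬ Lab H M f) : ∃ H' M' : SimpleGraph V, MinBad H' M' R := by
  classical
  let P : SimpleGraph V × SimpleGraph V → Prop := fun X => Adm X.1 X.2 R ∧ ∀ f, ¬ Lab X.1 X.2 f
  have hwf : WellFounded ((· < ·) : SimpleGraph V × SimpleGraph V → SimpleGraph V × SimpleGraph V → Prop) :=
    wellFounded_lt
  obtain ⟨⟨H1, M1⟩, hP, hmin⟩ := hwf.has_min {X | P X} ⟨(H, M), h, hb⟩
  refine ⟨H1, M1, { toAdm := hP.1, bad := hP.2, delH := ?_, delM := ?_ }⟩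
  · intro x p hxp
    have hlt : (H1.deleteEdges {s(x, p)}, M1) < (H1, M1) := by
      refine lt_of_le_of_ne ⟨SimpleGraph.deleteEdges_le _, le_rfl⟩ ?_
      intro he
      have h1 := congrArg Prod.fst he
      simp only at h1
      have h2 : (H1.deleteEdges {s(x, p)}).Adj x p := by rw [h1]; exact hxp
      rw [SimpleGraph.deleteEdges_adj] at h2
      exact h2.2 (by simp)
    have h1 := hmin (H1.deleteEdges {s(x, p)}, M1)
    by_contra hcon
    push Not at hcon
    refine h1 ⟨hP.1.mono (SimpleGraph.deleteEdges_le _) le_rfl, ?_⟩ hlt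
    intro f hf
    obtain ⟨u, v, h3, h4⟩ := hcon f (by
      intro u v huv h1 h2
      apply hf.1
      rw [SimpleGraph.deleteEdges_adj]
      refine ⟨huv, ?_⟩
      rw [Set.mem_singleton_iff, Sym2.eq_iff]
      rintro (h | h)
      · exact h1 h.1 h.2
      · exact h2 h.1 h.2)
    exact h4 (hf.2 u v h3)
  · intro a b hab
    have hlt : (H1, M1.deleteEdges {s(a, b)}) < (H1, M1) := by
      refine lt_of_le_of_ne ⟨le_rfl, SimpleGraph.deleteEdges_le _⟩ ?_
      intro he
      have h1 := congrArg Prod.snd he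
      simp only at h1
      have h2 : (M1.deleteEdges {s(a, b)}).Adj a b := by rw [h1]; exact hab
      rw [SimpleGraph.deleteEdges_adj] at h2
      exact h2.2 (by simp)
    have h1 := hmin (H1, M1.deleteEdges {s(a, b)})
    by_contra hcon
    push Not at hcon
    refine h1 ⟨hP.1.mono le_rfl (SimpleGraph.deleteEdges_le _), ?_⟩ hlt
    intro f hf
    obtain ⟨u, v, h3, h4, h5, h6⟩ := hcon f hf.1
    apply h6
    apply hf.2
    rw [SimpleGraph.deleteEdges_adj]
    refine ⟨h3, ?_⟩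
    rw [Set.mem_singleton_iff, Sym2.eq_iff]
    rintro (h | h)
    · exact h4 h.1 h.2
    · exact h5 h.1 h.2

end H3DA
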