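import Pool.Agent.Helper3_DA.Path

/-!
Extension of labels to a path of uncovered vertices: option sets from the left and from the right, costs of
the ports, local conditions in the tight case, and the gluing theorem.
-/

set_option autoImplicit false
set_option linter.unusedSectionVars false

namespace CLB.H3

open Finset
open H3DA (Q neg nr)
open CLB.H95

/-- The labels which are not near any element of a set. -/
def far (L : Finset Q) : Finset Q := univ.filter (fun y => ∀ x ∈ L, nr x y = false)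

lemma mem_far {L : Finset Q} {y : Q} : y ∈ far L ↔ ∀ x ∈ L, nr x y = false := by
  unfold far; simp

lemma far_eq (L : Finset Q) : far L = (nb L)ᶜ := by
  ext y
  rw [mem_far, mem_compl, mem_nb]
  push Not
  exact forall₂_congr fun x _ => by rw [ne_eq, Bool.not_eq_true]

lemma far_card {L : Finset Q} (h : 2 ≤ L.card) : (far L).card ≤ 2 := by
  have h1 := nb_card2 h
  rw [far_eq, Finset.card_compl, H3DA.card_Q]
  omega

lemma far_card3 {L : Finset Q} (h : 3 ≤ L.card) : (far L).card ≤ 1 := by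
  have h1 := nb_card3 h
  rw [far_eq, Finset.card_compl, H3DA.card_Q]
  omega

lemma ball_inj : ∀ x y : Q, ball x = ball y → x = y := by decide

lemma inter_inj : ∀ c x y : Q, (ball c ∩ ball x).card = 2 → ball c ∩ ball x = ball c ∩ ball y → x = y := by
  decide

/-- Addition of labels. -/
def xo (x y : Q) : Q := (xor x.1 y.1, xor x.2.1 y.2.1, xor x.2.2 y.2.2)

lemma xo_comm : ∀ x y : Q, xo x y = xo y x := by decide
lemma xo_xo : ∀ x y : Q, xo x (xo x y) = y := by decide
lemma xo_neg : ∀ x y : Q, xo x (neg y) = neg (xo x y) := by decide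
lemma neg_xo : ∀ x y : Q, xo (neg x) y = neg (xo x y) := by decide

/-- The pair with a given difference. -/
def pr (x d : Q) : Finset Q := {x, xo x d}

lemma pr_fork : ∀ x y : Q, (ball x ∩ ball y).card = 2 → ∃ z, ball x ∩ ball y = pr z (xo x y) := by
  decide

lemma pr_far (x d : Q) (h1 : (pr x d).card = 2) (h2 : (far (pr x d)).card = 2) :
    ∃ z, far (pr x d) = pr z d := by
  have key : ∀ x d : Q, ((pr x d).card = 2 ∧ (far (pr x d)).card = 2) → ∃ z, far (pr x d) = pr z d := by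
    decide
  exact key x d ⟨h1, h2⟩

lemma pr_compl (c x d : Q) (h1 : (pr x d).card = 2) (h2 : pr x d ⊆ ball c) :
    ∃ z, ball c \ pr x d = pr z (neg d) := by
  have key : ∀ c x d : Q, ((pr x d).card = 2 ∧ (pr x d \ ball c).card = 0) →
      ∃ z, ball c \ pr x d = pr z (neg d) := by
    decide
  refine key c x d ⟨h1, ?_⟩
  rw [Finset.card_eq_zero, Finset.sdiff_eq_empty_iff_subset]
  exact h2

lemma pr_diff {x y d d' : Q} (h : pr x d = pr y d') (hc : (pr x d).card = 2) : d = d' := by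
  have key : ∀ x y d : Q, (pr x d).card = 2 → y ∈ pr x d → ∀ w ∈ pr x d, w ≠ y → w = xo y d := by decide
  have hy : y ∈ pr x d := by rw [h]; simp [pr]
  have hw : xo y d' ∈ pr x d := by rw [h]; simp [pr]
  have hne : xo y d' ≠ y := by
    intro he
    rw [h] at hc
    unfold pr at hc
    rw [he] at hc
    simp at hc
  have h1 := key x y d hc hy _ hw hne
  have h2 := congrArg (xo y) h1
  rw [xo_xo, xo_xo] at h2
  exact h2.symm

lemma mem_pr_xo : ∀ x z d : Q, x ∈ pr z d → xo x d ∈ pr z d := by decide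

open Classical

/-- Labels of the path exist: `ρ i` is the label of the port at `i`, `a` and `b` are the labels of the
second ports of the ends. -/
def PExt (m : ℕ) (ρ : ℕ → Q) (a b : Q) : Prop :=
  ∃ w : ℕ → Q, (∀ i ≤ m, nr (w i) (ρ i) = true) ∧ nr (w 0) a = true ∧ nr (w m) b = true ∧
    ∀ i < m, nr (w i) (w (i + 1)) = true

lemma PExt.rev {m : ℕ} {ρ : ℕ → Q} {a b : Q} (h : PExt m ρ a b) :
    PExt m (fun i => ρ (m - i)) b a := by
  obtain ⟨w, h1, h2, h3, h4⟩ := h
  refine ⟨fun i => w (m - i), fun i _ => h1 (m - i) (by omega), h3, by simpa using h2, fun i hi => ?_⟩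
  have e : m - i = m - (i + 1) + 1 := by omega
  show nr (w (m - i)) (w (m - (i + 1))) = true
  rw [e]
  exact nr_symm (h4 (m - (i + 1)) (by omega))

lemma PExt.congr {m : ℕ} {ρ ρ' : ℕ → Q} {a b : Q} (h : PExt m ρ a b) (he : ∀ i ≤ m, ρ i = ρ' i) :
    PExt m ρ' a b := by
  obtain ⟨w, h1, h2, h3, h4⟩ := h
  exact ⟨w, fun i hi => by rw [← he i hi]; exact h1 i hi, h2, h3, h4⟩

lemma PExt_rev_iff {m : ℕ} {ρ : ℕ → Q} {a b : Q} :
    PExt m (fun i => ρ (m - i)) b a ↔ PExt m ρ a b := by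
  constructor
  · intro h
    refine h.rev.congr (fun i hi => ?_)
    have e : m - (m - i) = i := by omega
    simp only [e]
  · exact PExt.rev

/-- Exchange of the two ports of the left end (for `1 ≤ m`). -/
lemma PExt.swapL {m : ℕ} {ρ : ℕ → Q} {a b : Q} (hm : 1 ≤ m) (h : PExt m ρ a b) :
    PExt m (Function.update ρ 0 a) (ρ 0) b := by
  obtain ⟨w, h1, h2, h3, h4⟩ := h
  refine ⟨w, fun i hi => ?_, h1 0 (by omega), h3, h4⟩
  by_cases h : i = 0
  · subst h; rw [Function.update_self]; exact h2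
  · rw [Function.update_of_ne h]; exact h1 i hi

/-- Options from the left. -/
def LS (ρ : ℕ → Q) (a : Q) : ℕ → Finset Q
  | 0 => ball (ρ 0) ∩ ball a
  | i + 1 => nb (LS ρ a i) ∩ ball (ρ (i + 1))

/-- Options from the right. -/
def RS (m : ℕ) (ρ : ℕ → Q) (b : Q) (i : ℕ) : Finset Q := LS (fun j => ρ (m - j)) b (m - i)

lemma LS_congr {ρ ρ' : ℕ → Q} {a : Q} {i : ℕ} (h : ∀ j ≤ i, ρ j = ρ' j) : LS ρ a i = LS ρ' a i := by
  induction i with
  | zero => simp only [LS, h 0 (le_refl 0)]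
  | succ i ih =>
    simp only [LS, h (i + 1) (le_refl _)]
    rw [ih (fun j hj => h j (by omega))]

lemma RS_congr {m : ℕ} {ρ ρ' : ℕ → Q} {b : Q} {i : ℕ} (hi : i ≤ m) (h : ∀ j, i ≤ j → j ≤ m → ρ j = ρ' j) :
    RS m ρ b i = RS m ρ' b i := by
  unfold RS
  exact LS_congr (fun j hj => h (m - j) (by omega) (by omega))

lemma RS_last {m : ℕ} {ρ : ℕ → Q} {b : Q} : RS m ρ b m = ball (ρ m) ∩ ball b := by
  unfold RS
  simp [LS]

lemma RS_step {m : ℕ} {ρ : ℕ → Q} {b : Q} {i : ℕ} (hi : i < m) :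
    RS m ρ b i = nb (RS m ρ b (i + 1)) ∩ ball (ρ i) := by
  unfold RS
  have e : m - i = m - (i + 1) + 1 := by omega
  have e' : m - (m - (i + 1) + 1) = i := by omega
  rw [e]
  simp only [LS, e']

/-- Labels from the left up to `i`. -/
lemma mem_LS {ρ : ℕ → Q} {a : Q} {i : ℕ} {x : Q} : x ∈ LS ρ a i ↔
    ∃ w : ℕ → Q, (∀ j ≤ i, nr (w j) (ρ j) = true) ∧ nr (w 0) a = true ∧ w i = x ∧
      ∀ j < i, nr (w j) (w (j + 1)) = true := by
  induction i generalizing x with
  | zero =>
    simp only [LS, mem_inter, mem_ball]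
    constructor
    · intro h
      exact ⟨fun _ => x, fun j hj => by rw [Nat.le_zero.1 hj]; exact nr_symm h.1, nr_symm h.2, rfl,
        fun j hj => by omega⟩
    · rintro ⟨w, h1, h2, h3, -⟩
      rw [← h3]
      exact ⟨nr_symm (h1 0 (le_refl 0)), nr_symm h2⟩
  | succ i ih =>
    simp only [LS, mem_inter, mem_ball, mem_nb]
    constructor
    · rintro ⟨⟨y, hy, hyx⟩, hx⟩
      obtain ⟨w, h1, h2, h3, h4⟩ := ih.1 hy
      refine ⟨fun j => if j ≤ i then w j else x, ?_, ?_, ?_, ?_⟩
      · intro j hj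
        by_cases h : j ≤ i
        · simp only [h, if_true]; exact h1 j h
        · have : j = i + 1 := by omega
          subst this
          simp only [h, if_false]; exact nr_symm hx
      · simpa using h2
      · have : ¬ (i + 1 ≤ i) := by omega
        simp only [this, if_false]
      · intro j hj
        by_cases h : j + 1 ≤ i
        · have h' : j ≤ i := by omega
          simp only [h, h', if_true]; exact h4 j (by omega)
        · have : j = i := by omega
          subst this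
          simp only [h, if_false, le_refl, if_true, h3]; exact hyx
    · rintro ⟨w, h1, h2, h3, h4⟩
      refine ⟨⟨w i, ih.2 ⟨w, fun j hj => h1 j (by omega), h2, rfl, fun j hj => h4 j (by omega)⟩, ?_⟩, ?_⟩
      · rw [← h3]; exact h4 i (by omega)
      · rw [← h3]; exact nr_symm (h1 (i + 1) (le_refl _))

/-- Labels from the right down to `i`. -/
lemma mem_RS {m : ℕ} {ρ : ℕ → Q} {b : Q} {i : ℕ} (hi : i ≤ m) {x : Q} : x ∈ RS m ρ b i ↔
    ∃ w : ℕ → Q, (∀ j, i ≤ j → j ≤ m → nr (w j) (ρ j) = true) ∧ nr (w m) b = true ∧ w i = x ∧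
      ∀ j, i ≤ j → j < m → nr (w j) (w (j + 1)) = true := by
  unfold RS
  rw [mem_LS]
  constructor
  · rintro ⟨w, h1, h2, h3, h4⟩
    refine ⟨fun j => w (m - j), fun j hj hjm => ?_, by simpa using h2, h3, fun j hj hjm => ?_⟩
    · have := h1 (m - j) (by omega)
      have e : m - (m - j) = j := by omega
      rwa [e] at this
    · have := h4 (m - (j + 1)) (by omega)
      have e : m - (j + 1) + 1 = m - j := by omega
      rw [e] at this
      exact nr_symm this
  · rintro ⟨w, h1, h2, h3, h4⟩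
    refine ⟨fun j => w (m - j), fun j hj => h1 (m - j) (by omega) (by omega), by simpa using h2, ?_,
      fun j hj => ?_⟩
    · have e : m - (m - i) = i := by omega
      simp only [e]; exact h3
    · have := h4 (m - (j + 1)) (by omega) (by omega)
      have e : m - (j + 1) + 1 = m - j := by omega
      rw [e] at this
      exact nr_symm this

/-- Splitting at an edge. -/
theorem PExt_iff_edge {m : ℕ} {ρ : ℕ → Q} {a b : Q} {i : ℕ} (hi : i < m) :
    PExt m ρ a b ↔ ∃ x ∈ LS ρ a i, ∃ y ∈ RS m ρ b (i + 1), nr x y = true := by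
  constructor
  · rintro ⟨w, h1, h2, h3, h4⟩
    refine ⟨w i, mem_LS.2 ⟨w, fun j hj => h1 j (by omega), h2, rfl, fun j hj => h4 j (by omega)⟩,
      w (i + 1), (mem_RS (by omega)).2 ⟨w, fun j _ hj => h1 j hj, h3, rfl, fun j _ hj => h4 j hj⟩,
      h4 i hi⟩
  · rintro ⟨x, hx, y, hy, hxy⟩
    obtain ⟨w, h1, h2, h3, h4⟩ := mem_LS.1 hx
    obtain ⟨w', h1', h2', h3', h4'⟩ := (mem_RS (by omega)).1 hy
    refine ⟨fun j => if j ≤ i then w j else w' j, ?_, ?_, ?_, ?_⟩
    · intro j hj
      by_cases h : j ≤ i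
      · simp only [h, if_true]; exact h1 j h
      · simp only [h, if_false]; exact h1' j (by omega) hj
    · simpa using h2
    · have h : ¬ (m ≤ i) := by omega
      simp only [h, if_false]; exact h2'
    · intro j hj
      by_cases h : j + 1 ≤ i
      · have h' : j ≤ i := by omega
        simp only [h, h', if_true]; exact h4 j (by omega)
      · by_cases h'' : j = i
        · subst h''
          simp only [h, if_false, le_refl, if_true, h3, h3']; exact hxy
        · have h' : ¬ (j ≤ i) := by omega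
          simp only [h, h', if_false]; exact h4' j (by omega) hj

/-- Splitting at an inner vertex. -/
theorem PExt_iff_mid {m : ℕ} {ρ : ℕ → Q} {a b : Q} {i : ℕ} (hi : i + 1 < m) :
    PExt m ρ a b ↔ ∃ y ∈ ball (ρ (i + 1)), y ∈ nb (LS ρ a i) ∧ y ∈ nb (RS m ρ b (i + 2)) := by
  rw [PExt_iff_edge (show i < m by omega), RS_step hi]
  constructor
  · rintro ⟨x, hx, y, hy, hxy⟩
    rw [mem_inter] at hy
    exact ⟨y, hy.2, mem_nb.2 ⟨x, hx, hxy⟩, hy.1⟩
  · rintro ⟨y, hy1, hy2, hy3⟩
    obtain ⟨x, hx, hxy⟩ := mem_nb.1 hy2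
    exact ⟨x, hx, y, mem_inter.2 ⟨hy3, hy1⟩, hxy⟩

/-- Splitting at the left end. -/
theorem PExt_iff_left {m : ℕ} {ρ : ℕ → Q} {a b : Q} (hm : 1 ≤ m) :
    PExt m ρ a b ↔ ∃ y ∈ ball (ρ 0) ∩ ball a, y ∈ nb (RS m ρ b 1) := by
  rw [PExt_iff_edge (show 0 < m by omega)]
  simp only [LS]
  constructor
  · rintro ⟨x, hx, y, hy, hxy⟩
    exact ⟨x, hx, mem_nb.2 ⟨y, hy, nr_symm hxy⟩⟩
  · rintro ⟨x, hx, hy⟩
    obtain ⟨y, hy1, hy2⟩ := mem_nb.1 hy
    exact ⟨x, hx, y, hy1, nr_symm hy2⟩

lemma inter_card_ge (A B : Finset Q) : A.card + B.card ≤ (A ∩ B).card + 8 := by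
  have h1 := Finset.card_union_add_card_inter A B
  have h2 : (A ∪ B).card ≤ 8 := by rw [← card_univ_Q]; exact Finset.card_le_card (subset_univ _)
  omega

lemma LS_card {ρ : ℕ → Q} {a : Q} (h : ρ 0 ≠ neg a) (i : ℕ) : 2 ≤ (LS ρ a i).card := by
  induction i with
  | zero => exact ball_inter_card _ _ h
  | succ i ih =>
    have h1 := nb_card2 ih
    have h2 := ball_card (ρ (i + 1))
    have h3 := inter_card_ge (nb (LS ρ a i)) (ball (ρ (i + 1)))
    simp only [LS]
    omega

lemma RS_card {m : ℕ} {ρ : ℕ → Q} {b : Q} (h : ρ m ≠ neg b) (i : ℕ) : 2 ≤ (RS m ρ b i).card := by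
  unfold RS
  exact LS_card (by simpa using h) _

/-- The structure of the tight case at an edge. -/
theorem tight_edge {m : ℕ} {ρ : ℕ → Q} {a b : Q} (h : ¬ PExt m ρ a b) (ha : ρ 0 ≠ neg a)
    (hb : ρ m ≠ neg b) {i : ℕ} (hi : i < m) : (LS ρ a i).card = 2 ∧ (RS m ρ b (i + 1)).card = 2 ∧
      RS m ρ b (i + 1) = far (LS ρ a i) ∧ LS ρ a i = far (RS m ρ b (i + 1)) := by
  rw [PExt_iff_edge hi] at h
  push Not at h
  have h1 : RS m ρ b (i + 1) ⊆ far (LS ρ a i) := fun y hy => mem_far.2 fun x hx => by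
    have := h x hx y hy
    rwa [ne_eq, Bool.not_eq_true] at this
  have h2 : LS ρ a i ⊆ far (RS m ρ b (i + 1)) := fun x hx => mem_far.2 fun y hy => by
    have := h x hx y hy
    rw [ne_eq, Bool.not_eq_true] at this
    rw [H3DA.nr_comm]; exact this
  have c1 := LS_card ha i
  have c2 := RS_card (m := m) hb (i + 1)
  have c3 := far_card c1
  have c4 := far_card c2
  have c5 := Finset.card_le_card h1
  have c6 := Finset.card_le_card h2
  refine ⟨by omega, by omega, Finset.eq_of_subset_of_card_le h1 (by omega),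
    Finset.eq_of_subset_of_card_le h2 (by omega)⟩

/-- The structure of the tight case at an inner vertex: the ball around the label of the port is the
disjoint union of the two option sets. -/
theorem tight_mid {m : ℕ} {ρ : ℕ → Q} {a b : Q} (h : ¬ PExt m ρ a b) (ha : ρ 0 ≠ neg a)
    (hb : ρ m ≠ neg b) {i : ℕ} (hi : i + 1 < m) :
    LS ρ a (i + 1) ∪ RS m ρ b (i + 1) = ball (ρ (i + 1)) ∧
      Disjoint (LS ρ a (i + 1)) (RS m ρ b (i + 1)) := by
  obtain ⟨-, c2, -, -⟩ := tight_edge h ha hb (i := i) (by omega)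
  obtain ⟨c1, -, -, -⟩ := tight_edge h ha hb (i := i + 1) hi
  have hd : Disjoint (LS ρ a (i + 1)) (RS m ρ b (i + 1)) := by
    rw [Finset.disjoint_left]
    intro y h1 h2
    apply h
    rw [PExt_iff_mid hi]
    rw [RS_step hi, mem_inter] at h2
    simp only [LS, mem_inter] at h1
    exact ⟨y, h1.2, h1.1, h2.1⟩
  refine ⟨?_, hd⟩
  refine Finset.eq_of_subset_of_card_le ?_ ?_
  · intro y hy
    rw [mem_union] at hy
    rcases hy with hy | hy
    · simp only [LS, mem_inter] at hy
      exact hy.2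
    · rw [RS_step hi, mem_inter] at hy
      exact hy.2
  · rw [ball_card, Finset.card_union_of_disjoint hd]
    omega

/-- (E1) The port of an inner vertex forbids at most one label. -/
theorem PExt_mid {m : ℕ} {ρ ρ' : ℕ → Q} {a b : Q} {i : ℕ} (hi : i + 1 < m) (ha : ρ 0 ≠ neg a)
    (hb : ρ m ≠ neg b) (he : ∀ j ≤ m, j ≠ i + 1 → ρ j = ρ' j) (hne : ρ (i + 1) ≠ ρ' (i + 1)) :
    PExt m ρ a b ∨ PExt m ρ' a b := by
  by_contra hcon
  push Not at hcon
  obtain ⟨h1, h2⟩ := hcon
  have ha' : ρ' 0 ≠ neg a := by rw [← he 0 (by omega) (by omega)]; exact ha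
  have hb' : ρ' m ≠ neg b := by rw [← he m (by omega) (by omega)]; exact hb
  have e1 : LS ρ a i = LS ρ' a i := LS_congr fun j hj => he j (by omega) (by omega)
  have e2 : RS m ρ b (i + 2) = RS m ρ' b (i + 2) :=
    RS_congr (by omega) fun j hj hjm => he j (by omega) (by omega)
  have key : ∀ σ : ℕ → Q, ¬ PExt m σ a b → σ 0 ≠ neg a → σ m ≠ neg b →
      ball (σ (i + 1)) = far (LS σ a i) ∪ far (RS m σ b (i + 2)) := by
    intro σ h ha hb
    rw [← (tight_mid h ha hb hi).1, ← (tight_edge h ha hb (i := i) (by omega)).2.2.1,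
      ← (tight_edge h ha hb (i := i + 1) hi).2.2.2, Finset.union_comm]
  apply hne
  apply ball_inj
  rw [key ρ h1 ha hb, key ρ' h2 ha' hb', e1, e2]

/-- (E2) A port of an end forbids at most one label besides the antipode of the other port. -/
theorem PExt_end {m : ℕ} {ρ : ℕ → Q} {a a1 b : Q} (hm : 1 ≤ m) (ha : ρ 0 ≠ neg a) (ha1 : ρ 0 ≠ neg a1)
    (hb : ρ m ≠ neg b) (hne : a ≠ a1) : PExt m ρ a b ∨ PExt m ρ a1 b := by
  by_contra hcon
  push Not at hcon
  obtain ⟨h1, h2⟩ := hcon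
  have key : ∀ a, ¬ PExt m ρ a b → ρ 0 ≠ neg a → (ball (ρ 0) ∩ ball a).card = 2 ∧
      ball (ρ 0) ∩ ball a = far (RS m ρ b 1) := by
    intro a h ha
    obtain ⟨c1, -, -, c4⟩ := tight_edge h ha hb (i := 0) (by omega)
    exact ⟨c1, c4⟩
  obtain ⟨c1, c2⟩ := key a h1 ha
  obtain ⟨-, c3⟩ := key a1 h2 ha1
  exact hne (inter_inj _ _ _ c1 (c2.trans c3.symm))

end CLB.H3
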