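import Pool.Agent.Helper3_DA.WdOut
import Pool.Agent.Helper3_DA.Beta
import Pool.Agent.Helper3_DA.FLemma
import Pool.Agent.Helper95_CLB.Win
import Pool.Agent.Helper95_CLB.WinK
import Pool.Agent.Helper95_CLB.Bad

/-!
A component of an open chain does not see all three free edges of the first unit.
-/

set_option autoImplicit false
set_option linter.unusedSectionVars false

namespace CLB.H3

open Finset Classical
open H3DA (Q neg nr)
open CLB.H95

lemma g_key : ∀ (D : Ty) (a t t' : Q) (e e' : Bool),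
    (if e then neg t else t) = neg (add (if e then a else neg a) (add (uD D) (vD D))) →
    (if e' then neg t' else t') = neg (add (if e' then a else neg a) (add (uD (co D)) (vD (co D)))) →
    t' = neg t := by
  decide +kernel

lemma frk_add' {D : Ty} {a b : Q} (h : frk D a b = true) : b = add a (add (uD D) (vD D)) := by
  unfold frk at h
  exact eq_of_beq h

section cat

variable {V : Type*} {G : SimpleGraph V} {R : V → Bool} [Fintype V]
variable {m : ℕ} {z c : ℕ → V} {k : ℕ} {x y : ℕ → V}

/-- The first unit. -/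
lemma chn_one (h : Chn G R k x y) : Chn G R 1 x y where
  pos := le_rfl
  me i h1 h2 := h.me i h1 (h2.trans h.pos)
  lk i h1 h2 := by omega
  injx i j h1 h2 h3 h4 _ := by omega
  injy i j h1 h2 h3 h4 _ := by omega
  xy i j h1 h2 h3 h4 := h.xy i j h1 (h2.trans h.pos) h3 (h4.trans h.pos)

lemma inC_one {v : V} : InC 1 x y v ↔ v = x 1 ∨ v = y 1 := by
  constructor
  · rintro ⟨i, h1, h2, h3⟩
    have : i = 1 := by omega
    rw [this] at h3
    exact h3
  · intro h
    exact ⟨1, le_rfl, le_rfl, h⟩

/-- **Three ports at the first unit**, one of them a leaf of the first fork. -/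
theorem g_left (hG : ClassC G R) (hc : Crit G R) (hcat : Cat G R m z c) (h : Chn G R k x y)
    (hk : 2 ≤ k) (hend : ∀ w, ¬ Lk G R (x 1) w) {i j l p : ℕ} (hi : i ≤ m + 1) (hj : j ≤ m + 1)
    (hl : l ≤ m + 1) (hij : i ≠ j) (ei : c i = x 1) (ej : c j = x 1) (el : c l = y 1)
    (hp : p ≤ 1) (ep : c p = x 1 ∨ c p = y 1) : False := by
  have hmp := hcat.pos
  have h11 := chn_one h
  have hxy : x 1 ≠ y 1 := h.xy 1 1 le_rfl (by omega) le_rfl (by omega)
  -- positions
  have hpos : ∀ s t, s ≤ m + 1 → t ≤ m + 1 → (c s = x 1 ∨ c s = y 1) → (c t = x 1 ∨ c t = y 1) →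
      s ≠ t → pos m s % 4 = pos m t % 4 ∧ pos m s ≠ pos m t := by
    intro s t hs ht e1 e2 hst
    rcases e1 with e1 | e1 <;> rcases e2 with e2 | e2
    · exact twice_dist hG hc hcat hs ht hst (e1.trans e2.symm)
    · exact mates_dist hG hc hcat hs ht (by rw [e1, e2]; exact h.me 1 le_rfl (by omega))
    · exact mates_dist hG hc hcat hs ht (by rw [e1, e2]; exact (h.me 1 le_rfl (by omega)).symm)
    · exact twice_dist hG hc hcat hs ht hst (e1.trans e2.symm)
  have hpp : pos m p = 1 := by
    unfold pos; split_ifs <;> omega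
  have hmod : ∀ s, s ≤ m + 1 → (c s = x 1 ∨ c s = y 1) → pos m s % 4 = 1 := by
    intro s hs e
    by_cases hsp : s = p
    · rw [hsp, hpp]
    · rw [(hpos s p hs (by omega) e ep hsp).1, hpp]
  have hm5 : 5 ≤ m := by
    have h1 := hmod i hi (Or.inl ei)
    have h2 := hmod j hj (Or.inl ej)
    have h3 := (hpos i j hi hj (Or.inl ei) (Or.inl ej) hij).2
    have h4 := pos_le hmp hi
    have h5 := pos_le hmp hj
    omega
  have hm4 : ∀ s, s ≤ m + 1 → (c s = x 1 ∨ c s = y 1) → 2 ≤ s → s ≤ 4 → False := by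
    intro s hs e h2 h4
    have := hmod s hs e
    rw [pos_mid (by omega) (by omega)] at this
    omega
  -- ports of `x 1`
  have hpx : ∀ w ∈ prt G R (x 1), w ∈ cSupp m z := by
    intro w hw
    by_contra hcon
    have a1 := cl_mem hmp hi
    have a2 := cl_mem hmp hj
    have b1 : z (cl m i) ∈ prt G R (x 1) := by
      rw [mem_prt, ← ei]; exact ⟨cat_adj_cl hcat hi, hcat.unc _ a1.1 a1.2⟩
    have b2 : z (cl m j) ∈ prt G R (x 1) := by
      rw [mem_prt, ← ej]; exact ⟨cat_adj_cl hcat hj, hcat.unc _ a2.1 a2.2⟩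
    have hne : z (cl m i) ≠ z (cl m j) := by
      intro he
      have := hcat.inj _ _ a1.1 a1.2 a2.1 a2.2 he
      exact (hpos i j hi hj (Or.inl ei) (Or.inl ej) hij).2 this
    have hw1 : w ≠ z (cl m i) := fun he => hcon (he ▸ mem_cSupp a1.1 a1.2)
    have hw2 : w ≠ z (cl m j) := fun he => hcon (he ▸ mem_cSupp a2.1 a2.2)
    have h3 : 2 < (prt G R (x 1)).card :=
      two_lt_card.2 ⟨w, hw, _, b1, _, b2, hw1, hw2, hne⟩
    have h4 := prt_card hG (h.cov (InC.x le_rfl (by omega)) : Cov G R (x 1))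
    omega
  have hlk : Lk G R (y 1) (x 2) := h.lk 1 le_rfl (by omega)
  have hfx : fp G R m z (x 1) = 0 := by
    unfold fp
    rw [card_eq_zero, filter_eq_empty_iff]
    intro w hw hw2
    exact hw2 (hpx w hw)
  have hfy : fp G R m z (y 1) = 0 := by
    rw [← el]
    exact fp_own_lk hG hcat hl (el ▸ hlk)
  have hcl : CleanW G R 1 x y m z := by
    intro m' z' c' hC' hne hex
    exfalso
    obtain ⟨s, hs, hin⟩ := hex
    have a2 := cl_mem hC'.pos hs
    rw [inC_one] at hin
    rcases hin with e | e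
    · have b2 : z' (cl m' s) ∈ prt G R (x 1) := by
        rw [mem_prt, ← e]; exact ⟨cat_adj_cl hC' hs, hC'.unc _ a2.1 a2.2⟩
      exact hne (cSupp_eq hC' hcat (mem_cSupp a2.1 a2.2) (hpx _ b2))
    · have a1 := cl_mem hmp hl
      have b1 : z (cl m l) ∈ prt G R (y 1) := by
        rw [mem_prt, ← el]; exact ⟨cat_adj_cl hcat hl, hcat.unc _ a1.1 a1.2⟩
      have b2 : z' (cl m' s) ∈ prt G R (y 1) := by
        rw [mem_prt, ← e]; exact ⟨cat_adj_cl hC' hs, hC'.unc _ a2.1 a2.2⟩
      have h5 := Finset.card_le_one.1 (prt_card_lk hG hlk) _ b1 _ b2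
      exact hne (cSupp_eq hC' hcat (mem_cSupp a2.1 a2.2) (by rw [← h5]; exact mem_cSupp a1.1 a1.2))
  have hcyc : ¬ Lk G R (y 1) (x 1) := fun hh => hend _ hh.symm
  -- the labelling
  obtain ⟨f0, D, hK⟩ := exists_ktight hG hc hcat (by omega)
  obtain ⟨f, hf, hff⟩ := exists_offw (r := 1) (X := x) (Y := y) hcat (by omega) hK hi
    (inC_one.2 (Or.inl ei))
  obtain ⟨F, -, hF, hext⟩ := win_forb hG hc hcat h11 hcyc hf hcl
  have hFe : ∀ i g, F i g = ∅ ∨ i ≠ 1 := by
    intro i g
    by_cases hi1 : i = 1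
    · left
      subst hi1
      have := hF 1 g g
      rw [hfx, hfy, union_self] at this
      exact card_eq_zero.1 (by omega)
    · exact Or.inr hi1
  set T := wall G R 1 x y f 1 with hT
  have hT4 : 4 ≤ T.card := by
    have h1 : 8 ≤ T.card + wl G R x 1 + wr G R 1 y 1 :=
      wall_card (r := 1) (X := x) (Y := y) (f := f) hG 1
    have h2 := wl_end (i := 1) hend (G := G) (R := R) (X := x)
    have h3 := wr_le (G := G) (R := R) (r := 1) (Y := y) 1
    rw [h2] at h1
    omega
  have hno : ∀ t ∈ T, ¬ CExt m (fun s => lbl 1 x y (fun _ => t) f (c s)) := by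
    intro t ht
    refine hext (fun _ => t) (fun i h1 h2 => by omega) (fun i h1 h2 => ?_) (fun i h1 h2 => ?_)
    · have : i = 1 := by omega
      rcases hFe i (fun _ => t) with h3 | h3
      · rw [h3]; simp
      · exact absurd this h3
    · have : i = 1 := by omega
      rw [this]; exact ht
  have hnr : ∀ t ∈ T, nr t (f (x 2)) = true := by
    intro t ht
    rw [hT] at ht
    unfold wall at ht
    rw [mem_inter, mem_filter, mem_filter] at ht
    have := ht.2.2 rfl (x 2) hlk
    rwa [sg_odd (by norm_num), H3DA.neg_neg] at this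
  -- labels
  have lx : ∀ t, lbl 1 x y (fun _ => t) f (x 1) = neg t := by
    intro t
    rw [lbl_x h11 le_rfl le_rfl, sg_odd (by norm_num)]
  have ly : ∀ t, lbl 1 x y (fun _ => t) f (y 1) = t := by
    intro t
    rw [lbl_y h11 le_rfl le_rfl, sg_odd (by norm_num), H3DA.neg_neg]
  have f0y : f (y 1) = neg (f (x 1)) := by
    rw [hff _ (h.cov (InC.y le_rfl (by omega))), hff _ (h.cov (InC.x le_rfl (by omega)))]
    have hme := h.me 1 le_rfl (by omega)
    exact (hK.ok _ _ hme.1 (fun h' => by
      obtain ⟨l, l1, l2, l3⟩ := h'.1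
      exact hcat.unc l l1 l2 (by rw [l3]; exact hme.cov))).1 hme.2
  have hti : Tight D (fun s => f (c s)) m := by
    obtain ⟨t1, t2, t3⟩ := hK.tight
    have e : ∀ j ≤ m + 1, f (c j) = f0 (c j) := fun j hj => hff _ (hcat.cov j hj)
    refine ⟨?_, fun i i1 i2 => ?_, ?_⟩
    · show frk D (f (c 0)) (f (c 1)) = true
      rw [e 0 (by omega), e 1 (by omega)]; exact t1
    · show stp (altT D i) (neg (f (c i))) (f (c (i + 1))) = true
      rw [e i (by omega), e (i + 1) (by omega)]; exact t2 i i1 i2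
    · show frk (altT D (m + 1)) (f (c m)) (f (c (m + 1))) = true
      rw [e m (by omega), e (m + 1) le_rfl]; exact t3
  -- a unit port
  have uport : ∀ s, (c s = x 1 ∨ c s = y 1) → ∃ e : Bool,
      (∀ t, lbl 1 x y (fun _ => t) f (c s) = if e then neg t else t) ∧
      f (c s) = if e then f (x 1) else neg (f (x 1)) := by
    intro s hs
    rcases hs with hs | hs
    · exact ⟨true, fun t => by rw [hs, lx]; rfl, by rw [hs]; rfl⟩
    · exact ⟨false, fun t => by rw [hs, ly]; rfl, by rw [hs, f0y]; rfl⟩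
  have oport : ∀ s, ¬ (c s = x 1 ∨ c s = y 1) → ∀ t, lbl 1 x y (fun _ => t) f (c s) = f (c s) :=
    fun s hs t => lbl_out (fun h' => hs (inC_one.1 h'))
  have einj : ∀ (e : Bool) (t t' : Q), (if e then neg t else t) = (if e then neg t' else t') → t = t' := by
    decide
  -- the leaf
  have hmate : ¬ (c (1 - p) = x 1 ∨ c (1 - p) = y 1) := by
    intro hh
    refine (hpos (1 - p) p (by omega) (by omega) hh ep (by omega)).2 ?_
    rw [hpp]; unfold pos; split_ifs <;> omega
  obtain ⟨e, he1, he2⟩ := uport p ep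
  have hfrk : frk D (f (c p)) (f (c (1 - p))) = true := by
    have h0 : frk D (f (c 0)) (f (c 1)) = true := hti.1
    have hp2 : p = 0 ∨ p = 1 := by omega
    rcases hp2 with hp2 | hp2
    · rw [hp2]; exact h0
    · rw [hp2, frk_symm]; exact h0
  -- tight labels
  obtain ⟨B, hB2, hB⟩ : TB m (fun s => c s = x 1 ∨ c s = y 1) (fun s => f (c s)) p 2 := by
    have h2 : ¬ (c 2 = x 1 ∨ c 2 = y 1) := fun hh => hm4 2 (by omega) hh le_rfl (by omega)
    have h3 : ¬ (c 3 = x 1 ∨ c 3 = y 1) := fun hh => hm4 3 (by omega) hh (by omega) (by omega)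
    have hp2 : p = 0 ∨ p = 1 := by omega
    rcases hp2 with hp2 | hp2
    · subst hp2
      exact tb_leaf2 (by omega) hmate h2 h3
    · subst hp2
      refine TB.swL (by omega) ?_
      have e1 : swL 1 = 0 := rfl
      rw [e1]
      refine tb_leaf2 (by omega) ?_ ?_ ?_
      · exact hmate
      · exact h2
      · exact h3
  have h1c : (T.filter (fun t => (if e then neg t else t) ∈ B)).card ≤ 2 := by
    refine le_trans ?_ hB2
    refine card_le_card_of_injOn (fun t => if e then neg t else t) ?_ ?_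
    · intro t ht
      exact mem_coe.2 (mem_filter.1 (mem_coe.1 ht)).2
    · intro t _ t' _ hh
      exact einj e t t' hh
  -- the last fork
  have hright : (∀ t, lbl 1 x y (fun _ => t) f (c m) ≠ neg (lbl 1 x y (fun _ => t) f (c (m + 1)))) ∨
      ∃ e' : Bool, ∀ t, lbl 1 x y (fun _ => t) f (c m) = neg (lbl 1 x y (fun _ => t) f (c (m + 1))) →
        (if e' then neg t else t) = neg (add (if e' then f (x 1) else neg (f (x 1)))
          (add (uD (co D)) (vD (co D)))) := by
    have hne := (frk_ne _ _ _ hti.2.2).2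
    have key : ∀ s s', (s = m ∧ s' = m + 1) ∨ (s = m + 1 ∧ s' = m) → (c s = x 1 ∨ c s = y 1) →
        ∃ e' : Bool, ∀ t, lbl 1 x y (fun _ => t) f (c s) = neg (lbl 1 x y (fun _ => t) f (c s')) →
          (if e' then neg t else t) = neg (add (if e' then f (x 1) else neg (f (x 1)))
          (add (uD (co D)) (vD (co D)))) := by
      intro s s' hss hs
      have hs' : ¬ (c s' = x 1 ∨ c s' = y 1) := by
        intro hh
        refine (hpos s s' (by omega) (by omega) hs hh (by omega)).2 ?_
        unfold pos; split_ifs <;> omega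
      have hpar : pos m s % 4 = 1 := hmod s (by omega) hs
      have hps : pos m s = m := by
        unfold pos; split_ifs <;> omega
      obtain ⟨e', h1, h2⟩ := uport s hs
      refine ⟨e', fun t ht => ?_⟩
      rw [h1 t, oport s' hs' t] at ht
      have hfr : frk (co D) (f (c s)) (f (c s')) = true := by
        have h3 := hti.2.2
        have h4 : altT D (m + 1) = co D := by
          unfold altT; rw [if_neg (by omega)]
        rw [h4] at h3
        rcases hss with ⟨rfl, rfl⟩ | ⟨rfl, rfl⟩
        · exact h3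
        · rw [frk_symm]; exact h3
      have h5 := frk_add' hfr
      rw [h2] at h5
      rw [ht, h5]
    by_cases hm1 : c m = x 1 ∨ c m = y 1
    · right
      exact key m (m + 1) (Or.inl ⟨rfl, rfl⟩) hm1
    · by_cases hm2 : c (m + 1) = x 1 ∨ c (m + 1) = y 1
      · right
        obtain ⟨e', h1⟩ := key (m + 1) m (Or.inr ⟨rfl, rfl⟩) hm2
        refine ⟨e', fun t ht => h1 t ?_⟩
        rw [ht, H3DA.neg_neg]
      · left
        intro t
        rw [oport m hm1, oport (m + 1) hm2]
        exact hne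
  have hcA : ∀ t, lbl 1 x y (fun _ => t) f (c 0) = neg (lbl 1 x y (fun _ => t) f (c 1)) →
      (if e then neg t else t) = neg (add (if e then f (x 1) else neg (f (x 1)))
        (add (uD D) (vD D))) := by
    intro t ht
    have h5 := frk_add' hfrk
    rw [he2] at h5
    rw [← h5, ← he1 t]
    have h6 := oport (1 - p) hmate t
    rw [← h6]
    have hp2 : p = 0 ∨ p = 1 := by omega
    rcases hp2 with rfl | rfl
    · exact ht
    · rw [show 1 - 1 = 0 from rfl, ht, H3DA.neg_neg]
  set CA : Q → Prop := fun t => (if e then neg t else t) = neg (add (if e then f (x 1) else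
    neg (f (x 1))) (add (uD D) (vD D))) with hCA
  have h2c : (T.filter (fun t => lbl 1 x y (fun _ => t) f (c 0) = neg (lbl 1 x y (fun _ => t) f (c 1)) ∨
      lbl 1 x y (fun _ => t) f (c m) = neg (lbl 1 x y (fun _ => t) f (c (m + 1))))).card ≤ 1 := by
    rw [card_le_one]
    intro t ht t' ht'
    rw [mem_filter] at ht ht'
    obtain ⟨ht1, ht2⟩ := ht
    obtain ⟨ht1', ht2'⟩ := ht'
    rcases hright with hr | ⟨e', hr⟩
    · have a1 := hcA t (ht2.resolve_right (hr t))
      have a2 := hcA t' (ht2'.resolve_right (hr t'))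
      exact einj e t t' (a1.trans a2.symm)
    · have anti : ∀ s s', s ∈ T → s' ∈ T → s' ≠ neg s := by
        intro s s' hs hs' hh
        have b1 := hnr s hs
        have b2 := hnr s' hs'
        rw [hh, nr_neg, b1] at b2
        exact absurd b2 (by simp)
      rcases ht2 with a | a <;> rcases ht2' with b | b
      · exact einj e t t' ((hcA t a).trans (hcA t' b).symm)
      · exact absurd (g_key D (f (x 1)) t t' e e' (hcA t a) (hr t' b)) (anti t t' ht1 ht1')
      · exact absurd (g_key D (f (x 1)) t' t e e' (hcA t' b) (hr t a)) (anti t' t ht1' ht1)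
      · exact einj e' t t' ((hr t a).trans (hr t' b).symm)
  have hsub : T ⊆ T.filter (fun t => (if e then neg t else t) ∈ B) ∪ T.filter (fun t =>
      lbl 1 x y (fun _ => t) f (c 0) = neg (lbl 1 x y (fun _ => t) f (c 1)) ∨
      lbl 1 x y (fun _ => t) f (c m) = neg (lbl 1 x y (fun _ => t) f (c (m + 1)))) := by
    intro t ht
    rw [mem_union, mem_filter, mem_filter]
    have h1 := hno t ht
    rw [cext_iff hmp] at h1
    by_cases c1 : lbl 1 x y (fun _ => t) f (c 0) = neg (lbl 1 x y (fun _ => t) f (c 1))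
    · exact Or.inr ⟨ht, Or.inl c1⟩
    · by_cases c2 : lbl 1 x y (fun _ => t) f (c m) = neg (lbl 1 x y (fun _ => t) f (c (m + 1)))
      · exact Or.inr ⟨ht, Or.inr c2⟩
      · left
        refine ⟨ht, ?_⟩
        have h2 : ∃ D', Tight D' (fun s => lbl 1 x y (fun _ => t) f (c s)) m := by
          by_contra hcon
          push Not at hcon
          exact h1 ⟨c1, c2, hcon⟩
        obtain ⟨D', hD'⟩ := h2
        have := hB _ (fun s _ hs => oport s hs t) D' hD'
        rwa [he1 t] at this
  have h5 := card_le_card hsub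
  have h6 := card_union_le (T.filter (fun t => (if e then neg t else t) ∈ B)) (T.filter (fun t =>
      lbl 1 x y (fun _ => t) f (c 0) = neg (lbl 1 x y (fun _ => t) f (c 1)) ∨
      lbl 1 x y (fun _ => t) f (c m) = neg (lbl 1 x y (fun _ => t) f (c (m + 1)))))
  omega

/-- **Three ports at the first unit.** -/
theorem g_false (hG : ClassC G R) (hc : Crit G R) (hcat : Cat G R m z c) (h : Chn G R k x y)
    (hk : 2 ≤ k) (hend : ∀ w, ¬ Lk G R (x 1) w) {i j l : ℕ} (hi : i ≤ m + 1) (hj : j ≤ m + 1)
    (hl : l ≤ m + 1) (hij : i ≠ j) (ei : c i = x 1) (ej : c j = x 1) (el : c l = y 1) : False := by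
  have hleaf : ∃ p ≤ m + 1, (c p = x 1 ∨ c p = y 1) ∧ (p ≤ 1 ∨ m ≤ p) := by
    by_contra hcon
    push Not at hcon
    refine full_leaf hG hc hcat hl hi (by rw [ei, el]; exact (h.me 1 le_rfl (by omega)).symm)
      (w := x 2) (by rw [el]; exact h.lk 1 le_rfl (by omega)) ?_
    intro s hs hsv
    rw [ei, el] at hsv
    have := hcon s hs hsv.symm
    omega
  obtain ⟨p, hp, ep, hp2⟩ := hleaf
  rcases hp2 with hp2 | hp2
  · exact g_left hG hc hcat h hk hend hi hj hl hij ei ej el hp2 ep
  · have hr : ∀ s, s ≤ m + 1 → c (m + 1 - (m + 1 - s)) = c s := by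
      intro s hs
      rw [show m + 1 - (m + 1 - s) = s by omega]
    refine g_left hG hc (cat_rev hcat) h hk hend (i := m + 1 - i) (j := m + 1 - j) (l := m + 1 - l)
      (p := m + 1 - p) (by omega) (by omega) (by omega) (by omega) ?_ ?_ ?_ (by omega) ?_
    · exact (hr i hi).trans ei
    · exact (hr j hj).trans ej
    · exact (hr l hl).trans el
    · show c (m + 1 - (m + 1 - p)) = x 1 ∨ c (m + 1 - (m + 1 - p)) = y 1
      rw [hr p hp]; exact ep

/-- **No full unit with a double port.** -/
theorem noG (hG : ClassC G R) (hc : Crit G R) (hcat : Cat G R m z c) (h : Chn G R k x y)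
    (hk : 2 ≤ k) (hends : (∀ w, ¬ Lk G R (x 1) w) ∧ ∀ w, ¬ Lk G R (y k) w) : NoG k x y m c := by
  intro i h1 h2 h3 h4
  have hx2 := pc_cov hG hcat (h.cov (InC.x h1 h2))
  have hy2 := pc_cov hG hcat (h.cov (InC.y h1 h2))
  constructor
  · by_contra hcon
    by_cases hi : i = 1
    · subst hi
      obtain ⟨s, t, hs, ht, hst, e1, e2⟩ := pc_two (show 2 ≤ pc m c (x 1) by omega)
      obtain ⟨l, hl, e3⟩ := pc_pos.1 h4
      exact g_false hG hc hcat h hk hends.1 hs ht hl hst e1 e2 e3
    · have := pc_x_le hG hcat h (i := i) (by omega) h2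
      omega
  · by_contra hcon
    by_cases hi : i = k
    · subst hi
      obtain ⟨s, t, hs, ht, hst, e1, e2⟩ := pc_two (show 2 ≤ pc m c (y i) by omega)
      obtain ⟨l, hl, e3⟩ := pc_pos.1 h3
      refine g_false hG hc hcat (Chn.rev h) hk ?_ hs ht hl hst ?_ ?_ ?_
      · show ∀ w, ¬ Lk G R (y (i + 1 - 1)) w
        rw [Nat.add_sub_cancel]; exact hends.2
      · show c s = y (i + 1 - 1)
        rw [Nat.add_sub_cancel]; exact e1
      · show c t = y (i + 1 - 1)
        rw [Nat.add_sub_cancel]; exact e2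
      · show c l = x (i + 1 - 1)
        rw [Nat.add_sub_cancel]; exact e3
    · have := pc_y_le hG hcat h (i := i) h1 (by omega)
      omega

end cat

end CLB.H3
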