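import Pool.Agent.Helper3_DA.Cyc

/-!
The components of the uncovered vertices of an edge-minimal graph without a labelling: vertices with two
covered neighbours and paths `z 0, ..., z m` (`m = 0`: a 3-star) with all degrees three.
-/

set_option autoImplicit false
set_option linter.unusedSectionVars false

namespace CLB.H3

open Finset Classical
open H3DA (Q neg nr)
open CLB.H95

variable {V : Type*} {G : SimpleGraph V} {R : V → Bool}

/-- A path of uncovered vertices. -/
structure IsP (G : SimpleGraph V) (R : V → Bool) (z : ℕ → V) (m : ℕ) : Prop where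
  inj : ∀ i ≤ m, ∀ j ≤ m, z i = z j → i = j
  unc : ∀ i ≤ m, ¬ Cov G R (z i)
  adj : ∀ i < m, G.Adj (z i) (z (i + 1))

lemma IsP.rev {z : ℕ → V} {m : ℕ} (h : IsP G R z m) : IsP G R (fun i => z (m - i)) m where
  inj i hi j hj hij := by
    have := h.inj (m - i) (by omega) (m - j) (by omega) hij
    omega
  unc i _ := h.unc (m - i) (by omega)
  adj i hi := by
    have e : m - i = m - (i + 1) + 1 := by omega
    have := h.adj (m - (i + 1)) (by omega)
    rw [← e] at this
    exact this.symm

/-- Prepending a vertex. -/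
lemma IsP.cons {z : ℕ → V} {m : ℕ} (h : IsP G R z m) {x : V} (hx : ¬ Cov G R x) (hxz : G.Adj x (z 0))
    (hne : ∀ i ≤ m, x ≠ z i) : IsP G R (fun i => if i = 0 then x else z (i - 1)) (m + 1) where
  inj i hi j hj hij := by
    by_cases h1 : i = 0
    · by_cases h2 : j = 0
      · omega
      · simp only [h1, h2, if_true, if_false] at hij
        exact absurd hij (hne (j - 1) (by omega))
    · by_cases h2 : j = 0
      · simp only [h1, h2, if_true, if_false] at hij
        exact absurd hij.symm (hne (i - 1) (by omega))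
      · simp only [h1, h2, if_false] at hij
        have := h.inj (i - 1) (by omega) (j - 1) (by omega) hij
        omega
  unc i hi := by
    by_cases h1 : i = 0
    · simp only [h1, if_true]; exact hx
    · simp only [h1, if_false]; exact h.unc (i - 1) (by omega)
  adj i hi := by
    by_cases h1 : i = 0
    · subst h1
      simp only [if_true, zero_add, one_ne_zero, if_false, Nat.sub_self]
      exact hxz
    · have h2 : ¬ (i + 1 = 0) := by omega
      simp only [h1, h2, if_false]
      have e : i + 1 - 1 = i - 1 + 1 := by omega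
      rw [e]
      exact h.adj (i - 1) (by omega)

/-- The sides alternate. -/
lemma IsP.side {z : ℕ → V} {m : ℕ} (h : IsP G R z m) : ∀ i ≤ m, (R (z i) = R (z 0) ↔ i % 2 = 0) := by
  intro i
  induction i with
  | zero => intro _; simp
  | succ i ih =>
    intro hi
    have h1 := ih (by omega)
    have h2 := (he_of_unc (h.unc i (by omega)) (h.adj i (by omega))).2
    have h3 : (R (z (i + 1)) = R (z 0)) ↔ ¬ (R (z i) = R (z 0)) := by
      revert h2
      rcases R (z i) <;> rcases R (z (i + 1)) <;> rcases R (z 0) <;> simp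
    rw [h3, h1]
    omega

variable [Fintype V]

lemma IsP.card_le {z : ℕ → V} {m : ℕ} (h : IsP G R z m) : m + 1 ≤ Fintype.card V := by
  have h1 : Function.Injective (fun i : Fin (m + 1) => z i) := by
    intro i j hij
    exact Fin.ext (h.inj i (by omega) j (by omega) hij)
  have := Fintype.card_le_of_injective _ h1
  rwa [Fintype.card_fin] at this

/-- Every uncovered vertex is on a longest path. -/
lemma exists_maxP {u : V} (hu : ¬ Cov G R u) : ∃ z m, IsP G R z m ∧ (∃ i ≤ m, z i = u) ∧
    ∀ z' m', IsP G R z' m' → (∃ i ≤ m', z' i = u) → m' ≤ m := by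
  have hne : ∃ m, ∃ z, IsP G R z m ∧ ∃ i ≤ m, z i = u := by
    refine ⟨0, fun _ => u, ⟨fun i hi j hj _ => by omega, fun _ _ => hu, fun i hi => by omega⟩, 0,
      le_refl 0, rfl⟩
  have hb : ∀ m, (∃ z, IsP G R z m ∧ ∃ i ≤ m, z i = u) → m ≤ Fintype.card V := by
    rintro m ⟨z, hz, -⟩
    have := hz.card_le
    omega
  set m := Nat.findGreatest (fun m => ∃ z, IsP G R z m ∧ ∃ i ≤ m, z i = u) (Fintype.card V) with hm
  obtain ⟨m0, hm0⟩ := hne
  have hP : ∃ z, IsP G R z m ∧ ∃ i ≤ m, z i = u :=
    Nat.findGreatest_spec (P := fun m => ∃ z, IsP G R z m ∧ ∃ i ≤ m, z i = u) (hb m0 hm0) hm0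
  obtain ⟨z, hz, hzu⟩ := hP
  refine ⟨z, m, hz, hzu, fun z' m' hz' hu' => ?_⟩
  exact Nat.le_findGreatest (hb m' ⟨z', hz', hu'⟩) ⟨z', hz', hu'⟩

/-- An inner vertex of a path has exactly one further neighbour, and it is covered. -/
lemma inner_port (hG : ClassC G R) (hc : Crit G R) {z : ℕ → V} {m : ℕ} (h : IsP G R z m) {i : ℕ}
    (h0 : 0 < i) (him : i < m) : ∃ a, Cov G R a ∧ G.Adj (z i) a ∧
      ∀ w, G.Adj (z i) w → w = z (i - 1) ∨ w = z (i + 1) ∨ w = a := by
  have h1 : G.Adj (z i) (z (i - 1)) := by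
    have := h.adj (i - 1) (by omega)
    have e : i - 1 + 1 = i := by omega
    rw [e] at this
    exact this.symm
  have h2 : G.Adj (z i) (z (i + 1)) := h.adj i him
  have hne : z (i - 1) ≠ z (i + 1) := fun h' => by
    have := h.inj _ (by omega) _ (by omega) h'
    omega
  obtain ⟨a, ha, hca⟩ := cov_nbr hG hc (h.unc i (by omega)) h1
  have ha1 : z (i - 1) ≠ a := by
    rintro rfl
    exact h.unc (i - 1) (by omega) hca
  have ha2 : z (i + 1) ≠ a := by
    rintro rfl
    exact h.unc (i + 1) (by omega) hca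
  exact ⟨a, hca, ha, fun w hw => hG.third h1 h2 ha hne ha1 ha2 hw⟩

/-- A closed path does not exist. -/
lemma no_cycle (hG : ClassC G R) (hc : Crit G R) {z : ℕ → V} {m : ℕ} (h : IsP G R z m) (hm : 2 ≤ m)
    (h0 : G.Adj (z m) (z 0)) : False := by
  -- the length is odd
  have hodd : ∃ k, m = 2 * k + 1 := by
    have h1 := h.side m (le_refl m)
    have h2 := (he_of_unc (h.unc m (le_refl m)) h0).2
    have h3 : ¬ (m % 2 = 0) := fun h' => h2 (h1.2 h')
    exact ⟨m / 2, by omega⟩
  obtain ⟨k, rfl⟩ := hodd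
  -- the ports
  have hport : ∀ i, ∃ a, i ≤ 2 * k + 1 → Cov G R a ∧ G.Adj (z i) a ∧
      ∀ w, G.Adj (z i) w → (∃ j ≤ 2 * k + 1, w = z j ∧ (i + 1 = j ∨ j + 1 = i ∨
        (i = 0 ∧ j = 2 * k + 1) ∨ (j = 0 ∧ i = 2 * k + 1))) ∨ w = a := by
    intro i
    by_cases hi : i ≤ 2 * k + 1
    · by_cases hi0 : i = 0
      · subst hi0
        have h1 : G.Adj (z 0) (z 1) := h.adj 0 (by omega)
        have hne : z 1 ≠ z (2 * k + 1) := fun h' => by
          have := h.inj _ (by omega) _ (by omega) h'
          omega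
        obtain ⟨a, ha, hca⟩ := cov_nbr hG hc (h.unc 0 (by omega)) h1
        have ha1 : z 1 ≠ a := by
          rintro rfl
          exact h.unc 1 (by omega) hca
        have ha2 : z (2 * k + 1) ≠ a := by
          rintro rfl
          exact h.unc (2 * k + 1) (by omega) hca
        refine ⟨a, fun _ => ⟨hca, ha, fun w hw => ?_⟩⟩
        rcases hG.third h1 h0.symm ha hne ha1 ha2 hw with h' | h' | h'
        · exact Or.inl ⟨1, by omega, h', Or.inl rfl⟩
        · exact Or.inl ⟨2 * k + 1, by omega, h', Or.inr (Or.inr (Or.inl ⟨rfl, rfl⟩))⟩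
        · exact Or.inr h'
      · by_cases hi1 : i = 2 * k + 1
        · subst hi1
          have h1 : G.Adj (z (2 * k + 1)) (z (2 * k)) := (h.adj (2 * k) (by omega)).symm
          have hne : z (2 * k) ≠ z 0 := fun h' => by
            have := h.inj _ (by omega) _ (by omega) h'
            omega
          obtain ⟨a, ha, hca⟩ := cov_nbr hG hc (h.unc (2 * k + 1) (by omega)) h1
          have ha1 : z (2 * k) ≠ a := by
            rintro rfl
            exact h.unc (2 * k) (by omega) hca
          have ha2 : z 0 ≠ a := by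
            rintro rfl
            exact h.unc 0 (by omega) hca
          refine ⟨a, fun _ => ⟨hca, ha, fun w hw => ?_⟩⟩
          rcases hG.third h1 h0 ha hne ha1 ha2 hw with h' | h' | h'
          · exact Or.inl ⟨2 * k, by omega, h', Or.inr (Or.inl rfl)⟩
          · exact Or.inl ⟨0, by omega, h', Or.inr (Or.inr (Or.inr ⟨rfl, rfl⟩))⟩
          · exact Or.inr h'
        · obtain ⟨a, hca, ha, hw⟩ := inner_port hG hc h (i := i) (by omega) (by omega)
          refine ⟨a, fun _ => ⟨hca, ha, fun w hw' => ?_⟩⟩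
          rcases hw w hw' with h' | h' | h'
          · exact Or.inl ⟨i - 1, by omega, h', Or.inr (Or.inl (by omega))⟩
          · exact Or.inl ⟨i + 1, by omega, h', Or.inl rfl⟩
          · exact Or.inr h'
    · exact ⟨z 0, fun h' => absurd h' hi⟩
  choose a ha using hport
  obtain ⟨f, hf⟩ := hc.del_set {v | ∃ i ≤ 2 * k + 1, z i = v} (a := z 0) ⟨0, by omega, rfl⟩
    (h.adj 0 (by omega))
  obtain ⟨w, hw1, hw2, hw3⟩ := cycle_labels (fun i => f (a i)) k
  have hidx : ∀ v, ∃ i, (∃ j ≤ 2 * k + 1, z j = v) → i ≤ 2 * k + 1 ∧ z i = v := by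
    intro v
    by_cases hv : ∃ j ≤ 2 * k + 1, z j = v
    · obtain ⟨j, hj, hjv⟩ := hv
      exact ⟨j, fun _ => ⟨hj, hjv⟩⟩
    · exact ⟨0, fun h' => absurd h' hv⟩
  choose idx hidx using hidx
  have hidz : ∀ i ≤ 2 * k + 1, idx (z i) = i := by
    intro i hi
    obtain ⟨h1, h2⟩ := hidx (z i) ⟨i, hi, rfl⟩
    exact h.inj _ h1 _ hi h2
  refine no_ext hc (K := {v | ∃ i ≤ 2 * k + 1, z i = v}) (f := f) ?_ hf (fun v => w (idx v)) ?_ ?_
  · rintro v ⟨i, hi, rfl⟩
    exact h.unc i hi
  · rintro u ⟨i, hi, rfl⟩ v ⟨j, hj, rfl⟩ huv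
    simp only [hidz i hi, hidz j hj]
    rcases (ha i hi).2.2 _ huv with ⟨j', hj', he, hcase⟩ | he
    · have hjj : j = j' := h.inj _ hj _ hj' he
      subst hjj
      rcases hcase with h' | h' | ⟨h', h''⟩ | ⟨h', h''⟩
      · subst h'; exact hw2 i (by omega)
      · subst h'; exact nr_symm (hw2 j (by omega))
      · subst h'; subst h''; exact nr_symm hw3
      · subst h'; subst h''; exact hw3
    · exact absurd ((ha i hi).1) (he ▸ h.unc j hj)
  · rintro u ⟨i, hi, rfl⟩ v hv huv
    simp only [hidz i hi]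
    rcases (ha i hi).2.2 _ huv with ⟨j', hj', he, -⟩ | he
    · exact absurd ⟨j', hj', he.symm⟩ hv
    · rw [he]; exact hw1 i hi

/-- A component of the uncovered vertices which is a path with all degrees three; `r i` is a covered
neighbour of `z i`, and `a'` and `b'` are the second covered neighbours of the ends. -/
structure UPath (G : SimpleGraph V) (R : V → Bool) where
  m : ℕ
  z : ℕ → V
  r : ℕ → V
  a' : V
  b' : V
  isP : IsP G R z m
  rcov : ∀ i ≤ m, Cov G R (r i)
  acov : Cov G R a'
  bcov : Cov G R b'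
  adjr : ∀ i ≤ m, G.Adj (z i) (r i)
  adja : G.Adj (z 0) a'
  adjb : G.Adj (z m) b'
  nea : a' ≠ r 0
  neb : b' ≠ r m
  neab : m = 0 → a' ≠ b'
  nbr : ∀ i ≤ m, ∀ w, G.Adj (z i) w → w = r i ∨ (∃ j, j + 1 = i ∧ w = z j) ∨ (i < m ∧ w = z (i + 1)) ∨
    (i = 0 ∧ w = a') ∨ (i = m ∧ w = b')

/-- Reversal. -/
def UPath.rev (P : UPath G R) : UPath G R where
  m := P.m
  z := fun i => P.z (P.m - i)
  r := fun i => P.r (P.m - i)
  a' := P.b'
  b' := P.a'
  isP := P.isP.rev
  rcov i _ := P.rcov (P.m - i) (by omega)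
  acov := P.bcov
  bcov := P.acov
  adjr i _ := P.adjr (P.m - i) (by omega)
  adja := P.adjb
  adjb := by
    simp only [Nat.sub_self]
    exact P.adja
  nea := P.neb
  neb := by
    simp only [Nat.sub_self]
    exact P.nea
  neab h := (P.neab h).symm
  nbr i hi w hw := by
    rcases P.nbr (P.m - i) (by omega) w hw with h | ⟨j, hj, h⟩ | ⟨h1, h2⟩ | ⟨h1, h2⟩ | ⟨h1, h2⟩
    · exact Or.inl h
    · refine Or.inr (Or.inr (Or.inl ⟨by omega, ?_⟩))
      have e : P.m - (i + 1) = j := by omega
      rw [e]; exact h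
    · refine Or.inr (Or.inl ⟨i - 1, by omega, ?_⟩)
      have e : P.m - (i - 1) = P.m - i + 1 := by omega
      simp only [e]; exact h2
    · refine Or.inr (Or.inr (Or.inr (Or.inr ⟨by omega, h2⟩)))
    · refine Or.inr (Or.inr (Or.inr (Or.inl ⟨by omega, h2⟩)))

/-- The vertices of a path component. -/
def UPath.supp (P : UPath G R) : Set V := {v | ∃ i ≤ P.m, P.z i = v}

lemma UPath.closed (P : UPath G R) {u v : V} (hu : u ∈ P.supp) (hv : ¬ Cov G R v) (huv : G.Adj u v) :
    v ∈ P.supp := by
  obtain ⟨i, hi, rfl⟩ := hu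
  rcases P.nbr i hi v huv with h | ⟨j, hj, h⟩ | ⟨h1, h2⟩ | ⟨h1, h2⟩ | ⟨h1, h2⟩
  · exact absurd (P.rcov i hi) (h ▸ hv)
  · exact ⟨j, by omega, h.symm⟩
  · exact ⟨i + 1, by omega, h2.symm⟩
  · exact absurd P.acov (h2 ▸ hv)
  · exact absurd P.bcov (h2 ▸ hv)

/-- A vertex with exactly two neighbours, both of them covered. -/
def IsTwo (G : SimpleGraph V) (R : V → Bool) (v a b : V) : Prop :=
  ¬ Cov G R v ∧ G.Adj v a ∧ G.Adj v b ∧ a ≠ b ∧ Cov G R a ∧ Cov G R b ∧ ∀ w, G.Adj v w → w = a ∨ w = b

/-- The structure theorem for uncovered vertices. -/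
theorem unc_structure (hG : ClassC G R) (hc : Crit G R) {v : V} (hv : ¬ Cov G R v) :
    (∀ w, ¬ G.Adj v w) ∨ (∃ a b, IsTwo G R v a b) ∨ ∃ P : UPath G R, v ∈ P.supp := by
  by_cases hne : ∃ w, G.Adj v w
  swap
  · push Not at hne
    exact Or.inl hne
  right
  by_cases hunc : ∃ p, G.Adj v p ∧ ¬ Cov G R p
  · -- a path with at least two vertices
    right
    obtain ⟨p, hvp, hp⟩ := hunc
    obtain ⟨z, m, hz, ⟨i0, hi0, hzi0⟩, hmax⟩ := exists_maxP hv
    have hm1 : 1 ≤ m := by
      refine hmax (fun i => if i = 0 then v else p) 1 ⟨?_, ?_, ?_⟩ ⟨0, by omega, by simp⟩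
      · intro i hi j hj hij
        by_cases h1 : i = 0 <;> by_cases h2 : j = 0
        · omega
        · simp only [h1, h2, if_true, if_false] at hij
          exact absurd hij hvp.ne
        · simp only [h1, h2, if_true, if_false] at hij
          exact absurd hij hvp.ne'
        · omega
      · intro i _
        by_cases h1 : i = 0
        · simp only [h1, if_true]; exact hv
        · simp only [h1, if_false]; exact hp
      · intro i hi
        have h1 : i = 0 := by omega
        subst h1
        simpa using hvp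
    -- the ends
    have hend : ∀ z : ℕ → V, IsP G R z m → (∃ i ≤ m, z i = v) → ∃ a b, Cov G R a ∧ Cov G R b ∧ a ≠ b ∧
        G.Adj (z 0) a ∧ G.Adj (z 0) b ∧ ∀ w, G.Adj (z 0) w → w = a ∨ w = z 1 ∨ w = b := by
      intro z hz hzv
      have h01 : G.Adj (z 0) (z 1) := hz.adj 0 (by omega)
      obtain ⟨a, b, ha, hb, hca, ha1, hb1, hab, hall⟩ := deg_three hG hc (hz.unc 0 (by omega)) h01
        (hz.unc 1 (by omega))
      have hcb : Cov G R b := by
        by_contra hcb
        by_cases hin : ∃ j ≤ m, b = z j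
        · obtain ⟨j, hj, hbj⟩ := hin
          have hj0 : j ≠ 0 := by
            rintro rfl
            exact hb.ne hbj.symm
          have hj1 : j ≠ 1 := by
            rintro rfl
            exact hb1 hbj
          by_cases hjm : j = m
          · subst hjm
            refine no_cycle hG hc hz (by omega) ?_
            rw [← hbj]; exact hb.symm
          · obtain ⟨c, hcc, -, hc2⟩ := inner_port hG hc hz (i := j) (by omega) (by omega)
            rw [hbj] at hb
            rcases hc2 _ hb.symm with h | h | h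
            · have := hz.inj _ (by omega) _ (by omega) h
              omega
            · have := hz.inj _ (by omega) _ (by omega) h
              omega
            · exact hz.unc 0 (by omega) (h ▸ hcc)
        · push Not at hin
          have h1 := hz.cons hcb hb.symm hin
          obtain ⟨i, hi, hiv⟩ := hzv
          have h2 := hmax _ _ h1 ⟨i + 1, by omega, by simpa using hiv⟩
          omega
      refine ⟨a, b, hca, hcb, hab, ha, hb, fun w hw => ?_⟩
      rcases hall w hw with h | h | h
      · exact Or.inr (Or.inl h)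
      · exact Or.inl h
      · exact Or.inr (Or.inr h)
    obtain ⟨a, a', ha1, ha2, ha3, ha4, ha5, ha6⟩ := hend z hz ⟨i0, hi0, hzi0⟩
    obtain ⟨b, b', hb1, hb2, hb3, hb4, hb5, hb6⟩ := hend (fun i => z (m - i)) hz.rev
      ⟨m - i0, by omega, by
        have e : m - (m - i0) = i0 := by omega
        simp only [e]; exact hzi0⟩
    simp only [Nat.sub_zero] at hb4 hb5 hb6
    have hin : ∀ i, ∃ c, 0 < i → i < m → Cov G R c ∧ G.Adj (z i) c ∧
        ∀ w, G.Adj (z i) w → w = z (i - 1) ∨ w = z (i + 1) ∨ w = c := by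
      intro i
      by_cases h : 0 < i ∧ i < m
      · obtain ⟨c, hc'⟩ := inner_port hG hc hz h.1 h.2
        exact ⟨c, fun _ _ => hc'⟩
      · exact ⟨v, fun h1 h2 => absurd ⟨h1, h2⟩ h⟩
    choose c hcc using hin
    refine ⟨{ m := m, z := z, r := fun i => if i = 0 then a else if i = m then b else c i, a' := a',
              b' := b', isP := hz, rcov := ?_, acov := ha2, bcov := hb2, adjr := ?_, adja := ha5,
              adjb := hb5, nea := ?_, neb := ?_, neab := fun h => by omega, nbr := ?_ }, i0, hi0, hzi0⟩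
    · intro i hi
      by_cases h0 : i = 0
      · simp only [h0, if_true]; exact ha1
      · by_cases hm : i = m
        · rw [if_neg h0, if_pos hm]; exact hb1
        · rw [if_neg h0, if_neg hm]; exact (hcc i (by omega) (by omega)).1
    · intro i hi
      by_cases h0 : i = 0
      · simp only [h0, if_true]; exact ha4
      · by_cases hm : i = m
        · rw [if_neg h0, if_pos hm, hm]; exact hb4
        · rw [if_neg h0, if_neg hm]; exact (hcc i (by omega) (by omega)).2.1
    · simp only [if_true]; exact Ne.symm ha3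
    · have h0 : ¬ (m = 0) := by omega
      simp only [h0, if_false, if_true]; exact Ne.symm hb3
    · intro i hi w hw
      by_cases h0 : i = 0
      · subst h0
        rw [if_pos rfl]
        rcases ha6 w hw with h | h | h
        · exact Or.inl h
        · exact Or.inr (Or.inr (Or.inl ⟨by omega, h⟩))
        · exact Or.inr (Or.inr (Or.inr (Or.inl ⟨rfl, h⟩)))
      · by_cases hm : i = m
        · subst hm
          rw [if_neg h0, if_pos rfl]
          rcases hb6 w hw with h | h | h
          · exact Or.inl h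
          · exact Or.inr (Or.inl ⟨i - 1, by omega, h⟩)
          · exact Or.inr (Or.inr (Or.inr (Or.inr ⟨rfl, h⟩)))
        · simp only [h0, hm, if_false]
          rcases (hcc i (by omega) (by omega)).2.2 w hw with h | h | h
          · exact Or.inr (Or.inl ⟨i - 1, by omega, h⟩)
          · exact Or.inr (Or.inr (Or.inl ⟨by omega, h⟩))
          · exact Or.inl h
  · push Not at hunc
    obtain ⟨a, ha⟩ := hne
    obtain ⟨b, hb, hba⟩ := deg_two hG hc hv ha
    by_cases h3 : ∃ c, G.Adj v c ∧ c ≠ a ∧ c ≠ b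
    · right
      obtain ⟨c, hcv, hca, hcb⟩ := h3
      refine ⟨{ m := 0, z := fun _ => v, r := fun _ => a, a' := b, b' := c,
                isP := ⟨fun i hi j hj _ => by omega, fun _ _ => hv, fun i hi => by omega⟩,
                rcov := fun _ _ => hunc a ha, acov := hunc b hb, bcov := hunc c hcv,
                adjr := fun _ _ => ha, adja := hb, adjb := hcv, nea := hba, neb := hca,
                neab := fun _ => Ne.symm hcb, nbr := ?_ }, 0, le_refl 0, rfl⟩
      intro i hi w hw
      have hi0 : i = 0 := by omega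
      rcases hG.third ha hb hcv (Ne.symm hba) (Ne.symm hca) (Ne.symm hcb) hw with h | h | h
      · exact Or.inl h
      · exact Or.inr (Or.inr (Or.inr (Or.inl ⟨hi0, h⟩)))
      · exact Or.inr (Or.inr (Or.inr (Or.inr ⟨hi0, h⟩)))
    · left
      push Not at h3
      refine ⟨a, b, hv, ha, hb, Ne.symm hba, hunc a ha, hunc b hb, fun w hw => ?_⟩
      by_cases h : w = a
      · exact Or.inl h
      · exact Or.inr (h3 w hw h)

end CLB.H3
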