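import Pool.Agent.Helper3_DA.Min

/-!
The options of a port vertex and the port lemma: a covered vertex `c` next to the removed vertex `x` can be
relabelled so as to avoid any given label.
-/

set_option autoImplicit false

namespace H3DA

variable {V : Type*} {H M : SimpleGraph V} {R : V → Bool}

/-- A vertex `v` with the neighbour `c` ignored: its other neighbours forbid at most two labels of `c`. -/
lemma port_opts (hA : Adm H M R) {v c : V} (hvc : H.Adj v c) (f : V → Q)
    (hf : ∀ w, H.Adj v w → w ≠ c → nr (f v) (f w) = true) :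
    ∃ a b : Q, ∀ z, z ≠ neg a → z ≠ neg b →
      ∃ y, nr y z = true ∧ ∀ w, H.Adj v w → w ≠ c → nr y (f w) = true := by
  classical
  obtain ⟨w1, w2, hw⟩ := hA.d3 v c hvc
  let a : Q := if H.Adj v w1 ∧ w1 ≠ c then f w1 else f v
  let b : Q := if H.Adj v w2 ∧ w2 ≠ c then f w2 else f v
  have ha : nr (f v) a = true := by
    by_cases h : H.Adj v w1 ∧ w1 ≠ c
    · simp only [a, if_pos h]; exact hf w1 h.1 h.2
    · simp only [a, if_neg h]; exact nr_self _
  have hb : nr (f v) b = true := by
    by_cases h : H.Adj v w2 ∧ w2 ≠ c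
    · simp only [b, if_pos h]; exact hf w2 h.1 h.2
    · simp only [b, if_neg h]; exact nr_self _
  refine ⟨a, b, fun z hza hzb => ?_⟩
  obtain ⟨y, h1, h2, h3⟩ := near3 hza hzb (nr_common ha hb)
  refine ⟨y, h1, fun w hvw hwc => ?_⟩
  rcases hw w hvw hwc with h | h
  · subst h
    have : a = f w := by simp only [a, if_pos (And.intro hvw hwc)]
    rw [← this]; exact h2
  · subst h
    have : b = f w := by simp only [b, if_pos (And.intro hvw hwc)]
    rw [← this]; exact h3

lemma beq_of_ne {a b c : Bool} (h : a ≠ b) (h' : a ≠ c) : b = c := by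
  revert a b c; decide

/-- Seven labels do not fill the cube. -/
lemma avoid7 (a1 a2 b1 b2 c1 c2 d : Q) :
    ∃ z : Q, z ≠ a1 ∧ z ≠ a2 ∧ z ≠ b1 ∧ z ≠ b2 ∧ z ≠ c1 ∧ z ≠ c2 ∧ z ≠ d := by
  classical
  have h : ∃ z : Q, z ∉ ({a1, a2, b1, b2, c1, c2, d} : Finset Q) := by
    by_contra hcon
    push Not at hcon
    have h1 : (Finset.univ : Finset Q) ⊆ {a1, a2, b1, b2, c1, c2, d} := fun z _ => hcon z
    have h2 := Finset.card_le_card h1
    rw [Finset.card_univ, card_Q] at h2
    have h3 : ({a1, a2, b1, b2, c1, c2, d} : Finset Q).card ≤ 7 :=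
      (Finset.card_insert_le _ _).trans (Nat.succ_le_succ Finset.card_le_six)
    omega
  obtain ⟨z, hz⟩ := h
  simp only [Finset.mem_insert, Finset.mem_singleton, not_or] at hz
  exact ⟨z, hz⟩

theorem port_lemma (hA : Adm H M R) {x c c' : V} (hxc : H.Adj x c) (hcc : M.Adj c c') (f : V → Q)
    (hf : Off H M (· = x) f) (bad : Q) :
    ∃ g : V → Q, Off H M (· = x) g ∧ g c ≠ bad ∧
      ∀ v, v ≠ c → v ≠ c' → (R v = R c ∨ Cov M v) → g v = f v := by
  classical
  have hRc : R c = R c' := hA.mR c c' hcc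
  have hRx : R x ≠ R c := hA.hR x c hxc
  have hxc' : ¬ H.Adj c' x := fun h => hA.tri c c' x hcc hxc.symm h
  -- the ports
  have port : ∀ (u v : V), R u = R c → ∃ a b : Q, ∀ z, z ≠ neg a → z ≠ neg b → H.Adj u v → v ≠ x →
      ∃ y, nr y z = true ∧ ∀ w, H.Adj v w → w ≠ u → nr y (f w) = true := by
    intro u v hu
    by_cases h : H.Adj u v ∧ v ≠ x
    · obtain ⟨a, b, hab⟩ := port_opts hA h.1.symm f (by
        intro w hvw hwu
        refine hf.1 v w h.2 ?_ hvw
        rintro rfl
        have h1 := hA.hR v w hvw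
        have h2 := hA.hR u v h.1
        rw [hu] at h2
        exact hRx (beq_of_ne h1 (Ne.symm h2)))
      exact ⟨a, b, fun z h1 h2 _ _ => hab z h1 h2⟩
    · exact ⟨(false, false, false), (false, false, false), fun z _ _ h1 h2 => absurd ⟨h1, h2⟩ h⟩
  obtain ⟨v1, hv1⟩ := hA.d2 c c' x hcc hxc.symm
  have hc' : ∃ v2 v3, ∀ w, H.Adj c' w → w = v2 ∨ w = v3 := by
    by_cases h : ∃ v0, H.Adj c' v0
    · obtain ⟨v0, hv0⟩ := h
      obtain ⟨w1, hw1⟩ := hA.d2 c' c v0 hcc.symm hv0
      refine ⟨v0, w1, fun w hw => ?_⟩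
      by_cases h1 : w = v0
      · exact Or.inl h1
      · exact Or.inr (hw1 w hw h1)
    · push Not at h
      exact ⟨c, c, fun w hw => absurd hw (h w)⟩
  obtain ⟨v2, v3, hv23⟩ := hc'
  obtain ⟨a1, b1, h1⟩ := port c v1 rfl
  obtain ⟨a2, b2, h2⟩ := port c' v2 hRc.symm
  obtain ⟨a3, b3, h3⟩ := port c' v3 hRc.symm
  obtain ⟨z, hz1, hz2, hz3, hz4, hz5, hz6, hz7⟩ := avoid7 (neg a1) (neg b1) a2 b2 a3 b3 bad
  have nn : ∀ {p q : Q}, p ≠ q → neg p ≠ neg q := fun h h' => h (neg_inj h')
  have Y1 : ∀ v, H.Adj c v ∧ v ≠ x → ∃ y, nr y z = true ∧ ∀ w, H.Adj v w → w ≠ c → nr y (f w) = true := by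
    intro v hv
    have : v = v1 := hv1 v hv.1 hv.2
    subst this
    exact h1 z hz1 hz2 hv.1 hv.2
  have Y2 : ∀ v, H.Adj c' v → ∃ y, nr y (neg z) = true ∧ ∀ w, H.Adj v w → w ≠ c' → nr y (f w) = true := by
    intro v hv
    have hvx : v ≠ x := by
      rintro rfl
      exact hxc' hv
    rcases hv23 v hv with h | h
    · subst h
      exact h2 (neg z) (nn hz3) (nn hz4) hv hvx
    · subst h
      exact h3 (neg z) (nn hz5) (nn hz6) hv hvx
  choose! y1 hy1 using Y1
  choose! y2 hy2 using Y2
  let g : V → Q := fun v => if v = c then z else if v = c' then neg z else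
    if H.Adj c v ∧ v ≠ x then y1 v else if H.Adj c' v then y2 v else f v
  have hcc' : c' ≠ c := hcc.ne'
  have gc : g c = z := by simp [g]
  have gc' : g c' = neg z := by simp [g, hcc']
  have gsame : ∀ v, v ≠ c → v ≠ c' → R v = R c → g v = f v := by
    intro v h1 h2 h3
    have h4 : ¬ (H.Adj c v ∧ v ≠ x) := fun h => hA.hR c v h.1 h3.symm
    have h5 : ¬ H.Adj c' v := fun h => hA.hR c' v h (hRc.symm.trans h3.symm)
    simp only [g, if_neg h1, if_neg h2, if_neg h4, if_neg h5]
  have gcov : ∀ v, v ≠ c → v ≠ c' → Cov M v → g v = f v := by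
    intro v h1 h2 h3
    have h4 : ¬ (H.Adj c v ∧ v ≠ x) := fun h => hA.lf c v h.1 ⟨c', hcc⟩ h3
    have h5 : ¬ H.Adj c' v := fun h => hA.lf c' v h ⟨c, hcc.symm⟩ h3
    simp only [g, if_neg h1, if_neg h2, if_neg h4, if_neg h5]
  have key : ∀ u v, u ≠ x → v ≠ x → H.Adj u v → R u = R c → nr (g u) (g v) = true := by
    intro u v hux hvx huv hu
    have hRv : R v ≠ R c := fun h => hA.hR u v huv (hu.trans h.symm)
    have hvc : v ≠ c := by rintro rfl; exact hRv rfl
    have hvc' : v ≠ c' := by rintro rfl; exact hRv hRc.symm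
    by_cases hv1' : H.Adj c v
    · have gv : g v = y1 v := by simp [g, hvc, hvc', hv1', hvx]
      rw [gv]
      by_cases huc : u = c
      · rw [huc, gc, nr_comm]
        exact (hy1 v ⟨hv1', hvx⟩).1
      · have huc' : u ≠ c' := by
          rintro rfl
          exact hA.tri c u v hcc hv1' huv
        rw [gsame u huc huc' hu, nr_comm]
        exact (hy1 v ⟨hv1', hvx⟩).2 u huv.symm huc
    · have huc : u ≠ c := by
        rintro rfl
        exact hv1' huv
      by_cases hv2' : H.Adj c' v
      · have gv : g v = y2 v := by simp [g, hvc, hvc', hv1', hv2']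
        rw [gv]
        by_cases huc' : u = c'
        · rw [huc', gc', nr_comm]
          exact (hy2 v hv2').1
        · rw [gsame u huc huc' hu, nr_comm]
          exact (hy2 v hv2').2 u huv.symm huc'
      · have huc' : u ≠ c' := by
          rintro rfl
          exact hv2' huv
        have gv : g v = f v := by simp [g, hvc, hvc', hv1', hv2']
        rw [gv, gsame u huc huc' hu]
        exact hf.1 u v hux hvx huv
  refine ⟨g, ⟨?_, ?_⟩, ?_, ?_⟩
  · intro u v hux hvx huv
    by_cases hu : R u = R c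
    · exact key u v hux hvx huv hu
    · have hv : R v = R c := beq_of_ne (hA.hR u v huv) hu
      rw [nr_comm]
      exact key v u hvx hux huv.symm hv
  · intro u v hux hvx huv
    by_cases huc : u = c
    · subst huc
      have : v = c' := hA.mm u v c' huv hcc
      subst this
      rw [gc, gc']
    · by_cases huc' : u = c'
      · subst huc'
        have : v = c := hA.mm u v c huv hcc.symm
        subst this
        rw [gc, gc', neg_neg]
      · have hvc : v ≠ c := by
          rintro rfl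
          exact huc' (hA.mm v u c' huv.symm hcc)
        have hvc' : v ≠ c' := by
          rintro rfl
          exact huc (hA.mm v u c huv.symm hcc.symm)
        rw [gcov u huc huc' ⟨v, huv⟩, gcov v hvc hvc' ⟨u, huv.symm⟩]
        exact hf.2 u v hux hvx huv
  · rw [gc]; exact hz7
  · intro v h1 h2 h3
    rcases h3 with h3 | h3
    · exact gsame v h1 h2 h3
    · exact gcov v h1 h2 h3

end H3DA
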