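import Pool.Agent.Helper3_DA.RPath
import Pool.Agent.Helper95_CLB.Chn

/-!
The inequality of maximum cuts for a segment of a caterpillar and vertices of a chain, given by index
sets, together with a set of covered vertices outside the chain.
-/

set_option autoImplicit false
set_option linter.unusedSectionVars false

namespace CLB.H3

open Finset Classical
open H3DA (Q neg nr)
open CLB.H95

variable {V : Type*} {G : SimpleGraph V} {R : V → Bool} [Fintype V]

/-- Number of edges from `w` to the segment `z p, ..., z q`. -/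
noncomputable def eS (G : SimpleGraph V) (z : ℕ → V) (p q : ℕ) (w : V) : ℕ :=
  ((Icc p q).filter (fun i => G.Adj w (z i))).card

lemma eS_eq_ek (z : ℕ → V) {p q : ℕ} (hpq : p ≤ q) (w : V) :
    eS G z p q w = ek G (fun i => z (i + p)) (q - p) w := by
  unfold eS ek
  refine Finset.card_bij' (fun i _ => i - p) (fun i _ => i + p) ?_ ?_ ?_ ?_
  · intro i hi
    rw [mem_filter, mem_Icc] at hi
    rw [mem_filter, mem_range]
    refine ⟨by omega, ?_⟩
    show G.Adj w (z (i - p + p))
    rw [show i - p + p = i by omega]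
    exact hi.2
  · intro i hi
    rw [mem_filter, mem_range] at hi
    rw [mem_filter, mem_Icc]
    exact ⟨by omega, hi.2⟩
  · intro i hi
    rw [mem_filter, mem_Icc] at hi
    show i - p + p = i
    omega
  · intro i hi
    show i + p - p = i
    omega

lemma seg_isP {m : ℕ} {z c : ℕ → V} (h : Cat G R m z c) {p q : ℕ} (hp : 1 ≤ p) (hpq : p ≤ q)
    (hq : q ≤ m) : IsP G R (fun i => z (i + p)) (q - p) where
  inj i hi j hj hij := by
    have := h.inj (i + p) (j + p) (by omega) (by omega) (by omega) (by omega) hij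
    omega
  unc i hi := h.unc (i + p) (by omega) (by omega)
  adj i hi := by
    have := h.adjz (i + p) (by omega) (by omega)
    show G.Adj (z (i + p)) (z (i + 1 + p))
    rw [show i + 1 + p = i + p + 1 by omega]
    exact this

variable {k : ℕ} {x y : ℕ → V}

/-- The chosen vertices. -/
noncomputable def chs (x y : ℕ → V) (X Y : Finset ℕ) (O : Finset V) : Finset V :=
  (X.image x ∪ Y.image y) ∪ O

lemma chs_sum (h : Chn G R k x y) {X Y : Finset ℕ} {O : Finset V} (hX : ∀ i ∈ X, 1 ≤ i ∧ i ≤ k)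
    (hY : ∀ i ∈ Y, 1 ≤ i ∧ i ≤ k) (hO : ∀ w ∈ O, ¬ InC k x y w) (g : V → ℕ) :
    ∑ w ∈ chs x y X Y O, g w = ∑ i ∈ X, g (x i) + ∑ i ∈ Y, g (y i) + ∑ w ∈ O, g w := by
  unfold chs
  have h1 : Disjoint (X.image x) (Y.image y) := by
    rw [Finset.disjoint_left]
    intro u hu hu'
    rw [mem_image] at hu hu'
    obtain ⟨i, hi, rfl⟩ := hu
    obtain ⟨j, hj, hji⟩ := hu'
    exact h.xy i j (hX i hi).1 (hX i hi).2 (hY j hj).1 (hY j hj).2 hji.symm
  have h2 : Disjoint (X.image x ∪ Y.image y) O := by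
    rw [Finset.disjoint_left]
    intro u hu hu'
    rw [mem_union, mem_image, mem_image] at hu
    rcases hu with ⟨i, hi, rfl⟩ | ⟨i, hi, rfl⟩
    · exact hO _ hu' (InC.x (hX i hi).1 (hX i hi).2)
    · exact hO _ hu' (InC.y (hY i hi).1 (hY i hi).2)
  rw [Finset.sum_union h2, Finset.sum_union h1, Finset.sum_image, Finset.sum_image]
  · intro i hi j hj hij
    exact h.injy i j (hY i hi).1 (hY i hi).2 (hY j hj).1 (hY j hj).2 hij
  · intro i hi j hj hij
    exact h.injx i j (hX i hi).1 (hX i hi).2 (hX j hj).1 (hX j hj).2 hij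

lemma mem_chs {X Y : Finset ℕ} {O : Finset V} {w : V} :
    w ∈ chs x y X Y O ↔ (∃ i ∈ X, x i = w) ∨ (∃ i ∈ Y, y i = w) ∨ w ∈ O := by
  unfold chs
  rw [mem_union, mem_union, mem_image, mem_image, or_assoc]

lemma x_mem_chs (h : Chn G R k x y) {X Y : Finset ℕ} {O : Finset V} (hX : ∀ i ∈ X, 1 ≤ i ∧ i ≤ k)
    (hY : ∀ i ∈ Y, 1 ≤ i ∧ i ≤ k) (hO : ∀ w ∈ O, ¬ InC k x y w) {i : ℕ} (h1 : 1 ≤ i) (h2 : i ≤ k)
    (hm : x i ∈ chs x y X Y O) : i ∈ X := by
  rw [mem_chs] at hm
  rcases hm with ⟨j, hj, hji⟩ | ⟨j, hj, hji⟩ | hm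
  · rwa [← h.injx j i (hX j hj).1 (hX j hj).2 h1 h2 hji]
  · exact absurd hji.symm (h.xy i j h1 h2 (hY j hj).1 (hY j hj).2)
  · exact absurd (InC.x h1 h2) (hO _ hm)

lemma y_mem_chs (h : Chn G R k x y) {X Y : Finset ℕ} {O : Finset V} (hX : ∀ i ∈ X, 1 ≤ i ∧ i ≤ k)
    (hY : ∀ i ∈ Y, 1 ≤ i ∧ i ≤ k) (hO : ∀ w ∈ O, ¬ InC k x y w) {i : ℕ} (h1 : 1 ≤ i) (h2 : i ≤ k)
    (hm : y i ∈ chs x y X Y O) : i ∈ Y := by
  rw [mem_chs] at hm
  rcases hm with ⟨j, hj, hji⟩ | ⟨j, hj, hji⟩ | hm
  · exact absurd hji (h.xy j i (hX j hj).1 (hX j hj).2 h1 h2)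
  · rwa [← h.injy j i (hY j hj).1 (hY j hj).2 h1 h2 hji]
  · exact absurd (InC.y h1 h2) (hO _ hm)

/-- **The inequality for chains.** Segment `z p, ..., z q` of a caterpillar, vertices `x i` (`i ∈ X`),
`y i` (`i ∈ Y`) of the chain, `O` covered vertices outside. `C` is the number of further links. -/
theorem rlaw_chain_gen (hG : ClassC G R) (h : Chn G R k x y) {m : ℕ} {z c : ℕ → V} (hcat : Cat G R m z c)
    {p q : ℕ} (hp : 1 ≤ p) (hpq : p ≤ q) (hq : q ≤ m) {X Y : Finset ℕ} {O : Finset V}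
    (hX : ∀ i ∈ X, 1 ≤ i ∧ i ≤ k) (hY : ∀ i ∈ Y, 1 ≤ i ∧ i ≤ k)
    (hO : ∀ w ∈ O, Cov G R w ∧ ¬ InC k x y w) (L : ℕ)
    (hL : L = if k ∈ Y ∧ 1 ∈ X ∧ Lk G R (y k) (x 1) then 1 else 0) :
    2 * ((Y.filter (fun i => i < k ∧ i + 1 ∈ X)).card + L)
      + 2 * (∑ i ∈ X, eS G z p q (x i) + ∑ i ∈ Y, eS G z p q (y i) + ∑ w ∈ O, eS G z p q w)
      ≤ (q - p) + 3 + (X.card + Y.card + O.card) + (2 * (X ∩ Y).card + mmS G R O) := by
  have hO' : ∀ w ∈ O, ¬ InC k x y w := fun w hw => (hO w hw).2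
  set S := chs x y X Y O with hS
  have hcov : ∀ w ∈ S, Cov G R w := by
    intro w hw
    rw [hS, mem_chs] at hw
    rcases hw with ⟨i, hi, rfl⟩ | ⟨i, hi, rfl⟩ | hw
    · exact h.cov (InC.x (hX i hi).1 (hX i hi).2)
    · exact h.cov (InC.y (hY i hi).1 (hY i hi).2)
    · exact (hO w hw).1
  have key := rlaw_path hG (seg_isP hcat hp hpq hq) S hcov
  have e1 : ∑ w ∈ S, ek G (fun i => z (i + p)) (q - p) w
      = ∑ i ∈ X, eS G z p q (x i) + ∑ i ∈ Y, eS G z p q (y i) + ∑ w ∈ O, eS G z p q w := by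
    rw [← chs_sum h hX hY hO' (fun w => eS G z p q w)]
    exact Finset.sum_congr rfl fun w _ => (eS_eq_ek z hpq w).symm
  have e2 : S.card = X.card + Y.card + O.card := by
    have := chs_sum h hX hY hO' (fun _ => 1)
    simpa using this
  have e3 : mmS G R S ≤ 2 * (X ∩ Y).card + mmS G R O := by
    unfold mmS
    rw [hS, chs_sum h hX hY hO' (fun w => (filter (fun v => Me G R w v) (chs x y X Y O)).card)]
    have a1 : ∑ i ∈ X, (filter (fun v => Me G R (x i) v) (chs x y X Y O)).card ≤ (X ∩ Y).card := by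
      have : (X ∩ Y).card = ∑ i ∈ X, if i ∈ Y then 1 else 0 := by
        rw [Finset.sum_boole]
        simp [Finset.filter_mem_eq_inter]
      rw [this]
      refine Finset.sum_le_sum fun i hi => ?_
      have hi' := hX i hi
      by_cases hiY : i ∈ Y
      · rw [if_pos hiY]
        refine Finset.card_le_one.2 fun u hu v hv => ?_
        rw [mem_filter] at hu hv
        exact hG.matching hu.2 hv.2
      · rw [if_neg hiY, Nat.le_zero, Finset.card_eq_zero, Finset.filter_eq_empty_iff]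
        intro v hv hmv
        have : v = y i := hG.matching hmv (h.me i hi'.1 hi'.2)
        rw [this] at hv
        exact hiY (y_mem_chs h hX hY hO' hi'.1 hi'.2 hv)
    have a2 : ∑ i ∈ Y, (filter (fun v => Me G R (y i) v) (chs x y X Y O)).card ≤ (X ∩ Y).card := by
      have : (X ∩ Y).card = ∑ i ∈ Y, if i ∈ X then 1 else 0 := by
        rw [Finset.sum_boole, Finset.inter_comm]
        simp [Finset.filter_mem_eq_inter]
      rw [this]
      refine Finset.sum_le_sum fun i hi => ?_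
      have hi' := hY i hi
      by_cases hiX : i ∈ X
      · rw [if_pos hiX]
        refine Finset.card_le_one.2 fun u hu v hv => ?_
        rw [mem_filter] at hu hv
        exact hG.matching hu.2 hv.2
      · rw [if_neg hiX, Nat.le_zero, Finset.card_eq_zero, Finset.filter_eq_empty_iff]
        intro v hv hmv
        have : v = x i := hG.matching hmv (h.me i hi'.1 hi'.2).symm
        rw [this] at hv
        exact hiX (x_mem_chs h hX hY hO' hi'.1 hi'.2 hv)
    have a3 : ∑ w ∈ O, (filter (fun v => Me G R w v) (chs x y X Y O)).card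
        ≤ ∑ w ∈ O, (filter (fun v => Me G R w v) O).card := by
      refine Finset.sum_le_sum fun w hw => Finset.card_le_card fun v hv => ?_
      rw [mem_filter] at hv ⊢
      refine ⟨?_, hv.2⟩
      have hv1 := hv.1
      rw [mem_chs] at hv1
      rcases hv1 with ⟨i, hi, rfl⟩ | ⟨i, hi, rfl⟩ | hv1
      · exact absurd (h.mate hG (InC.x (hX i hi).1 (hX i hi).2) hv.2.symm) (hO' w hw)
      · exact absurd (h.mate hG (InC.y (hY i hi).1 (hY i hi).2) hv.2.symm) (hO' w hw)
      · exact hv1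
    omega
  have e4 : 2 * ((Y.filter (fun i => i < k ∧ i + 1 ∈ X)).card + L) ≤ llS G R S := by
    unfold llS
    rw [hS, chs_sum h hX hY hO' (fun w => (filter (fun v => He G R w v) (chs x y X Y O)).card)]
    have b1 : (Y.filter (fun i => i < k ∧ i + 1 ∈ X)).card + L
        ≤ ∑ i ∈ Y, (filter (fun v => He G R (y i) v) (chs x y X Y O)).card := by
      have t : (Y.filter (fun i => i < k ∧ i + 1 ∈ X)).card + L
          ≤ ∑ i ∈ Y, if (i < k ∧ i + 1 ∈ X) ∨ (i = k ∧ 1 ∈ X ∧ Lk G R (y k) (x 1)) then 1 else 0 := by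
        rw [Finset.sum_boole]
        simp only [Nat.cast_id]
        by_cases hc : k ∈ Y ∧ 1 ∈ X ∧ Lk G R (y k) (x 1)
        · rw [hL, if_pos hc]
          have hk : k ∉ Y.filter (fun i => i < k ∧ i + 1 ∈ X) := by
            rw [mem_filter]; omega
          rw [← Finset.card_insert_of_notMem hk]
          refine Finset.card_le_card fun i hi => ?_
          rw [mem_insert, mem_filter] at hi
          rw [mem_filter]
          rcases hi with rfl | hi
          · exact ⟨hc.1, Or.inr ⟨rfl, hc.2⟩⟩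
          · exact ⟨hi.1, Or.inl hi.2⟩
        · rw [hL, if_neg hc, add_zero]
          refine Finset.card_le_card fun i hi => ?_
          rw [mem_filter] at hi ⊢
          exact ⟨hi.1, Or.inl hi.2⟩
      refine t.trans (Finset.sum_le_sum fun i hi => ?_)
      split_ifs with hc
      · rcases hc with ⟨h1, h2⟩ | ⟨h1, h2, h3⟩
        · exact Finset.card_pos.2 ⟨x (i + 1), by
            rw [mem_filter, mem_chs]
            exact ⟨Or.inl ⟨i + 1, h2, rfl⟩, (h.lk i (hY i hi).1 h1).1⟩⟩
        · subst h1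
          exact Finset.card_pos.2 ⟨x 1, by
            rw [mem_filter, mem_chs]
            exact ⟨Or.inl ⟨1, h2, rfl⟩, h3.1⟩⟩
      · exact Nat.zero_le _
    have b2 : (Y.filter (fun i => i < k ∧ i + 1 ∈ X)).card + L
        ≤ ∑ i ∈ X, (filter (fun v => He G R (x i) v) (chs x y X Y O)).card := by
      have t : (Y.filter (fun i => i < k ∧ i + 1 ∈ X)).card + L
          ≤ ∑ i ∈ X, if (2 ≤ i ∧ i - 1 ∈ Y) ∨ (i = 1 ∧ k ∈ Y ∧ Lk G R (y k) (x 1)) then 1 else 0 := by
        rw [Finset.sum_boole]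
        simp only [Nat.cast_id]
        have hcard : (Y.filter (fun i => i < k ∧ i + 1 ∈ X)).card
            = ((Y.filter (fun i => i < k ∧ i + 1 ∈ X)).image (fun i => i + 1)).card :=
          (Finset.card_image_of_injective _ (fun a b hab => by simpa using hab)).symm
        by_cases hc : k ∈ Y ∧ 1 ∈ X ∧ Lk G R (y k) (x 1)
        · rw [hL, if_pos hc, hcard]
          have hk : 1 ∉ (Y.filter (fun i => i < k ∧ i + 1 ∈ X)).image (fun i => i + 1) := by
            rw [mem_image]
            rintro ⟨i, hi, hi'⟩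
            rw [mem_filter] at hi
            have := (hY i hi.1).1
            omega
          rw [← Finset.card_insert_of_notMem hk]
          refine Finset.card_le_card fun i hi => ?_
          rw [mem_insert, mem_image] at hi
          rw [mem_filter]
          rcases hi with rfl | ⟨j, hj, rfl⟩
          · exact ⟨hc.2.1, Or.inr ⟨rfl, hc.1, hc.2.2⟩⟩
          · rw [mem_filter] at hj
            have := (hY j hj.1).1
            exact ⟨hj.2.2, Or.inl ⟨by omega, by simpa using hj.1⟩⟩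
        · rw [hL, if_neg hc, add_zero, hcard]
          refine Finset.card_le_card fun i hi => ?_
          rw [mem_image] at hi
          obtain ⟨j, hj, rfl⟩ := hi
          rw [mem_filter] at hj ⊢
          have := (hY j hj.1).1
          exact ⟨hj.2.2, Or.inl ⟨by omega, by simpa using hj.1⟩⟩
      refine t.trans (Finset.sum_le_sum fun i hi => ?_)
      split_ifs with hc
      · rcases hc with ⟨h1, h2⟩ | ⟨h1, h2, h3⟩
        · have hlk := h.lk (i - 1) (hY _ h2).1 (by have := (hX i hi).2; omega)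
          rw [show i - 1 + 1 = i by omega] at hlk
          exact Finset.card_pos.2 ⟨y (i - 1), by
            rw [mem_filter, mem_chs]
            exact ⟨Or.inr (Or.inl ⟨i - 1, h2, rfl⟩), hlk.symm.1⟩⟩
        · subst h1
          exact Finset.card_pos.2 ⟨y k, by
            rw [mem_filter, mem_chs]
            exact ⟨Or.inr (Or.inl ⟨k, h2, rfl⟩), h3.symm.1⟩⟩
      · exact Nat.zero_le _
    omega
  rw [e1, e2] at key
  omega

/-- The inequality for open chains. -/
theorem rlaw_chain (hG : ClassC G R) (h : Chn G R k x y) {m : ℕ} {z c : ℕ → V} (hcat : Cat G R m z c)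
    {p q : ℕ} (hp : 1 ≤ p) (hpq : p ≤ q) (hq : q ≤ m) {X Y : Finset ℕ} {O : Finset V}
    (hX : ∀ i ∈ X, 1 ≤ i ∧ i ≤ k) (hY : ∀ i ∈ Y, 1 ≤ i ∧ i ≤ k)
    (hO : ∀ w ∈ O, Cov G R w ∧ ¬ InC k x y w) :
    2 * (Y.filter (fun i => i < k ∧ i + 1 ∈ X)).card
      + 2 * (∑ i ∈ X, eS G z p q (x i) + ∑ i ∈ Y, eS G z p q (y i) + ∑ w ∈ O, eS G z p q w)
      ≤ (q - p) + 3 + (X.card + Y.card + O.card) + (2 * (X ∩ Y).card + mmS G R O) := by
  have := rlaw_chain_gen hG h hcat hp hpq hq hX hY hO _ rfl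
  omega

end CLB.H3
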