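import Pool.Agent.Helper3_DA.Cat

/-!
The inequality of maximum cuts for a path of uncovered vertices together with a set of covered vertices.
-/

set_option autoImplicit false
set_option linter.unusedSectionVars false

namespace CLB.H3

open Finset Classical
open H3DA (Q neg nr)
open CLB.H95

variable {V : Type*} {G : SimpleGraph V} {R : V → Bool}

/-- Number of edges from `w` to the path `z 0, ..., z l`. -/
noncomputable def ek (G : SimpleGraph V) (z : ℕ → V) (l : ℕ) (w : V) : ℕ :=
  ((range (l + 1)).filter (fun i => G.Adj w (z i))).card

/-- Twice the number of matching edges inside `S`. -/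
noncomputable def mmS (G : SimpleGraph V) (R : V → Bool) (S : Finset V) : ℕ :=
  ∑ w ∈ S, (S.filter (fun v => Me G R w v)).card

/-- Twice the number of links inside `S`. -/
noncomputable def llS (G : SimpleGraph V) (R : V → Bool) (S : Finset V) : ℕ :=
  ∑ w ∈ S, (S.filter (fun v => He G R w v)).card

variable [Fintype V]

theorem rlaw_path (hG : ClassC G R) {z : ℕ → V} {l : ℕ} (hz : IsP G R z l) (S : Finset V)
    (hS : ∀ w ∈ S, Cov G R w) :
    llS G R S + 2 * ∑ w ∈ S, ek G z l w ≤ l + 3 + S.card + mmS G R S := by
  set P : Finset V := (range (l + 1)).image z with hP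
  have hinj : Set.InjOn z (range (l + 1) : Finset ℕ) := by
    intro i hi j hj hij
    simp only [coe_range, Set.mem_Iio] at hi hj
    exact hz.inj i (by omega) j (by omega) hij
  have hPc : P.card = l + 1 := by
    rw [hP, Finset.card_image_of_injOn hinj, card_range]
  have hPu : ∀ u ∈ P, ¬ Cov G R u := by
    intro u hu
    rw [hP, mem_image] at hu
    obtain ⟨i, hi, rfl⟩ := hu
    rw [mem_range] at hi
    exact hz.unc i (by omega)
  have hd : Disjoint P S := by
    rw [Finset.disjoint_left]
    intro u hu hu'
    exact hPu u hu (hS u hu')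
  have h0 := hG.sig0 (P ∪ S)
  unfold sig at h0
  rw [Finset.card_union_of_disjoint hd, hPc, Finset.sum_union hd] at h0
  have hic : ∀ u, ic G (P ∪ S) u = (P.filter (fun v => G.Adj u v)).card
      + (S.filter (fun v => G.Adj u v)).card := by
    intro u
    unfold ic
    rw [Finset.filter_union, Finset.card_union_of_disjoint (Finset.disjoint_filter_filter hd)]
  -- the part of the path
  have hA : 2 * (l : ℤ) + ∑ w ∈ S, (ek G z l w : ℤ) ≤ ∑ u ∈ P, ((ic G (P ∪ S) u : ℤ)
      + 2 * mo G R (P ∪ S) u) := by
    have h1 : ∑ u ∈ P, ((P.filter (fun v => G.Adj u v)).card + (S.filter (fun v => G.Adj u v)).card : ℤ)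
        ≤ ∑ u ∈ P, ((ic G (P ∪ S) u : ℤ) + 2 * mo G R (P ∪ S) u) := by
      refine Finset.sum_le_sum fun u _ => ?_
      rw [hic u]
      push_cast
      have : (0 : ℤ) ≤ mo G R (P ∪ S) u := by positivity
      linarith
    refine le_trans ?_ h1
    rw [Finset.sum_add_distrib]
    refine add_le_add ?_ ?_
    · have h2 : ∑ i ∈ range (l + 1), ((if 0 < i then 1 else 0) + (if i < l then 1 else 0))
          ≤ ∑ u ∈ P, (P.filter (fun v => G.Adj u v)).card := by
        rw [hP, Finset.sum_image hinj, ← hP]
        refine Finset.sum_le_sum fun i hi => ?_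
        rw [mem_range] at hi
        have hin : ∀ j ≤ l, z j ∈ P := fun j hj => by
          rw [hP, mem_image]
          exact ⟨j, by rw [mem_range]; omega, rfl⟩
        by_cases h3 : 0 < i
        · have ha : G.Adj (z i) (z (i - 1)) := by
            have := hz.adj (i - 1) (by omega)
            rw [show i - 1 + 1 = i by omega] at this
            exact this.symm
          by_cases h4 : i < l
          · rw [if_pos h3, if_pos h4]
            refine Finset.one_lt_card.2 ⟨z (i - 1), ?_, z (i + 1), ?_, ?_⟩
            · rw [mem_filter]; exact ⟨hin _ (by omega), ha⟩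
            · rw [mem_filter]; exact ⟨hin _ (by omega), hz.adj i h4⟩
            · intro h
              have := hz.inj _ (by omega) _ (by omega) h
              omega
          · rw [if_pos h3, if_neg h4]
            exact Finset.card_pos.2 ⟨z (i - 1), by rw [mem_filter]; exact ⟨hin _ (by omega), ha⟩⟩
        · by_cases h4 : i < l
          · rw [if_neg h3, if_pos h4]
            exact Finset.card_pos.2 ⟨z (i + 1), by
              rw [mem_filter]; exact ⟨hin _ (by omega), hz.adj i h4⟩⟩
          · rw [if_neg h3, if_neg h4]
            exact Nat.zero_le _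
      have h3 : ∑ i ∈ range (l + 1), ((if 0 < i then 1 else 0) + (if i < l then 1 else 0)) = 2 * l := by
        rw [Finset.sum_add_distrib]
        have e1 : ∑ i ∈ range (l + 1), (if 0 < i then 1 else 0) = l := by
          rw [Finset.sum_range_succ']
          simp
        have e2 : ∑ i ∈ range (l + 1), (if i < l then 1 else 0) = l := by
          rw [Finset.sum_range_succ]
          simp only [lt_irrefl, if_false, add_zero]
          rw [Finset.sum_congr rfl (fun i hi => if_pos (Finset.mem_range.1 hi))]
          simp
        rw [e1, e2]; ring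
      rw [h3] at h2
      have : ((2 * l : ℕ) : ℤ) ≤ ((∑ u ∈ P, (P.filter (fun v => G.Adj u v)).card : ℕ) : ℤ) := by
        exact_mod_cast h2
      push_cast at this
      exact this
    · have h2 := Finset.sum_card_bipartiteAbove_eq_sum_card_bipartiteBelow (s := S) (t := P)
        (fun w u => G.Adj w u)
      have h3 : ∀ w ∈ S, ek G z l w = (P.bipartiteAbove (fun w u => G.Adj w u) w).card := by
        intro w _
        unfold ek Finset.bipartiteAbove
        rw [hP, Finset.filter_image, Finset.card_image_of_injOn]
        exact hinj.mono (by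
          intro i hi
          simp only [coe_filter, Set.mem_setOf_eq] at hi
          exact hi.1)
      have h4 : ∑ w ∈ S, ek G z l w = ∑ u ∈ P, (S.filter (fun v => G.Adj u v)).card := by
        rw [Finset.sum_congr rfl h3, h2]
        refine Finset.sum_congr rfl fun u _ => ?_
        unfold Finset.bipartiteBelow
        congr 1
        ext v
        simp only [mem_filter, G.adj_comm]
      have : ((∑ w ∈ S, ek G z l w : ℕ) : ℤ) ≤ ((∑ u ∈ P, (S.filter (fun v => G.Adj u v)).card : ℕ) : ℤ) := by
        exact_mod_cast h4.le
      push_cast at this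
      exact this
  -- the part of the covered vertices
  have hB : ∑ w ∈ S, ((ek G z l w : ℤ) + (S.filter (fun v => He G R w v)).card + 2
      - (S.filter (fun v => Me G R w v)).card) ≤ ∑ u ∈ S, ((ic G (P ∪ S) u : ℤ)
      + 2 * mo G R (P ∪ S) u) := by
    refine Finset.sum_le_sum fun w hw => ?_
    rw [hic w]
    have h1 : (P.filter (fun v => G.Adj w v)).card = ek G z l w := by
      unfold ek
      rw [hP, Finset.filter_image, Finset.card_image_of_injOn]
      exact hinj.mono (by
        intro i hi
        simp only [coe_filter, Set.mem_setOf_eq] at hi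
        exact hi.1)
    have h2 : (S.filter (fun v => G.Adj w v)).card = (S.filter (fun v => Me G R w v)).card
        + (S.filter (fun v => He G R w v)).card := by
      rw [← Finset.card_union_of_disjoint]
      · congr 1
        ext v
        simp only [mem_filter, mem_union, adj_iff (R := R)]
        tauto
      · rw [Finset.disjoint_filter]
        intro v _ h h'
        exact h.not_He h'
    have h3 : 1 ≤ (S.filter (fun v => Me G R w v)).card + mo G R (P ∪ S) w := by
      obtain ⟨m, hm⟩ := hS w hw
      by_cases hmS : m ∈ S
      · have : 0 < (S.filter (fun v => Me G R w v)).card :=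
          Finset.card_pos.2 ⟨m, by rw [mem_filter]; exact ⟨hmS, hm⟩⟩
        omega
      · have := one_le_mo (G := G) (R := R) (Z := P ∪ S) (x := w) (m := m) (by
          rw [mem_union, not_or]
          exact ⟨fun h => hPu m h hm.cov', hmS⟩) hm
        omega
    rw [h1, h2]
    push_cast
    have h3' : (1 : ℤ) ≤ (S.filter (fun v => Me G R w v)).card + mo G R (P ∪ S) w := by
      exact_mod_cast h3
    linarith
  have hC : ∑ w ∈ S, ((ek G z l w : ℤ) + (S.filter (fun v => He G R w v)).card + 2
      - (S.filter (fun v => Me G R w v)).card) = (∑ w ∈ S, (ek G z l w : ℤ)) + llS G R S + 2 * S.card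
      - mmS G R S := by
    unfold llS mmS
    rw [Finset.sum_sub_distrib, Finset.sum_add_distrib, Finset.sum_add_distrib]
    push_cast
    simp only [Finset.sum_const, nsmul_eq_mul]
    ring
  rw [hC] at hB
  have hD : (llS G R S : ℤ) + 2 * ∑ w ∈ S, (ek G z l w : ℤ) ≤ l + 3 + S.card + mmS G R S := by
    push_cast at h0
    linarith
  exact_mod_cast hD

end CLB.H3
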