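import Pool.Agent.Helper3_DA.Struct

/-!
The inequality of maximum cuts for an arbitrary set of uncovered vertices together with a set of covered
vertices; two caterpillars.
-/

set_option autoImplicit false
set_option linter.unusedSectionVars false

namespace CLB.H3

open Finset Classical
open H3DA (Q neg nr)
open CLB.H95

variable {V : Type*} {G : SimpleGraph V} {R : V → Bool}

/-- Twice the number of edges inside `U`. -/
noncomputable def uuS (G : SimpleGraph V) (U : Finset V) : ℕ :=
  ∑ u ∈ U, (U.filter (fun v => G.Adj u v)).card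

/-- Number of edges from `w` to `U`. -/
noncomputable def eU (G : SimpleGraph V) (U : Finset V) (w : V) : ℕ :=
  (U.filter (fun v => G.Adj w v)).card

variable [Fintype V]

/-- The general inequality. -/
theorem rlaw_sets (hG : ClassC G R) (P S : Finset V) (hPu : ∀ u ∈ P, ¬ Cov G R u)
    (hS : ∀ w ∈ S, Cov G R w) :
    llS G R S + 2 * ∑ w ∈ S, eU G P w + uuS G P ≤ 3 * P.card + S.card + mmS G R S := by
  have hd : Disjoint P S := by
    rw [Finset.disjoint_left]
    intro u hu hu'
    exact hPu u hu (hS u hu')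
  have h0 := hG.sig0 (P ∪ S)
  unfold sig at h0
  rw [Finset.card_union_of_disjoint hd, Finset.sum_union hd] at h0
  have hic : ∀ u, ic G (P ∪ S) u = (P.filter (fun v => G.Adj u v)).card
      + (S.filter (fun v => G.Adj u v)).card := by
    intro u
    unfold ic
    rw [Finset.filter_union, Finset.card_union_of_disjoint (Finset.disjoint_filter_filter hd)]
  have hA : (uuS G P : ℤ) + ∑ w ∈ S, (eU G P w : ℤ) ≤ ∑ u ∈ P, ((ic G (P ∪ S) u : ℤ)
      + 2 * mo G R (P ∪ S) u) := by
    have h1 : ∑ u ∈ P, ((P.filter (fun v => G.Adj u v)).card + (S.filter (fun v => G.Adj u v)).card : ℤ)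
        ≤ ∑ u ∈ P, ((ic G (P ∪ S) u : ℤ) + 2 * mo G R (P ∪ S) u) := by
      refine Finset.sum_le_sum fun u _ => ?_
      rw [hic u]
      push_cast
      have : (0 : ℤ) ≤ mo G R (P ∪ S) u := by positivity
      linarith
    refine le_trans ?_ h1
    rw [Finset.sum_add_distrib]
    refine add_le_add ?_ ?_
    · unfold uuS; push_cast; exact le_rfl
    · have h2 := Finset.sum_card_bipartiteAbove_eq_sum_card_bipartiteBelow (s := S) (t := P)
        (fun w u => G.Adj w u)
      have h4 : ∑ w ∈ S, eU G P w = ∑ u ∈ P, (S.filter (fun v => G.Adj u v)).card := by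
        have h3 : ∑ w ∈ S, eU G P w = ∑ w ∈ S, (P.bipartiteAbove (fun w u => G.Adj w u) w).card := by
          rfl
        rw [h3, h2]
        refine Finset.sum_congr rfl fun u _ => ?_
        unfold Finset.bipartiteBelow
        congr 1
        ext v
        simp only [mem_filter, G.adj_comm]
      have : ((∑ w ∈ S, eU G P w : ℕ) : ℤ) ≤ ((∑ u ∈ P, (S.filter (fun v => G.Adj u v)).card : ℕ) : ℤ) := by
        exact_mod_cast h4.le
      push_cast at this
      exact this
  have hB : ∑ w ∈ S, ((eU G P w : ℤ) + (S.filter (fun v => He G R w v)).card + 2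
      - (S.filter (fun v => Me G R w v)).card) ≤ ∑ u ∈ S, ((ic G (P ∪ S) u : ℤ)
      + 2 * mo G R (P ∪ S) u) := by
    refine Finset.sum_le_sum fun w hw => ?_
    rw [hic w]
    have h1 : (P.filter (fun v => G.Adj w v)).card = eU G P w := rfl
    have h2 : (S.filter (fun v => G.Adj w v)).card = (S.filter (fun v => Me G R w v)).card
        + (S.filter (fun v => He G R w v)).card := by
      rw [← Finset.card_union_of_disjoint]
      · congr 1
        ext v
        simp only [mem_filter, mem_union, adj_iff (R := R)]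
        tauto
      · rw [Finset.disjoint_filter]
        intro v _ h h'
        exact h.not_He h'
    have h3 : 1 ≤ (S.filter (fun v => Me G R w v)).card + mo G R (P ∪ S) w := by
      obtain ⟨m, hm⟩ := hS w hw
      by_cases hmS : m ∈ S
      · have : 0 < (S.filter (fun v => Me G R w v)).card :=
          Finset.card_pos.2 ⟨m, by rw [mem_filter]; exact ⟨hmS, hm⟩⟩
        omega
      · have := one_le_mo (G := G) (R := R) (Z := P ∪ S) (x := w) (m := m) (by
          rw [mem_union, not_or]
          exact ⟨fun h => hPu m h hm.cov', hmS⟩) hm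
        omega
    rw [h1, h2]
    push_cast
    have h3' : (1 : ℤ) ≤ (S.filter (fun v => Me G R w v)).card + mo G R (P ∪ S) w := by
      exact_mod_cast h3
    linarith
  have hC : ∑ w ∈ S, ((eU G P w : ℤ) + (S.filter (fun v => He G R w v)).card + 2
      - (S.filter (fun v => Me G R w v)).card) = (∑ w ∈ S, (eU G P w : ℤ)) + llS G R S + 2 * S.card
      - mmS G R S := by
    unfold llS mmS
    rw [Finset.sum_sub_distrib, Finset.sum_add_distrib, Finset.sum_add_distrib]
    push_cast
    simp only [Finset.sum_const, nsmul_eq_mul]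
    ring
  rw [hC] at hB
  have hD : (llS G R S : ℤ) + 2 * ∑ w ∈ S, (eU G P w : ℤ) + uuS G P ≤ 3 * P.card + S.card
      + mmS G R S := by
    push_cast at h0
    linarith
  exact_mod_cast hD

variable {m : ℕ} {z c : ℕ → V}

/-- The vertices of a caterpillar. -/
noncomputable def zs (m : ℕ) (z : ℕ → V) : Finset V := (Icc 1 m).image z

lemma mem_zs {m : ℕ} {z : ℕ → V} {v : V} : v ∈ zs m z ↔ ∃ i, 1 ≤ i ∧ i ≤ m ∧ z i = v := by
  unfold zs; rw [mem_image]
  constructor
  · rintro ⟨i, hi, h⟩; rw [mem_Icc] at hi; exact ⟨i, hi.1, hi.2, h⟩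
  · rintro ⟨i, h1, h2, h⟩; exact ⟨i, mem_Icc.2 ⟨h1, h2⟩, h⟩

lemma zs_card (h : Cat G R m z c) : (zs m z).card = m := by
  unfold zs
  rw [Finset.card_image_of_injOn, Nat.card_Icc]
  · omega
  · intro i hi j hj hij
    simp only [coe_Icc, Set.mem_Icc] at hi hj
    exact h.inj i j hi.1 hi.2 hj.1 hj.2 hij

lemma zs_unc (h : Cat G R m z c) : ∀ u ∈ zs m z, ¬ Cov G R u := by
  intro u hu
  obtain ⟨i, h1, h2, rfl⟩ := mem_zs.1 hu
  exact h.unc i h1 h2

/-- Edges inside a caterpillar. -/
lemma uuS_cat (h : Cat G R m z c) : 2 * (m - 1) ≤ uuS G (zs m z) := by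
  have hm := h.pos
  unfold uuS
  have hinj : Set.InjOn z (Icc 1 m : Finset ℕ) := by
    intro i hi j hj hij
    simp only [coe_Icc, Set.mem_Icc] at hi hj
    exact h.inj i j hi.1 hi.2 hj.1 hj.2 hij
  have h2 : ∑ i ∈ Icc 1 m, ((if 1 < i then 1 else 0) + (if i < m then 1 else 0))
      ≤ ∑ u ∈ zs m z, ((zs m z).filter (fun v => G.Adj u v)).card := by
    unfold zs
    rw [Finset.sum_image hinj]
    refine Finset.sum_le_sum fun i hi => ?_
    rw [mem_Icc] at hi
    have hin : ∀ j, 1 ≤ j → j ≤ m → z j ∈ (Icc 1 m).image z := fun j hj hj' =>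
      mem_image.2 ⟨j, mem_Icc.2 ⟨hj, hj'⟩, rfl⟩
    by_cases h3 : 1 < i
    · have ha : G.Adj (z i) (z (i - 1)) := by
        have := h.adjz (i - 1) (by omega) (by omega)
        rw [show i - 1 + 1 = i by omega] at this
        exact this.symm
      by_cases h4 : i < m
      · rw [if_pos h3, if_pos h4]
        refine Finset.one_lt_card.2 ⟨z (i - 1), ?_, z (i + 1), ?_, ?_⟩
        · rw [mem_filter]; exact ⟨hin _ (by omega) (by omega), ha⟩
        · rw [mem_filter]; exact ⟨hin _ (by omega) (by omega), h.adjz i hi.1 h4⟩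
        · intro h'
          have := h.inj _ _ (by omega) (by omega) (by omega) (by omega) h'
          omega
      · rw [if_pos h3, if_neg h4]
        exact Finset.card_pos.2 ⟨z (i - 1), by
          rw [mem_filter]; exact ⟨hin _ (by omega) (by omega), ha⟩⟩
    · by_cases h4 : i < m
      · rw [if_neg h3, if_pos h4]
        exact Finset.card_pos.2 ⟨z (i + 1), by
          rw [mem_filter]; exact ⟨hin _ (by omega) (by omega), h.adjz i hi.1 h4⟩⟩
      · rw [if_neg h3, if_neg h4]
        exact Nat.zero_le _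
  refine le_trans (le_of_eq ?_) h2
  rw [Finset.sum_add_distrib]
  have e1 : ∑ i ∈ Icc 1 m, (if 1 < i then 1 else 0) = m - 1 := by
    rw [Finset.sum_boole]
    simp only [Nat.cast_id]
    have : (Icc 1 m).filter (fun i => 1 < i) = Icc 2 m := by
      ext i; rw [mem_filter, mem_Icc, mem_Icc]; omega
    rw [this, Nat.card_Icc]; omega
  have e2 : ∑ i ∈ Icc 1 m, (if i < m then 1 else 0) = m - 1 := by
    rw [Finset.sum_boole]
    simp only [Nat.cast_id]
    have : (Icc 1 m).filter (fun i => i < m) = Icc 1 (m - 1) := by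
      ext i; rw [mem_filter, mem_Icc, mem_Icc]; omega
    rw [this, Nat.card_Icc]; omega
  rw [e1, e2]; omega

/-- The number of port edges. -/
lemma eU_sum_ge (hcat : Cat G R m z c) {S : Finset V} {J : Finset ℕ}
    (hJ : ∀ j ∈ J, j ≤ m + 1) (hS : ∀ j ∈ J, c j ∈ S) :
    J.card ≤ ∑ w ∈ S, eU G (zs m z) w := by
  have hm := hcat.pos
  refine (eS_sum_ge hcat (p := 1) (q := m) (fun j hj => ⟨hJ j hj, one_le_pos hm,
    pos_le hm (hJ j hj)⟩) hS).trans (Finset.sum_le_sum fun w _ => ?_)
  unfold eS eU zs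
  have hinj : Set.InjOn z (Icc 1 m : Finset ℕ) := by
    intro i hi j hj hij
    simp only [coe_Icc, Set.mem_Icc] at hi hj
    exact hcat.inj i j hi.1 hi.2 hj.1 hj.2 hij
  rw [Finset.filter_image, Finset.card_image_of_injOn]
  exact hinj.mono (by
    intro i hi
    simp only [coe_filter, Set.mem_setOf_eq] at hi
    exact Finset.mem_coe.2 hi.1)

/-- Two disjoint caterpillars. -/
theorem rlaw_two (hG : ClassC G R) {m' : ℕ} {z' c' : ℕ → V} (h : Cat G R m z c)
    (h' : Cat G R m' z' c') (hdis : Disjoint (zs m z) (zs m' z')) {S : Finset V} {J J' : Finset ℕ}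
    (hS : ∀ w ∈ S, Cov G R w) (hJ : ∀ j ∈ J, j ≤ m + 1) (hJS : ∀ j ∈ J, c j ∈ S)
    (hJ' : ∀ j ∈ J', j ≤ m' + 1) (hJS' : ∀ j ∈ J', c' j ∈ S) :
    llS G R S + 2 * (J.card + J'.card) ≤ m + m' + 4 + S.card + mmS G R S := by
  have hm := h.pos
  have hm' := h'.pos
  have key := rlaw_sets hG (zs m z ∪ zs m' z') S (fun u hu => by
    rw [mem_union] at hu
    rcases hu with hu | hu
    · exact zs_unc h u hu
    · exact zs_unc h' u hu) hS
  rw [Finset.card_union_of_disjoint hdis, zs_card h, zs_card h'] at key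
  have h1 : uuS G (zs m z) + uuS G (zs m' z') ≤ uuS G (zs m z ∪ zs m' z') := by
    unfold uuS
    rw [Finset.sum_union hdis]
    refine Nat.add_le_add (Finset.sum_le_sum fun u _ => Finset.card_le_card ?_)
      (Finset.sum_le_sum fun u _ => Finset.card_le_card ?_)
    · exact Finset.filter_subset_filter _ Finset.subset_union_left
    · exact Finset.filter_subset_filter _ Finset.subset_union_right
  have h2 : ∑ w ∈ S, eU G (zs m z) w + ∑ w ∈ S, eU G (zs m' z') w
      ≤ ∑ w ∈ S, eU G (zs m z ∪ zs m' z') w := by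
    rw [← Finset.sum_add_distrib]
    refine Finset.sum_le_sum fun w _ => ?_
    unfold eU
    rw [Finset.filter_union, Finset.card_union_of_disjoint (Finset.disjoint_filter_filter hdis)]
  have h3 := uuS_cat h
  have h4 := uuS_cat h'
  have h5 := eU_sum_ge h hJ hJS
  have h6 := eU_sum_ge h' hJ' hJS'
  omega

end CLB.H3
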