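import Pool.Agent.Helper3_DA.Edge

/-!
Labels of the covered vertices only: the rotation around a vertex with three covered neighbours, and the
resulting double connections between the edges of the matching.
-/

set_option autoImplicit false
set_option linter.unusedSectionVars false
set_option linter.unusedVariables false

namespace H3DA

variable {V : Type*} {H M : SimpleGraph V} {R : V → Bool}

/-- The conditions on the labels of the covered vertices. -/
def UL (H M : SimpleGraph V) (f : V → Q) : Prop :=
  (∀ u v, M.Adj u v → f v = neg (f u)) ∧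
  (∀ v a s, ¬ Cov M v → H.Adj v a → H.Adj v s → f a ≠ neg (f s))

/-- The same with the labels of `a` and `b` ignored. -/
def UOff (H M : SimpleGraph V) (a b : V) (f : V → Q) : Prop :=
  (∀ u v, M.Adj u v → u ≠ a → u ≠ b → f v = neg (f u)) ∧
  (∀ v c s, ¬ Cov M v → H.Adj v c → H.Adj v s → c ≠ a → c ≠ b → s ≠ a → s ≠ b → f c ≠ neg (f s))

lemma not_UL (hm : MinBad H M R) (f : V → Q) : ¬ UL H M f := by
  classical
  intro hf
  have hA := hm.toAdm
  have key : ∀ v, ¬ Cov M v → ∃ y, ∀ w, H.Adj v w → nr y (f w) = true := by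
    intro v hv
    by_cases h : ∃ c, H.Adj v c
    · obtain ⟨c, hc⟩ := h
      obtain ⟨w1, w2, hw⟩ := hA.d3 v c hc
      obtain ⟨p, hp1, hp2⟩ : ∃ p, H.Adj v p ∧ (H.Adj v w1 → p = w1) := by
        by_cases h : H.Adj v w1
        · exact ⟨w1, h, fun _ => rfl⟩
        · exact ⟨c, hc, fun h' => absurd h' h⟩
      obtain ⟨q, hq1, hq2⟩ : ∃ q, H.Adj v q ∧ (H.Adj v w2 → q = w2) := by
        by_cases h : H.Adj v w2
        · exact ⟨w2, h, fun _ => rfl⟩
        · exact ⟨c, hc, fun h' => absurd h' h⟩
      obtain ⟨y, h4, h5, h6⟩ := near3 (hf.2 v c p hv hc hp1) (hf.2 v c q hv hc hq1) (hf.2 v p q hv hp1 hq1)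
      refine ⟨y, fun w hw' => ?_⟩
      by_cases hwc : w = c
      · rw [hwc]; exact h4
      · rcases hw w hw' hwc with h | h
        · subst h
          rw [← hp2 hw']; exact h5
        · subst h
          rw [← hq2 hw']; exact h6
    · push Not at h
      exact ⟨f v, fun w hw => absurd hw (h w)⟩
  choose! y hy using key
  apply hm.bad (fun v => if Cov M v then f v else y v)
  constructor
  · intro u v huv
    by_cases hu : Cov M u
    · have hv := hA.lf u v huv hu
      simp only [if_pos hu, if_neg hv]
      rw [nr_comm]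
      exact hy v hv u huv.symm
    · by_cases hv : Cov M v
      · simp only [if_neg hu, if_pos hv]
        exact hy u hu v huv
      · exact (no_uu hm hu hv huv).elim
  · intro u v huv
    simp only [if_pos (show Cov M u from ⟨v, huv⟩), if_pos (show Cov M v from ⟨u, huv.symm⟩)]
    exact hf.1 u v huv

lemma exists_UOff (hm : MinBad H M R) {a b : V} (hab : M.Adj a b) : ∃ f, UOff H M a b f := by
  obtain ⟨f, h1, h2⟩ := hm.delM a b hab
  refine ⟨f, fun u v huv hua hub => h2 u v huv (fun h => hua h.1) (fun h => hub h.1), ?_⟩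
  intro v c s hv hc hs _ _ _ _
  exact nr_common (h1 v c hc) (h1 v s hs)

lemma ne_neg_self (x : Q) : x ≠ neg x := (neg_ne x).symm

/-- Every label of `a` is blocked. -/
lemma blocked (hm : MinBad H M R) {a b : V} (hab : M.Adj a b) {f : V → Q} (hf : UOff H M a b f) (y : Q) :
    (∃ v s, H.Adj a v ∧ H.Adj v s ∧ s ≠ a ∧ y = neg (f s)) ∨
      (∃ v s, H.Adj b v ∧ H.Adj v s ∧ s ≠ b ∧ y = f s) := by
  classical
  by_contra hcon
  push Not at hcon
  obtain ⟨h1, h2⟩ := hcon
  have hba : b ≠ a := hab.ne'
  have ga : ∀ u, (if u = a then y else if u = b then neg y else f u) = y ∨ u ≠ a := by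
    intro u
    by_cases h : u = a
    · left; simp [h]
    · exact Or.inr h
  apply not_UL hm (fun u => if u = a then y else if u = b then neg y else f u)
  constructor
  · intro u v huv
    by_cases hua : u = a
    · subst hua
      have : v = b := hm.mm u v b huv hab
      subst this
      simp [hba]
    · by_cases hub : u = b
      · subst hub
        have : v = a := hm.mm u v a huv hab.symm
        subst this
        simp [hua, neg_neg]
      · have hva : v ≠ a := by rintro rfl; exact hub (hm.mm v u b huv.symm hab)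
        have hvb : v ≠ b := by rintro rfl; exact hua (hm.mm v u a huv.symm hab.symm)
        simp only [if_neg hua, if_neg hub, if_neg hva, if_neg hvb]
        exact hf.1 u v huv hua hub
  · intro v c s hv hc hs
    have tri : H.Adj v a → ¬ H.Adj v b := fun h h' => hm.tri a b v hab h.symm h'.symm
    by_cases hca : c = a
    · subst hca
      have hsb : s ≠ b := by rintro rfl; exact tri hc hs
      by_cases hsa : s = c
      · subst hsa
        simp only [if_true]
        exact ne_neg_self y
      · simp only [if_true, if_neg hsa, if_neg hsb]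
        exact h1 v s hc.symm hs hsa
    · by_cases hcb : c = b
      · subst hcb
        have hsa : s ≠ a := by rintro rfl; exact tri hs hc
        by_cases hsb : s = c
        · subst hsb
          simp only [if_neg hsa, if_true]
          exact ne_neg_self _
        · simp only [if_neg hca, if_true, if_neg hsa, if_neg hsb]
          exact fun h => h2 v s hc.symm hs hsb (neg_inj h)
      · by_cases hsa : s = a
        · subst hsa
          simp only [if_neg hca, if_neg hcb, if_true]
          exact ne_neg_symm (h1 v c hs.symm hc hca)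
        · by_cases hsb : s = b
          · subst hsb
            simp only [if_neg hca, if_neg hcb, if_neg hsa, if_true, neg_neg]
            exact (h2 v c hs.symm hc hcb).symm
          · simp only [if_neg hca, if_neg hcb, if_neg hsa, if_neg hsb]
            exact hf.2 v c s hv hc hs hca hcb hsa hsb

section Count

variable [Fintype V]

open Classical in
/-- The neighbours in `H`. -/
noncomputable def nb (H : SimpleGraph V) (v : V) : Finset V := Finset.univ.filter (fun w => H.Adj v w)

lemma mem_nb {v w : V} : w ∈ nb H v ↔ H.Adj v w := by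
  simp [nb]

open Classical in
/-- The pairs (neighbour `v` of `a`, other neighbour of `v`). -/
noncomputable def PP (H : SimpleGraph V) (a : V) : Finset (V × V) :=
  Finset.univ.filter (fun p => H.Adj a p.1 ∧ H.Adj p.1 p.2 ∧ p.2 ≠ a)

lemma mem_PP {a v s : V} : (v, s) ∈ PP H a ↔ H.Adj a v ∧ H.Adj v s ∧ s ≠ a := by
  simp [PP]

lemma card_nb3 (hA : Adm H M R) (v : V) : (nb H v).card ≤ 3 := by
  classical
  by_cases h : ∃ c, H.Adj v c
  · obtain ⟨c, hc⟩ := h
    obtain ⟨w1, w2, hw⟩ := hA.d3 v c hc
    refine (Finset.card_le_card (t := {c, w1, w2}) ?_).trans Finset.card_le_three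
    intro w hw'
    rw [mem_nb] at hw'
    by_cases hwc : w = c
    · simp [hwc]
    · rcases hw w hw' hwc with h | h <;> simp [h]
  · push Not at h
    have : nb H v = ∅ := by
      apply Finset.eq_empty_of_forall_notMem
      intro w hw
      exact h w (mem_nb.1 hw)
    rw [this]
    simp

lemma card_nb2 (hA : Adm H M R) {v m : V} (hv : M.Adj v m) : (nb H v).card ≤ 2 := by
  classical
  by_cases h : ∃ c, H.Adj v c
  · obtain ⟨c, hc⟩ := h
    obtain ⟨w1, hw⟩ := hA.d2 v m c hv hc
    refine (Finset.card_le_card (t := {c, w1}) ?_).trans Finset.card_le_two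
    intro w hw'
    rw [mem_nb] at hw'
    by_cases hwc : w = c
    · simp [hwc]
    · simp [hw w hw' hwc]
  · push Not at h
    have : nb H v = ∅ := by
      apply Finset.eq_empty_of_forall_notMem
      intro w hw
      exact h w (mem_nb.1 hw)
    rw [this]
    simp

lemma card_PP_le (a : V) : (PP H a).card ≤ ∑ v ∈ nb H a, ((nb H v).card - 1) := by
  classical
  have h1 : PP H a ⊆ (nb H a).biUnion (fun v => ((nb H v).erase a).image (fun s => (v, s))) := by
    rintro ⟨v, s⟩ hp
    rw [mem_PP] at hp
    rw [Finset.mem_biUnion]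
    refine ⟨v, mem_nb.2 hp.1, ?_⟩
    rw [Finset.mem_image]
    exact ⟨s, by rw [Finset.mem_erase]; exact ⟨hp.2.2, mem_nb.2 hp.2.1⟩, rfl⟩
  refine (Finset.card_le_card h1).trans (Finset.card_biUnion_le.trans ?_)
  apply Finset.sum_le_sum
  intro v hv
  refine Finset.card_image_le.trans ?_
  rw [Finset.card_erase_of_mem (mem_nb.2 (mem_nb.1 hv).symm)]

lemma card_PP_le4 (hA : Adm H M R) {a b : V} (hab : M.Adj a b) : (PP H a).card ≤ 4 := by
  have h1 := card_PP_le (H := H) a
  have h2 : ∑ v ∈ nb H a, ((nb H v).card - 1) ≤ ∑ v ∈ nb H a, 2 := by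
    apply Finset.sum_le_sum
    intro v _
    have := card_nb3 hA v
    omega
  rw [Finset.sum_const, smul_eq_mul] at h2
  have h3 := card_nb2 hA hab
  omega

lemma card_PP_eq4 (hA : Adm H M R) {a b : V} (hab : M.Adj a b) (h : (PP H a).card = 4) :
    (nb H a).card = 2 ∧ ∀ v, H.Adj a v → (nb H v).card = 3 := by
  have h1 := card_PP_le (H := H) a
  have h3 := card_nb2 hA hab
  have hle : ∀ v ∈ nb H a, (nb H v).card - 1 ≤ 2 := by
    intro v _
    have := card_nb3 hA v
    omega
  constructor
  · have h2 := Finset.sum_le_sum hle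
    rw [Finset.sum_const, smul_eq_mul] at h2
    omega
  · intro v hv
    by_contra hne
    have hlt : (nb H v).card - 1 < 2 := by
      have := card_nb3 hA v
      omega
    have h2 := Finset.sum_lt_sum hle ⟨v, mem_nb.2 hv, hlt⟩
    rw [Finset.sum_const, smul_eq_mul] at h2
    omega

/-- At an edge of the matching everything is tight. -/
lemma tight (hm : MinBad H M R) {a b : V} (hab : M.Adj a b) {f : V → Q} (hf : UOff H M a b f) :
    (PP H a).card = 4 ∧ (PP H b).card = 4 ∧
    (∀ p ∈ PP H a, ∀ q ∈ PP H a, f p.2 = f q.2 → p = q) ∧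
    (∀ p ∈ PP H b, ∀ q ∈ PP H b, f p.2 = f q.2 → p = q) ∧
    (∀ p ∈ PP H a, ∀ q ∈ PP H b, neg (f p.2) ≠ f q.2) := by
  classical
  set D : Finset ((V × V) ⊕ (V × V)) := (PP H a).disjSum (PP H b) with hD
  let β : (V × V) ⊕ (V × V) → Q := Sum.elim (fun p => neg (f p.2)) (fun p => f p.2)
  have h1 : D.image β = Finset.univ := by
    apply Finset.eq_univ_of_forall
    intro y
    rw [Finset.mem_image]
    rcases blocked hm hab hf y with ⟨v, s, h1, h2, h3, h4⟩ | ⟨v, s, h1, h2, h3, h4⟩
    · exact ⟨Sum.inl (v, s), by rw [hD, Finset.inl_mem_disjSum]; exact mem_PP.2 ⟨h1, h2, h3⟩, h4.symm⟩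
    · exact ⟨Sum.inr (v, s), by rw [hD, Finset.inr_mem_disjSum]; exact mem_PP.2 ⟨h1, h2, h3⟩, h4.symm⟩
  have h2 : (D.image β).card = 8 := by rw [h1, Finset.card_univ, card_Q]
  have h3 : D.card = (PP H a).card + (PP H b).card := by rw [hD, Finset.card_disjSum]
  have h4 := card_PP_le4 hm.toAdm hab
  have h5 := card_PP_le4 hm.toAdm hab.symm
  have h6 : (D.image β).card ≤ D.card := Finset.card_image_le
  have h7 : Set.InjOn β D := by
    rw [← Finset.card_image_iff]
    omega
  have mi : ∀ p ∈ PP H a, Sum.inl p ∈ (D : Set ((V × V) ⊕ (V × V))) := by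
    intro p hp
    rw [Finset.mem_coe, hD, Finset.inl_mem_disjSum]
    exact hp
  have mr : ∀ p ∈ PP H b, Sum.inr p ∈ (D : Set ((V × V) ⊕ (V × V))) := by
    intro p hp
    rw [Finset.mem_coe, hD, Finset.inr_mem_disjSum]
    exact hp
  refine ⟨by omega, by omega, ?_, ?_, ?_⟩
  · intro p hp q hq hpq
    have h8 : β (Sum.inl p) = β (Sum.inl q) := congrArg neg hpq
    exact Sum.inl_injective (h7 (mi p hp) (mi q hq) h8)
  · intro p hp q hq hpq
    have h8 : β (Sum.inr p) = β (Sum.inr q) := hpq
    exact Sum.inr_injective (h7 (mr p hp) (mr q hq) h8)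
  · intro p hp q hq hpq
    have h8 : β (Sum.inl p) = β (Sum.inr q) := hpq
    exact Sum.inl_ne_inr (h7 (mi p hp) (mr q hq) h8)

open Classical in
/-- The shift of a labelling: `a` gets the antipode of the label of `s`, and `b` the label of `s`. -/
noncomputable def shift (a b s : V) (f : V → Q) : V → Q :=
  fun u => if u = a then neg (f s) else if u = b then f s else f u

lemma shift_a (a b s : V) (f : V → Q) : shift a b s f a = neg (f s) := by simp [shift]

lemma shift_b {a b : V} (h : b ≠ a) (s : V) (f : V → Q) : shift a b s f b = f s := by simp [shift, h]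

lemma shift_o {a b u : V} (s : V) (f : V → Q) (h1 : u ≠ a) (h2 : u ≠ b) : shift a b s f u = f u := by
  simp [shift, h1, h2]

lemma shift_off (hm : MinBad H M R) {a b : V} (hab : M.Adj a b) {f : V → Q} (hf : UOff H M a b f)
    {v s s' : V} (hav : H.Adj a v) (hvs : H.Adj v s) (hsa : s ≠ a) (hss : M.Adj s s') :
    UOff H M s s' (shift a b s f) := by
  classical
  have hba : b ≠ a := hab.ne'
  obtain ⟨-, -, t1, -, t2⟩ := tight hm hab hf
  have hP : (v, s) ∈ PP H a := mem_PP.2 ⟨hav, hvs, hsa⟩
  have tri : ∀ v, H.Adj v a → ¬ H.Adj v b := fun v h h' => hm.tri a b v hab h.symm h'.symm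
  have q1 : ∀ v' r, H.Adj v' a → H.Adj v' r → r ≠ a → r ≠ s → f s ≠ f r := by
    intro v' r h1 h2 h3 h4 h5
    have := t1 (v, s) hP (v', r) (mem_PP.2 ⟨h1.symm, h2, h3⟩) h5
    exact h4 (congrArg Prod.snd this).symm
  have q2 : ∀ v' r, H.Adj v' b → H.Adj v' r → r ≠ b → neg (f s) ≠ f r := by
    intro v' r h1 h2 h3
    exact t2 (v, s) hP (v', r) (mem_PP.2 ⟨h1.symm, h2, h3⟩)
  constructor
  · intro u w huw hus hus'
    by_cases hua : u = a
    · subst hua
      have : w = b := hm.mm u w b huw hab
      subst this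
      rw [shift_a, shift_b hba, neg_neg]
    · by_cases hub : u = b
      · subst hub
        have : w = a := hm.mm u w a huw hab.symm
        subst this
        rw [shift_a, shift_b hba]
      · have hva : w ≠ a := by rintro rfl; exact hub (hm.mm w u b huw.symm hab)
        have hvb : w ≠ b := by rintro rfl; exact hua (hm.mm w u a huw.symm hab.symm)
        rw [shift_o s f hua hub, shift_o s f hva hvb]
        exact hf.1 u w huw hua hub
  · intro v' c r hv' hc hr hcs hcs' hrs hrs'
    by_cases hca : c = a
    · subst hca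
      have hrb : r ≠ b := by rintro rfl; exact tri v' hc hr
      by_cases hra : r = c
      · subst hra
        exact ne_neg_self _
      · rw [shift_a, shift_o s f hra hrb]
        exact fun h => q1 v' r hc hr hra hrs (neg_inj h)
    · by_cases hcb : c = b
      · subst hcb
        have hra : r ≠ a := by rintro rfl; exact tri v' hr hc
        by_cases hrb : r = c
        · subst hrb
          exact ne_neg_self _
        · rw [shift_b hba, shift_o s f hra hrb]
          intro h
          apply q2 v' r hc hr hrb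
          rw [h, neg_neg]
      · by_cases hra : r = a
        · subst hra
          rw [shift_a, shift_o s f hca hcb, neg_neg]
          exact (q1 v' c hr hc hca hcs).symm
        · by_cases hrb : r = b
          · subst hrb
            rw [shift_b hba, shift_o s f hca hcb]
            exact (q2 v' c hr hc hcb).symm
          · rw [shift_o s f hca hcb, shift_o s f hra hrb]
            exact hf.2 v' c r hv' hc hr hca hcb hra hrb

/-- The double connection. -/
lemma dbl (hm : MinBad H M R) {v a s t a' s' t' : V} (haa : M.Adj a a') (hss : M.Adj s s')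
    (htt : M.Adj t t') (hva : H.Adj v a) (hvs : H.Adj v s) (hvt : H.Adj v t) (has : a ≠ s) (hat : a ≠ t)
    (hst : s ≠ t) :
    (∃ w, H.Adj a w ∧ H.Adj w t') ∨ (∃ w, H.Adj a' w ∧ H.Adj w t) := by
  classical
  have hA := hm.toAdm
  have hv : ¬ Cov M v := hA.lf a v hva.symm ⟨a', haa⟩
  have nt : ∀ x y, H.Adj v x → H.Adj v y → ¬ M.Adj x y := fun x y h1 h2 h3 => hA.tri x y v h3 h1.symm h2.symm
  -- the six vertices are distinct
  have hsa' : s ≠ a' := by rintro rfl; exact nt a s hva hvs haa
  have hta' : t ≠ a' := by rintro rfl; exact nt a t hva hvt haa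
  have has' : a ≠ s' := by rintro rfl; exact nt s a hvs hva hss
  have hts' : t ≠ s' := by rintro rfl; exact nt s t hvs hvt hss
  have hat' : a ≠ t' := by rintro rfl; exact nt t a hvt hva htt
  have hst' : s ≠ t' := by rintro rfl; exact nt t s hvt hvs htt
  have haa' : a' ≠ a := haa.ne'
  have hss' : s' ≠ s := hss.ne'
  have htt' : t' ≠ t := htt.ne'
  have hs'a' : s' ≠ a' := by rintro rfl; exact has (hA.mm s' a s haa.symm hss.symm)
  have ht'a' : t' ≠ a' := by rintro rfl; exact hat (hA.mm t' a t haa.symm htt.symm)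
  have hs't' : s' ≠ t' := by rintro rfl; exact hst (hA.mm s' s t hss.symm htt.symm)
  obtain ⟨f, hf⟩ := exists_UOff hm haa
  set f1 := shift a a' s f with hf1
  have h1 : UOff H M s s' f1 := shift_off hm haa hf hva.symm hvs has.symm hss
  set f2 := shift s s' t f1 with hf2
  have h2 : UOff H M t t' f2 := shift_off hm hss h1 hvs.symm hvt hst.symm htt
  set f3 := shift t t' a f2 with hf3
  have h3 : UOff H M a a' f3 := shift_off hm htt h2 hvt.symm hva hat haa
  have e1 : f1 a = neg (f s) := shift_a _ _ _ _
  have e2 : f1 t = f t := shift_o _ _ hat.symm hta'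
  have e3 : f2 a = neg (f s) := by rw [hf2, shift_o _ _ has has', e1]
  have e4 : f2 s = neg (f t) := by rw [hf2, shift_a, e2]
  have e5 : f3 s = neg (f t) := by rw [hf3, shift_o _ _ hst hst', e4]
  have e6 : ∀ r, r ≠ a → r ≠ a' → r ≠ s → r ≠ s' → r ≠ t → r ≠ t' → f3 r = f r := by
    intro r h1 h2 h3 h4 h5 h6
    rw [hf3, shift_o _ _ h5 h6, hf2, shift_o _ _ h3 h4, hf1, shift_o _ _ h1 h2]
  obtain ⟨-, -, t1, -, t2⟩ := tight hm haa hf
  obtain ⟨-, -, u1, -, u2⟩ := tight hm haa h3
  have hPs : (v, s) ∈ PP H a := mem_PP.2 ⟨hva.symm, hvs, has.symm⟩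
  have hPt : (v, t) ∈ PP H a := mem_PP.2 ⟨hva.symm, hvt, hat.symm⟩
  have c1 : f t ≠ neg (f s) := hf.2 v t s hv hvt hvs hat.symm hta' has.symm hsa'
  have c2 : f t ≠ f s := by
    intro h
    have := t1 _ hPt _ hPs h
    exact hst (congrArg Prod.snd this).symm
  have c3 : f s' = neg (f s) := hf.1 s s' hss has.symm hsa'
  have c4 : f t' = neg (f t) := hf.1 t t' htt hat.symm hta'
  rcases blocked hm haa hf (f t) with ⟨w, r, g1, g2, g3, g4⟩ | ⟨w, r, g1, g2, g3, g4⟩
  · by_cases r1 : r = s
    · rw [r1] at g4
      exact (c1 g4).elim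
    by_cases r2 : r = s'
    · rw [r2, c3, neg_neg] at g4
      exact (c2 g4).elim
    by_cases r3 : r = t
    · rw [r3] at g4
      exact (ne_neg_self _ g4).elim
    by_cases r4 : r = t'
    · subst r4
      exact Or.inl ⟨w, g1, g2⟩
    exfalso
    have r5 : r ≠ a' := by
      rintro rfl
      exact hA.tri a r w haa g1 g2.symm
    have g5 := e6 r g3 r5 r1 r2 r3 r4
    have := u1 _ hPs _ (mem_PP.2 ⟨g1, g2, g3⟩) (by
      simp only
      rw [e5, g5, g4, neg_neg])
    exact r1 (congrArg Prod.snd this).symm
  · by_cases r1 : r = s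
    · rw [r1] at g4
      exact (c2 g4).elim
    by_cases r2 : r = s'
    · rw [r2, c3] at g4
      exact (c1 g4).elim
    by_cases r3 : r = t
    · subst r3
      exact Or.inr ⟨w, g1, g2⟩
    by_cases r4 : r = t'
    · rw [r4, c4] at g4
      exact (ne_neg_self _ g4).elim
    exfalso
    have r5 : r ≠ a := by
      rintro rfl
      exact hA.tri a' r w haa.symm g1 g2.symm
    have g5 := e6 r r5 g3 r1 r2 r3 r4
    apply u2 _ hPs _ (mem_PP.2 ⟨g1, g2, g3⟩)
    simp only
    rw [e5, neg_neg, g5, g4]

end Count

end H3DA
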