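import Pool.Agent.Helper3_DA.WdCat

/-!
Gain units of a segment of a caterpillar: a segment with one fork and without full units has at most
one unit where the choice of the vertices changes.
-/

set_option autoImplicit false
set_option linter.unusedSectionVars false

namespace CLB.H3

open Finset Classical
open H3DA (Q neg nr)
open CLB.H95
open CLB.H3.Wd (gn)

/-- Gain units of a choice. -/
def GUc (k : ℕ) (ch : ℕ → ℕ) (g : ℕ) : Prop :=
  (1 ≤ g ∧ g + 1 ≤ k ∧ ch (g + 1) = 1 ∧ ch g ≠ 1) ∨ (2 ≤ g ∧ g ≤ k ∧ ch (g - 1) = 2 ∧ ch g ≠ 2)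

lemma guc_cases {k : ℕ} {ch : ℕ → ℕ} (hle : ∀ i, 1 ≤ i → i ≤ k → ch i ≤ 2) {g : ℕ}
    (h : GUc k ch g) : 0 < (gA ch k).card ∨ (2 ≤ g ∧ g - 1 ∈ gB ch k) ∨ g ∈ gC ch k := by
  rcases h with ⟨h1, h2, h3, h4⟩ | ⟨h1, h2, h3, h4⟩
  · have := hle g h1 (by omega)
    by_cases h5 : ch g = 2
    · left
      refine card_pos.2 ⟨g, ?_⟩
      unfold gA
      rw [mem_filter, mem_range]
      exact ⟨by omega, h1, h5, h3⟩
    · have h0 : ch g = 0 := by omega
      by_cases h6 : 2 ≤ g ∧ ch (g - 1) = 2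
      · right; left
        refine ⟨h6.1, ?_⟩
        unfold gB
        rw [mem_filter, mem_range, show g - 1 + 1 = g by omega]
        exact ⟨by omega, by omega, h6.2, h0⟩
      · right; right
        unfold gC
        rw [mem_filter, mem_range]
        exact ⟨by omega, h1, h0, h3, h6⟩
  · have := hle g (by omega) h2
    by_cases h5 : ch g = 1
    · left
      refine card_pos.2 ⟨g - 1, ?_⟩
      unfold gA
      rw [mem_filter, mem_range, show g - 1 + 1 = g by omega]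
      exact ⟨by omega, by omega, h3, h5⟩
    · right; left
      refine ⟨h1, ?_⟩
      unfold gB
      rw [mem_filter, mem_range, show g - 1 + 1 = g by omega]
      exact ⟨by omega, by omega, h3, by omega⟩

/-- Two gain units. -/
theorem gn_two {k : ℕ} {ch : ℕ → ℕ} (hle : ∀ i, 1 ≤ i → i ≤ k → ch i ≤ 2) {g g' : ℕ}
    (h : GUc k ch g) (h' : GUc k ch g') (hne : g ≠ g') : 2 ≤ gn ch k := by
  rw [gn_eq hle]
  rcases guc_cases hle h with a | a | a
  · omega
  · rcases guc_cases hle h' with b | b | b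
    · omega
    · have : 1 < (gB ch k).card := one_lt_card.2 ⟨g - 1, a.2, g' - 1, b.2, by omega⟩
      omega
    · have : 0 < (gB ch k).card := card_pos.2 ⟨_, a.2⟩
      have : 0 < (gC ch k).card := card_pos.2 ⟨_, b⟩
      omega
  · rcases guc_cases hle h' with b | b | b
    · omega
    · have : 0 < (gB ch k).card := card_pos.2 ⟨_, b.2⟩
      have : 0 < (gC ch k).card := card_pos.2 ⟨_, a⟩
      omega
    · have : 1 < (gC ch k).card := one_lt_card.2 ⟨g, a, g', b, hne⟩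
      omega

section cat

variable {V : Type*} {G : SimpleGraph V} {R : V → Bool} [Fintype V]
variable {m : ℕ} {z c : ℕ → V} {k : ℕ} {x y : ℕ → V}

/-- **The law of a choice** for a segment. -/
theorem choice_law (hG : ClassC G R) (h : Chn G R k x y) (hcat : Cat G R m z c) {p q : ℕ}
    (hp : 1 ≤ p) (hpq : p ≤ q) (hq : q ≤ m) {ch : ℕ → ℕ} (hle : ∀ i, 1 ≤ i → i ≤ k → ch i ≤ 2)
    {O : Finset V} (hO : ∀ w ∈ O, Cov G R w ∧ ¬ InC k x y w) {J : Finset ℕ}
    (hJ : ∀ j ∈ J, j ≤ m + 1 ∧ p ≤ pos m j ∧ pos m j ≤ q)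
    (hS : ∀ j ∈ J, c j ∈ chs x y ((Icc 1 k).filter (fun i => ch i = 1))
      ((Icc 1 k).filter (fun i => ch i = 2)) O) :
    gn ch k + 2 * J.card ≤ (q - p) + 3 + (((Icc 1 k).filter (fun i => ch i = 1)).card +
      ((Icc 1 k).filter (fun i => ch i = 2)).card + O.card) + mmS G R O := by
  rw [gn_eq hle]
  set X := (Icc 1 k).filter (fun i => ch i = 1) with hX
  set Y := (Icc 1 k).filter (fun i => ch i = 2) with hY
  set Ux := (gB ch k).image (fun i => i + 1) with hUx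
  have key := rstar hG h hcat hp hpq hq (X := X) (Y := Y) (Ux := Ux)
    (Uy := gC ch k) (O := O) (J := J)
    (fun i hi => mem_Icc.1 (mem_filter.1 hi).1) (fun i hi => mem_Icc.1 (mem_filter.1 hi).1)
    hO
    (fun i hi => by
      rw [hUx, mem_image] at hi
      obtain ⟨j, hj, rfl⟩ := hi
      unfold gB at hj
      rw [mem_filter, mem_range] at hj
      refine ⟨by omega, ?_, ?_, ?_⟩
      · intro hi; have := (mem_filter.1 hi).2; omega
      · intro hi; have := (mem_filter.1 hi).2; omega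
      · rw [Nat.add_sub_cancel]
        exact mem_filter.2 ⟨mem_Icc.2 ⟨by omega, by omega⟩, hj.2.2.1⟩)
    (fun i hi => by
      unfold gC at hi
      rw [mem_filter, mem_range] at hi
      refine ⟨by omega, ?_, ?_, ?_⟩
      · intro hi; have := (mem_filter.1 hi).2; omega
      · intro hi; have := (mem_filter.1 hi).2; omega
      · exact mem_filter.2 ⟨mem_Icc.2 ⟨by omega, by omega⟩, hi.2.2.2.1⟩)
    (by
      rw [Finset.disjoint_left]
      intro i hi hi'
      rw [hUx, mem_image] at hi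
      obtain ⟨j, hj, rfl⟩ := hi
      unfold gB at hj
      unfold gC at hi'
      rw [mem_filter, mem_range] at hj hi'
      refine hi'.2.2.2.2 ⟨by omega, ?_⟩
      rw [Nat.add_sub_cancel]
      exact hj.2.2.1)
    hJ hS
  have e1 : (gA ch k).card ≤ (Y.filter (fun i => i < k ∧ i + 1 ∈ X)).card := by
    refine card_le_card fun i hi => ?_
    unfold gA at hi
    rw [mem_filter, mem_range] at hi
    refine mem_filter.2 ⟨mem_filter.2 ⟨mem_Icc.2 ⟨by omega, by omega⟩, hi.2.2.1⟩, hi.1,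
      mem_filter.2 ⟨mem_Icc.2 ⟨by omega, by omega⟩, hi.2.2.2⟩⟩
  have e2 : Ux.card = (gB ch k).card := card_image_of_injective _ (fun a b hab => by
    have : a + 1 = b + 1 := hab
    omega)
  have hXY : X ∩ Y = ∅ := by
    rw [Finset.eq_empty_iff_forall_notMem]
    intro i hi
    rw [mem_inter, mem_filter, mem_filter] at hi
    omega
  rw [hXY, card_empty, e2] at key
  omega

/-- A port of `J` is at `v`. -/
def InJ (c : ℕ → V) (J : Finset ℕ) (v : V) : Prop := ∃ j ∈ J, c j = v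

/-- Gain units of a set of ports. -/
def GU (k : ℕ) (x y : ℕ → V) (c : ℕ → V) (J : Finset ℕ) (g : ℕ) : Prop :=
  (1 ≤ g ∧ g + 1 ≤ k ∧ InJ c J (x (g + 1)) ∧ ¬ InJ c J (x g)) ∨
  (2 ≤ g ∧ g ≤ k ∧ InJ c J (y (g - 1)) ∧ ¬ InJ c J (y g))

/-- The choice of a set of ports. -/
noncomputable def chJ (x y : ℕ → V) (c : ℕ → V) (J : Finset ℕ) (i : ℕ) : ℕ :=
  if InJ c J (x i) then 1 else if InJ c J (y i) then 2 else 0

lemma chJ_one {J : Finset ℕ} {i : ℕ} : chJ x y c J i = 1 ↔ InJ c J (x i) := by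
  unfold chJ
  split_ifs with h1 h2 <;> simp [h1]

lemma chJ_two {J : Finset ℕ} {i : ℕ} (hp : ¬ (InJ c J (x i) ∧ InJ c J (y i))) :
    chJ x y c J i = 2 ↔ InJ c J (y i) := by
  unfold chJ
  split_ifs with h1 h2
  · simp only [OfNat.one_ne_ofNat, false_iff]
    exact fun h2 => hp ⟨h1, h2⟩
  · simp [h2]
  · simp [h2]

/-- **Two gain units** cost one more port. -/
theorem seg_two (hG : ClassC G R) (h : Chn G R k x y) (hcat : Cat G R m z c) {p q : ℕ}
    (hp : 1 ≤ p) (hpq : p ≤ q) (hq : q ≤ m) {J : Finset ℕ}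
    (hJ : ∀ j ∈ J, j ≤ m + 1 ∧ p ≤ pos m j ∧ pos m j ≤ q) (hinj : Set.InjOn c (J : Set ℕ))
    (hpair : ∀ i, 1 ≤ i → i ≤ k → ¬ (InJ c J (x i) ∧ InJ c J (y i)))
    (hout : (sO x y c k J).card ≤ 1) (hc : (q - p) + 2 ≤ J.card) {g g' : ℕ}
    (h1 : GU k x y c J g) (h2 : GU k x y c J g') : g = g' := by
  by_contra hne
  have hle : ∀ i, 1 ≤ i → i ≤ k → chJ x y c J i ≤ 2 := by
    intro i _ _
    unfold chJ
    split_ifs <;> omega
  have conv : ∀ g, GU k x y c J g → GUc k (chJ x y c J) g := by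
    rintro g (⟨a1, a2, a3, a4⟩ | ⟨a1, a2, a3, a4⟩)
    · exact Or.inl ⟨a1, a2, chJ_one.2 a3, fun h => a4 (chJ_one.1 h)⟩
    · exact Or.inr ⟨a1, a2, (chJ_two (hpair _ (by omega) (by omega))).2 a3,
        fun h => a4 ((chJ_two (hpair _ (by omega) a2)).1 h)⟩
  have h3 := gn_two hle (conv g h1) (conv g' h2) hne
  have eX : (Icc 1 k).filter (fun i => chJ x y c J i = 1) = sX x c k J := by
    ext i
    rw [mem_filter, mem_Icc, mem_sX, chJ_one]
    rfl
  have eY : (Icc 1 k).filter (fun i => chJ x y c J i = 2) = sX y c k J := by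
    ext i
    rw [mem_filter, mem_Icc, mem_sX]
    constructor
    · rintro ⟨a1, a2⟩
      exact ⟨a1, (chJ_two (hpair _ a1.1 a1.2)).1 a2⟩
    · rintro ⟨a1, a2⟩
      exact ⟨a1, (chJ_two (hpair _ a1.1 a1.2)).2 a2⟩
  have key := choice_law hG h hcat hp hpq hq hle (O := sO x y c k J)
    (fun w hw => by
      obtain ⟨⟨j, hj, rfl⟩, hw2⟩ := mem_sO.1 hw
      exact ⟨hcat.cov j (hJ j hj).1, hw2⟩) hJ
    (fun j hj => by rw [eX, eY]; exact seen_mem hj)
  rw [eX, eY, seen_card h, card_image_of_injOn hinj, mm_small hout] at key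
  omega

/-- Ports at the first `j` vertices. -/
lemma range_pos {j : ℕ} (h1 : 1 ≤ j) (hj : j < m) : ∀ i ∈ range (j + 1),
    i ≤ m + 1 ∧ 1 ≤ pos m i ∧ pos m i ≤ j := by
  intro i hi
  rw [mem_range] at hi
  refine ⟨by omega, one_le_pos (by omega), ?_⟩
  unfold pos
  split_ifs <;> omega

lemma Icc_pos {j : ℕ} (h1 : 2 ≤ j) (hj : j ≤ m) : ∀ i ∈ Icc j (m + 1),
    i ≤ m + 1 ∧ j ≤ pos m i ∧ pos m i ≤ m := by
  intro i hi
  rw [mem_Icc] at hi
  refine ⟨by omega, ?_, pos_le (by omega) (by omega)⟩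
  unfold pos
  split_ifs <;> omega

/-- Left segments. -/
theorem left_two (hG : ClassC G R) (h : Chn G R k x y) (hcat : Cat G R m z c) {j : ℕ}
    (h1 : 1 ≤ j) (hj : j < m) (hinj : Set.InjOn c (range (j + 1) : Set ℕ))
    (hpair : ∀ i, 1 ≤ i → i ≤ k → ¬ (InJ c (range (j + 1)) (x i) ∧ InJ c (range (j + 1)) (y i)))
    (hout : (sO x y c k (range (j + 1))).card ≤ 1) {g g' : ℕ}
    (h2 : GU k x y c (range (j + 1)) g) (h3 : GU k x y c (range (j + 1)) g') : g = g' :=
  seg_two hG h hcat le_rfl h1 (by omega) (range_pos h1 hj) hinj hpair hout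
    (by rw [card_range]; omega) h2 h3

/-- Right segments. -/
theorem right_two (hG : ClassC G R) (h : Chn G R k x y) (hcat : Cat G R m z c) {j : ℕ}
    (h1 : 2 ≤ j) (hj : j ≤ m) (hinj : Set.InjOn c (Icc j (m + 1) : Set ℕ))
    (hpair : ∀ i, 1 ≤ i → i ≤ k → ¬ (InJ c (Icc j (m + 1)) (x i) ∧ InJ c (Icc j (m + 1)) (y i)))
    (hout : (sO x y c k (Icc j (m + 1))).card ≤ 1) {g g' : ℕ}
    (h2 : GU k x y c (Icc j (m + 1)) g) (h3 : GU k x y c (Icc j (m + 1)) g') : g = g' :=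
  seg_two hG h hcat (by omega) hj le_rfl (Icc_pos h1 hj) hinj hpair hout
    (by rw [Nat.card_Icc]; omega) h2 h3

lemma sO_card {J : Finset ℕ} (hJ : ∀ j ∈ J, j ≤ m + 1) : (sO x y c k J).card ≤ outN k x y m c := by
  refine (card_le_card fun w hw => ?_).trans outV_card
  obtain ⟨⟨j, hj, rfl⟩, h2⟩ := mem_sO.1 hw
  exact mem_outV.2 ⟨⟨j, hJ j hj, rfl⟩, h2⟩

end cat

end CLB.H3
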