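import Pool.Agent.Helper3_DA.Window

/-!
Walks through lists with local goals: concatenation of segments at cut points which are inside no goal.
-/

set_option autoImplicit false

namespace CLB.H3

open Finset
open H3DA (Q neg nr)
open CLB.H95

/-- A local goal: a condition on the labels of the units `lo, ..., hi`. -/
structure Goal where
  lo : ℕ
  hi : ℕ
  P : (ℕ → Q) → Prop
  loc : ∀ mu mu' : ℕ → Q, (∀ i, lo ≤ i → i ≤ hi → mu i = mu' i) → P mu → P mu'

/-- A walk from `s` at `i` to `t` at `j` through the lists with all goals inside. -/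
def Seg (A : ℕ → Finset Q) (W : Set Goal) (i j : ℕ) (s t : Q) : Prop :=
  ∃ mu : ℕ → Q, mu i = s ∧ mu j = t ∧ (∀ l, i ≤ l → l ≤ j → mu l ∈ A l) ∧
    (∀ l, i ≤ l → l < j → nr (mu l) (mu (l + 1)) = true) ∧
    ∀ g ∈ W, i ≤ g.lo → g.hi ≤ j → g.P mu

/-- A cut point. -/
def Cutp (W : Set Goal) (i : ℕ) : Prop := ∀ g ∈ W, g.hi ≤ i ∨ i ≤ g.lo

theorem Seg.trans {A : ℕ → Finset Q} {W : Set Goal} {i j l : ℕ} {s t u : Q} (hij : i ≤ j)
    (hjl : j ≤ l) (hc : Cutp W j) (h1 : Seg A W i j s t) (h2 : Seg A W j l t u) :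
    Seg A W i l s u := by
  obtain ⟨a, a1, a2, a3, a4, a5⟩ := h1
  obtain ⟨b, b1, b2, b3, b4, b5⟩ := h2
  set c : ℕ → Q := fun n => if n ≤ j then a n else b n with hcdef
  have ca : ∀ n, n ≤ j → c n = a n := fun n hn => by simp only [hcdef, hn, if_true]
  have cb : ∀ n, j ≤ n → c n = b n := fun n hn => by
    by_cases h : n ≤ j
    · have : n = j := le_antisymm h hn
      subst this
      rw [ca n le_rfl, a2, b1]
    · simp only [hcdef, h, if_false]
  refine ⟨c, by rw [ca i hij, a1], by rw [cb l hjl, b2], fun n hn hn' => ?_, fun n hn hn' => ?_,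
    fun g hg hg1 hg2 => ?_⟩
  · by_cases h : n ≤ j
    · rw [ca n h]; exact a3 n hn h
    · rw [cb n (by omega)]; exact b3 n (by omega) hn'
  · by_cases h : n < j
    · rw [ca n (by omega), ca (n + 1) (by omega)]; exact a4 n hn h
    · rw [cb n (by omega), cb (n + 1) (by omega)]; exact b4 n (by omega) hn'
  · rcases hc g hg with h | h
    · exact g.loc a c (fun n _ hn' => (ca n (by omega)).symm) (a5 g hg hg1 h)
    · exact g.loc b c (fun n hn _ => (cb n (by omega)).symm) (b5 g hg h hg2)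

lemma Seg.refl {A : ℕ → Finset Q} {W : Set Goal} {i : ℕ} {s : Q} (hs : s ∈ A i)
    (hW : ∀ g ∈ W, i ≤ g.lo → g.hi ≤ i → g.P (fun _ => s)) : Seg A W i i s s :=
  ⟨fun _ => s, rfl, rfl, fun l h1 h2 => by rw [show l = i by omega]; exact hs,
    fun l h1 h2 => by omega, hW⟩

/-- One step. -/
lemma Seg.step {A : ℕ → Finset Q} {W : Set Goal} {i : ℕ} {s t : Q} (hs : s ∈ A i) (ht : t ∈ A (i + 1))
    (hst : nr s t = true) (hW : ∀ g ∈ W, i ≤ g.lo → g.hi ≤ i + 1 → False) :
    Seg A W i (i + 1) s t :=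
  ⟨fun n => if n ≤ i then s else t, by simp, by
    have : ¬ i + 1 ≤ i := by omega
    simp only [this, if_false], fun l h1 h2 => by
    by_cases h : l ≤ i
    · simp only [h, if_true]; rw [show l = i by omega]; exact hs
    · simp only [h, if_false]; rw [show l = i + 1 by omega]; exact ht, fun l h1 h2 => by
    have e : l = i := by omega
    subst e
    have : ¬ l + 1 ≤ l := by omega
    simp only [le_refl, this, if_true, if_false]; exact hst, fun g hg h1 h2 => (hW g hg h1 h2).elim⟩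

/-- The labels at `j` reached from the set `T` at `i`. -/
noncomputable def Out (A : ℕ → Finset Q) (W : Set Goal) (i j : ℕ) (T : Finset Q) : Finset Q := by
  classical
  exact univ.filter (fun t => ∃ s ∈ T, Seg A W i j s t)

lemma mem_Out {A : ℕ → Finset Q} {W : Set Goal} {i j : ℕ} {T : Finset Q} {t : Q} :
    t ∈ Out A W i j T ↔ ∃ s ∈ T, Seg A W i j s t := by
  classical
  unfold Out; simp

/-- The labels at `i` from which the set `T` at `j` is reached. -/
noncomputable def Inn (A : ℕ → Finset Q) (W : Set Goal) (i j : ℕ) (T : Finset Q) : Finset Q := by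
  classical
  exact univ.filter (fun s => ∃ t ∈ T, Seg A W i j s t)

lemma mem_Inn {A : ℕ → Finset Q} {W : Set Goal} {i j : ℕ} {T : Finset Q} {s : Q} :
    s ∈ Inn A W i j T ↔ ∃ t ∈ T, Seg A W i j s t := by
  classical
  unfold Inn; simp

/-- A return window. -/
def ret (a : ℕ) : Goal where
  lo := a
  hi := a + 2
  P := fun mu => mu a = mu (a + 2)
  loc mu mu' h hP := by rw [← h a le_rfl (by omega), ← h (a + 2) (by omega) le_rfl]; exact hP

/-- Steps without goals. -/
lemma Out_step {A : ℕ → Finset Q} {W : Set Goal} {i : ℕ} {T : Finset Q} (hT : T ⊆ A i)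
    (hW : ∀ g ∈ W, i ≤ g.lo → g.hi ≤ i + 1 → False) : nb T ∩ A (i + 1) ⊆ Out A W i (i + 1) T := by
  intro t ht
  rw [mem_inter, mem_nb] at ht
  obtain ⟨⟨s, hs, hst⟩, ht⟩ := ht
  rw [mem_Out]
  exact ⟨s, hs, Seg.step (hT hs) ht hst hW⟩

lemma Inn_step {A : ℕ → Finset Q} {W : Set Goal} {i : ℕ} {T : Finset Q} (hT : T ⊆ A (i + 1))
    (hW : ∀ g ∈ W, i ≤ g.lo → g.hi ≤ i + 1 → False) : nb T ∩ A i ⊆ Inn A W i (i + 1) T := by
  intro s hs
  rw [mem_inter, mem_nb] at hs
  obtain ⟨⟨t, ht, hst⟩, hs⟩ := hs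
  rw [mem_Inn]
  exact ⟨t, ht, Seg.step hs (hT ht) (nr_symm hst) hW⟩

/-- The walk through a return window. -/
lemma Seg.ret {A : ℕ → Finset Q} {W : Set Goal} {i : ℕ} {t : Q} (ht : t ∈ A i) (ht' : t ∈ A (i + 2))
    (hA : 5 ≤ (A (i + 1)).card)
    (hW : ∀ g ∈ W, i ≤ g.lo → g.hi ≤ i + 2 → g = CLB.H3.ret i) : Seg A W i (i + 2) t t := by
  obtain ⟨u, hu, hu'⟩ := ball_meet hA t
  have h1 : ¬ (i = i + 1) := by omega
  have h2 : ¬ (i + 2 = i + 1) := by omega
  refine ⟨fun n => if n = i + 1 then u else t, by simp only [h1, if_false],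
    by simp only [h2, if_false], fun l h3 h4 => ?_, fun l h3 h4 => ?_, fun g hg h3 h4 => ?_⟩
  · have : l = i ∨ l = i + 1 ∨ l = i + 2 := by omega
    rcases this with rfl | rfl | rfl
    · simp only [h1, if_false]; exact ht
    · simp only [if_true]; exact hu
    · simp only [h2, if_false]; exact ht'
  · have : l = i ∨ l = i + 1 := by omega
    rcases this with rfl | rfl
    · simp only [h1, if_false, if_true]; exact hu'
    · have h5 : ¬ (i + 1 + 1 = i + 1) := by omega
      simp only [h5, if_false, if_true]; exact nr_symm hu'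
  · rw [hW g hg h3 h4]
    show (if i = i + 1 then u else t) = (if i + 2 = i + 1 then u else t)
    rw [if_neg h1, if_neg h2]

/-- Two overlapping return windows. -/
lemma Seg.ret2 {A : ℕ → Finset Q} {W : Set Goal} {i : ℕ} {s t : Q} (hs : s ∈ A i)
    (hs' : s ∈ A (i + 2)) (ht : t ∈ A (i + 1)) (ht' : t ∈ A (i + 3)) (hst : nr s t = true)
    (hW : ∀ g ∈ W, i ≤ g.lo → g.hi ≤ i + 3 → g = CLB.H3.ret i ∨ g = CLB.H3.ret (i + 1)) :
    Seg A W i (i + 3) s t := by
  refine ⟨fun n => if n = i ∨ n = i + 2 then s else t, by simp, ?_, fun l h3 h4 => ?_,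
    fun l h3 h4 => ?_, fun g hg h3 h4 => ?_⟩
  · have h1 : ¬ (i + 3 = i ∨ i + 3 = i + 2) := by omega
    simp only [h1, if_false]
  · by_cases h : l = i ∨ l = i + 2
    · simp only [h, if_true]
      rcases h with rfl | rfl
      · exact hs
      · exact hs'
    · simp only [h, if_false]
      have : l = i + 1 ∨ l = i + 3 := by omega
      rcases this with rfl | rfl
      · exact ht
      · exact ht'
  · by_cases h : l = i ∨ l = i + 2
    · have h5 : ¬ (l + 1 = i ∨ l + 1 = i + 2) := by omega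
      simp only [h, h5, if_false, if_true]; exact hst
    · have h5 : (l + 1 = i ∨ l + 1 = i + 2) := by omega
      simp only [h, h5, if_false, if_true]; exact nr_symm hst
  · rcases hW g hg h3 h4 with h | h
    · rw [h]
      show (if i = i ∨ i = i + 2 then s else t) = (if i + 2 = i ∨ i + 2 = i + 2 then s else t)
      rw [if_pos (Or.inl rfl), if_pos (Or.inr rfl)]
    · rw [h]
      show (if i + 1 = i ∨ i + 1 = i + 2 then s else t) =
        (if i + 1 + 2 = i ∨ i + 1 + 2 = i + 2 then s else t)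
      rw [if_neg (by omega), if_neg (by omega)]

/-- A forced step. -/
def frc (l : ℕ) (e : Q) : Goal where
  lo := l
  hi := l + 1
  P := fun mu => mu (l + 1) = add (mu l) e
  loc mu mu' h hP := by rw [← h l le_rfl (by omega), ← h (l + 1) (by omega) le_rfl]; exact hP

/-- A forced step with a mask of a near label. -/
lemma Seg.frc {A : ℕ → Finset Q} {W : Set Goal} {i : ℕ} {s e : Q} (hs : s ∈ A i)
    (hs' : add s e ∈ A (i + 1)) (he : nr (false, false, false) e = true)
    (hW : ∀ g ∈ W, i ≤ g.lo → g.hi ≤ i + 1 → g = CLB.H3.frc i e) :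
    Seg A W i (i + 1) s (add s e) := by
  have key : ∀ s e : Q, nr (false, false, false) e = true → nr s (add s e) = true := by decide
  have h1 : ¬ (i + 1 ≤ i) := by omega
  refine ⟨fun n => if n ≤ i then s else add s e, by simp, by simp only [h1, if_false],
    fun l h3 h4 => ?_, fun l h3 h4 => ?_, fun g hg h3 h4 => ?_⟩
  · by_cases h : l ≤ i
    · simp only [h, if_true]; rw [show l = i by omega]; exact hs
    · simp only [h, if_false]; rw [show l = i + 1 by omega]; exact hs'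
  · have e' : l = i := by omega
    subst e'
    simp only [le_refl, h1, if_true, if_false]; exact key s e he
  · rw [hW g hg h3 h4]
    show (if i + 1 ≤ i then s else add s e) = add (if i ≤ i then s else add s e) e
    rw [if_neg h1, if_pos le_rfl]

lemma Out_frc {A : ℕ → Finset Q} {W : Set Goal} {i : ℕ} {e : Q} {T : Finset Q} (hT : T ⊆ A i)
    (he : nr (false, false, false) e = true)
    (hW : ∀ g ∈ W, i ≤ g.lo → g.hi ≤ i + 1 → g = frc i e) :
    (T.image (fun x => add x e)) ∩ A (i + 1) ⊆ Out A W i (i + 1) T := by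
  intro t ht
  rw [mem_inter, mem_image] at ht
  obtain ⟨⟨s, hs, rfl⟩, ht⟩ := ht
  rw [mem_Out]
  exact ⟨s, hs, Seg.frc (hT hs) ht he hW⟩

lemma Inn_frc {A : ℕ → Finset Q} {W : Set Goal} {i : ℕ} {e : Q} {T : Finset Q} (hT : T ⊆ A (i + 1))
    (he : nr (false, false, false) e = true)
    (hW : ∀ g ∈ W, i ≤ g.lo → g.hi ≤ i + 1 → g = frc i e) :
    (T.image (fun x => add x e)) ∩ A i ⊆ Inn A W i (i + 1) T := by
  have key : ∀ t e : Q, add (add t e) e = t := by decide
  intro s hs
  rw [mem_inter, mem_image] at hs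
  obtain ⟨⟨t, ht, rfl⟩, hs⟩ := hs
  rw [mem_Inn]
  refine ⟨t, ht, ?_⟩
  have := Seg.frc (A := A) (W := W) hs (by rw [key]; exact hT ht) he hW
  rwa [key] at this

lemma Out_ret {A : ℕ → Finset Q} {W : Set Goal} {i : ℕ} {T : Finset Q} (hT : T ⊆ A i)
    (hA : 5 ≤ (A (i + 1)).card) (hW : ∀ g ∈ W, i ≤ g.lo → g.hi ≤ i + 2 → g = ret i) :
    T ∩ A (i + 2) ⊆ Out A W i (i + 2) T := by
  intro t ht
  rw [mem_inter] at ht
  rw [mem_Out]
  exact ⟨t, ht.1, Seg.ret (hT ht.1) ht.2 hA hW⟩

lemma Inn_ret {A : ℕ → Finset Q} {W : Set Goal} {i : ℕ} {T : Finset Q} (hT : T ⊆ A (i + 2))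
    (hA : 5 ≤ (A (i + 1)).card) (hW : ∀ g ∈ W, i ≤ g.lo → g.hi ≤ i + 2 → g = ret i) :
    T ∩ A i ⊆ Inn A W i (i + 2) T := by
  intro t ht
  rw [mem_inter] at ht
  rw [mem_Inn]
  exact ⟨t, ht.1, Seg.ret ht.2 (hT ht.1) hA hW⟩

end CLB.H3
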