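import Pool.Agent.Helper3_DA.Glue

/-!
Local conditions in the tight case: the ports of neighbouring vertices, the ports of vertices at distance
two, and the alternating difference of the option sets.
-/

set_option autoImplicit false
set_option linter.unusedSectionVars false

namespace CLB.H3

open Finset Classical
open H3DA (Q neg nr)
open CLB.H95

/-- `c` is the label of a port of the vertex `i`. -/
def PortAt (m : ℕ) (ρ : ℕ → Q) (a b : Q) (i : ℕ) (c : Q) : Prop :=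
  c = ρ i ∨ (i = 0 ∧ c = a) ∨ (i = m ∧ c = b)

lemma LS_sub_ball {ρ : ℕ → Q} {a : Q} (i : ℕ) : LS ρ a i ⊆ ball (ρ i) := by
  cases i with
  | zero => exact Finset.inter_subset_left
  | succ i => exact Finset.inter_subset_right

lemma LS_sub_port {m : ℕ} {ρ : ℕ → Q} {a b : Q} {i : ℕ} (hi : i < m) {c : Q} (hc : PortAt m ρ a b i c) :
    LS ρ a i ⊆ ball c := by
  rcases hc with rfl | ⟨rfl, rfl⟩ | ⟨rfl, -⟩
  · exact LS_sub_ball i
  · exact Finset.inter_subset_right
  · exact absurd hi (lt_irrefl _)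

lemma RS_sub_port {m : ℕ} {ρ : ℕ → Q} {a b : Q} {i : ℕ} (h0 : 0 < i) (hi : i ≤ m) {c : Q}
    (hc : PortAt m ρ a b i c) : RS m ρ b i ⊆ ball c := by
  rcases hc with rfl | ⟨rfl, -⟩ | ⟨rfl, rfl⟩
  · have h := LS_sub_ball (ρ := fun j => ρ (m - j)) (a := b) (m - i)
    have e : m - (m - i) = i := by omega
    rw [e] at h
    exact h
  · exact absurd h0 (lt_irrefl _)
  · rw [RS_last]
    exact Finset.inter_subset_right

lemma neg_mem_far {L : Finset Q} {c : Q} (h : L ⊆ ball c) : neg c ∈ far L := by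
  rw [mem_far]
  intro x hx
  rw [nr_neg', H3DA.nr_comm, mem_ball.1 (h hx)]
  rfl

/-- In the tight case the antipode of the label of a port at `i` is an option from the right at `i + 1`. -/
lemma tight_neg_RS {m : ℕ} {ρ : ℕ → Q} {a b : Q} (h : ¬ PExt m ρ a b) (ha : ρ 0 ≠ neg a)
    (hb : ρ m ≠ neg b) {i : ℕ} (hi : i < m) {c : Q} (hc : PortAt m ρ a b i c) :
    neg c ∈ RS m ρ b (i + 1) := by
  rw [(tight_edge h ha hb hi).2.2.1]
  exact neg_mem_far (LS_sub_port hi hc)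

/-- In the tight case the antipode of the label of a port at `i + 1` is an option from the left at `i`. -/
lemma tight_neg_LS {m : ℕ} {ρ : ℕ → Q} {a b : Q} (h : ¬ PExt m ρ a b) (ha : ρ 0 ≠ neg a)
    (hb : ρ m ≠ neg b) {i : ℕ} (hi : i < m) {c : Q} (hc : PortAt m ρ a b (i + 1) c) :
    neg c ∈ LS ρ a i := by
  rw [(tight_edge h ha hb hi).2.2.2]
  exact neg_mem_far (RS_sub_port (by omega) (by omega) hc)

/-- Ports of neighbouring vertices. -/
theorem tight_near {m : ℕ} {ρ : ℕ → Q} {a b : Q} (h : ¬ PExt m ρ a b) (ha : ρ 0 ≠ neg a)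
    (hb : ρ m ≠ neg b) {i : ℕ} (hi : i < m) {c c' : Q} (hc : PortAt m ρ a b i c)
    (hc' : PortAt m ρ a b (i + 1) c') : nr (neg c) c' = true :=
  nr_symm (mem_ball.1 (RS_sub_port (by omega) (by omega) hc' (tight_neg_RS h ha hb hi hc)))

/-- Ports of vertices at distance two. -/
theorem tight_two {m : ℕ} {ρ : ℕ → Q} {a b : Q} (h : ¬ PExt m ρ a b) (ha : ρ 0 ≠ neg a)
    (hb : ρ m ≠ neg b) {i : ℕ} (hi : i + 1 < m) {c c' : Q} (hc : PortAt m ρ a b i c)
    (hc' : PortAt m ρ a b (i + 2) c') : c ≠ c' := by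
  rintro rfl
  exact Finset.disjoint_left.1 (tight_mid h ha hb hi).2 (tight_neg_LS h ha hb hi hc')
    (tight_neg_RS h ha hb (by omega) hc)

/-- The two ports of an end. -/
theorem tight_fork {m : ℕ} {ρ : ℕ → Q} {a b : Q} (hm : 1 ≤ m) (h : ¬ PExt m ρ a b) (ha : ρ 0 ≠ neg a)
    (hb : ρ m ≠ neg b) : ρ 0 ≠ a := by
  intro he
  have h1 := (tight_edge h ha hb (i := 0) (by omega)).1
  simp only [LS, he, Finset.inter_self, ball_card] at h1
  omega

/-- The alternating difference. -/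
def dd (d : Q) (i : ℕ) : Q := if i % 2 = 0 then d else neg d

lemma dd_succ (d : Q) (i : ℕ) : dd d (i + 1) = neg (dd d i) := by
  unfold dd
  by_cases h : i % 2 = 0
  · have h' : ¬ ((i + 1) % 2 = 0) := by omega
    rw [if_pos h, if_neg h']
  · have h' : (i + 1) % 2 = 0 := by omega
    rw [if_neg h, if_pos h', H3DA.neg_neg]

/-- The difference of the option sets alternates. -/
theorem tight_diff {m : ℕ} {ρ : ℕ → Q} {a b : Q} (h : ¬ PExt m ρ a b) (ha : ρ 0 ≠ neg a)
    (hb : ρ m ≠ neg b) : ∀ i < m, ∃ z, LS ρ a i = pr z (dd (xo (ρ 0) a) i) := by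
  intro i
  induction i with
  | zero =>
    intro hi
    obtain ⟨z, hz⟩ := pr_fork _ _ ((tight_edge h ha hb hi).1)
    exact ⟨z, by simpa [LS, dd] using hz⟩
  | succ i ih =>
    intro hi
    obtain ⟨z, hz⟩ := ih (by omega)
    obtain ⟨c1, c2, c3, -⟩ := tight_edge h ha hb (i := i) (by omega)
    obtain ⟨h1, h2⟩ := tight_mid h ha hb hi
    rw [hz] at c1 c3
    obtain ⟨z', hz'⟩ := pr_far _ _ c1 (by rw [← c3]; exact c2)
    have h3 : LS ρ a (i + 1) = ball (ρ (i + 1)) \ RS m ρ b (i + 1) := by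
      rw [← h1]
      rw [Finset.union_sdiff_right]
      exact (Finset.sdiff_eq_self_of_disjoint h2).symm
    have h4 : RS m ρ b (i + 1) ⊆ ball (ρ (i + 1)) := by
      rw [← h1]; exact Finset.subset_union_right
    rw [c3, hz'] at h3 h4 c2
    rw [h3, dd_succ]
    exact pr_compl _ _ _ c2 h4

/-- The sum of the labels of the four ports of the ends. -/
theorem tight_sum {m : ℕ} {ρ : ℕ → Q} {a b : Q} (hm : 1 ≤ m) (h : ¬ PExt m ρ a b) (ha : ρ 0 ≠ neg a)
    (hb : ρ m ≠ neg b) : xo (ρ m) b = dd (xo (ρ 0) a) (m - 1) := by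
  obtain ⟨z, hz⟩ := tight_diff h ha hb (m - 1) (by omega)
  obtain ⟨c1, c2, c3, -⟩ := tight_edge h ha hb (i := m - 1) (by omega)
  have e : m - 1 + 1 = m := by omega
  rw [e, RS_last] at c2 c3
  rw [hz] at c1 c3
  obtain ⟨z', hz'⟩ := pr_far _ _ c1 (by rw [← c3]; exact c2)
  obtain ⟨z'', hz''⟩ := pr_fork _ _ c2
  rw [c3, hz'] at hz'' c2
  exact (pr_diff hz'' c2).symm

/-- The second condition for ports of neighbouring vertices. -/
theorem tight_near2 {m : ℕ} {ρ : ℕ → Q} {a b : Q} (h : ¬ PExt m ρ a b) (ha : ρ 0 ≠ neg a)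
    (hb : ρ m ≠ neg b) {i : ℕ} (hi : i < m) {c c' : Q} (hc : PortAt m ρ a b i c)
    (hc' : PortAt m ρ a b (i + 1) c') : nr c (xo (neg c') (dd (xo (ρ 0) a) i)) = true := by
  obtain ⟨z, hz⟩ := tight_diff h ha hb i hi
  have h1 := tight_neg_LS h ha hb hi hc'
  rw [hz] at h1
  have h2 := mem_pr_xo _ _ _ h1
  rw [← hz] at h2
  exact mem_ball.1 (LS_sub_port hi hc h2)

end CLB.H3
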