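import Pool.Agent.Helper95_CLB.MaxLink

/-!
Uncovered vertices of an edge-minimal graph without a labelling: an uncovered vertex with a neighbour has
a covered neighbour; an uncovered vertex next to an uncovered vertex has degree three; a vertex with
covered neighbours only has at least two of them.
-/

set_option autoImplicit false
set_option linter.unusedSectionVars false

namespace CLB.H3

open Finset Classical
open H3DA (Q neg nr)
open CLB.H95

variable {V : Type*} {G : SimpleGraph V} {R : V → Bool}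

lemma he_of_unc {u v : V} (hu : ¬ Cov G R u) (h : G.Adj u v) : He G R u v :=
  ⟨h, fun h' => hu ⟨v, h, h'⟩⟩

lemma okE_of_near {u v : V} {f : V → Q} (h : R u ≠ R v) (hn : nr (f u) (f v) = true) : okE R f u v :=
  ⟨fun h' => absurd h' h, fun _ => hn⟩

/-- A set `K` of uncovered vertices cannot be relabelled. -/
theorem no_ext (hc : Crit G R) {K : Set V} (hK : ∀ v ∈ K, ¬ Cov G R v) {f : V → Q}
    (hf : ∀ u v, G.Adj u v → u ∉ K → v ∉ K → okE R f u v) (g : V → Q)
    (hg1 : ∀ u ∈ K, ∀ v ∈ K, G.Adj u v → nr (g u) (g v) = true)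
    (hg2 : ∀ u ∈ K, ∀ v, v ∉ K → G.Adj u v → nr (g u) (f v) = true) : False := by
  apply hc.1
  refine ⟨fun v => if v ∈ K then g v else f v, fun u v huv => ?_⟩
  by_cases hu : u ∈ K
  · have hR := (he_of_unc (hK u hu) huv).2
    apply okE_of_near hR
    by_cases hv : v ∈ K
    · simp only [hu, hv, if_true]
      exact hg1 u hu v hv huv
    · simp only [hu, hv, if_true, if_false]
      exact hg2 u hu v hv huv
  · by_cases hv : v ∈ K
    · have hR := (he_of_unc (hK v hv) huv.symm).2
      apply okE_of_near (Ne.symm hR)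
      simp only [hu, hv, if_true, if_false]
      exact nr_symm (hg2 v hv u hu huv.symm)
    · have h := hf u v huv hu hv
      unfold okE at h ⊢
      simp only [hu, hv, if_false]
      exact h

/-- The options of `p`, its neighbour `x` ignored. -/
noncomputable def opts (G : SimpleGraph V) (f : V → Q) (p x : V) : Finset Q :=
  univ.filter (fun z => ∀ w, G.Adj p w → w ≠ x → nr z (f w) = true)

lemma mem_opts {f : V → Q} {p x : V} {z : Q} :
    z ∈ opts G f p x ↔ ∀ w, G.Adj p w → w ≠ x → nr z (f w) = true := by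
  unfold opts; simp

section fin

variable [Fintype V]

/-- The neighbours of `p` other than `x` are among two vertices. -/
lemma two_others (hG : ClassC G R) {p x : V} (hpx : G.Adj p x) :
    ∃ w1 w2, ∀ w, G.Adj p w → w ≠ x → w = w1 ∨ w = w2 := by
  obtain ⟨w1, w2, hw⟩ := two_of_card (S := (univ.filter (fun w => G.Adj p w)).erase x) (by
    rw [Finset.card_erase_of_mem (by simp [hpx])]
    have := hG.deg3 p
    omega) p
  exact ⟨w1, w2, fun w h1 h2 => hw w (by simp [h1, h2])⟩

lemma opts_card (hG : ClassC G R) {p x : V} (hpx : G.Adj p x) {f : V → Q} (hf : f p ∈ opts G f p x) :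
    2 ≤ (opts G f p x).card := by
  rw [mem_opts] at hf
  obtain ⟨w1, w2, hw⟩ := two_others hG hpx
  set a : Q := if G.Adj p w1 ∧ w1 ≠ x then f w1 else f p with ha0
  set b : Q := if G.Adj p w2 ∧ w2 ≠ x then f w2 else f p with hb0
  have ha : nr (f p) a = true := by
    by_cases h : G.Adj p w1 ∧ w1 ≠ x
    · rw [ha0, if_pos h]; exact hf w1 h.1 h.2
    · rw [ha0, if_neg h]; exact H3DA.nr_self _
  have hb : nr (f p) b = true := by
    by_cases h : G.Adj p w2 ∧ w2 ≠ x
    · rw [hb0, if_pos h]; exact hf w2 h.1 h.2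
    · rw [hb0, if_neg h]; exact H3DA.nr_self _
  refine le_trans (ball_inter_card a b (H3DA.nr_common ha hb)) (Finset.card_le_card ?_)
  intro z hz
  rw [mem_inter, mem_ball, mem_ball] at hz
  rw [mem_opts]
  intro w hpw hwx
  rcases hw w hpw hwx with h | h
  · subst h
    have : a = f w := by rw [ha0, if_pos ⟨hpw, hwx⟩]
    rw [← this]; exact nr_symm hz.1
  · subst h
    have : b = f w := by rw [hb0, if_pos ⟨hpw, hwx⟩]
    rw [← this]; exact nr_symm hz.2

/-- A vertex `v` with all edges at it ignored, the messages of its neighbours: an uncovered neighbour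
sends the set of labels near one of its options, a covered neighbour the ball around its label. -/
noncomputable def mes (G : SimpleGraph V) (R : V → Bool) (f : V → Q) (v w : V) : Finset Q :=
  if Cov G R w then ball (f w) else nb (opts G f w v)

theorem no_mes (hG : ClassC G R) (hc : Crit G R) {v : V} (hv : ¬ Cov G R v) {f : V → Q}
    (hf : ∀ u w, G.Adj u w → u ≠ v → w ≠ v → okE R f u w) (y : Q)
    (hy : ∀ w, G.Adj v w → y ∈ mes G R f v w) : False := by
  have hch : ∀ w, ∃ z, G.Adj v w → ¬ Cov G R w → z ∈ opts G f w v ∧ nr z y = true := by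
    intro w
    by_cases h : G.Adj v w ∧ ¬ Cov G R w
    · have h1 := hy w h.1
      unfold mes at h1
      rw [if_neg h.2, mem_nb] at h1
      obtain ⟨z, hz1, hz2⟩ := h1
      exact ⟨z, fun _ _ => ⟨hz1, hz2⟩⟩
    · exact ⟨y, fun h1 h2 => absurd ⟨h1, h2⟩ h⟩
  choose z hz using hch
  set K : Set V := {w | w = v ∨ (G.Adj v w ∧ ¬ Cov G R w)} with hK
  refine no_ext hc (K := K) (f := f) ?_ ?_ (fun w => if w = v then y else z w) ?_ ?_
  · rintro w (rfl | hw)
    · exact hv
    · exact hw.2
  · intro u w huw hu hw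
    refine hf u w huw (fun h => hu (Or.inl h)) (fun h => hw (Or.inl h))
  · intro u hu w hw huw
    rcases hu with hu | hu
    · rcases hw with hw | hw
      · subst hu; subst hw; exact absurd huw (G.loopless.irrefl _)
      · have h1 : w ≠ v := hw.1.ne'
        simp only [hu, h1, if_true, if_false]
        exact nr_symm (hz w hw.1 hw.2).2
    · rcases hw with hw | hw
      · have h1 : u ≠ v := hu.1.ne'
        simp only [hw, h1, if_true, if_false]
        exact (hz u hu.1 hu.2).2
      · exact absurd hw.1 (hG.tri v u w hu.1 huw)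
  · intro u hu w hw huw
    rcases hu with hu | hu
    · subst hu
      have h1 : Cov G R w := by
        by_contra h
        exact hw (Or.inr ⟨huw, h⟩)
      have h2 := hy w huw
      unfold mes at h2
      rw [if_pos h1, mem_ball] at h2
      simp only [if_true]
      exact nr_symm h2
    · have h1 : u ≠ v := hu.1.ne'
      simp only [h1, if_false]
      exact mem_opts.1 (hz u hu.1 hu.2).1 w huw (fun h => hw (Or.inl h))

lemma mes_card_unc (hG : ClassC G R) {v w : V} (hvw : G.Adj v w) (hw : ¬ Cov G R w) {f : V → Q}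
    (hf : ∀ u w, G.Adj u w → u ≠ v → w ≠ v → okE R f u w) : 6 ≤ (mes G R f v w).card := by
  unfold mes
  rw [if_neg hw]
  refine nb_card2 (opts_card hG hvw.symm ?_)
  rw [mem_opts]
  intro x hwx hxv
  exact (hf w x hwx hvw.ne' hxv).2 (he_of_unc hw hwx).2

lemma mes_card_cov {v w : V} (hw : Cov G R w) {f : V → Q} : (mes G R f v w).card = 4 := by
  unfold mes
  rw [if_pos hw, ball_card]

/-- A labelling with all edges at a vertex ignored. -/
lemma off_vertex (hc : Crit G R) {v p : V} (hvp : G.Adj v p) :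
    ∃ f : V → Q, ∀ u w, G.Adj u w → u ≠ v → w ≠ v → okE R f u w := by
  obtain ⟨f, hf⟩ := hc.del_set {v} (Set.mem_singleton v) hvp
  exact ⟨f, fun u w huw hu hw => hf u w huw hu hw⟩

lemma exists_inter3 {A B C : Finset Q} (h : 16 < A.card + B.card + C.card) :
    ∃ y, y ∈ A ∧ y ∈ B ∧ y ∈ C := by
  have h1 := Finset.card_union_add_card_inter A B
  have h2 := Finset.card_union_add_card_inter (A ∩ B) C
  have h3 : (A ∪ B).card ≤ 8 := by rw [← card_univ_Q]; exact Finset.card_le_card (subset_univ _)
  have h4 : (A ∩ B ∪ C).card ≤ 8 := by rw [← card_univ_Q]; exact Finset.card_le_card (subset_univ _)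
  have h5 : 0 < (A ∩ B ∩ C).card := by omega
  obtain ⟨y, hy⟩ := Finset.card_pos.1 h5
  simp only [mem_inter] at hy
  exact ⟨y, hy.1.1, hy.1.2, hy.2⟩

lemma exists_inter2 {A B : Finset Q} (h : 8 < A.card + B.card) : ∃ y, y ∈ A ∧ y ∈ B := by
  obtain ⟨y, h1, h2, -⟩ := exists_inter3 (A := A) (B := B) (C := univ) (by
    rw [card_univ_Q]; omega)
  exact ⟨y, h1, h2⟩

/-- (S1) An uncovered vertex with a neighbour has a covered neighbour. -/
theorem cov_nbr (hG : ClassC G R) (hc : Crit G R) {v p : V} (hv : ¬ Cov G R v) (hvp : G.Adj v p) :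
    ∃ a, G.Adj v a ∧ Cov G R a := by
  by_contra hcon
  push Not at hcon
  obtain ⟨f, hf⟩ := off_vertex hc hvp
  obtain ⟨w1, w2, hw⟩ := two_others hG hvp
  have hm : ∀ w, G.Adj v w → 6 ≤ (mes G R f v w).card := fun w hvw =>
    mes_card_unc hG hvw (hcon w hvw) hf
  set A : V → Finset Q := fun w => if G.Adj v w then mes G R f v w else univ with hA
  have hAc : ∀ w, 6 ≤ (A w).card := by
    intro w
    by_cases h : G.Adj v w
    · simp only [hA, if_pos h]; exact hm w h
    · simp only [hA, if_neg h]; rw [card_univ_Q]; omega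
  obtain ⟨y, h1, h2, h3⟩ := exists_inter3 (A := A p) (B := A w1) (C := A w2) (by
    have := hAc p; have := hAc w1; have := hAc w2; omega)
  have key : ∀ w, G.Adj v w → y ∈ A w := by
    intro w hvw
    by_cases h : w = p
    · rw [h]; exact h1
    · rcases hw w hvw h with h | h
      · rw [h]; exact h2
      · rw [h]; exact h3
  refine no_mes hG hc hv hf y (fun w hvw => ?_)
  have := key w hvw
  simp only [hA, if_pos hvw] at this
  exact this

/-- An uncovered vertex with at most two neighbours has only covered neighbours. -/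
theorem third_nbr (hG : ClassC G R) (hc : Crit G R) {v p a : V} (hv : ¬ Cov G R v) (hvp : G.Adj v p)
    (hp : ¬ Cov G R p) (hva : G.Adj v a) (_hap : a ≠ p) : ∃ b, G.Adj v b ∧ b ≠ p ∧ b ≠ a := by
  by_contra hcon
  push Not at hcon
  obtain ⟨f, hf⟩ := off_vertex hc hvp
  have h1 := mes_card_unc hG hvp hp hf
  have h2 : 4 ≤ (mes G R f v a).card := by
    by_cases h : Cov G R a
    · rw [mes_card_cov h]
    · have := mes_card_unc hG hva h hf
      omega
  obtain ⟨y, h3, h4⟩ := exists_inter2 (A := mes G R f v p) (B := mes G R f v a) (by omega)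
  refine no_mes hG hc hv hf y (fun w hvw => ?_)
  by_cases h : w = p
  · rw [h]; exact h3
  · rw [hcon w hvw h]; exact h4

/-- An uncovered vertex next to an uncovered one has exactly two more neighbours. -/
theorem deg_three (hG : ClassC G R) (hc : Crit G R) {v p : V} (hv : ¬ Cov G R v) (hvp : G.Adj v p)
    (hp : ¬ Cov G R p) : ∃ a b, G.Adj v a ∧ G.Adj v b ∧ Cov G R a ∧ a ≠ p ∧ b ≠ p ∧ a ≠ b ∧
      ∀ w, G.Adj v w → w = p ∨ w = a ∨ w = b := by
  obtain ⟨a, ha, hca⟩ := cov_nbr hG hc hv hvp
  have hap : a ≠ p := by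
    rintro rfl
    exact hp hca
  obtain ⟨b, hb, hbp, hba⟩ := third_nbr hG hc hv hvp hp ha hap
  exact ⟨a, b, ha, hb, hca, hap, hbp, Ne.symm hba, fun w hw =>
    hG.third hvp ha hb (Ne.symm hap) (Ne.symm hbp) (Ne.symm hba) hw⟩

/-- An uncovered vertex has at least two neighbours, if it has one. -/
theorem deg_two (hG : ClassC G R) (hc : Crit G R) {v p : V} (hv : ¬ Cov G R v) (hvp : G.Adj v p) :
    ∃ q, G.Adj v q ∧ q ≠ p := by
  by_contra hcon
  push Not at hcon
  obtain ⟨f, hf⟩ := off_vertex hc hvp
  have h2 : 4 ≤ (mes G R f v p).card := by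
    by_cases h : Cov G R p
    · rw [mes_card_cov h]
    · have := mes_card_unc hG hvp h hf
      omega
  obtain ⟨y, h3⟩ := Finset.card_pos.1 (show 0 < (mes G R f v p).card by omega)
  refine no_mes hG hc hv hf y (fun w hvw => ?_)
  rw [hcon w hvw]; exact h3

end fin

end CLB.H3
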