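import Pool.Agent.Helper3_DA.WdTree

/-!
Words of a caterpillar over the units of a chain: every word satisfying the law has a good end, or few
ports, or isolated full units.
-/

set_option autoImplicit false

namespace CLB.H3.Wd

open Finset

/-- Number of ports up to unit `n`. -/
def nw (w : ℕ → ℕ) : ℕ → ℕ
  | 0 => 0
  | n + 1 => nw w n + wt (w (n + 1))

/-- The left end is good. -/
def LG (w : ℕ → ℕ) (k : ℕ) : Prop :=
  ∃ g ∈ goods, g.length ≤ k ∧ ∀ i (h : i < g.length), pt (w (i + 1)) = g[i]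

/-- The right end is good. -/
def RG (w : ℕ → ℕ) (k : ℕ) : Prop :=
  ∃ g ∈ goods, g.length ≤ k ∧ ∀ i (h : i < g.length), pt (w (k - i)) = g[i]

/-- The first four units are seen through `x`. -/
def L4 (w : ℕ → ℕ) (k : ℕ) : Prop := 4 ≤ k ∧ ∀ i < 4, w (i + 1) = 1

def L4p (w : ℕ → ℕ) (k : ℕ) : Prop := 4 ≤ k ∧ ∀ i < 4, pt (w (i + 1)) = 1

def R4 (w : ℕ → ℕ) (k : ℕ) : Prop := 4 ≤ k ∧ ∀ i < 4, pt (w (k - i)) = 1

/-- The last four units are seen through `y`. -/
def R4y (w : ℕ → ℕ) (k : ℕ) : Prop := 4 ≤ k ∧ ∀ i < 4, w (k - i) = 2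

/-- Four units seen through `x` at the left end. -/
def L4X (w : ℕ → ℕ) (k : ℕ) : Prop := 5 ≤ k ∧ L4 w k ∧ ((w 5 = 1 ∨ w 5 = 3) ∨ R4 w k ∨ nw w k = 7)

/-- An isolated full unit without a neighbour faced from the other side. -/
def IsoN (w : ℕ → ℕ) (k : ℕ) : Prop :=
  ∃ v, 2 ≤ v ∧ v + 1 ≤ k ∧ w (v - 1) = 0 ∧ w v = 3 ∧ w (v + 1) = 0 ∧ ¬ (3 ≤ v ∧ w (v - 2) = 2) ∧
    ¬ (v + 2 ≤ k ∧ w (v + 2) = 1)

/-- The list describes the last letters. -/
def Lst (w : ℕ → ℕ) (n : ℕ) (l : List ℕ) : Prop :=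
  l.length ≤ n ∧ ∀ i (h : i < l.length), pt (w (n - i)) = l[i]

lemma Lst.cons {w : ℕ → ℕ} {n : ℕ} {l : List ℕ} (h : Lst w n l) :
    Lst w (n + 1) (pt (w (n + 1)) :: l) := by
  refine ⟨by simp [h.1], fun i hi => ?_⟩
  cases i with
  | zero => simp
  | succ i =>
    simp only [List.length_cons, Nat.succ_lt_succ_iff] at hi
    rw [List.getElem_cons_succ, show n + 1 - (i + 1) = n - i by omega]
    exact h.2 i hi

lemma Lst.pre {w : ℕ → ℕ} {n : ℕ} {l l' : List ℕ} (h : Lst w n l) (hp : l' <+: l) : Lst w n l' := by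
  refine ⟨hp.length_le.trans h.1, fun i hi => ?_⟩
  rw [hp.getElem hi]
  exact h.2 i _

lemma trim_pre (n : ℕ) (l : List ℕ) : trim n l <+: l := by
  induction n generalizing l with
  | zero => exact List.prefix_refl _
  | succ n ih =>
    unfold trim
    split_ifs
    · exact List.prefix_refl _
    · exact (ih _).trans (List.dropLast_prefix _)

/-- The meaning of a state. -/
structure Sem (w : ℕ → ℕ) (n : ℕ) (s : St) : Prop where
  sh : s.sh = (sr w n).1
  ph : s.ph = (sr w n).2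
  pre : s.pk = 0 → s.pre.length = n ∧ Lst w n s.pre ∧ n ≤ 4
  pk1 : s.pk = 1 → ∃ i < 4, i < n ∧ pt (w (i + 1)) ≠ 1
  pr4 : s.pk = 2 → L4 w n
  N : s.N = min 8 (nw w n)
  mem : Lst w n s.mem
  mem2 : s.mem.length < 2 → s.mem.length = n
  hF : (∃ i, 1 ≤ i ∧ i ≤ n ∧ w i = 3) → s.hF = true
  y1 : 1 ≤ n → w n = 2 → 1 ≤ s.sy ∧ s.sy ≤ 4
  y5 : 2 ≤ n → w (n - 1) = 2 → w n = 0 → s.sy = 5
  y6 : 3 ≤ n → w (n - 2) = 2 → w (n - 1) = 0 → w n = 3 → s.sy = 6
  y7 : s.sy = 7 → 3 ≤ n ∧ w (n - 2) = 0 ∧ w (n - 1) = 3 ∧ w n = 0 ∧ ¬ (4 ≤ n ∧ w (n - 3) = 2)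
  yc : 1 ≤ s.sy → s.sy ≤ 4 → s.sy ≤ n ∧ ∀ i < s.sy, w (n - i) = 2
  d : s.d = false → w 1 ≤ 3

lemma pt_zero {l : ℕ} : pt l = 0 ↔ l = 0 := by
  constructor
  · intro h
    by_contra h0
    unfold pt at h
    rw [if_neg h0] at h
    by_cases h1 : l ≤ 2
    · rw [if_pos h1] at h; omega
    · rw [if_neg h1] at h
      by_cases h2 : l = 3
      · rw [if_pos h2] at h; omega
      · rw [if_neg h2] at h; omega
  · rintro rfl; rfl

lemma pt_two {l : ℕ} : pt l = 2 ↔ l = 3 := by
  constructor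
  · intro h
    unfold pt at h
    by_cases h0 : l = 0
    · rw [if_pos h0] at h; omega
    rw [if_neg h0] at h
    by_cases h1 : l ≤ 2
    · rw [if_pos h1] at h; omega
    · rw [if_neg h1] at h
      by_cases h2 : l = 3
      · exact h2
      · rw [if_neg h2] at h; omega
  · rintro rfl; rfl

lemma pt_one {l : ℕ} : pt l = 1 ↔ l = 1 ∨ l = 2 := by
  constructor
  · intro h
    unfold pt at h
    by_cases h0 : l = 0
    · rw [if_pos h0] at h; omega
    rw [if_neg h0] at h
    by_cases h1 : l ≤ 2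
    · omega
    · rw [if_neg h1] at h
      by_cases h2 : l = 3
      · rw [if_pos h2] at h; omega
      · rw [if_neg h2] at h; omega
  · rintro (rfl | rfl) <;> rfl

lemma Lst.two {w : ℕ → ℕ} {n : ℕ} {l : List ℕ} {a b : ℕ} (h : Lst w n l)
    (hp : [a, b].isPrefixOf l = true) : 2 ≤ n ∧ pt (w n) = a ∧ pt (w (n - 1)) = b := by
  rw [List.isPrefixOf_iff_prefix] at hp
  have h1 := h.pre hp
  exact ⟨h1.1, h1.2 0 (by simp), h1.2 1 (by simp)⟩

lemma Lst.one {w : ℕ → ℕ} {n : ℕ} {l : List ℕ} {a : ℕ} (h : Lst w n l)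
    (hp : [a].isPrefixOf l = true) : 1 ≤ n ∧ pt (w n) = a := by
  rw [List.isPrefixOf_iff_prefix] at hp
  have h1 := h.pre hp
  exact ⟨h1.1, h1.2 0 (by simp)⟩

/-- Only the last two letters matter. -/
lemma mem_two {w : ℕ → ℕ} {n : ℕ} {l : List ℕ} (h : Lst w n l) (h2 : l.length < 2 → l.length = n)
    {a b : ℕ} (hn : 2 ≤ n) (ha : pt (w n) = a) (hb : pt (w (n - 1)) = b) :
    [a, b].isPrefixOf l = true := by
  have hl : 2 ≤ l.length := by
    by_contra hcon
    have := h2 (by omega)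
    omega
  match l, hl with
  | p :: q :: t, _ =>
    have e1 := h.2 0 (by simp)
    have e2 := h.2 1 (by simp)
    simp only [List.getElem_cons_zero, List.getElem_cons_succ, Nat.sub_zero] at e1 e2
    rw [← ha, ← hb, e1, e2]
    simp [List.isPrefixOf]

lemma goodsR_rev : ∀ g ∈ goodsR, g.reverse ∈ goods := by decide

lemma lg_of {w : ℕ → ℕ} {n k : ℕ} {l : List ℕ} (hl : l ∈ goodsR) (hn : l.length = n) (h : Lst w n l)
    (hk : n ≤ k) : LG w k := by
  refine ⟨l.reverse, goodsR_rev l hl, by simp; omega, fun i hi => ?_⟩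
  rw [List.length_reverse] at hi
  rw [List.getElem_reverse]
  have := h.2 (l.length - 1 - i) (by omega)
  rw [← this]
  rw [show n - (l.length - 1 - i) = i + 1 by omega]

/-- The outcomes before the end. -/
def Out (w : ℕ → ℕ) (k : ℕ) : Prop := LG w k ∨ L4X w k ∨ (w 1 ≤ 3 ∧ IsoN w k)

lemma all_x {w : ℕ → ℕ} (h : ∀ i < 4, pt (w (i + 1)) = 1) (h1 : (sr w 4).1 = 3)
    (h2 : (sr w 4).2 = 0) : ∀ i < 4, w (i + 1) = 1 := by
  have a0 := pt_one.1 (h 0 (by norm_num))
  have a1 := pt_one.1 (h 1 (by norm_num))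
  have a2 := pt_one.1 (h 2 (by norm_num))
  have a3 := pt_one.1 (h 3 (by norm_num))
  norm_num at a0 a1 a2 a3
  intro i hi
  rcases a0 with a0 | a0 <;> rcases a1 with a1 | a1 <;> rcases a2 with a2 | a2 <;>
    rcases a3 with a3 | a3 <;> simp [sr, trn, tbl, a0, a1, a2, a3] at h1 h2 <;>
    interval_cases i <;> simp [a0, a1, a2, a3]

/-- Four ones at the beginning. -/
lemma l4_of_pre {w : ℕ → ℕ} {n : ℕ} {l : List ℕ} (h3 : l.length = n) (h4 : Lst w n l)
    (h5 : l = [1,1,1,1]) (h1 : (sr w n).1 = 3) (h2 : (sr w n).2 = 0) : L4 w n := by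
  rw [h5] at h3 h4
  have h3' : 4 = n := h3
  subst h3'
  refine ⟨le_rfl, all_x (fun i hi => ?_) h1 h2⟩
  have := h4.2 (3 - i) (by simp; omega)
  rw [show 4 - (3 - i) = i + 1 by omega] at this
  rw [this]
  have hi4 : i = 0 ∨ i = 1 ∨ i = 2 ∨ i = 3 := by omega
  rcases hi4 with rfl | rfl | rfl | rfl <;> rfl

/-- One step. -/
lemma step {w : ℕ → ℕ} {n k : ℕ} (hn : n + 1 ≤ k) (hp : (sr w (n + 1)).2 ≤ 1)
    (hFF : ∀ i, 1 ≤ i → i + 1 ≤ k → w i = 3 → w (i + 1) ≠ 3)
    (hFUF : ∀ i, 1 ≤ i → i + 2 ≤ k → w i = 3 → w (i + 1) = 0 → w (i + 2) ≠ 3)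
    {s : St} (hs : Sem w n s) (hst : stop s (w (n + 1)) = true) : Out w k := by
  unfold stop at hst
  simp only [Bool.or_eq_true, Bool.and_eq_true, beq_iff_eq, Bool.not_eq_true', bne_iff_ne] at hst
  rcases hst with ((((h1 | ⟨h1, h2⟩) | ⟨h1, h2⟩) | ⟨⟨h1, h2⟩, h3⟩) | ⟨h1, h2⟩) | ⟨⟨⟨⟨h1, h2⟩, h3⟩, h4⟩, h5⟩
  · exfalso
    rw [Nat.blt_eq, hs.sh, hs.ph] at h1
    have : (sr w (n + 1)).2 = (sr w n).2 + (trn (sr w n).1 (w (n + 1))).2 := rfl
    omega
  · obtain ⟨h3, h4⟩ := hs.mem.one h1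
    exact absurd h2 (hFF n h3 hn (pt_two.1 h4))
  · obtain ⟨h3, h4, h5⟩ := hs.mem.two h1
    exfalso
    have h6 := hFUF (n - 1) (by omega) (by omega) (pt_two.1 h5) (by
      rw [show n - 1 + 1 = n by omega]; exact pt_zero.1 h4)
    rw [show n - 1 + 2 = n + 1 by omega] at h6
    exact h6 h2
  · obtain ⟨a1, a2, a3, a4, a5⟩ := hs.y7 h1
    right; right
    refine ⟨hs.d h3, n - 1, by omega, by omega, ?_, a3, ?_, ?_, ?_⟩
    · rw [show n - 1 - 1 = n - 2 by omega]; exact a2
    · rw [show n - 1 + 1 = n by omega]; exact a4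
    · rintro ⟨b1, b2⟩
      rw [show n - 1 - 2 = n - 3 by omega] at b2
      exact a5 ⟨by omega, b2⟩
    · rintro ⟨b1, b2⟩
      rw [show n - 1 + 2 = n + 1 by omega] at b2
      exact h2 b2
  · obtain ⟨h3, h4, -⟩ := hs.pre h1
    refine Or.inl (lg_of (n := n + 1) (List.contains_iff_mem.1 h2) ?_ h4.cons hn)
    rw [List.length_cons, h3]
  · obtain ⟨h6, h7, -⟩ := hs.pre h1
    have h8 := l4_of_pre h6 h7 h2 (hs.sh ▸ h3) (hs.ph ▸ h4)
    have h9 : n = 4 := by
      rw [h2] at h6
      exact h6.symm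
    subst h9
    right; left
    exact ⟨by omega, ⟨by omega, h8.2⟩, Or.inl h5⟩

lemma min_min (a b : ℕ) : min 8 (min 8 a + b) = min 8 (a + b) := by omega

lemma prog_len : ∀ l ∈ prog, l.length ≤ 4 := by decide

/-- The next state. -/
lemma Sem.next {w : ℕ → ℕ} {n : ℕ} {s : St} (hs : Sem w n s)
    (hm : (Nat.blt 1 (nxt s (w (n + 1))).mem.length ||
      (nxt s (w (n + 1))).mem == pt (w (n + 1)) :: s.mem) = true) (h11 : n = 0 → w 1 ≤ 3) :
    Sem w (n + 1) (nxt s (w (n + 1))) := by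
  have hpk : (nxt s (w (n + 1))).pk = if s.pk = 0 then (if prog.contains (pt (w (n + 1)) :: s.pre) then 0
    else if s.pre = [1,1,1,1] then (if s.sh = 3 ∧ s.ph = 0 then 2 else 3) else
      if (s.pre.any fun a => a != 1) || (Nat.blt s.pre.length 4 && pt (w (n + 1)) != 1) then 1 else 4)
    else s.pk := rfl
  refine ⟨?_, ?_, ?_, ?_, ?_, ?_, ?_, ?_, ?_, ?_, ?_, ?_, ?_, ?_, ?_⟩
  · show (trn s.sh (w (n + 1))).1 = (trn (sr w n).1 (w (n + 1))).1
    rw [hs.sh]
  · show s.ph + (trn s.sh (w (n + 1))).2 = (sr w n).2 + (trn (sr w n).1 (w (n + 1))).2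
    rw [hs.sh, hs.ph]
  · intro h
    rw [hpk] at h
    by_cases h0 : s.pk = 0
    · rw [if_pos h0] at h
      by_cases hc : prog.contains (pt (w (n + 1)) :: s.pre) = true
      · have e : (nxt s (w (n + 1))).pre = pt (w (n + 1)) :: s.pre := by
          show (if s.pk = 0 then (if prog.contains (pt (w (n + 1)) :: s.pre) then _ else _) else _) = _
          rw [if_pos h0, if_pos hc]
        rw [e]
        obtain ⟨h3, h4, -⟩ := hs.pre h0
        have h5 := prog_len _ (List.contains_iff_mem.1 hc)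
        rw [List.length_cons, h3] at h5
        exact ⟨by rw [List.length_cons, h3], h4.cons, h5⟩
      · exfalso
        rw [if_neg hc] at h
        split_ifs at h
    · rw [if_neg h0] at h
      exact absurd h h0
  · intro h
    rw [hpk] at h
    by_cases h0 : s.pk = 0
    · rw [if_pos h0] at h
      by_cases hc : prog.contains (pt (w (n + 1)) :: s.pre) = true
      · rw [if_pos hc] at h; exact absurd h (by norm_num)
      rw [if_neg hc] at h
      by_cases h5 : s.pre = [1,1,1,1]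
      · rw [if_pos h5] at h
        split_ifs at h <;> exact absurd h (by norm_num)
      rw [if_neg h5] at h
      obtain ⟨h3, h4, h4'⟩ := hs.pre h0
      by_cases h6 : ((s.pre.any fun a => a != 1) ||
          (Nat.blt s.pre.length 4 && pt (w (n + 1)) != 1)) = true
      · rw [Bool.or_eq_true, List.any_eq_true, Bool.and_eq_true, Nat.blt_eq, bne_iff_ne] at h6
        rcases h6 with ⟨a, ha, h7⟩ | ⟨h6, h7⟩
        · rw [bne_iff_ne] at h7
          obtain ⟨j, hj, e⟩ := List.getElem_of_mem ha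
          have h8 := h4.2 j hj
          refine ⟨n - j - 1, by omega, by omega, ?_⟩
          rw [show n - j - 1 + 1 = n - j by omega, h8, e]
          exact h7
        · exact ⟨n, by omega, by omega, h7⟩
      · rw [if_neg h6] at h
        exact absurd h (by norm_num)
    · rw [if_neg h0] at h
      obtain ⟨i, h1, h2, h3⟩ := hs.pk1 h
      exact ⟨i, h1, by omega, h3⟩
  · intro h
    rw [hpk] at h
    by_cases h0 : s.pk = 0
    · rw [if_pos h0] at h
      by_cases hc : prog.contains (pt (w (n + 1)) :: s.pre) = true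
      · rw [if_pos hc] at h; exact absurd h (by norm_num)
      rw [if_neg hc] at h
      by_cases h5 : s.pre = [1,1,1,1]
      · rw [if_pos h5] at h
        by_cases h6 : s.sh = 3 ∧ s.ph = 0
        · obtain ⟨h3, h4, -⟩ := hs.pre h0
          obtain ⟨h8, h7⟩ := l4_of_pre h3 h4 h5 (hs.sh ▸ h6.1) (hs.ph ▸ h6.2)
          exact ⟨by omega, h7⟩
        · rw [if_neg h6] at h; exact absurd h (by norm_num)
      · rw [if_neg h5] at h
        split_ifs at h <;> exact absurd h (by norm_num)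
    · rw [if_neg h0] at h
      obtain ⟨h1, h2⟩ := hs.pr4 h
      exact ⟨by omega, h2⟩
  · show min 8 (s.N + wt (w (n + 1))) = min 8 (nw w n + wt (w (n + 1)))
    rw [hs.N, min_min]
  · exact hs.mem.cons.pre (trim_pre _ _)
  · intro h
    simp only [Bool.or_eq_true, beq_iff_eq] at hm
    rcases hm with hm | hm
    · rw [Nat.blt_eq] at hm
      omega
    · rw [hm] at h ⊢
      simp only [List.length_cons] at h ⊢
      have := hs.mem2 (by omega)
      omega
  · rintro ⟨i, h1, h2, h3⟩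
    show (s.hF || w (n + 1) == 3) = true
    rw [Bool.or_eq_true, beq_iff_eq]
    by_cases hi : i = n + 1
    · right; rw [← hi]; exact h3
    · exact Or.inl (hs.hF ⟨i, h1, by omega, h3⟩)
  · intro _ h
    show 1 ≤ nsy s (w (n + 1)) ∧ nsy s (w (n + 1)) ≤ 4
    unfold nsy
    rw [if_pos h]
    split_ifs <;> omega
  · intro h1 h2 h3
    rw [Nat.add_sub_cancel] at h2
    show nsy s (w (n + 1)) = 5
    have h4 : ¬ ([2,0].isPrefixOf s.mem && s.sy != 6) = true := by
      intro h4
      rw [Bool.and_eq_true] at h4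
      have := pt_two.1 (hs.mem.two h4.1).2.1
      omega
    unfold nsy
    rw [if_neg (by omega), if_pos h3, if_neg h4, if_pos (hs.y1 (by omega) h2)]
  · intro h1 h2 h3 h4
    rw [Nat.add_sub_cancel] at h3
    rw [show n + 1 - 2 = n - 1 by omega] at h2
    show nsy s (w (n + 1)) = 6
    unfold nsy
    rw [if_neg (by omega), if_neg (by omega), if_pos h4, if_pos (hs.y5 (by omega) h2 h3)]
  · intro h
    have h' : nsy s (w (n + 1)) = 7 := h
    unfold nsy at h'
    by_cases h2 : w (n + 1) = 2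
    · rw [if_pos h2] at h'
      split_ifs at h' <;> omega
    rw [if_neg h2] at h'
    by_cases h0 : w (n + 1) = 0
    · rw [if_pos h0] at h'
      by_cases h4 : ([2,0].isPrefixOf s.mem && s.sy != 6) = true
      · rw [Bool.and_eq_true, bne_iff_ne] at h4
        obtain ⟨a1, a2, a3⟩ := hs.mem.two h4.1
        have a2' := pt_two.1 a2
        have a3' := pt_zero.1 a3
        refine ⟨by omega, ?_, ?_, h0, ?_⟩
        · rw [show n + 1 - 2 = n - 1 by omega]; exact a3'
        · rw [Nat.add_sub_cancel]; exact a2'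
        · rintro ⟨b1, b2⟩
          rw [show n + 1 - 3 = n - 2 by omega] at b2
          exact h4.2 (hs.y6 (by omega) b2 a3' a2')
      · rw [if_neg h4] at h'
        split_ifs at h' <;> omega
    · rw [if_neg h0] at h'
      split_ifs at h' <;> omega
  · intro h1 h2
    have h1' : 1 ≤ nsy s (w (n + 1)) := h1
    have h2' : nsy s (w (n + 1)) ≤ 4 := h2
    show nsy s (w (n + 1)) ≤ n + 1 ∧ ∀ i < nsy s (w (n + 1)), w (n + 1 - i) = 2
    by_cases hl : w (n + 1) = 2
    · by_cases h3 : 1 ≤ s.sy ∧ s.sy ≤ 3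
      · have e : nsy s (w (n + 1)) = s.sy + 1 := by
          unfold nsy; rw [if_pos hl, if_pos h3]
        rw [e]
        obtain ⟨b1, b2⟩ := hs.yc h3.1 (by omega)
        refine ⟨by omega, fun i hi => ?_⟩
        by_cases hi0 : i = 0
        · rw [hi0]; exact hl
        · have := b2 (i - 1) (by omega)
          rwa [show n - (i - 1) = n + 1 - i by omega] at this
      · by_cases h4 : s.sy = 4
        · have e : nsy s (w (n + 1)) = 4 := by
            unfold nsy; rw [if_pos hl, if_neg h3, if_pos h4]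
          rw [e]
          obtain ⟨b1, b2⟩ := hs.yc (by omega) (by omega)
          refine ⟨by omega, fun i hi => ?_⟩
          by_cases hi0 : i = 0
          · rw [hi0]; exact hl
          · have := b2 (i - 1) (by omega)
            rwa [show n - (i - 1) = n + 1 - i by omega] at this
        · have e : nsy s (w (n + 1)) = 1 := by
            unfold nsy; rw [if_pos hl, if_neg h3, if_neg h4]
          rw [e]
          refine ⟨by omega, fun i hi => ?_⟩
          have : i = 0 := by omega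
          rw [this]; exact hl
    · exfalso
      unfold nsy at h1' h2'
      rw [if_neg hl] at h1' h2'
      split_ifs at h1' h2' <;> omega
  · intro h
    by_cases hn : n = 0
    · exact h11 hn
    · exact hs.d h

/-- The state before the first letter, and after a first letter 4. -/
def s0 : St := ⟨0, 0, 0, [], 0, [], false, 0, false⟩
def s1 : St := ⟨3, 1, 0, [3], 2, [3], false, 0, true⟩

lemma s0_ok : (tree.mem (enc s0) && (dec (enc s0)).eqb s0) = true := by decide +kernel
lemma s1_ok : (tree.mem (enc s1) && (dec (enc s1)).eqb s1) = true := by decide +kernel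

lemma sem0 {w : ℕ → ℕ} (h : w 1 ≤ 3) : Sem w 0 s0 where
  sh := rfl
  ph := rfl
  pre _ := ⟨rfl, ⟨by simp [s0], fun i hi => absurd hi (by simp [s0])⟩, by omega⟩
  pk1 h := absurd h (by simp [s0])
  pr4 h := absurd h (by simp [s0])
  N := rfl
  mem := ⟨by simp [s0], fun i hi => absurd hi (by simp [s0])⟩
  mem2 _ := rfl
  hF := by rintro ⟨i, h1, h2, -⟩; omega
  y1 h := absurd h (by omega)
  y5 h := absurd h (by omega)
  y6 h := absurd h (by omega)
  y7 h := absurd h (by simp [s0])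
  yc h := absurd h (by simp [s0])
  d _ := h

lemma sem1 {w : ℕ → ℕ} (h : w 1 = 4) : Sem w 1 s1 where
  sh := by
    show 3 = (trn 0 (w 1)).1
    rw [h]; rfl
  ph := by
    show 1 = 0 + (trn 0 (w 1)).2
    rw [h]; rfl
  pre _ := ⟨rfl, ⟨by simp [s1], fun i hi => by
    have : i = 0 := by simp only [s1, List.length_cons, List.length_nil] at hi; omega
    subst this
    show pt (w 1) = 3
    rw [h]; rfl⟩, by omega⟩
  pk1 h := absurd h (by simp [s1])
  pr4 h := absurd h (by simp [s1])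
  N := by
    show 2 = min 8 (0 + wt (w 1))
    rw [h]; rfl
  mem := ⟨by simp [s1], fun i hi => by
    have : i = 0 := by simp only [s1, List.length_cons, List.length_nil] at hi; omega
    subst this
    show pt (w 1) = 3
    rw [h]; rfl⟩
  mem2 _ := rfl
  hF := by
    rintro ⟨i, h1, h2, h3⟩
    have : i = 1 := by omega
    rw [this, h] at h3
    omega
  y1 _ h' := by omega
  y5 h := absurd h (by omega)
  y6 h := absurd h (by omega)
  y7 h := absurd h (by simp [s1])
  yc h := absurd h (by simp [s1])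
  d h := absurd h (by simp [s1])

/-- The run of the automaton. -/
theorem run {w : ℕ → ℕ} {n k : ℕ} (hv : Vd w n) (hn : n ≤ k) (h1 : 1 ≤ n) (hp : (sr w n).2 ≤ 1)
    (hFF : ∀ i, 1 ≤ i → i + 1 ≤ k → w i = 3 → w (i + 1) ≠ 3)
    (hFUF : ∀ i, 1 ≤ i → i + 2 ≤ k → w i = 3 → w (i + 1) = 0 → w (i + 2) ≠ 3) :
    Out w k ∨ ∃ c, tree.mem c = true ∧ Sem w n (dec c) := by
  have key : ∀ m, 0 < m → m ≤ n → Out w k ∨ ∃ c, tree.mem c = true ∧ Sem w m (dec c) := by
    have hstep : ∀ m, m + 1 ≤ n → w (m + 1) ≤ 3 → (∃ c, tree.mem c = true ∧ Sem w m (dec c)) →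
        Out w k ∨ ∃ c, tree.mem c = true ∧ Sem w (m + 1) (dec c) := by
      rintro m hm h3 ⟨c, hc, hs⟩
      have hck := Tr.all_mem chk_all hc
      unfold chk at hck
      rw [Bool.and_eq_true, List.all_eq_true] at hck
      have h4 := hck.2 (w (m + 1)) (by
        have : w (m + 1) = 0 ∨ w (m + 1) = 1 ∨ w (m + 1) = 2 ∨ w (m + 1) = 3 := by omega
        rcases this with h | h | h | h <;> rw [h] <;> simp)
      rw [Bool.or_eq_true, Bool.and_eq_true, Bool.and_eq_true] at h4
      rcases h4 with h4 | ⟨⟨h4, h5⟩, h6⟩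
      · left
        exact step (n := m) (by omega) ((sr_mono (show m + 1 ≤ n by omega)).trans hp) hFF hFUF hs h4
      · right
        refine ⟨enc (nxt (dec c) (w (m + 1))), h4, ?_⟩
        rw [St.eq_of_eqb h5]
        exact hs.next h6 (fun h => by rw [h] at h3; exact h3)
    intro m hm
    induction m, hm using Nat.le_induction with
    | base =>
      intro hm'
      have h01 : (tree.mem (enc s0) && (dec (enc s0)).eqb s0) = true := s0_ok
      rw [Bool.and_eq_true] at h01
      by_cases h4 : w 1 = 4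
      · right
        have h11 : (tree.mem (enc s1) && (dec (enc s1)).eqb s1) = true := s1_ok
        rw [Bool.and_eq_true] at h11
        refine ⟨enc s1, h11.1, ?_⟩
        rw [St.eq_of_eqb h11.2]
        exact sem1 h4
      · have h13 : w 1 ≤ 3 := by have := hv.1 1 le_rfl h1; omega
        exact hstep 0 (by omega) h13 ⟨enc s0, h01.1, by rw [St.eq_of_eqb h01.2]; exact sem0 h13⟩
    | succ m hm ih =>
      intro hm'
      rcases ih (by omega) with h | h
      · exact Or.inl h
      · exact hstep m hm' (hv.2 (m + 1) (by omega) hm') h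
  exact key n (by omega) le_rfl

lemma l4_of {w : ℕ → ℕ} {n : ℕ} {s : St} (hs : Sem w n s) (h : l4 s = true) :
    L4 w n := by
  unfold l4 at h
  simp only [Bool.or_eq_true, Bool.and_eq_true, beq_iff_eq] at h
  rcases h with h | ⟨⟨⟨h1, h2⟩, h3⟩, h4⟩
  · exact hs.pr4 h
  · obtain ⟨h5, h6, -⟩ := hs.pre h1
    exact l4_of_pre h5 h6 h2 (hs.sh ▸ h3) (hs.ph ▸ h4)

lemma rg_of {w : ℕ → ℕ} {k : ℕ} {l : List ℕ} (hl : Lst w k l) (h : rgB l = true) : RG w k := by
  unfold rgB at h
  rw [List.any_eq_true] at h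
  obtain ⟨g, hg, hp⟩ := h
  rw [List.isPrefixOf_iff_prefix] at hp
  have h6 := hl.pre hp
  exact ⟨g, hg, h6.1, h6.2⟩

lemma r4_of {w : ℕ → ℕ} {k : ℕ} {l : List ℕ} (hl : Lst w k l) (h : [1,1,1,1].isPrefixOf l = true) :
    R4 w k := by
  rw [List.isPrefixOf_iff_prefix] at h
  have h6 := hl.pre h
  refine ⟨h6.1, fun i hi => ?_⟩
  rw [h6.2 i (by simpa using hi)]
  have hi4 : i = 0 ∨ i = 1 ∨ i = 2 ∨ i = 3 := by omega
  rcases hi4 with rfl | rfl | rfl | rfl <;> rfl

/-- **Words.** -/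
theorem words {w : ℕ → ℕ} {k : ℕ} (hk : 2 ≤ k) (h1 : w 1 ≤ 4) (h3 : ∀ i, 2 ≤ i → i < k → w i ≤ 3)
    (hlast : w k ≤ 3 ∨ w k = 5) (hl : Law w k) (hF : ∃ i, 1 ≤ i ∧ i ≤ k ∧ w i = 3)
    (hFF : ∀ i, 1 ≤ i → i + 1 ≤ k → w i = 3 → w (i + 1) ≠ 3)
    (hFUF : ∀ i, 1 ≤ i → i + 2 ≤ k → w i = 3 → w (i + 1) = 0 → w (i + 2) ≠ 3) :
    LG w k ∨ RG w k ∨ L4X w k ∨ nw w k ≤ 6 ∨
      (w 1 ≤ 3 ∧ (IsoN w k ∨ w k = 5 ∨ (R4 w k ∧ (¬ L4p w k ∨ R4y w k)))) := by
  rcases hlast with hlast | hlast
  · have hv : Vd w k := ⟨fun i i1 i2 => by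
      by_cases hi : i = 1
      · rw [hi]; exact h1
      · by_cases hik : i = k
        · rw [hik]; omega
        · have := h3 i (by omega) (by omega); omega, fun i i1 i2 => by
      by_cases hik : i = k
      · rw [hik]; omega
      · exact h3 i (by omega) (by omega)⟩
    have hacc := law_acc hv hl
    have hp : (sr w k).2 ≤ 1 := by
      unfold acc at hacc
      rw [decide_eq_true_eq] at hacc
      omega
    rcases run hv le_rfl (by omega) hp hFF hFUF with h | ⟨c, hc, hs⟩
    · rcases h with h | h | ⟨h, h'⟩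
      · exact Or.inl h
      · exact Or.inr (Or.inr (Or.inl h))
      · exact Or.inr (Or.inr (Or.inr (Or.inr ⟨h, Or.inl h'⟩)))
    · have hck := Tr.all_mem chk_all hc
      unfold chk at hck
      simp only [Bool.and_eq_true] at hck
      have h5 := hck.1.1
      unfold fin at h5
      simp only [Bool.or_eq_true, Bool.not_eq_true', Bool.and_eq_true, beq_iff_eq] at h5
      rcases h5 with (((((h5 | h5) | h5) | h5) | h5) | h5) | h5
      · rw [hs.hF hF] at h5
        exact absurd h5 (by simp)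
      · rw [hs.sh, hs.ph, hacc] at h5
        exact absurd h5 (by simp)
      · exact Or.inr (Or.inl (rg_of hs.mem h5))
      · rw [Nat.blt_eq, hs.N] at h5
        exact Or.inr (Or.inr (Or.inr (Or.inl (by omega))))
      · obtain ⟨a1, a2, a3, a4, a5⟩ := hs.y7 h5.1
        refine Or.inr (Or.inr (Or.inr (Or.inr ⟨hs.d h5.2, Or.inl ⟨k - 1, by omega, by omega, ?_, a3, ?_,
          ?_, ?_⟩⟩)))
        · rw [show k - 1 - 1 = k - 2 by omega]; exact a2
        · rw [show k - 1 + 1 = k by omega]; exact a4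
        · rintro ⟨b1, b2⟩
          rw [show k - 1 - 2 = k - 3 by omega] at b2
          exact a5 ⟨by omega, b2⟩
        · rintro ⟨b1, b2⟩
          omega
      · have h6 := l4_of hs h5.1
        refine Or.inr (Or.inr (Or.inl ⟨?_, h6, Or.inr ?_⟩))
        · obtain ⟨i, i1, i2, i3⟩ := hF
          by_contra hcon
          have h7 := h6.1
          have := h6.2 (i - 1) (by omega)
          rw [show i - 1 + 1 = i by omega] at this
          omega
        · rcases h5.2 with h7 | h7
          · exact Or.inl (r4_of hs.mem h7)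
          · rw [hs.N] at h7
            exact Or.inr (by omega)
      · refine Or.inr (Or.inr (Or.inr (Or.inr ⟨hs.d h5.2, Or.inr (Or.inr ⟨r4_of hs.mem h5.1.1, ?_⟩)⟩)))
        rcases h5.1.2 with h6 | h6
        · left
          intro h7
          obtain ⟨i, i1, i2, i3⟩ := hs.pk1 h6
          exact i3 (h7.2 i i1)
        · right
          have := hs.yc (by omega) (by omega)
          rw [h6] at this
          exact this
  · obtain ⟨n, rfl⟩ : ∃ n, k = n + 1 := ⟨k - 1, by omega⟩
    have hv : Vd w n := ⟨fun i i1 i2 => by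
      by_cases hi : i = 1
      · rw [hi]; exact h1
      · have := h3 i (by omega) (by omega); omega, fun i i1 i2 => h3 i (by omega) (by omega)⟩
    have hacc := law_acce hv hlast hl
    have hp : (sr w n).2 ≤ 1 := by
      unfold acce at hacc
      rw [decide_eq_true_eq] at hacc
      omega
    rcases run hv (Nat.le_succ n) (by omega) hp hFF hFUF with h | ⟨c, hc, hs⟩
    · rcases h with h | h | ⟨h, h'⟩
      · exact Or.inl h
      · exact Or.inr (Or.inr (Or.inl h))
      · exact Or.inr (Or.inr (Or.inr (Or.inr ⟨h, Or.inl h'⟩)))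
    · have hck := Tr.all_mem chk_all hc
      unfold chk at hck
      simp only [Bool.and_eq_true] at hck
      have h5 := hck.1.2
      unfold fine at h5
      simp only [Bool.or_eq_true, Bool.not_eq_true'] at h5
      have hF' : ∃ i, 1 ≤ i ∧ i ≤ n ∧ w i = 3 := by
        obtain ⟨i, i1, i2, i3⟩ := hF
        refine ⟨i, i1, ?_, i3⟩
        by_contra hcon
        have : i = n + 1 := by omega
        rw [this, hlast] at i3
        omega
      have e1 : nw w (n + 1) = nw w n + 2 := by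
        show nw w n + wt (w (n + 1)) = _
        rw [hlast]; rfl
      rcases h5 with (((h5 | h5) | h5) | h5) | h5
      · rw [hs.hF hF'] at h5
        exact absurd h5 (by simp)
      · exact Or.inr (Or.inr (Or.inr (Or.inr ⟨hs.d h5, Or.inr (Or.inl hlast)⟩)))
      · rw [hs.sh, hs.ph, hacc] at h5
        exact absurd h5 (by simp)
      · refine Or.inr (Or.inl (rg_of ?_ h5))
        have := hs.mem.cons
        rw [hlast] at this
        exact this
      · rw [Nat.blt_eq, hs.N] at h5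
        exact Or.inr (Or.inr (Or.inr (Or.inl (by omega))))

end CLB.H3.Wd
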