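import Mathlib

/-!
Words of a caterpillar over the units of a chain: the law and its automaton.
Letters: 0 unseen, 1 seen through `x`, 2 seen through `y`, 3 full, 4 (first unit) `x` twice,
5 (last unit) `y` twice.
-/

set_option autoImplicit false

namespace CLB.H3.Wd

open Finset

/-- Pattern letters: 0 unseen, 1 seen once, 2 full, 3 double. -/
def pt (l : ℕ) : ℕ := if l = 0 then 0 else if l ≤ 2 then 1 else if l = 3 then 2 else 3

/-- Number of ports. -/
def wt (l : ℕ) : ℕ := if l = 0 then 0 else if l ≤ 2 then 1 else 2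

/-- Budget of a letter. -/
def bl (l : ℕ) : ℤ := if l ≤ 2 then 0 else if l = 3 then 1 else -1

/-- Choices: 0 unseen, 1 `x`, 2 `y`. -/
def okc (l c : ℕ) : Bool :=
  (l == 0 && c == 0) || (l == 1 && c == 1) || (l == 2 && c == 2) || (l == 3 && (c == 1 || c == 2)) ||
    (l == 4 && c == 1) || (l == 5 && c == 2)

/-- Status after a letter: 0 start, 1 unseen and not faced, 2 unseen and faced, 3 `x`, 4 `y`. -/
def nst (s d : ℕ) : ℕ := if d = 0 then (if s = 4 then 2 else 1) else if d = 1 then 3 else 4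

def inc (s d : ℕ) : ℕ :=
  if d = 0 then (if s = 4 then 1 else 0) else if d = 1 then (if s = 4 then 2 else if s = 1 then 1 else 0)
  else 0

def stat (c : ℕ → ℕ) : ℕ → ℕ
  | 0 => 0
  | n + 1 => nst (stat c n) (c (n + 1))

/-- The gain: twice the number of links plus the number of faced unseen units. -/
def gn (c : ℕ → ℕ) : ℕ → ℕ
  | 0 => 0
  | n + 1 => gn c n + inc (stat c n) (c (n + 1))

def bd (w : ℕ → ℕ) : ℕ → ℤ
  | 0 => 0
  | n + 1 => bd w n + bl (w (n + 1))

/-- The law. -/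
def Law (w : ℕ → ℕ) (k : ℕ) : Prop :=
  ∀ c : ℕ → ℕ, (∀ i, 1 ≤ i → i ≤ k → okc (w i) (c i) = true) → (gn c k : ℤ) ≤ bd w k

/-- The transitions of the automaton of the law, with the increase of the potential. -/
def tbl : List (ℕ × ℕ) :=
  [(1, 1), (3, 0), (4, 1), (4, 0),
   (1, 0), (3, 0), (4, 0), (5, 0),
   (1, 1), (3, 0), (4, 1), (4, 0),
   (1, 1), (3, 0), (4, 1), (4, 0),
   (2, 0), (3, 1), (4, 0), (6, 0),
   (1, 0), (3, 0), (4, 0), (5, 0),
   (1, 1), (3, 0), (4, 1), (4, 0)]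

def trn (sh l : ℕ) : ℕ × ℕ := if l = 4 then (3, 1) else tbl.getD (4 * sh + l) (0, 0)

def sr (w : ℕ → ℕ) : ℕ → ℕ × ℕ
  | 0 => (0, 0)
  | n + 1 => ((trn (sr w n).1 (w (n + 1))).1, (sr w n).2 + (trn (sr w n).1 (w (n + 1))).2)

def ofs (sh : ℕ) : ℕ := if sh = 0 ∨ sh = 2 ∨ sh = 3 then 1 else 0

def Gs (sh : ℕ) : List (ℕ × ℤ) :=
  if sh = 0 then [(0, 0)] else if sh = 1 then [(1, 0)] else if sh = 2 then [(2, 0)]
  else if sh = 3 then [(3, 0)] else if sh = 4 then [(4, 0)] else if sh = 5 then [(3, 0), (4, -1)]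
  else [(3, 1), (4, -1)]

def ckT (sh l : ℕ) : Bool :=
  decide ((trn sh l).1 < 7) && (Gs (trn sh l).1).all fun q => (Gs sh).any fun r =>
    [0, 1, 2].any fun d => okc l d && (nst r.1 d == q.1) &&
      decide (q.2 + (trn sh l).2 + ofs (trn sh l).1 + bl l ≤ r.2 + ofs sh + inc r.1 d)

lemma ckT_ok : ∀ sh < 7, ∀ l < 4, ckT sh l = true := by decide +kernel

lemma ckT_four : ckT 0 4 = true := by decide +kernel

lemma stat_congr {c c' : ℕ → ℕ} {n : ℕ} (h : ∀ i ≤ n, c i = c' i) : stat c n = stat c' n := by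
  induction n with
  | zero => rfl
  | succ n ih =>
    show nst (stat c n) (c (n + 1)) = nst (stat c' n) (c' (n + 1))
    rw [ih (fun i hi => h i (by omega)), h (n + 1) le_rfl]

lemma gn_congr {c c' : ℕ → ℕ} {n : ℕ} (h : ∀ i ≤ n, c i = c' i) : gn c n = gn c' n := by
  induction n with
  | zero => rfl
  | succ n ih =>
    show gn c n + inc (stat c n) (c (n + 1)) = gn c' n + inc (stat c' n) (c' (n + 1))
    rw [ih (fun i hi => h i (by omega)), h (n + 1) le_rfl, stat_congr (fun i hi => h i (by omega))]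

/-- Only the first letter may be the letter 4. -/
def Vd (w : ℕ → ℕ) (n : ℕ) : Prop := (∀ i, 1 ≤ i → i ≤ n → w i ≤ 4) ∧ ∀ i, 2 ≤ i → i ≤ n → w i ≤ 3

lemma Vd.mono {w : ℕ → ℕ} {n m : ℕ} (h : Vd w m) (hn : n ≤ m) : Vd w n :=
  ⟨fun i h1 h2 => h.1 i h1 (by omega), fun i h1 h2 => h.2 i h1 (by omega)⟩

/-- The guaranteed gains. -/
lemma guar {w : ℕ → ℕ} {n : ℕ} (hv : Vd w n) : (sr w n).1 < 7 ∧ ∀ q ∈ Gs (sr w n).1, ∃ c : ℕ → ℕ,
    (∀ i, 1 ≤ i → i ≤ n → okc (w i) (c i) = true) ∧ stat c n = q.1 ∧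
      q.2 + ((sr w n).2 - 1 + ofs (sr w n).1) + bd w n ≤ gn c n := by
  induction n with
  | zero =>
    refine ⟨by show (0 : ℕ) < 7; norm_num, fun q hq => ⟨fun _ => 0, fun i h1 h2 => by omega, ?_, ?_⟩⟩
    · have : q = (0, 0) := by simpa [sr, Gs] using hq
      rw [this]; rfl
    · have : q = (0, 0) := by simpa [sr, Gs] using hq
      rw [this]
      simp [sr, ofs, bd, gn]
  | succ n ih =>
    obtain ⟨h7, ih⟩ := ih (hv.mono (by omega))
    have hck : ckT (sr w n).1 (w (n + 1)) = true := by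
      by_cases hn : n = 0
      · subst hn
        have e : (sr w 0).1 = 0 := rfl
        rw [e]
        by_cases h4 : w (0 + 1) = 4
        · rw [h4]; exact ckT_four
        · exact ckT_ok 0 (by norm_num) _ (by have := hv.1 1 le_rfl (by omega); simp at h4 ⊢; omega)
      · exact ckT_ok _ h7 _ (by have := hv.2 (n + 1) (by omega) le_rfl; omega)
    unfold ckT at hck
    rw [Bool.and_eq_true, List.all_eq_true] at hck
    refine ⟨by simpa [sr] using hck.1, fun q hq => ?_⟩
    have h1 := hck.2 q hq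
    rw [List.any_eq_true] at h1
    obtain ⟨r, hr, h2⟩ := h1
    rw [List.any_eq_true] at h2
    obtain ⟨d, -, h3⟩ := h2
    simp only [Bool.and_eq_true, beq_iff_eq, decide_eq_true_eq] at h3
    obtain ⟨⟨h4, h5⟩, h6⟩ := h3
    obtain ⟨c, c1, c2, c3⟩ := ih r hr
    have hc : ∀ i ≤ n, Function.update c (n + 1) d i = c i := fun i hi =>
      Function.update_of_ne (by omega) _ _
    refine ⟨Function.update c (n + 1) d, fun i i1 i2 => ?_, ?_, ?_⟩
    · by_cases hi : i = n + 1
      · rw [hi, Function.update_self]; exact h4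
      · rw [hc i (by omega)]; exact c1 i i1 (by omega)
    · show nst (stat (Function.update c (n + 1) d) n) (Function.update c (n + 1) d (n + 1)) = q.1
      rw [stat_congr hc, Function.update_self, c2]; exact h5
    · show q.2 + (((sr w n).2 + (trn (sr w n).1 (w (n + 1))).2 : ℕ) - 1 +
          ofs (trn (sr w n).1 (w (n + 1))).1) + (bd w n + bl (w (n + 1)))
          ≤ ((gn (Function.update c (n + 1) d) n + inc (stat (Function.update c (n + 1) d) n)
            (Function.update c (n + 1) d (n + 1)) : ℕ) : ℤ)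
      rw [stat_congr hc, gn_congr hc, Function.update_self, c2]
      push_cast
      linarith

lemma sr_mono {w : ℕ → ℕ} {n m : ℕ} (h : n ≤ m) : (sr w n).2 ≤ (sr w m).2 := by
  induction m, h using Nat.le_induction with
  | base => exact le_rfl
  | succ m hm ih => exact ih.trans (Nat.le_add_right _ _)

/-- Acceptance. -/
def acc (sh ph : ℕ) : Bool := decide (ph + ofs sh + (if sh = 6 then 1 else 0) ≤ 1)

def acce (sh ph : ℕ) : Bool := decide (ph + ofs sh + (if sh = 6 then 1 else 0) = 0)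

lemma Gs_top : ∀ sh < 7, ∃ q ∈ Gs sh, q.2 = (if sh = 6 then 1 else 0) := by
  decide

lemma law_acc {w : ℕ → ℕ} {k : ℕ} (hv : Vd w k) (hl : Law w k) :
    acc (sr w k).1 (sr w k).2 = true := by
  obtain ⟨h7, h⟩ := guar hv
  obtain ⟨q, hq, hq2⟩ := Gs_top _ h7
  obtain ⟨c, c1, c2, c3⟩ := h q hq
  have h1 := hl c c1
  unfold acc
  rw [decide_eq_true_eq]
  rw [hq2] at c3
  have h2 : ((if (sr w k).1 = 6 then 1 else 0 : ℤ) + ((sr w k).2 - 1 + ofs (sr w k).1)) ≤ 0 := by
    linarith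
  by_cases h6 : (sr w k).1 = 6
  · rw [if_pos h6] at h2 ⊢
    omega
  · rw [if_neg h6] at h2 ⊢
    omega

lemma law_acce {w : ℕ → ℕ} {n : ℕ} (hv : Vd w n) (h5 : w (n + 1) = 5) (hl : Law w (n + 1)) :
    acce (sr w n).1 (sr w n).2 = true := by
  obtain ⟨h7, h⟩ := guar hv
  obtain ⟨q, hq, hq2⟩ := Gs_top _ h7
  obtain ⟨c, c1, c2, c3⟩ := h q hq
  have hc : ∀ i ≤ n, Function.update c (n + 1) 2 i = c i := fun i hi =>
    Function.update_of_ne (by omega) _ _
  have h1 := hl (Function.update c (n + 1) 2) (fun i i1 i2 => by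
    by_cases hi : i = n + 1
    · rw [hi, Function.update_self, h5]; rfl
    · rw [hc i (by omega)]; exact c1 i i1 (by omega))
  have e1 : gn (Function.update c (n + 1) 2) (n + 1) = gn c n := by
    show gn (Function.update c (n + 1) 2) n + inc _ (Function.update c (n + 1) 2 (n + 1)) = _
    rw [gn_congr hc, Function.update_self]
    rfl
  have e2 : bd w (n + 1) = bd w n - 1 := by
    show bd w n + bl (w (n + 1)) = _
    rw [h5]
    rfl
  rw [e1, e2] at h1
  unfold acce
  rw [decide_eq_true_eq]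
  rw [hq2] at c3
  by_cases h6 : (sr w n).1 = 6
  · rw [if_pos h6] at c3 ⊢
    omega
  · rw [if_neg h6] at c3 ⊢
    omega

end CLB.H3.Wd
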