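import Pool.Agent.Helper3_DA.Iso
import Pool.Agent.Helper95_CLB.OpenAsm

/-!
The word theorem for paths with at least six vertices: special type, or a good window.
-/

set_option autoImplicit false
set_option linter.unusedSectionVars false

namespace CLB.H3

open Finset Classical
open H3DA (Q neg nr)
open CLB.H95
open CLB.H3.Wd (pt wt bl okc nst inc stat gn bd Law nw LG RG L4 R4 goods words)

section num

/-- A good end which is the whole word has few ports. -/
lemma nw_goods {w : ℕ → ℕ} {g : List ℕ} (hg : g ∈ goods)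
    (h : ∀ i (h : i < g.length), pt (w (i + 1)) = g[i]) : nw w g.length ≤ 6 := by
  have key : ∀ i (h : i < g.length), wt (w (i + 1)) ≤ (g.map (fun p => min p 2))[i]'(by simpa using h) := by
    intro i hi
    have h1 := h i hi
    rw [List.getElem_map, ← h1]
    unfold pt wt
    split_ifs <;> omega
  have h3 : nw w g.length ≤ (g.map (fun p => min p 2)).sum := by
    have h4 : ∀ n, n ≤ g.length → nw w n ≤ ((g.map (fun p => min p 2)).take n).sum := by
      intro n hn
      induction n with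
      | zero => simp [nw]
      | succ n ih =>
        show nw w n + wt (w (n + 1)) ≤ _
        rw [List.sum_take_succ _ n (by simp; omega)]
        exact Nat.add_le_add (ih (by omega)) (key n (by omega))
    have h5 := h4 _ le_rfl
    rwa [List.take_of_length_le (by simp)] at h5
  refine h3.trans ?_
  revert hg
  have : ∀ g ∈ goods, (g.map (fun p => min p 2)).sum ≤ 6 := by decide
  exact this g

end num

section cat

variable {V : Type*} {G : SimpleGraph V} {R : V → Bool} [Fintype V]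
variable {m : ℕ} {z c : ℕ → V} {k : ℕ} {x y : ℕ → V}

/-- The pattern of a unit: 0 unseen, 1 seen once, 2 full. -/
def PU (m : ℕ) (c x y : ℕ → V) (i p : ℕ) : Prop :=
  (p = 0 ∧ pc m c (x i) = 0 ∧ pc m c (y i) = 0) ∨ (p = 1 ∧ pc m c (x i) + pc m c (y i) = 1) ∨
  (p = 2 ∧ pc m c (x i) = 1 ∧ pc m c (y i) = 1)

/-- The exceptional status of four units is excluded. -/
def NX2 (m : ℕ) (c x : ℕ → V) : Prop :=
  ∀ a b, a ≤ m + 1 → b ≤ m + 1 → c a = x 3 → c b = x 4 → ((a ≤ 1 ∧ m ≤ b) ∨ (m ≤ a ∧ b ≤ 1)) →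
    ∃ l ≤ m + 1, (l ≤ 1 ∨ m ≤ l) ∧ c l = x 2

lemma ltr_swap {m : ℕ} {c x y : ℕ → V} {x' y' : ℕ → V} {i i' : ℕ} (h1 : x' i' = y i)
    (h2 : y' i' = x i) : pt (ltr m c x' y' i') = pt (ltr m c x y i) ∧
      (ltr m c x' y' i' = 1 → ltr m c x y i = 2) := by
  unfold ltr
  rw [h1, h2]
  by_cases a0 : pc m c (x i) = 0 <;> by_cases b0 : pc m c (y i) = 0 <;>
    by_cases a1 : pc m c (x i) = 1 <;> by_cases b1 : pc m c (y i) = 1 <;> simp [a0, b0, a1, b1, pt]

lemma ltr_zero {i : ℕ} : ltr m c x y i = 0 ↔ pc m c (x i) = 0 ∧ pc m c (y i) = 0 := by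
  unfold ltr; split_ifs <;> simp_all

lemma ltr_three {i : ℕ} : ltr m c x y i = 3 ↔ 1 ≤ pc m c (x i) ∧ 1 ≤ pc m c (y i) := by
  unfold ltr; split_ifs <;> simp_all <;> omega

lemma ltr_one {i : ℕ} : ltr m c x y i = 1 ↔ pc m c (x i) = 1 ∧ pc m c (y i) = 0 := by
  unfold ltr; split_ifs <;> simp_all

lemma ltr_two {i : ℕ} : ltr m c x y i = 2 ↔ pc m c (x i) = 0 ∧ pc m c (y i) = 1 := by
  unfold ltr; split_ifs <;> simp_all

lemma pu_ltr (hno : NoG k x y m c) {i : ℕ} (h1 : 1 ≤ i) (h2 : i ≤ k)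
    (h : pt (ltr m c x y i) ≤ 2) : PU m c x y i (pt (ltr m c x y i)) := by
  by_cases e0 : ltr m c x y i = 0
  · rw [e0]; exact Or.inl ⟨rfl, ltr_zero.1 e0⟩
  by_cases e3 : ltr m c x y i = 3
  · rw [e3]
    have e4 := ltr_three.1 e3
    exact Or.inr (Or.inr ⟨rfl, hno i h1 h2 e4.1 e4.2⟩)
  have e12 : ltr m c x y i = 1 ∨ ltr m c x y i = 2 := by
    unfold pt at h
    split_ifs at h <;> omega
  rcases e12 with e | e
  · rw [e]
    have := ltr_one.1 e
    exact Or.inr (Or.inl ⟨rfl, by omega⟩)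
  · rw [e]
    have := ltr_two.1 e
    exact Or.inr (Or.inl ⟨rfl, by omega⟩)

lemma NoG.rev (hno : NoG k x y m c) :
    NoG k (fun i => y (k + 1 - i)) (fun i => x (k + 1 - i)) m c := by
  intro i h1 h2 h3 h4
  exact (hno (k + 1 - i) (by omega) (by omega) h4 h3).symm

lemma PU.swap {x' y' : ℕ → V} {i i' p : ℕ} (h : PU m c x y i p) (h1 : x' i' = y i)
    (h2 : y' i' = x i) : PU m c x' y' i' p := by
  unfold PU at h ⊢
  rw [h1, h2]
  rcases h with ⟨e, a, b⟩ | ⟨e, a⟩ | ⟨e, a, b⟩
  · exact Or.inl ⟨e, b, a⟩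
  · exact Or.inr (Or.inl ⟨e, by omega⟩)
  · exact Or.inr (Or.inr ⟨e, b, a⟩)

lemma isFull_of_ltr (hno : NoG k x y m c) {i : ℕ} (h1 : 1 ≤ i) (h2 : i ≤ k)
    (h : ltr m c x y i = 3) : PU m c x y i 2 := by
  have e4 := ltr_three.1 h
  exact Or.inr (Or.inr ⟨rfl, hno i h1 h2 e4.1 e4.2⟩)

/-- Linked vertices have one port. -/
lemma pc_x_le (hG : ClassC G R) (hcat : Cat G R m z c) (h : Chn G R k x y) {i : ℕ} (h1 : 2 ≤ i)
    (h2 : i ≤ k) : pc m c (x i) ≤ 1 := by
  have := h.lk (i - 1) (by omega) (by omega)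
  rw [show i - 1 + 1 = i by omega] at this
  exact pc_lk hG hcat this.symm

lemma pc_y_le (hG : ClassC G R) (hcat : Cat G R m z c) (h : Chn G R k x y) {i : ℕ} (h1 : 1 ≤ i)
    (h2 : i < k) : pc m c (y i) ≤ 1 := pc_lk hG hcat (h.lk i h1 h2)

/-- The letters. -/
lemma ltr_le (hG : ClassC G R) (hcat : Cat G R m z c) (h : Chn G R k x y) (hk : 2 ≤ k) :
    ltr m c x y 1 ≤ 4 ∧ (∀ i, 2 ≤ i → i < k → ltr m c x y i ≤ 3) ∧
      (ltr m c x y k ≤ 3 ∨ ltr m c x y k = 5) := by
  refine ⟨?_, fun i i1 i2 => ?_, ?_⟩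
  · have := pc_y_le hG hcat h (i := 1) le_rfl (by omega)
    unfold ltr
    split_ifs <;> omega
  · have h1 := pc_y_le hG hcat h (i := i) (by omega) i2
    have h2 := pc_x_le hG hcat h (i := i) i1 (by omega)
    unfold ltr
    split_ifs <;> omega
  · have h2 := pc_x_le hG hcat h (i := k) hk le_rfl
    unfold ltr
    split_ifs <;> omega

/-- Ports of the chain when no unit is full. -/
theorem noFull_out (hG : ClassC G R) (h : Chn G R k x y) (hcat : Cat G R m z c)
    (hF : NoFull G R m c) (hm : 6 ≤ m) (hout : outN k x y m c ≤ 1) :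
    (∃ a b, Sp k x y m c a b) ∨ (∀ i, 1 ≤ i → i ≤ 7 → i ≤ k ∧ pc m c (x i) = 1 ∧ pc m c (y i) = 0) ∨
    (∀ i, 1 ≤ i → i ≤ 7 → i ≤ k ∧ pc m c (y (k + 1 - i)) = 1 ∧ pc m c (x (k + 1 - i)) = 0) := by
  obtain ⟨a, g, hag, hgk, hx, hy⟩ := noFull_shape hG h hcat hF
  obtain ⟨hinj, -⟩ := noFull_inj hG h hcat hF
  have hone : ∀ v, pc m c v ≤ 1 := by
    intro v
    unfold pc
    rw [card_le_one]
    intro s hs t ht
    rw [mem_filter, mem_range] at hs ht
    exact hinj s t (by omega) (by omega) (hs.2.trans ht.2.symm)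
  have hpx : ∀ i, 1 ≤ i → i ≤ k → (pc m c (x i) = 1 ↔ i ≤ a) := by
    intro i i1 i2
    rw [← hx i i1 i2, ← pc_pos]
    have := hone (x i)
    omega
  have hpy : ∀ i, 1 ≤ i → i ≤ k → (pc m c (y i) = 1 ↔ g ≤ i) := by
    intro i i1 i2
    rw [← hy i i1 i2, ← pc_pos]
    have := hone (y i)
    omega
  by_cases ha : a = 0
  · -- only `y`
    right; right
    have hsum := total_ports (m := m) (c := c) h
    have e1 : ∀ i ∈ Icc 1 k, pc m c (x i) + pc m c (y i) = if g ≤ i then 1 else 0 := by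
      intro i hi
      rw [mem_Icc] at hi
      have h1 := hpx i hi.1 hi.2
      have h2 := hpy i hi.1 hi.2
      have h3 := hone (x i)
      have h4 := hone (y i)
      split_ifs with h5
      · have := h2.2 h5; omega
      · omega
    rw [sum_congr rfl e1, ← card_filter] at hsum
    have h5 : ((Icc 1 k).filter (fun i => g ≤ i)).card ≤ k + 1 - g := by
      refine (card_le_card (t := Icc g k) fun i hi => ?_).trans (by rw [Nat.card_Icc])
      rw [mem_filter, mem_Icc] at hi
      rw [mem_Icc]; omega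
    intro i i1 i2
    have h6 := hpy (k + 1 - i) (by omega) (by omega)
    have h7 := hpx (k + 1 - i) (by omega) (by omega)
    have h8 := hone (x (k + 1 - i))
    exact ⟨by omega, h6.2 (by omega), by omega⟩
  by_cases hg : g = k + 1
  · right; left
    have hsum := total_ports (m := m) (c := c) h
    have e1 : ∀ i ∈ Icc 1 k, pc m c (x i) + pc m c (y i) = if i ≤ a then 1 else 0 := by
      intro i hi
      rw [mem_Icc] at hi
      have h1 := hpx i hi.1 hi.2
      have h2 := hpy i hi.1 hi.2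
      have h3 := hone (x i)
      have h4 := hone (y i)
      split_ifs with h5
      · have := h1.2 h5; omega
      · omega
    rw [sum_congr rfl e1, ← card_filter] at hsum
    have h5 : ((Icc 1 k).filter (fun i => i ≤ a)).card ≤ min a k := by
      refine (card_le_card (t := Icc 1 (min a k)) fun i hi => ?_).trans
        (by rw [Nat.card_Icc]; omega)
      rw [mem_filter, mem_Icc] at hi
      rw [mem_Icc]; omega
    intro i i1 i2
    have h6 := hpy i (by omega) (by omega)
    have h7 := hpx i (by omega) (by omega)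
    have h8 := hone (y i)
    exact ⟨by omega, h7.2 (by omega), by omega⟩
  · left
    refine ⟨a, k + 1 - g, by omega, by omega, by omega, fun i i1 i2 => ?_, fun i i1 i2 => ?_,
      fun j hj hin => ?_, fun i j hi hj _ he => hinj i j hi hj he⟩
    · exact (hx i i1 (by omega)).2 i2
    · by_cases hi0 : i = 0
      · omega
      · exact (hy i (by omega) i1).2 (by omega)
    · obtain ⟨i, i1, i2, e | e⟩ := hin
      · exact Or.inl ⟨i, i1, (hx i i1 i2).1 ⟨j, hj, e⟩, e⟩
      · exact Or.inr ⟨i, i2, by have := (hy i i1 i2).1 ⟨j, hj, e⟩; omega, e⟩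

/-- One port of the four ends outside. -/
lemma outN_le (hm : 5 ≤ m) (hn : NCp m (JC k x y c)) : outN k x y m c ≤ 1 := by
  unfold outN
  rw [card_le_one]
  intro s hs t ht
  rw [mem_filter, mem_range] at hs ht
  obtain ⟨hs1, hs2⟩ := hs
  obtain ⟨ht1, ht2⟩ := ht
  change ¬ JC k x y c s at hs2
  change ¬ JC k x y c t at ht2
  by_contra hne
  have hcase : ∀ j, j ≤ m + 1 → j = 0 ∨ j = 1 ∨ (2 ≤ j ∧ j + 1 ≤ m) ∨ j = m ∨ j = m + 1 := by
    intro j hj; omega
  rcases hn with h | h | h | h | h | h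
  · omega
  · obtain ⟨h0, h1, h2, h3, h4⟩ := h
    have as : s = m ∨ s = m + 1 := by
      rcases hcase s (by omega) with e | e | e | e | e
      · exact absurd (e ▸ h0) hs2
      · exact absurd (e ▸ h1) hs2
      · exact absurd (h4 s e.1 e.2) hs2
      · exact Or.inl e
      · exact Or.inr e
    have at' : t = m ∨ t = m + 1 := by
      rcases hcase t (by omega) with e | e | e | e | e
      · exact absurd (e ▸ h0) ht2
      · exact absurd (e ▸ h1) ht2
      · exact absurd (h4 t e.1 e.2) ht2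
      · exact Or.inl e
      · exact Or.inr e
    rcases as with rfl | rfl <;> rcases at' with rfl | rfl <;> simp_all
  · obtain ⟨h0, h1, h2, h3, h4⟩ := h
    have as : s = 0 ∨ s = 1 := by
      rcases hcase s (by omega) with e | e | e | e | e
      · exact Or.inl e
      · exact Or.inr e
      · exact absurd (h4 s e.1 e.2) hs2
      · exact absurd (e ▸ h0) hs2
      · exact absurd (e ▸ h1) hs2
    have at' : t = 0 ∨ t = 1 := by
      rcases hcase t (by omega) with e | e | e | e | e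
      · exact Or.inl e
      · exact Or.inr e
      · exact absurd (h4 t e.1 e.2) ht2
      · exact absurd (e ▸ h0) ht2
      · exact absurd (e ▸ h1) ht2
    rcases as with rfl | rfl <;> rcases at' with rfl | rfl <;> simp_all
  · obtain ⟨h0, h1, h2, h3, h4⟩ := h
    have as : 2 ≤ s ∧ s + 1 ≤ m := by
      rcases hcase s (by omega) with e | e | e | e | e
      · exact absurd (e ▸ h0) hs2
      · exact absurd (e ▸ h1) hs2
      · exact e
      · exact absurd (e ▸ h2) hs2
      · exact absurd (e ▸ h3) hs2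
    have at' : 2 ≤ t ∧ t + 1 ≤ m := by
      rcases hcase t (by omega) with e | e | e | e | e
      · exact absurd (e ▸ h0) ht2
      · exact absurd (e ▸ h1) ht2
      · exact e
      · exact absurd (e ▸ h2) ht2
      · exact absurd (e ▸ h3) ht2
    rcases Nat.lt_or_gt_of_ne hne with h5 | h5
    · rcases h4 s t as.1 h5 at'.2 with h6 | h6
      · exact hs2 h6
      · exact ht2 h6
    · rcases h4 t s at'.1 h5 as.2 with h6 | h6
      · exact ht2 h6
      · exact hs2 h6
  · omega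
  · omega

/-- At most one isolated full unit has a leaf at the first fork. -/
lemma fork_left (hG : ClassC G R) (h : Chn G R k x y) (hcat : Cat G R m z c) (hm : 2 ≤ m)
    (hout : outN k x y m c ≤ 1) {v v' : ℕ} (hv : 2 ≤ v ∧ v + 1 ≤ k) (hv' : 2 ≤ v' ∧ v' + 1 ≤ k)
    (hu : ∀ j ≤ m + 1, c j ≠ x (v - 1) ∧ c j ≠ y (v - 1) ∧ c j ≠ x (v + 1) ∧ c j ≠ y (v + 1))
    (hu' : ∀ j ≤ m + 1, c j ≠ x (v' - 1) ∧ c j ≠ y (v' - 1) ∧ c j ≠ x (v' + 1) ∧ c j ≠ y (v' + 1))
    {l l' : ℕ} (hl : l ≤ 1) (hl' : l' ≤ 1) (e : c l = x v ∨ c l = y v) (e' : c l' = x v' ∨ c l' = y v')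
    (h2 : v ≠ v' + 2) (h3 : v' ≠ v + 2) : v = v' := by
  by_contra hne
  have hun : ∀ a b, 1 ≤ a → a ≤ k → 1 ≤ b → b ≤ k → ∀ w, (w = x a ∨ w = y a) → (w = x b ∨ w = y b) →
      a = b := by
    rintro a b a1 a2 b1 b2 w (e1 | e1) (e2 | e2)
    · exact h.injx a b a1 a2 b1 b2 (e1.symm.trans e2)
    · exact absurd (e1.symm.trans e2) (h.xy a b a1 a2 b1 b2)
    · exact absurd (e2.symm.trans e1) (h.xy b a b1 b2 a1 a2)
    · exact h.injy a b a1 a2 b1 b2 (e1.symm.trans e2)
  have hll : l ≠ l' := by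
    rintro rfl
    exact hne (hun v v' (by omega) (by omega) (by omega) (by omega) _ e e')
  have hmem : ∀ s ∈ range 2, s = l ∨ s = l' := by
    intro s hs
    rw [mem_range] at hs
    omega
  have hgu : ∀ v, (2 ≤ v ∧ v + 1 ≤ k) →
      (∀ j ≤ m + 1, c j ≠ x (v - 1) ∧ c j ≠ y (v - 1) ∧ c j ≠ x (v + 1) ∧ c j ≠ y (v + 1)) →
      ∀ l ≤ 1, (c l = x v ∨ c l = y v) →
        ∃ g, GU k x y c (range 2) g ∧ (g = v - 1 ∨ g = v + 1) := by
    intro v hv hu l hl e
    rcases e with e | e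
    · refine ⟨v - 1, Or.inl ⟨by omega, by omega, ⟨l, mem_range.2 (by omega), ?_⟩, ?_⟩, Or.inl rfl⟩
      · rw [e, show v - 1 + 1 = v by omega]
      · rintro ⟨s, hs, e2⟩
        rw [mem_range] at hs
        exact (hu s (by omega)).1 e2
    · refine ⟨v + 1, Or.inr ⟨by omega, by omega, ⟨l, mem_range.2 (by omega), ?_⟩, ?_⟩, Or.inr rfl⟩
      · rw [e, show v + 1 - 1 = v by omega]
      · rintro ⟨s, hs, e2⟩
        rw [mem_range] at hs
        exact (hu s (by omega)).2.2.2 e2
  obtain ⟨g, hg, hg2⟩ := hgu v hv hu l hl e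
  obtain ⟨g', hg', hg2'⟩ := hgu v' hv' hu' l' hl' e'
  have hI : Set.InjOn c (range (1 + 1) : Set ℕ) := by
    intro a ha b hb hab
    have ha' := hmem a ha
    have hb' := hmem b hb
    rcases ha' with rfl | rfl <;> rcases hb' with rfl | rfl
    · rfl
    · exact absurd (hun v v' (by omega) (by omega) (by omega) (by omega) _ e (hab ▸ e')) hne
    · exact absurd (hun v v' (by omega) (by omega) (by omega) (by omega) _ e (hab ▸ e')) hne
    · rfl
  have hP : ∀ i, 1 ≤ i → i ≤ k →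
      ¬ (InJ c (range (1 + 1)) (x i) ∧ InJ c (range (1 + 1)) (y i)) := by
    rintro i i1 i2 ⟨⟨s, hs, e1⟩, ⟨t, ht, e2⟩⟩
    have hs' := hmem s hs
    have ht' := hmem t ht
    have q1 : ∀ s, (s = l ∨ s = l') → (c s = x i ∨ c s = y i) → (s = l → i = v) ∧ (s = l' → i = v') := by
      intro s _ e3
      refine ⟨fun h4 => ?_, fun h4 => ?_⟩
      · exact hun i v i1 i2 (by omega) (by omega) _ e3 (h4 ▸ e)
      · exact hun i v' i1 i2 (by omega) (by omega) _ e3 (h4 ▸ e')
    have q2 := q1 s hs' (Or.inl e1)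
    have q3 := q1 t ht' (Or.inr e2)
    have hst : s = t := by
      rcases hs' with rfl | rfl <;> rcases ht' with rfl | rfl
      · rfl
      · exact absurd ((q2.1 rfl).symm.trans (q3.2 rfl)) hne
      · exact absurd ((q3.1 rfl).symm.trans (q2.2 rfl)) hne
      · rfl
    subst hst
    exact h.xy i i i1 i2 i1 i2 (e1.symm.trans e2)
  have hO := sO_card (k := k) (x := x) (y := y) (m := m) (c := c) (J := range (1 + 1))
    (fun i hi => by rw [mem_range] at hi; omega)
  have := left_two hG h hcat (j := 1) le_rfl (by omega) hI hP (hO.trans hout) hg hg'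
  omega

end cat

end CLB.H3
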