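import Pool.Agent.Helper3_DA.WdLaw

/-!
Words of a caterpillar over the units of a chain: the automaton for the words without a good end.
-/

set_option autoImplicit false

namespace CLB.H3.Wd

open Finset

/-- Binary search trees. -/
inductive Tr
  | L
  | T (l : Tr) (v : ℕ) (r : Tr)

open Tr

def Tr.mem : Tr → ℕ → Bool
  | L, _ => false
  | T l v r, n => if Nat.blt n v then l.mem n else if Nat.blt v n then r.mem n else true

def Tr.all : Tr → (ℕ → Bool) → Bool
  | L, _ => true
  | T l v r, f => f v && (l.all f && r.all f)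

lemma Tr.all_mem {f : ℕ → Bool} {t : Tr} {n : ℕ} (h : t.all f = true) (hn : t.mem n = true) :
    f n = true := by
  induction t with
  | L => exact absurd hn (by simp [Tr.mem])
  | T l v r ihl ihr =>
    simp only [Tr.all, Bool.and_eq_true] at h
    simp only [Tr.mem] at hn
    by_cases h1 : Nat.blt n v = true
    · rw [if_pos h1] at hn
      exact ihl h.2.1 hn
    · rw [if_neg h1] at hn
      by_cases h2 : Nat.blt v n = true
      · rw [if_pos h2] at hn
        exact ihr h.2.2 hn
      · have h3 : ¬ n < v := fun h => h1 (by rw [Nat.blt_eq]; exact h)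
        have h4 : ¬ v < n := fun h => h2 (by rw [Nat.blt_eq]; exact h)
        have : n = v := by omega
        rw [this]; exact h.1

/-- The good ends. -/
def goods : List (List ℕ) :=
  [[1,1,2], [1,2,1], [2,1,1], [2,1,2], [1,1,1,2], [1,2,0,1], [2,1,0,1], [2,1,0,2], [2,0,1,1],
    [2,0,1,2], [3,2], [3,1,1], [3,1,2]]

/-- The good ends, reversed. -/
def goodsR : List (List ℕ) :=
  [[2,1,1], [1,2,1], [1,1,2], [2,1,2], [2,1,1,1], [1,0,2,1], [1,0,1,2], [2,0,1,2], [1,1,0,2],
    [2,1,0,2], [2,3], [1,1,3], [2,1,3]]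

/-- Reversed prefixes of the good ends. -/
def prog : List (List ℕ) :=
  [[], [1], [2], [3], [0,2], [1,1], [1,2], [1,3], [2,1], [0,1,2], [0,2,1], [1,0,2], [1,1,1],
    [1,1,1,1]]

/-- What is remembered of the last letters. -/
def memo : List (List ℕ) :=
  [[], [0], [1], [2], [3], [0,0], [0,1], [0,2], [0,3], [1,0], [1,1], [1,2], [1,3], [2,0], [2,1],
    [2,2], [2,3], [3,0], [3,1], [3,2], [3,3], [0,1,1], [0,1,2], [1,0,1], [1,0,2], [1,1,1], [1,1,2],
    [1,2,1], [2,0,1], [2,1,1], [2,1,2], [3,1,1], [3,1,2], [1,1,1,1], [1,1,1,2], [1,2,0,1],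
    [2,0,1,1], [2,0,1,2], [2,1,0,1], [2,1,0,2]]

/-- States. -/
structure St where
  sh : ℕ
  ph : ℕ
  pk : ℕ
  pre : List ℕ
  N : ℕ
  mem : List ℕ
  hF : Bool
  sy : ℕ
  d : Bool

def St.eqb (s t : St) : Bool :=
  decide (s.sh = t.sh) && decide (s.ph = t.ph) && decide (s.pk = t.pk) && decide (s.pre = t.pre) &&
    decide (s.N = t.N) && decide (s.mem = t.mem) && decide (s.hF = t.hF) && decide (s.sy = t.sy) &&
    decide (s.d = t.d)

lemma St.eq_of_eqb {s t : St} (h : s.eqb t = true) : s = t := by
  unfold St.eqb at h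
  simp only [Bool.and_eq_true, decide_eq_true_eq] at h
  obtain ⟨⟨⟨⟨⟨⟨⟨⟨h1, h2⟩, h3⟩, h4⟩, h5⟩, h6⟩, h7⟩, h8⟩, h9⟩ := h
  cases s; cases t
  simp only at h1 h2 h3 h4 h5 h6 h7 h8 h9
  subst h1 h2 h3 h4 h5 h6 h7 h8 h9
  rfl

def encL : List ℕ → ℕ
  | [] => 1
  | p :: t => 4 * encL t + p

def decL : ℕ → ℕ → List ℕ
  | 0, _ => []
  | fuel + 1, n => if Nat.blt n 4 then [] else (n % 4) :: decL fuel (n / 4)

def enc (s : St) : ℕ :=
  ((((((((encL s.mem) * 1024 + encL s.pre) * 9 + s.N) * 4 + s.pk) * 2 +
    (if s.hF then 1 else 0)) * 2 + (if s.d then 1 else 0)) * 8 + s.sy) * 2 + s.ph) * 7 + s.sh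

def dec (n : ℕ) : St where
  sh := n % 7
  ph := n / 7 % 2
  sy := n / 14 % 8
  d := n / 112 % 2 == 1
  hF := n / 224 % 2 == 1
  pk := n / 448 % 4
  N := n / 1792 % 9
  pre := decL 6 (n / 16128 % 1024)
  mem := decL 6 (n / 16515072)

def trim : ℕ → List ℕ → List ℕ
  | 0, l => l
  | n + 1, l => if memo.contains l then l else trim n l.dropLast

/-- The number of `y` at the end (up to four), 5 after `y U`, 6 after `y U F`, 7 right after an isolated
full unit which is not next to a unit faced from the left. -/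
def nsy (s : St) (l : ℕ) : ℕ :=
  if l = 2 then (if 1 ≤ s.sy ∧ s.sy ≤ 3 then s.sy + 1 else if s.sy = 4 then 4 else 1)
  else if l = 0 then (if [2,0].isPrefixOf s.mem && s.sy != 6 then 7 else
    if 1 ≤ s.sy ∧ s.sy ≤ 4 then 5 else 0)
  else if l = 3 then (if s.sy = 5 then 6 else 0) else 0

/-- The next state. -/
def nxt (s : St) (l : ℕ) : St where
  sh := (trn s.sh l).1
  ph := s.ph + (trn s.sh l).2
  pk := if s.pk = 0 then (if prog.contains (pt l :: s.pre) then 0 else
    if s.pre = [1,1,1,1] then (if s.sh = 3 ∧ s.ph = 0 then 2 else 3) else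
      if (s.pre.any fun a => a != 1) || (Nat.blt s.pre.length 4 && pt l != 1) then 1 else 4) else s.pk
  pre := if s.pk = 0 then (if prog.contains (pt l :: s.pre) then pt l :: s.pre else []) else []
  N := min 8 (s.N + wt l)
  mem := trim 6 (pt l :: s.mem)
  hF := s.hF || l == 3
  sy := nsy s l
  d := s.d

/-- The automaton stops. -/
def stop (s : St) (l : ℕ) : Bool :=
  Nat.blt 1 (s.ph + (trn s.sh l).2) || ([2].isPrefixOf s.mem && l == 3) ||
    ([0,2].isPrefixOf s.mem && l == 3) || (s.sy == 7 && l != 1 && !s.d) ||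
    (s.pk == 0 && goodsR.contains (pt l :: s.pre)) ||
    (s.pk == 0 && s.pre == [1,1,1,1] && s.sh == 3 && s.ph == 0 && (l == 1 || l == 3))

def l4 (s : St) : Bool := s.pk == 2 || (s.pk == 0 && s.pre == [1,1,1,1] && s.sh == 3 && s.ph == 0)

/-- Right good. -/
def rgB (l : List ℕ) : Bool := goods.any fun g => g.isPrefixOf l

def fin (s : St) : Bool :=
  !s.hF || !(acc s.sh s.ph) || rgB s.mem || Nat.blt s.N 7 || (s.sy == 7 && !s.d) ||
    (l4 s && (([1,1,1,1].isPrefixOf s.mem) || s.N == 7)) ||
    (([1,1,1,1].isPrefixOf s.mem) && (s.pk == 1 || s.sy == 4) && !s.d)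

def fine (s : St) : Bool :=
  !s.hF || !s.d || !(acce s.sh s.ph) || rgB (3 :: s.mem) || Nat.blt s.N 5

def t0 : Tr := (T (T (T (T (T L 16531200 L) 66076872 L) 82657795 (T (T L 82657817 L) 99191012 L)) 115722106 (T (T (T L 264257736 L) 264259528 L) 264261320 (T (T L 264261544 L) 264263112 L))) 264263336 (T (T (T (T L 264265352 L) 280774602 L) 280774617 (T (T L 280776394 L) 280776409 L)) 280778186 (T (T (T L 280778201 L) 280778410 L) 280778425 (T (T L 280779978 L) 280779993 L))))

def t1 : Tr := (T (T (T (T (T L 280780217 L) 280782218 L) 280782233 (T (T L 297291692 L) 297293484 L)) 297295276 (T (T (T L 297297068 L) 297299308 L) 330319816 (T (T L 330319887 L) 330321679 L))) 330323471 (T (T (T (T L 330323624 L) 330323695 L) 330325263 (T (T L 330325487 L) 330327503 L)) 346836682 (T (T (T L 346836711 L) 346838474 L) 346838503 (T (T L 346840266 L) 346840295 L))))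

def t2 : Tr := (T (T (T (T (T L 346840519 L) 346842058 L) 346842087 (T (T L 346842282 L) 346842311 L)) 346843850 (T (T (T L 346844074 L) 346844298 L) 346844327 (T (T L 346844746 L) 346845642 L))) 346845866 (T (T (T (T L 346846090 L) 346846538 L) 346847434 (T (T L 346847658 L) 346847882 L)) 346848106 (T (T (T L 346848330 L) 346848554 L) 347158787 (T (T L 347158809 L) 347158823 L))))

def t3 : Tr := (T (T (T (T (T L 363353773 L) 363355563 L) 363355565 (T (T L 363357355 L) 363357357 L)) 363359147 (T (T (T L 363359149 L) 363361387 L) 363361389 (T (T L 363692004 L) 363692013 L))) 396382218 (T (T (T (T L 396383913 L) 396384010 L) 396385705 (T (T L 396385802 L) 396387497 L)) 396387594 (T (T (T L 396389289 L) 396389834 L) 396390185 (T (T L 396391081 L) 396391529 L))))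

def t4 : Tr := (T (T (T (T (T L 396392873 L) 396393321 L) 396393769 (T (T L 396752610 L) 397786594 L)) 412898986 (T (T (T L 412899001 L) 412900778 L) 412900793 (T (T L 412902570 L) 412902585 L))) 412904362 (T (T (T (T L 412904377 L) 412906602 L) 412906617 (T (T L 413285610 L) 413285618 L)) 479410298 (T (T (T L 1337741002 L) 1337741017 L) 1337742794 (T (T L 1337742809 L) 1337744586 L))))

def t5 : Tr := (T (T (T (T (T L 1337744810 L) 1337744825 L) 1337746378 (T (T L 1337746602 L) 1337746826 L)) 1337746841 (T (T (T L 1337747274 L) 1337748170 L) 1337748394 (T (T L 1337748618 L) 1337749066 L))) 1337749962 (T (T (T (T L 1337750186 L) 1337750410 L) 1337750858 (T (T L 1337751754 L) 1337751978 L)) 1337752202 (T (T (T L 1337752426 L) 1337752650 L) 1337752874 (T (T L 1354258092 L) 1354258175 L))))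

def t6 : Tr := (T (T (T (T (T L 1354261676 L) 1354261759 L) 1354263551 (T (T L 1354265791 L) 1387286216 L)) 1387286287 (T (T (T L 1387288008 L) 1387288079 L) 1387289871 (T (T L 1387290095 L) 1387290248 L))) 1387290767 (T (T (T (T L 1387291663 L) 1387291887 L) 1387292111 (T (T L 1387292559 L) 1387293455 L)) 1387293679 (T (T (T L 1387293903 L) 1387294351 L) 1387295247 (T (T L 1387295471 L) 1387295695 L))))

def t7 : Tr := (T (T (T (T (T L 1387297039 L) 1387297263 L) 1387297487 (T (T L 1387297711 L) 1387297935 L)) 1387298159 (T (T (T L 1403803082 L) 1403803125 L) 1403804874 (T (T L 1403804917 L) 1403806666 L))) 1403806709 (T (T (T (T L 1403806890 L) 1403806933 L) 1403808458 (T (T L 1403808501 L) 1403808682 L)) 1403808725 (T (T (T L 1403810250 L) 1403810474 L) 1403810698 (T (T L 1403810741 L) 1403811146 L))))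

def t8 : Tr := (T (T (T (T (T L 1403812266 L) 1403812490 L) 1403812714 (T (T L 1403812938 L) 1403813162 L)) 1405157379 (T (T (T L 1405157401 L) 1405157415 L) 1405157429 (T (T L 1420320171 L) 1420320173 L))) 1420321963 (T (T (T (T L 1420321965 L) 1420323755 L) 1420323757 (T (T L 1420324653 L) 1420325547 L)) 1420325549 (T (T (T L 1420325997 L) 1420326445 L) 1420327339 (T (T L 1420327341 L) 1420327787 L))))

def t9 : Tr := (T (T (T (T (T L 1420328235 L) 1420328237 L) 1469865386 (T (T L 1469865401 L) 1469867178 L)) 1469867193 (T (T (T L 1469868970 L) 1469868985 L) 1469870762 (T (T L 1469870777 L) 1469871658 L))) 1469872554 (T (T (T (T L 1469872569 L) 1469873002 L) 1469873017 (T (T L 1469873450 L) 1469873465 L)) 1601984170 (T (T (T L 1601985962 L) 1601987754 L) 1601989546 (T (T L 1601991338 L) 1601991786 L))))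

def t10 : Tr := (T (T (T (T (T L 1601993130 L) 1601993578 L) 1601994026 (T (T L 1603532003 L) 1603532025 L)) 1651529455 (T (T (T L 1651531247 L) 1651533039 L) 1651534831 (T (T L 1651536623 L) 1651537071 L))) 1651537519 (T (T (T (T L 1651538415 L) 1651538863 L) 1651539311 (T (T L 1653125672 L) 1668046250 L)) 1668046279 (T (T (T L 1668048042 L) 1668048071 L) 1668049834 (T (T L 1668049863 L) 1668051626 L))))

def t11 : Tr := (T (T (T (T (T L 1668053418 L) 1668053447 L) 1668053866 (T (T L 1668053895 L) 1668054314 L)) 1668054343 (T (T (T L 1684563115 L) 1684563117 L) 1684564907 (T (T L 1684564909 L) 1684566699 L))) 1684566701 (T (T (T (T L 1684568491 L) 1684568493 L) 1684568939 (T (T L 1684568941 L) 1684569387 L)) 1684569389 (T (T (T L 5383937451 L) 5383937453 L) 5383939243 (T (T L 5383939245 L) 5383941035 L))))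

def t12 : Tr := (T (T (T (T (T L 5383942827 L) 5383943275 L) 5383943277 (T (T L 5383943723 L) 5383944619 L)) 5383945067 (T (T (T L 5383945515 L) 5433482666 L) 5433482681 (T (T L 5433484458 L) 5433484473 L))) 5433486250 (T (T (T (T L 5433486265 L) 5433488057 L) 5433488490 (T (T L 5433488505 L) 5433488953 L)) 5433489849 (T (T (T L 5433490297 L) 5433490745 L) 5582118316 (T (T L 5582118399 L) 5582120108 L))))

def t13 : Tr := (T (T (T (T (T L 5582121983 L) 5582122348 L) 5582122879 (T (T L 5582123775 L) 5582124223 L)) 5582124671 (T (T (T L 5582125567 L) 5582126015 L) 5582126463 (T (T L 5631663306 L) 5631663363 L))) 5631665098 (T (T (T (T L 5631665155 L) 5631665561 L) 5631666023 (T (T L 5631666037 L) 5631666051 L)) 5631666890 (T (T (T L 5631666947 L) 5631667114 L) 5631667171 (T (T L 5631667367 L) 5631667829 L))))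

def t14 : Tr := (T (T (T (T (T L 5631668682 L) 5631668739 L) 5631668906 (T (T L 5631668963 L) 5631669173 L)) 5631669635 (T (T (T L 5631670474 L) 5631670531 L) 5631670698 (T (T L 5631670755 L) 5631670922 L))) 5631670979 (T (T (T (T L 5631671146 L) 5631671203 L) 5631671370 (T (T L 5631671427 L) 5631671594 L)) 5631671651 (T (T (T L 5637146371 L) 5637146393 L) 5637146407 (T (T L 5637146421 L) 5637146435 L))))

def t15 : Tr := (T (T (T (T (T L 6440905643 L) 6440907435 L) 6440909227 (T (T L 6440909675 L) 6440910123 L)) 6639084799 (T (T (T L 6639086591 L) 6639088383 L) 6639090175 (T (T L 6639090623 L) 6639091071 L))) 6688629930 (T (T (T (T L 6688629973 L) 6688631722 L) 6688631765 (T (T L 6688633514 L) 6688633557 L)) 6688635306 (T (T (T L 6688635349 L) 6688635754 L) 6688635797 (T (T L 6688636202 L) 6688636245 L))))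

def tree : Tr := (T (T (T (T t0 280780202 t1) 346840490 (T t2 363353771 t3)) 396391977 (T (T t4 1337744601 t5) 1354259967 (T t6 1387296143 t7))) 1403812042 (T (T (T t8 1420327789 t9) 1601992234 (T t10 1668051655 t11)) 5383941037 (T (T t12 5582120191 t13) 5631667843 (T t14 6440903851 t15))))

/-- The check at one state. -/
def chk (n : ℕ) : Bool :=
  fin (dec n) && fine (dec n) && [0,1,2,3].all fun l => stop (dec n) l ||
    (tree.mem (enc (nxt (dec n) l)) && (dec (enc (nxt (dec n) l))).eqb (nxt (dec n) l) &&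
      (Nat.blt 1 (nxt (dec n) l).mem.length || (nxt (dec n) l).mem == pt l :: (dec n).mem))

theorem chk_all : tree.all chk = true := by decide +kernel

end CLB.H3.Wd
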